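import Pool.Agent.Helper579_Lis.Std

/-!
Curves winding twice around the vertical axis.
-/

set_option autoImplicit false

namespace Liss579

open Knot548 Set Real Filter Topology

/-- a curve winding twice around the axis -/
noncomputable def ann (ρ ζ : ℝ → ℝ) (t : ℝ) : R3 := ![ρ t * cos (2 * π * t), ρ t * sin (2 * π * t), ζ t]

theorem ann_add (ρ0 ρ1 ζ0 ζ1 : ℝ → ℝ) (τ t : ℝ) :
    ann ρ0 ζ0 t + τ • ann (fun t => ρ1 t - ρ0 t) (fun t => ζ1 t - ζ0 t) t =
      ann (fun t => ρ0 t + τ * (ρ1 t - ρ0 t)) (fun t => ζ0 t + τ * (ζ1 t - ζ0 t)) t := by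
  unfold ann
  ext i
  fin_cases i <;> simp <;> ring

theorem jord {x : ℝ} (h : |x| ≤ 1 / 2) : 2 * |x| ≤ |sin (π * x)| := by
  have h1 := Real.mul_abs_le_abs_sin (x := π * x) (by
    rw [abs_mul, abs_of_pos Real.pi_pos]
    nlinarith [Real.pi_pos])
  have e : 2 / π * |π * x| = 2 * |x| := by
    rw [abs_mul, abs_of_pos Real.pi_pos]
    field_simp
  rw [e] at h1
  exact h1

theorem polar_est {R R' c s t N : ℝ} (hc : 0 < c) (hR : c ≤ R) (hR' : c ≤ R')
    (h1 : |R * cos (2 * π * s) - R' * cos (2 * π * t)| ≤ N)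
    (h2 : |R * sin (2 * π * s) - R' * sin (2 * π * t)| ≤ N) :
    c * |sin (π * (s - t))| ≤ N := by
  have hN : 0 ≤ N := (abs_nonneg _).trans h1
  have e1 : (R * cos (2 * π * s) - R' * cos (2 * π * t)) ^ 2 + (R * sin (2 * π * s) - R' * sin (2 * π * t)) ^ 2 =
      (R - R') ^ 2 + 4 * (R * R') * sin (π * (s - t)) ^ 2 := by
    have e2 : cos (2 * π * s) * cos (2 * π * t) + sin (2 * π * s) * sin (2 * π * t) =
        1 - 2 * sin (π * (s - t)) ^ 2 := by
      rw [← Real.cos_sub, show 2 * π * s - 2 * π * t = 2 * (π * (s - t)) by ring, Real.cos_two_mul]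
      have := Real.sin_sq_add_cos_sq (π * (s - t))
      linarith
    have h3 := Real.sin_sq_add_cos_sq (2 * π * s)
    have h4 := Real.sin_sq_add_cos_sq (2 * π * t)
    linear_combination (R ^ 2) * h3 + (R' ^ 2) * h4 - 2 * R * R' * e2
  have h3 : (R * cos (2 * π * s) - R' * cos (2 * π * t)) ^ 2 ≤ N ^ 2 := by
    rw [← sq_abs]; exact pow_le_pow_left₀ (abs_nonneg _) h1 2
  have h4 : (R * sin (2 * π * s) - R' * sin (2 * π * t)) ^ 2 ≤ N ^ 2 := by
    rw [← sq_abs]; exact pow_le_pow_left₀ (abs_nonneg _) h2 2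
  have h5 : c * c ≤ R * R' := mul_le_mul hR hR' hc.le (hc.le.trans hR)
  have h6 : c * c * sin (π * (s - t)) ^ 2 ≤ R * R' * sin (π * (s - t)) ^ 2 :=
    mul_le_mul_of_nonneg_right h5 (sq_nonneg _)
  have h7 : (c * |sin (π * (s - t))|) ^ 2 ≤ N ^ 2 := by
    rw [mul_pow, sq_abs]
    nlinarith [sq_nonneg (R - R'), sq_nonneg (sin (π * (s - t))), mul_nonneg (mul_nonneg hc.le hc.le) (sq_nonneg (sin (π * (s - t))))]
  exact abs_le_of_sq_le_sq' h7 hN |>.2

theorem ann_lip {f g : ℝ → ℝ} (hf : Lip f) (hg : Lip g) : ∃ L : ℝ, 0 ≤ L ∧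
    ∀ s ∈ Icc (-1 : ℝ) 1, ∀ t ∈ Icc (-1 : ℝ) 1, ‖ann f g s - ann f g t‖ ≤ L * |s - t| := by
  obtain ⟨L1, h1, h1'⟩ := hf
  obtain ⟨L2, h2, h2'⟩ := hg
  let M : ℝ := |f 0| + L1
  have hM0 : 0 ≤ M := by positivity
  have hM : ∀ t ∈ Icc (-1 : ℝ) 1, |f t| ≤ M := by
    intro t ht
    have a1 := h1' t 0
    rw [sub_zero] at a1
    have a2 : |t| ≤ 1 := abs_le.mpr ht
    have a3 : |f t| ≤ |f t - f 0| + |f 0| := by
      have := abs_add_le (f t - f 0) (f 0)
      rwa [sub_add_cancel] at this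
    have a4 : L1 * |t| ≤ L1 * 1 := mul_le_mul_of_nonneg_left a2 h1
    simp only [M]
    linarith
  refine ⟨L1 + L2 + M * (2 * π), by positivity, ?_⟩
  intro s hs t ht
  have a0 : 0 ≤ |s - t| := abs_nonneg _
  have e : ann f g s - ann f g t = ![f s * cos (2 * π * s) - f t * cos (2 * π * t),
      f s * sin (2 * π * s) - f t * sin (2 * π * t), g s - g t] := by
    unfold ann
    ext i
    fin_cases i <;> simp
  have b1 : 0 ≤ L1 * |s - t| := by positivity
  have b2 : 0 ≤ L2 * |s - t| := by positivity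
  have b3 : 0 ≤ M * (2 * π) * |s - t| := by positivity
  have ang : |2 * π * s - 2 * π * t| = 2 * π * |s - t| := by
    rw [← mul_sub, abs_mul, abs_of_pos (by positivity)]
  rw [e]
  apply norm_vec_le
  · have c1 : f s * cos (2 * π * s) - f t * cos (2 * π * t) =
        (f s - f t) * cos (2 * π * s) + f t * (cos (2 * π * s) - cos (2 * π * t)) := by ring
    have c2 : |cos (2 * π * s) - cos (2 * π * t)| ≤ |2 * π * s - 2 * π * t| := by
      have := Real.abs_cos_sub_cos_le (2 * π * s) (2 * π * t)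
      exact this
    rw [c1]
    refine (abs_add_le _ _).trans ?_
    rw [abs_mul, abs_mul]
    have c3 : |f s - f t| * |cos (2 * π * s)| ≤ L1 * |s - t| * 1 :=
      mul_le_mul (h1' s t) (Real.abs_cos_le_one _) (abs_nonneg _) b1
    have c4 : |f t| * |cos (2 * π * s) - cos (2 * π * t)| ≤ M * (2 * π * |s - t|) :=
      mul_le_mul (hM t ht) (ang ▸ c2) (abs_nonneg _) hM0
    linarith
  · have c1 : f s * sin (2 * π * s) - f t * sin (2 * π * t) =
        (f s - f t) * sin (2 * π * s) + f t * (sin (2 * π * s) - sin (2 * π * t)) := by ring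
    have c2 : |sin (2 * π * s) - sin (2 * π * t)| ≤ |2 * π * s - 2 * π * t| := by
      have := Real.abs_sin_sub_sin_le (2 * π * s) (2 * π * t)
      exact this
    rw [c1]
    refine (abs_add_le _ _).trans ?_
    rw [abs_mul, abs_mul]
    have c3 : |f s - f t| * |sin (2 * π * s)| ≤ L1 * |s - t| * 1 :=
      mul_le_mul (h1' s t) (Real.abs_sin_le_one _) (abs_nonneg _) b1
    have c4 : |f t| * |sin (2 * π * s) - sin (2 * π * t)| ≤ M * (2 * π * |s - t|) :=
      mul_le_mul (hM t ht) (ang ▸ c2) (abs_nonneg _) hM0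
    linarith
  · have := h2' s t
    linarith

theorem ann_cont {f g : ℝ → ℝ} (hf : Continuous f) (hg : Continuous g) : Continuous (ann f g) := by
  unfold ann
  apply continuous_pi
  intro i
  fin_cases i
  · exact hf.mul (by fun_prop)
  · exact hf.mul (by fun_prop)
  · exact hg

/-- two curves winding twice around the axis with the same crossings are isotopic -/
theorem ann_iso (ρ0 ρ1 ζ0 ζ1 : ℝ → ℝ) (h0 : Lip ρ0) (h1 : Lip ρ1) (k0 : Lip ζ0) (k1 : Lip ζ1)
    {c : ℝ} (hc : 0 < c) (hp0 : ∀ t ∈ Icc (-1 : ℝ) 1, c ≤ ρ0 t) (hp1 : ∀ t ∈ Icc (-1 : ℝ) 1, c ≤ ρ1 t)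
    (e0 : ρ0 (-1) = ρ0 1) (e1 : ρ1 (-1) = ρ1 1) (e2 : ζ0 (-1) = ζ0 1) (e3 : ζ1 (-1) = ζ1 1)
    (hD : ∀ t ∈ Icc (-1 : ℝ) 0, 0 < (ρ0 t - ρ0 (t + 1)) * (ρ1 t - ρ1 (t + 1)) ∨
      (ρ0 t = ρ0 (t + 1) ∧ ρ1 t = ρ1 (t + 1) ∧ 0 < (ζ0 t - ζ0 (t + 1)) * (ζ1 t - ζ1 (t + 1)))) :
    AmbIso (ann ρ0 ζ0 '' Icc (-1) 1) (ann ρ1 ζ1 '' Icc (-1) 1) := by
  let w : ℝ → R3 := ann (fun t => ρ1 t - ρ0 t) (fun t => ζ1 t - ζ0 t)
  have hwc : Continuous w := ann_cont (h1.continuous.sub h0.continuous) (k1.continuous.sub k0.continuous)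
  obtain ⟨L, hL0, hL⟩ := ann_lip (h1.sub h0) (k1.sub k0)
  have hR : ∀ τ ∈ Icc (0 : ℝ) 1, ∀ t ∈ Icc (-1 : ℝ) 1, c ≤ ρ0 t + τ * (ρ1 t - ρ0 t) := by
    intro τ hτ t ht
    have a1 := mul_le_mul_of_nonneg_left (hp1 t ht) hτ.1
    have a2 := mul_le_mul_of_nonneg_left (hp0 t ht) (by linarith [hτ.2] : 0 ≤ 1 - τ)
    linarith
  have hw1 : w (-1) = w 1 := by
    simp only [w]
    unfold ann
    simp only
    rw [e0, e1, e2, e3]
    have c1 : cos (2 * π * -1) = cos (2 * π * 1) := by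
      rw [show 2 * π * (-1 : ℝ) = -(2 * π * 1) by ring, Real.cos_neg]
    have c2 : sin (2 * π * -1) = sin (2 * π * 1) := by
      rw [show 2 * π * (-1 : ℝ) = -(2 * π * 1) by ring, Real.sin_neg, mul_one, Real.sin_two_pi, neg_zero]
    rw [c1, c2]
  have hfin : (fun a => ann ρ0 ζ0 a + w a) = ann ρ1 ζ1 := by
    funext a
    have := ann_add ρ0 ρ1 ζ0 ζ1 1 a
    rw [one_smul] at this
    simp only [w]
    rw [this]
    unfold ann
    simp only [one_mul, add_sub_cancel]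
  have est : ∀ τ ∈ Icc (0 : ℝ) 1, ∀ s ∈ Icc (-1 : ℝ) 1, ∀ t ∈ Icc (-1 : ℝ) 1,
      c * |sin (π * (s - t))| ≤ ‖(ann ρ0 ζ0 s + τ • w s) - (ann ρ0 ζ0 t + τ • w t)‖ := by
    intro τ hτ s hs t ht
    simp only [w]
    rw [ann_add, ann_add]
    apply polar_est hc (hR τ hτ s hs) (hR τ hτ t ht)
    · exact abs_apply_le_norm (ann (fun t => ρ0 t + τ * (ρ1 t - ρ0 t)) (fun t => ζ0 t + τ * (ζ1 t - ζ0 t)) s -
        ann (fun t => ρ0 t + τ * (ρ1 t - ρ0 t)) (fun t => ζ0 t + τ * (ζ1 t - ζ0 t)) t) 0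
    · exact abs_apply_le_norm (ann (fun t => ρ0 t + τ * (ρ1 t - ρ0 t)) (fun t => ζ0 t + τ * (ζ1 t - ζ0 t)) s -
        ann (fun t => ρ0 t + τ * (ρ1 t - ρ0 t)) (fun t => ζ0 t + τ * (ζ1 t - ζ0 t)) t) 1
  rw [← hfin]
  apply ambIso_curve (ann ρ0 ζ0) w (ann_cont h0.continuous k0.continuous) hwc
  · -- injectivity
    intro τ hτ a ha b hb hab heq
    simp only [w] at heq
    rw [ann_add, ann_add] at heq
    have ra := hR τ hτ a ha
    have rb := hR τ hτ b hb
    have q0 := congrFun heq 0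
    have q1 := congrFun heq 1
    have q2 := congrFun heq 2
    simp only [ann, Matrix.cons_val] at q0 q1 q2
    set Ra : ℝ := ρ0 a + τ * (ρ1 a - ρ0 a) with hRa
    set Rb : ℝ := ρ0 b + τ * (ρ1 b - ρ0 b) with hRb
    have hsq : Ra ^ 2 = Rb ^ 2 := by
      have s1 := Real.sin_sq_add_cos_sq (2 * π * a)
      have s2 := Real.sin_sq_add_cos_sq (2 * π * b)
      have s3 : (Ra * cos (2 * π * a)) ^ 2 = (Rb * cos (2 * π * b)) ^ 2 := by rw [q0]
      have s4 : (Ra * sin (2 * π * a)) ^ 2 = (Rb * sin (2 * π * b)) ^ 2 := by rw [q1]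
      linear_combination s3 + s4 - (Ra ^ 2) * s1 + (Rb ^ 2) * s2
    have hRR : Ra = Rb := by
      rcases sq_eq_sq_iff_eq_or_eq_neg.mp hsq with h | h
      · exact h
      · linarith
    have hRpos : 0 < Ra := by linarith
    rw [← hRR] at q0 q1
    have c1 := mul_left_cancel₀ hRpos.ne' q0
    have c2 := mul_left_cancel₀ hRpos.ne' q1
    have c3 : cos (2 * π * a - 2 * π * b) = 1 := by
      rw [Real.cos_sub, c1, c2]
      have := Real.sin_sq_add_cos_sq (2 * π * b)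
      linear_combination this
    obtain ⟨n, hn⟩ := (Real.cos_eq_one_iff _).mp c3
    have hn' : a - b = n := by
      have hp : (2 * π) ≠ 0 := by positivity
      have : (2 * π) * (a - b) = (2 * π) * n := by linarith
      exact mul_left_cancel₀ hp this
    have n1 : n < 0 := by
      have : (n : ℝ) < 0 := by linarith
      exact_mod_cast this
    have n2 : -2 ≤ n := by
      have : (-2 : ℝ) ≤ n := by linarith [ha.1, hb.2]
      exact_mod_cast this
    have n3 : n = -1 ∨ n = -2 := by omega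
    rcases n3 with rfl | rfl
    · exfalso
      push_cast at hn'
      have hb' : b = a + 1 := by linarith
      have hD' := hD a ⟨ha.1, by linarith [hb.2]⟩
      rw [← hb'] at hD'
      rcases hD' with h | ⟨d1, d2, h⟩
      · apply comb_ne h hτ
        rw [hRa, hRb] at hRR
        linarith
      · apply comb_ne h hτ
        linarith
    · push_cast at hn'
      constructor <;> linarith [ha.1, hb.2]
  · -- local estimate
    intro τ hτ a _
    refine ⟨L / (2 * c), ?_⟩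
    have hev : ∀ᶠ q : ℝ × ℝ in 𝓝 ((a, a) : ℝ × ℝ), |q.1 - q.2| < 1 / 2 := by
      have : Tendsto (fun q : ℝ × ℝ => |q.1 - q.2|) (𝓝 (a, a)) (𝓝 |a - a|) := by
        apply Continuous.tendsto (f := fun q : ℝ × ℝ => |q.1 - q.2|)
        fun_prop
      rw [sub_self, abs_zero] at this
      exact this.eventually_lt_const (by norm_num)
    refine hev.mono ?_
    intro q hq hs ht
    have a1 := hL q.1 hs q.2 ht
    have a2 := est τ hτ q.1 hs q.2 ht
    have a3 := jord hq.le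
    have a4 : c * (2 * |q.1 - q.2|) ≤ c * |sin (π * (q.1 - q.2))| := mul_le_mul_of_nonneg_left a3 hc.le
    have a5 : L * |q.1 - q.2| ≤ L / (2 * c) * ‖(ann ρ0 ζ0 q.1 + τ • w q.1) - (ann ρ0 ζ0 q.2 + τ • w q.2)‖ := by
      have : L / (2 * c) * (c * (2 * |q.1 - q.2|)) ≤
          L / (2 * c) * ‖(ann ρ0 ζ0 q.1 + τ • w q.1) - (ann ρ0 ζ0 q.2 + τ • w q.2)‖ :=
        mul_le_mul_of_nonneg_left (a4.trans a2) (by positivity)
      have e : L / (2 * c) * (c * (2 * |q.1 - q.2|)) = L * |q.1 - q.2| := by field_simp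
      linarith
    exact a1.trans a5
  · -- estimate at the ends
    intro τ hτ
    refine ⟨L / (2 * c), ?_⟩
    have hev : ∀ᶠ q : ℝ × ℝ in 𝓝 ((-1, 1) : ℝ × ℝ), |q.1 - q.2 + 2| < 1 / 2 := by
      have : Tendsto (fun q : ℝ × ℝ => |q.1 - q.2 + 2|) (𝓝 (-1, 1)) (𝓝 |(-1 : ℝ) - 1 + 2|) := by
        apply Continuous.tendsto (f := fun q : ℝ × ℝ => |q.1 - q.2 + 2|)
        fun_prop
      have e : |(-1 : ℝ) - 1 + 2| = 0 := by norm_num
      rw [e] at this
      exact this.eventually_lt_const (by norm_num)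
    refine hev.mono ?_
    intro q hq hs ht
    have a0 : ‖w q.1 - w q.2‖ ≤ L * |q.1 - q.2 + 2| := by
      have b1 := hL q.1 hs (-1) ⟨le_rfl, by norm_num⟩
      have b2 := hL 1 ⟨by norm_num, le_rfl⟩ q.2 ht
      have b3 : w q.1 - w q.2 = (w q.1 - w (-1)) + (w 1 - w q.2) := by rw [hw1]; abel
      rw [b3]
      refine (norm_add_le _ _).trans ?_
      have b4 : |q.1 - -1| = q.1 + 1 := by rw [abs_of_nonneg (by linarith [hs.1])]; ring
      have b5 : |1 - q.2| = 1 - q.2 := abs_of_nonneg (by linarith [ht.2])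
      have b6 : |q.1 - q.2 + 2| = q.1 - q.2 + 2 := abs_of_nonneg (by linarith [hs.1, ht.2])
      rw [b4] at b1
      rw [b5] at b2
      rw [b6]
      have b7 := add_le_add b1 b2
      refine b7.trans (le_of_eq ?_)
      ring
    have a2 := est τ hτ q.1 hs q.2 ht
    have a3 := jord hq.le
    have a3' : |sin (π * (q.1 - q.2 + 2))| = |sin (π * (q.1 - q.2))| := by
      have : π * (q.1 - q.2 + 2) = π * (q.1 - q.2) + 2 * π := by ring
      rw [this, Real.sin_add_two_pi]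
    rw [a3'] at a3
    have a4 : c * (2 * |q.1 - q.2 + 2|) ≤ c * |sin (π * (q.1 - q.2))| := mul_le_mul_of_nonneg_left a3 hc.le
    have a5 : L * |q.1 - q.2 + 2| ≤ L / (2 * c) * ‖(ann ρ0 ζ0 q.1 + τ • w q.1) - (ann ρ0 ζ0 q.2 + τ • w q.2)‖ := by
      have : L / (2 * c) * (c * (2 * |q.1 - q.2 + 2|)) ≤
          L / (2 * c) * ‖(ann ρ0 ζ0 q.1 + τ • w q.1) - (ann ρ0 ζ0 q.2 + τ • w q.2)‖ :=
        mul_le_mul_of_nonneg_left (a4.trans a2) (by positivity)
      have e : L / (2 * c) * (c * (2 * |q.1 - q.2 + 2|)) = L * |q.1 - q.2 + 2| := by field_simp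
      linarith
    exact a0.trans a5

end Liss579
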