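import Pool.Agent.Helper579_Lis.Iso

/-!
Replacing an arc below the rest of the curve by a straight segment.
-/

set_option autoImplicit false

namespace Liss579

open Knot548 Set Filter Topology

theorem abs_apply_le_norm (x : R3) (i : Fin 3) : |x i| ≤ ‖x‖ := by
  rw [← Real.norm_eq_abs]
  exact norm_le_pi_norm x i

theorem ambIso_cap (B : Set R3) (f : ℝ → R3) (h c m L C m₀ σ : ℝ) (hh : 0 < h) (hm : 0 < m)
    (hL : 0 ≤ L) (hC : 0 ≤ C) (hm₀ : 0 < m₀) (hσ : |σ| = 1)
    (hf : ∀ s ∈ Icc (-h) h, ∀ t ∈ Icc (-h) h, ‖f s - f t‖ ≤ L * |s - t|)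
    (hz : ∀ t ∈ Icc (-h) h, f t 2 ≤ c) (hz1 : f h 2 = c) (hz2 : f (-h) 2 = c)
    (hy : ∀ s ∈ Icc (-h) h, ∀ t ∈ Icc (-h) h, s ≤ t → m * (t - s) ≤ σ * (f t 1 - f s 1))
    (hB : ∀ x ∈ B, ‖x - f h‖ ≤ C * (x 2 - c) ∨ ‖x - f (-h)‖ ≤ C * (x 2 - c) ∨ c + m₀ ≤ x 2) :
    AmbIso (B ∪ f '' Icc (-h) h) (B ∪ segment ℝ (f (-h)) (f h)) := by
  have hmem1 : h ∈ Icc (-h) h := ⟨by linarith, le_rfl⟩
  have hmem2 : -h ∈ Icc (-h) h := ⟨le_rfl, by linarith⟩
  let ch : ℝ → R3 := fun t => f (-h) + ((t + h) / (2 * h)) • (f h - f (-h))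
  let w : ℝ → R3 := fun t => ch t - f t
  have hch1 : ch h = f h := by
    simp only [ch]
    rw [show (h + h) / (2 * h) = 1 by field_simp; ring, one_smul]
    abel
  have hch2 : ch (-h) = f (-h) := by
    simp only [ch]
    rw [show (-h + h) / (2 * h) = 0 by rw [neg_add_cancel, zero_div], zero_smul, add_zero]
  have hw1 : w h = 0 := by simp only [w, hch1, sub_self]
  have hw2 : w (-h) = 0 := by simp only [w, hch2, sub_self]
  have hchL : ∀ s t, ‖ch s - ch t‖ ≤ L * |s - t| := by
    intro s t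
    have h1 : ch s - ch t = ((s - t) / (2 * h)) • (f h - f (-h)) := by
      simp only [ch]
      rw [add_sub_add_left_eq_sub, ← sub_smul]
      congr 1
      ring
    rw [h1, norm_smul, Real.norm_eq_abs, abs_div, abs_of_pos (by linarith : 0 < 2 * h)]
    have h2 := hf h hmem1 (-h) hmem2
    rw [sub_neg_eq_add, abs_of_pos (by linarith : 0 < h + h)] at h2
    calc |s - t| / (2 * h) * ‖f h - f (-h)‖ ≤ |s - t| / (2 * h) * (L * (h + h)) :=
          mul_le_mul_of_nonneg_left h2 (by positivity)
      _ = L * |s - t| := by field_simp; ring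
  have hwL : ∀ s ∈ Icc (-h) h, ∀ t ∈ Icc (-h) h, ‖w s - w t‖ ≤ 2 * L * |s - t| := by
    intro s hs t ht
    have h1 : w s - w t = (ch s - ch t) - (f s - f t) := by
      simp only [w]; abel
    rw [h1]
    refine (norm_sub_le _ _).trans ?_
    have := hchL s t
    have := hf s hs t ht
    linarith
  have hchz : ∀ t, ch t 2 = c := by
    intro t
    simp only [ch, Pi.add_apply, Pi.smul_apply, Pi.sub_apply, smul_eq_mul, hz1, hz2]
    ring
  have hG : ∀ (τ t : ℝ), (f t + τ • w t) = (1 - τ) • f t + τ • ch t := by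
    intro τ t
    simp only [w]
    rw [smul_sub, sub_smul, one_smul]
    abel
  have hGy : ∀ τ ∈ Icc (0 : ℝ) 1, ∀ s ∈ Icc (-h) h, ∀ t ∈ Icc (-h) h,
      m * |t - s| ≤ ‖(f t + τ • w t) - (f s + τ • w s)‖ := by
    have base : ∀ τ ∈ Icc (0 : ℝ) 1, ∀ s ∈ Icc (-h) h, ∀ t ∈ Icc (-h) h, s ≤ t →
        m * (t - s) ≤ ‖(f t + τ • w t) - (f s + τ • w s)‖ := by
      intro τ hτ s hs t ht hst
      have h1 := hy s hs t ht hst
      have h2 := hy (-h) hmem2 h hmem1 (by linarith)
      have h3 : m * (t - s) ≤ σ * ((f t + τ • w t) 1 - (f s + τ • w s) 1) := by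
        rw [hG, hG]
        have e1 : ch t 1 - ch s 1 = (t - s) / (2 * h) * (f h 1 - f (-h) 1) := by
          simp only [ch, Pi.add_apply, Pi.smul_apply, Pi.sub_apply, smul_eq_mul]
          ring
        have e2 : m * (t - s) ≤ σ * (ch t 1 - ch s 1) := by
          rw [e1]
          have e3 : 0 ≤ (t - s) / (2 * h) := div_nonneg (by linarith) (by linarith)
          have e4 := mul_le_mul_of_nonneg_left h2 e3
          calc m * (t - s) = (t - s) / (2 * h) * (m * (h - -h)) := by field_simp; ring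
            _ ≤ (t - s) / (2 * h) * (σ * (f h 1 - f (-h) 1)) := e4
            _ = _ := by ring
        simp only [Pi.add_apply, Pi.smul_apply, smul_eq_mul]
        have e5 := mul_le_mul_of_nonneg_left h1 (by linarith [hτ.2] : 0 ≤ 1 - τ)
        have e6 := mul_le_mul_of_nonneg_left e2 hτ.1
        nlinarith
      refine h3.trans ?_
      have h4 := abs_apply_le_norm ((f t + τ • w t) - (f s + τ • w s)) 1
      refine le_trans ?_ h4
      rw [Pi.sub_apply]
      calc σ * ((f t + τ • w t) 1 - (f s + τ • w s) 1)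
          ≤ |σ * ((f t + τ • w t) 1 - (f s + τ • w s) 1)| := le_abs_self _
        _ = _ := by rw [abs_mul, hσ, one_mul]
    intro τ hτ s hs t ht
    rcases le_total s t with hst | hst
    · rw [abs_of_nonneg (by linarith)]
      exact base τ hτ s hs t ht hst
    · rw [abs_of_nonpos (by linarith), norm_sub_rev, neg_sub]
      exact base τ hτ t ht s hs hst
  have hGz : ∀ τ ∈ Icc (0 : ℝ) 1, ∀ t ∈ Icc (-h) h, (f t + τ • w t) 2 ≤ c := by
    intro τ hτ t ht
    rw [hG]
    simp only [Pi.add_apply, Pi.smul_apply, smul_eq_mul, hchz]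
    have := mul_le_mul_of_nonneg_left (hz t ht) (by linarith [hτ.2] : 0 ≤ 1 - τ)
    linarith
  -- distance from the rest
  have hrest : ∀ τ ∈ Icc (0 : ℝ) 1, ∀ t ∈ Icc (-h) h, ∀ x ∈ B,
      ‖w t‖ ≤ (2 * L / m * (1 + C) + 4 * L * h / m₀) * ‖x - (f t + τ • w t)‖ := by
    intro τ hτ t ht x hx
    set D := ‖x - (f t + τ • w t)‖ with hD
    have hD0 : 0 ≤ D := norm_nonneg _
    have hzD : x 2 - c ≤ D := by
      have h1 := abs_apply_le_norm (x - (f t + τ • w t)) 2
      have h2 := hGz τ hτ t ht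
      rw [Pi.sub_apply] at h1
      have := le_abs_self (x 2 - (f t + τ • w t) 2)
      linarith
    have hc1 : 0 ≤ 2 * L / m * (1 + C) := by positivity
    have hc2 : 0 ≤ 4 * L * h / m₀ := by positivity
    have side : ∀ e ∈ Icc (-h) h, w e = 0 → ‖x - f e‖ ≤ C * (x 2 - c) →
        ‖w t‖ ≤ (2 * L / m * (1 + C) + 4 * L * h / m₀) * D := by
      intro e he hwe hxe
      have h1 : ‖x - f e‖ ≤ C * D := hxe.trans (mul_le_mul_of_nonneg_left hzD hC)
      have h2 : m * |t - e| ≤ ‖(f t + τ • w t) - f e‖ := by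
        have := hGy τ hτ e he t ht
        rwa [hwe, smul_zero, add_zero] at this
      have h3 : ‖(f t + τ • w t) - f e‖ ≤ D + C * D := by
        have : (f t + τ • w t) - f e = (x - f e) - (x - (f t + τ • w t)) := by abel
        rw [this]
        refine (norm_sub_le _ _).trans ?_
        linarith
      have h4 : ‖w t‖ ≤ 2 * L * |t - e| := by
        have := hwL t ht e he
        rwa [hwe, sub_zero] at this
      have h5 : |t - e| ≤ (1 + C) * D / m := by
        rw [le_div_iff₀ hm]
        linarith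
      calc ‖w t‖ ≤ 2 * L * |t - e| := h4
        _ ≤ 2 * L * ((1 + C) * D / m) := mul_le_mul_of_nonneg_left h5 (by positivity)
        _ = (2 * L / m * (1 + C)) * D := by ring
        _ ≤ _ := mul_le_mul_of_nonneg_right (by linarith) hD0
    rcases hB x hx with h1 | h1 | h1
    · exact side h hmem1 hw1 h1
    · exact side (-h) hmem2 hw2 h1
    · have h2 : m₀ ≤ D := by linarith
      have h3 : ‖w t‖ ≤ 2 * L * (2 * h) := by
        have := hwL t ht h hmem1
        rw [hw1, sub_zero] at this
        refine this.trans (mul_le_mul_of_nonneg_left ?_ (by positivity))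
        rw [abs_le]
        constructor <;> linarith [ht.1, ht.2]
      calc ‖w t‖ ≤ 2 * L * (2 * h) := h3
        _ = (4 * L * h / m₀) * m₀ := by field_simp; ring
        _ ≤ (4 * L * h / m₀) * D := mul_le_mul_of_nonneg_left h2 hc2
        _ ≤ _ := mul_le_mul_of_nonneg_right (by linarith) hD0
  have key := ambIso_path (X := B ⊕ Icc (-h) h)
    (Sum.elim (fun x => (x : R3)) (fun t => f t)) (Sum.elim (fun _ => 0) (fun t => w t)) ?_
  · have e1 : range (Sum.elim (fun x : B => (x : R3)) (fun t : Icc (-h) h => f t)) =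
        B ∪ f '' Icc (-h) h := by
      rw [Sum.elim_range, Subtype.range_coe, image_eq_range]
    have e2 : range (fun a : B ⊕ Icc (-h) h => Sum.elim (fun x : B => (x : R3)) (fun t : Icc (-h) h => f t) a +
        Sum.elim (fun _ => 0) (fun t : Icc (-h) h => w t) a) = B ∪ segment ℝ (f (-h)) (f h) := by
      have e3 : (fun a : B ⊕ Icc (-h) h => Sum.elim (fun x : B => (x : R3)) (fun t : Icc (-h) h => f t) a +
        Sum.elim (fun _ => 0) (fun t : Icc (-h) h => w t) a) =
          Sum.elim (fun x : B => (x : R3)) (fun t : Icc (-h) h => ch t) := by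
        funext a
        rcases a with a | a
        · simp
        · simp [w]
      rw [e3, Sum.elim_range, Subtype.range_coe, ← image_eq_range]
      congr 1
      rw [segment_eq_image']
      ext x
      constructor
      · rintro ⟨t, ht, rfl⟩
        refine ⟨(t + h) / (2 * h), ⟨div_nonneg (by linarith [ht.1]) (by linarith), ?_⟩, rfl⟩
        rw [div_le_one (by linarith)]
        linarith [ht.2]
      · rintro ⟨s, hs, rfl⟩
        refine ⟨2 * h * s - h, ⟨?_, ?_⟩, ?_⟩
        · nlinarith [hs.1]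
        · nlinarith [hs.2]
        · simp only [ch]
          congr 2
          field_simp
          ring
    rwa [e1, e2] at key
  · intro τ hτ
    have hc1 : 0 ≤ 2 * L / m * (1 + C) := by positivity
    have hc2 : 0 ≤ 4 * L * h / m₀ := by positivity
    refine ⟨2 * L / m * (1 + C) + 4 * L * h / m₀, ?_⟩
    rintro (x | t) (y | s)
    · simp only [Sum.elim_inl, sub_self, norm_zero]
      positivity
    · simp only [Sum.elim_inl, Sum.elim_inr, zero_sub, norm_neg, smul_zero, add_zero]
      exact hrest τ hτ s s.2 x x.2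
    · simp only [Sum.elim_inl, Sum.elim_inr, sub_zero, smul_zero, add_zero]
      rw [norm_sub_rev (f t + τ • w t)]
      exact hrest τ hτ t t.2 y y.2
    · simp only [Sum.elim_inr]
      have h1 := hwL t t.2 s s.2
      have h2 := hGy τ hτ s s.2 t t.2
      have h3 : |(t : ℝ) - s| ≤ ‖(f t + τ • w t) - (f s + τ • w s)‖ / m := by
        rw [le_div_iff₀ hm]
        linarith
      calc ‖w t - w s‖ ≤ 2 * L * |(t : ℝ) - s| := h1
        _ ≤ 2 * L * (‖(f t + τ • w t) - (f s + τ • w s)‖ / m) :=
            mul_le_mul_of_nonneg_left h3 (by positivity)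
        _ = 2 * L / m * ‖(f t + τ • w t) - (f s + τ • w s)‖ := by ring
        _ ≤ _ := by
            apply mul_le_mul_of_nonneg_right _ (norm_nonneg _)
            have : 0 ≤ 2 * L / m * C := by positivity
            linarith

end Liss579
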