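import Pool.Agent.Helper579_Lis.Global

/-!
Cutting off the two ends of the layered curve.
-/

set_option autoImplicit false

namespace Liss579

open Knot548 Set Real Filter Topology

/-- reflection in the horizontal plane -/
def refz (x : R3) : R3 := ![x 0, x 1, -x 2]

theorem refz_refz (x : R3) : refz (refz x) = x := by
  unfold refz
  ext i
  fin_cases i <;> simp

theorem refz_cont : Continuous refz := by
  unfold refz
  apply continuous_pi
  intro i
  fin_cases i
  · exact continuous_apply 0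
  · exact continuous_apply 1
  · exact (continuous_apply 2).neg

/-- the reflection as a homeomorphism -/
def refzH : R3 ≃ₜ R3 where
  toFun := refz
  invFun := refz
  left_inv := refz_refz
  right_inv := refz_refz
  continuous_toFun := refz_cont
  continuous_invFun := refz_cont

theorem refz_image_image (S : Set R3) : refz '' (refz '' S) = S := by
  rw [image_image]
  simp [refz_refz]

theorem ambIso_of_refz {S T : Set R3} (h : AmbIso (refz '' S) (refz '' T)) : AmbIso S T := by
  have := ambIso_image refzH h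
  change AmbIso (refz '' (refz '' S)) (refz '' (refz '' T)) at this
  rwa [refz_image_image, refz_image_image] at this

theorem refz_segment (a b : R3) : refz '' segment ℝ a b = segment ℝ (refz a) (refz b) := by
  rw [segment_eq_image', segment_eq_image', image_image]
  apply image_congr
  intro t _
  unfold refz
  ext i
  fin_cases i <;> simp
  ring

namespace Par

variable (A : Par)

/-- the two strands -/
noncomputable def st (b : Bool) (H : ℝ) : R3 :=
  ![A.X H, A.Y (if b then H else -H), A.ζ b H]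

/-- the piece of the two strands over `[a, b]`, closed by segments -/
noncomputable def pc (a b : ℝ) : Set R3 :=
  (A.st true '' Icc a b ∪ A.st false '' Icc a b) ∪
    (segment ℝ (A.st true a) (A.st false a) ∪ segment ℝ (A.st true b) (A.st false b))

theorem X_neg (t : ℝ) : A.X (-t) = A.X t := by
  unfold X
  have : π * (A.p * -t) = -(π * (A.p * t)) := by ring
  rw [this, Real.cos_neg]

theorem F1_nonneg {t : ℝ} (h : 0 ≤ t) : A.F1 t = A.st true t := by
  unfold F1 st
  rw [A.ζf_nonneg h]
  simp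

theorem F1_nonpos {t : ℝ} (h : t ≤ 0) : A.F1 t = A.st false (-t) := by
  unfold F1 st
  rw [A.ζf_nonpos h, A.X_neg]
  simp

/-- the cutting parameter -/
noncomputable def h0 : ℝ := min (A.δ / 4) (1 / (2 * A.q) - A.δ)

theorem δ_lt_q : A.δ < 1 / (2 * A.q) := A.δ_lt.trans_le A.r1_le

theorem h0_pos : 0 < A.h0 := by
  unfold h0
  have := A.δ_pos; have := A.δ_lt_q
  apply lt_min <;> linarith

theorem h0_le1 : A.h0 ≤ A.δ / 4 := min_le_left _ _
theorem h0_le2 : A.h0 ≤ 1 / (2 * A.q) - A.δ := min_le_right _ _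

theorem w0_ge : A.δ / 2 ≤ A.w0 := by
  unfold w0
  have hp := A.p0; have hq := A.q0
  have : 0 ≤ (A.r : ℝ) / (A.p * A.q) := by positivity
  linarith

theorem h0_lt_w0 : A.h0 < A.w0 := by
  have := A.h0_le1; have := A.w0_ge; have := A.δ_pos
  linarith

theorem h0_lt_w : A.h0 < A.w := by
  have := A.h0_lt_w0; have := A.w0_lt; have := A.w_gt
  linarith

theorem rho_lin {u : ℝ} (h0 : 0 ≤ u) (h1 : u ≤ A.w0) : A.rho u = u / (4 * A.w0) := by
  have a0 := A.w0_pos; have a1 := A.w0_lt; have a2 := A.w_gt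
  rw [A.rho_nonneg h0]
  unfold rhoP
  rw [ramp_mid a0 ⟨h0, h1⟩, ramp_left a1 h1, ramp_left a2 (by linarith),
    max_eq_left (by linarith)]
  have a3 : A.w0 ≠ 0 := a0.ne'
  field_simp
  ring

theorem ζ_first (b : Bool) {H : ℝ} (h0 : 0 ≤ H) (h1 : H ≤ A.w) : A.ζ b H = 2 * A.rho H := by
  have e : H - ((0 : ℕ) : ℝ) / A.p = H := by simp
  rw [A.ζ_window (k := 0) (by omega) b (by rw [e, abs_of_nonneg h0]; exact h1), e]
  unfold prof
  rw [if_pos (Or.inl rfl)]
  have h2 : A.rho H ≤ 1 := by rw [← A.rho_w]; exact A.rho_strict.monotone h1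
  have h3 : 0 ≤ A.rho H := by rw [← A.rho_zero]; exact A.rho_strict.monotone h0
  rw [ramp_mid (by norm_num) ⟨by linarith, h2⟩]
  push_cast
  ring

theorem ζ_last (b : Bool) {u : ℝ} (h0 : 0 ≤ u) (h1 : u ≤ A.w) :
    A.ζ b (1 - u) = 5 * A.p - 2 * A.rho u := by
  have hp := A.p0
  have e : 1 - u - (A.p : ℝ) / A.p = -u := by rw [div_self hp.ne']; ring
  rw [A.ζ_window (k := A.p) le_rfl b (by rw [e, abs_neg, abs_of_nonneg h0]; exact h1), e, A.rho_neg]
  unfold prof
  rw [if_pos (Or.inr rfl)]
  have h2 : A.rho u ≤ 1 := by rw [← A.rho_w]; exact A.rho_strict.monotone h1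
  have h3 : 0 ≤ A.rho u := by rw [← A.rho_zero]; exact A.rho_strict.monotone h0
  rw [ramp_mid (by norm_num) ⟨by linarith, by linarith⟩]
  ring

theorem st_lip (b : Bool) : ∃ L : ℝ, 0 ≤ L ∧ ∀ s t, ‖A.st b s - A.st b t‖ ≤ L * |s - t| := by
  obtain ⟨L1, h1, h1'⟩ := A.X_lip
  obtain ⟨L2, h2, h2'⟩ := A.Y_lip
  obtain ⟨L3, h3, h3'⟩ := A.ζ_lip b
  refine ⟨L1 + L2 + L3, by positivity, fun s t => ?_⟩
  have e : A.st b s - A.st b t = ![A.X s - A.X t,
      A.Y (if b then s else -s) - A.Y (if b then t else -t), A.ζ b s - A.ζ b t] := by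
    unfold st
    ext i
    fin_cases i <;> simp
  rw [e]
  have a0 : 0 ≤ |s - t| := abs_nonneg _
  have b1 : 0 ≤ L1 * |s - t| := by positivity
  have b2 : 0 ≤ L2 * |s - t| := by positivity
  have b3 : 0 ≤ L3 * |s - t| := by positivity
  apply norm_vec_le
  · have := h1' s t; linarith
  · cases b
    · simp only [Bool.false_eq_true, if_false]
      have := h2' (-s) (-t)
      have e2 : |-s - -t| = |s - t| := by
        rw [← abs_neg]; congr 1; ring
      rw [e2] at this
      linarith
    · simp only [if_true]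
      have := h2' s t; linarith
  · have := h3' s t; linarith

/-- monotonicity of the second coordinate near the ends -/
theorem Y_mono {s t : ℝ} (hs : s ∈ Icc (-A.h0) A.h0) (ht : t ∈ Icc (-A.h0) A.h0) (hst : s ≤ t) :
    2 * A.q ^ 2 * A.δ * (t - s) ≤ A.Y s - A.Y t := by
  have hq := A.q0
  have hδ := A.δ_pos
  have h1 := A.h0_le1
  have h2 := A.h0_le2
  have hπ := Real.pi_pos
  have hqδ : A.q * (A.δ + A.h0) ≤ 1 / 2 := by
    have : A.q * (A.δ + A.h0) ≤ A.q * (1 / (2 * A.q)) := by
      apply mul_le_mul_of_nonneg_left _ hq.le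
      linarith
    rw [show (A.q : ℝ) * (1 / (2 * A.q)) = 1 / 2 by field_simp] at this
    exact this
  unfold Y
  rw [Real.cos_sub_cos]
  have e1 : (π * (A.q * (s + A.δ)) + π * (A.q * (t + A.δ))) / 2 = π * (A.q * ((s + t) / 2 + A.δ)) := by ring
  have e2 : (π * (A.q * (s + A.δ)) - π * (A.q * (t + A.δ))) / 2 = -(π * (A.q * ((t - s) / 2))) := by ring
  rw [e1, e2, Real.sin_neg]
  have jord : ∀ x : ℝ, 0 ≤ x → x ≤ 1 / 2 → 2 * x ≤ sin (π * x) := by
    intro x hx0 hx1
    have := Real.mul_le_sin (x := π * x) (by positivity) (by nlinarith)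
    have e : 2 / π * (π * x) = 2 * x := by field_simp
    rw [e] at this
    exact this
  have a1 : A.q * A.δ ≤ sin (π * (A.q * ((s + t) / 2 + A.δ))) := by
    have b1 : A.δ / 2 ≤ (s + t) / 2 + A.δ := by linarith [hs.1, ht.1]
    have b2 : (s + t) / 2 + A.δ ≤ A.δ + A.h0 := by linarith [hs.2, ht.2]
    have := jord (A.q * ((s + t) / 2 + A.δ)) (mul_nonneg hq.le (by linarith))
      ((mul_le_mul_of_nonneg_left b2 hq.le).trans hqδ)
    have b3 : A.q * (A.δ / 2) ≤ A.q * ((s + t) / 2 + A.δ) := mul_le_mul_of_nonneg_left b1 hq.le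
    linarith
  have a2 : A.q * (t - s) ≤ sin (π * (A.q * ((t - s) / 2))) := by
    have b2 : (t - s) / 2 ≤ A.δ + A.h0 := by linarith [hs.1, ht.2]
    have := jord (A.q * ((t - s) / 2)) (by
      have : 0 ≤ (t - s) / 2 := by linarith
      positivity) ((mul_le_mul_of_nonneg_left b2 hq.le).trans hqδ)
    linarith
  have a3 : 0 ≤ A.q * (t - s) := mul_nonneg hq.le (by linarith)
  have a4 : 0 ≤ A.q * A.δ := by positivity
  have a5 := mul_le_mul a1 a2 a3 (a4.trans a1)
  nlinarith

theorem F1_lip : ∃ L : ℝ, 0 ≤ L ∧ ∀ s t, ‖A.F1 s - A.F1 t‖ ≤ L * |s - t| := by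
  obtain ⟨L1, h1, h1'⟩ := A.X_lip
  obtain ⟨L2, h2, h2'⟩ := A.Y_lip
  obtain ⟨L3, h3, h3'⟩ := A.ζf_lip
  refine ⟨L1 + L2 + L3, by positivity, fun s t => ?_⟩
  have e : A.F1 s - A.F1 t = ![A.X s - A.X t, A.Y s - A.Y t, A.ζf s - A.ζf t] := by
    unfold F1
    ext i
    fin_cases i <;> simp
  rw [e]
  have b1 : 0 ≤ L1 * |s - t| := by positivity
  have b2 : 0 ≤ L2 * |s - t| := by positivity
  have b3 : 0 ≤ L3 * |s - t| := by positivity
  apply norm_vec_le
  · have := h1' s t; linarith
  · have := h2' s t; linarith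
  · have := h3' s t; linarith

theorem h0_le_half : A.h0 < 1 / 2 := by
  have h1 := A.h0_lt_w; have h2 := A.w_lt_q
  have h3 : 1 / (A.q : ℝ) ≤ 1 := by
    rw [div_le_one A.q0]; linarith [A.qR]
  linarith

/-- the first cut -/
theorem cap_bottom (B : Set R3)
    (hB : B = A.st true '' Icc A.h0 1 ∪ A.st false '' Icc A.h0 1) :
    AmbIso (A.F1 '' Icc (-1) 1) (B ∪ segment ℝ (A.st true A.h0) (A.st false A.h0)) := by
  have hh := A.h0_pos
  have hw := A.h0_lt_w
  have hw0 := A.h0_lt_w0
  have hw0p := A.w0_pos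
  obtain ⟨L, hL0, hL⟩ := A.F1_lip
  have hq := A.q0
  have hδ := A.δ_pos
  have e1 : A.F1 '' Icc (-1) 1 = B ∪ A.F1 '' Icc (-A.h0) A.h0 := by
    have hlt := A.h0_le_half
    rw [hB]
    ext x
    constructor
    · rintro ⟨t, ht, rfl⟩
      rcases le_total t (-A.h0) with h1 | h1
      · left; right
        exact ⟨-t, ⟨by linarith, by linarith [ht.1]⟩, (A.F1_nonpos (by linarith)).symm⟩
      rcases le_total A.h0 t with h2 | h2
      · left; left
        exact ⟨t, ⟨h2, ht.2⟩, (A.F1_nonneg (by linarith)).symm⟩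
      · right
        exact ⟨t, ⟨h1, h2⟩, rfl⟩
    · rintro ((⟨t, ht, rfl⟩ | ⟨t, ht, rfl⟩) | ⟨t, ht, rfl⟩)
      · exact ⟨t, ⟨by linarith [ht.1], ht.2⟩, A.F1_nonneg (by linarith [ht.1])⟩
      · refine ⟨-t, ⟨by linarith [ht.2], by linarith [ht.1]⟩, ?_⟩
        rw [A.F1_nonpos (by linarith [ht.1]), neg_neg]
      · exact ⟨t, ⟨by linarith [ht.1], by linarith [ht.2]⟩, rfl⟩
  have hF2 : ∀ t, A.F1 t 2 = A.ζf t := by intro t; simp [F1]
  have hF1' : ∀ t, A.F1 t 1 = A.Y t := by intro t; simp [F1]
  have hζabs : ∀ t, |t| ≤ A.w → A.ζf t = 2 * A.rho |t| := by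
    intro t ht
    obtain ⟨b, hb⟩ := A.ζf_abs t
    rw [hb, A.ζ_first b (abs_nonneg _) ht]
  have hend1 : A.F1 A.h0 = A.st true A.h0 := A.F1_nonneg hh.le
  have hend2 : A.F1 (-A.h0) = A.st false A.h0 := by rw [A.F1_nonpos (by linarith), neg_neg]
  have key := ambIso_cap B A.F1 A.h0 (2 * A.rho A.h0) (2 * A.q ^ 2 * A.δ) L (2 * A.w0 * L)
    (1 / 2 - 2 * A.rho A.h0) (-1) hh (by positivity) hL0 (by positivity) ?_ (by simp)
    (fun s _ t _ => hL s t) ?_ ?_ ?_ ?_ ?_
  · rw [e1]
    rw [hend1, hend2, segment_symm] at key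
    exact key
  · rw [A.rho_lin hh.le hw0.le]
    have : A.h0 / (4 * A.w0) < 1 / 4 := by
      rw [div_lt_div_iff₀ (by positivity) (by norm_num)]; linarith
    linarith
  · intro t ht
    rw [hF2, hζabs t ((abs_le.mpr ht).trans hw.le)]
    have := A.rho_strict.monotone (abs_le.mpr ht)
    linarith
  · rw [hF2, hζabs _ (by rw [abs_of_pos hh]; exact hw.le), abs_of_pos hh]
  · rw [hF2, hζabs _ (by rw [abs_neg, abs_of_pos hh]; exact hw.le), abs_neg, abs_of_pos hh]
  · intro s hs t ht hst
    rw [hF1', hF1']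
    have := A.Y_mono hs ht hst
    linarith
  · have main : ∀ b, ∀ H ∈ Icc A.h0 1, ‖A.st b H - A.st b A.h0‖ ≤
        2 * A.w0 * L * (A.st b H 2 - 2 * A.rho A.h0) ∨
        2 * A.rho A.h0 + (1 / 2 - 2 * A.rho A.h0) ≤ A.st b H 2 := by
      intro b H hH
      have e2 : A.st b H 2 = A.ζ b H := by simp [st]
      rw [e2]
      rcases le_total H A.w0 with h1 | h1
      · left
        have hstF : ‖A.st b H - A.st b A.h0‖ ≤ L * |H - A.h0| := by
          cases b
          · have := hL (-H) (-A.h0)
            rw [A.F1_nonpos (by linarith [hH.1]), A.F1_nonpos (by linarith), neg_neg, neg_neg] at this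
            refine this.trans (le_of_eq ?_)
            rw [← abs_neg]; congr 2; ring
          · have := hL H A.h0
            rwa [A.F1_nonneg (by linarith [hH.1]), A.F1_nonneg hh.le] at this
        rw [A.ζ_first b (by linarith [hH.1]) (by linarith [A.w0_lt, A.w_gt]),
          A.rho_lin (by linarith [hH.1]) h1, A.rho_lin hh.le hw0.le]
        refine hstF.trans (le_of_eq ?_)
        rw [abs_of_nonneg (by linarith [hH.1])]
        field_simp
        ring
      · right
        rcases le_total H A.w with h2 | h2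
        · rw [A.ζ_first b (by linarith) h2]
          have := A.rho_strict.monotone h1
          rw [A.rho_w0] at this
          linarith
        · have h3 := A.ζ_ge (k := 0) (by have := A.hp2; omega) b (H := H) (by simpa using h2)
          have h4 := (A.gap_bd b (H - ((0 : ℕ) : ℝ) / A.p)).1
          push_cast at h3
          push_cast at h4
          linarith
    intro x hx
    rw [hB] at hx
    rw [hend1, hend2]
    rcases hx with ⟨H, hH, rfl⟩ | ⟨H, hH, rfl⟩
    · rcases main true H hH with h1 | h1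
      · exact Or.inl h1
      · exact Or.inr (Or.inr h1)
    · rcases main false H hH with h1 | h1
      · exact Or.inr (Or.inl h1)
      · exact Or.inr (Or.inr h1)

/-- the second cut -/
theorem cap_top : AmbIso ((A.st true '' Icc A.h0 1 ∪ A.st false '' Icc A.h0 1) ∪
    segment ℝ (A.st true A.h0) (A.st false A.h0)) (A.pc A.h0 (1 - A.h0)) := by
  have hh := A.h0_pos
  have hw := A.h0_lt_w
  have hw0 := A.h0_lt_w0
  have hw0p := A.w0_pos
  have hq := A.q0
  have hp := A.p0
  have hδ := A.δ_pos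
  have hlt := A.h0_le_half
  -- the arc
  let f : ℝ → R3 := fun t => ![A.X (1 + t), A.Y (1 + t), -(5 * A.p - 2 * A.rho |t|)]
  have hf1 : ∀ t ∈ Icc (-A.w) 0, f t = refz (A.st true (1 + t)) := by
    intro t ht
    have : 1 + t = 1 - -t := by ring
    have e := A.ζ_last true (u := -t) (by linarith [ht.2]) (by linarith [ht.1])
    rw [← this] at e
    simp only [f]
    unfold refz st
    rw [e, abs_of_nonpos ht.2]
    simp
  have hf2 : ∀ t ∈ Icc 0 A.w, f t = refz (A.st false (1 - t)) := by
    intro t ht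
    have e := A.ζ_last false (u := t) ht.1 ht.2
    simp only [f]
    unfold refz st
    have e1 : A.X (1 + t) = A.X (1 - t) := by
      rw [← A.X_neg (1 - t), ← A.X_per (1 + t)]; congr 1; ring
    have e2 : A.Y (1 + t) = A.Y (-(1 - t)) := by
      rw [← A.Y_per (1 + t)]; congr 1; ring
    rw [e, e1, e2, abs_of_nonneg ht.1]
    simp
  have hflip : ∃ L : ℝ, 0 ≤ L ∧ ∀ s t, ‖f s - f t‖ ≤ L * |s - t| := by
    obtain ⟨L1, h1, h1'⟩ := A.X_lip
    obtain ⟨L2, h2, h2'⟩ := A.Y_lip
    obtain ⟨L3, h3, h3'⟩ := (A.rho_lip.comp Lip.abs').mulc 2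
    refine ⟨L1 + L2 + L3, by positivity, fun s t => ?_⟩
    have e : f s - f t = ![A.X (1 + s) - A.X (1 + t), A.Y (1 + s) - A.Y (1 + t),
        2 * A.rho |s| - 2 * A.rho |t|] := by
      simp only [f]
      ext i
      fin_cases i <;> simp
    rw [e]
    have b1 : 0 ≤ L1 * |s - t| := by positivity
    have b2 : 0 ≤ L2 * |s - t| := by positivity
    have b3 : 0 ≤ L3 * |s - t| := by positivity
    have e3 : |1 + s - (1 + t)| = |s - t| := by congr 1; ring
    apply norm_vec_le
    · have := h1' (1 + s) (1 + t)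
      rw [e3] at this
      linarith
    · have := h2' (1 + s) (1 + t)
      rw [e3] at this
      linarith
    · have := h3' s t; linarith
  obtain ⟨L, hL0, hL⟩ := hflip
  obtain ⟨L', hL0', hL'⟩ := A.st_lip true
  obtain ⟨L'', hL0'', hL''⟩ := A.st_lip false
  -- `Y` at `1 + t`
  have hYs : ∃ σ : ℝ, |σ| = 1 ∧ ∀ t, A.Y (1 + t) = σ * A.Y t := by
    refine ⟨cos (A.q * π), ?_, ?_⟩
    · rw [Real.cos_nat_mul_pi]
      simp
    · intro t
      unfold Y
      have : π * (A.q * (1 + t + A.δ)) = π * (A.q * (t + A.δ)) + A.q * π := by ring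
      rw [this, Real.cos_add, Real.sin_nat_mul_pi, mul_zero, sub_zero, mul_comm]
  obtain ⟨σ, hσ, hσY⟩ := hYs
  have hσ2 : σ * σ = 1 := by
    have := congrArg (fun x => x * x) hσ
    simp only [abs_mul_abs_self, mul_one] at this
    exact this
  let B : Set R3 := refz '' ((A.st true '' Icc A.h0 (1 - A.h0) ∪ A.st false '' Icc A.h0 (1 - A.h0)) ∪
    segment ℝ (A.st true A.h0) (A.st false A.h0))
  let c : ℝ := -(5 * A.p - 2 * A.rho A.h0)
  have hend1 : f A.h0 = refz (A.st false (1 - A.h0)) := hf2 _ ⟨hh.le, hw.le⟩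
  have hend2 : f (-A.h0) = refz (A.st true (1 - A.h0)) := by
    rw [hf1 _ ⟨by linarith, by linarith⟩]
    congr 2
  have hrho : A.rho A.h0 < 1 / 4 := by
    rw [← A.rho_w0]; exact A.rho_strict hw0
  have key := ambIso_cap B f A.h0 c (2 * A.q ^ 2 * A.δ) L (2 * A.w0 * (L' + L''))
    (1 / 2 - 2 * A.rho A.h0) (-σ) hh (by positivity) hL0 (by positivity) (by linarith)
    (by rw [abs_neg, hσ])
    (fun s _ t _ => hL s t) ?_ ?_ ?_ ?_ ?_
  · apply ambIso_of_refz
    have e1 : refz '' ((A.st true '' Icc A.h0 1 ∪ A.st false '' Icc A.h0 1) ∪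
        segment ℝ (A.st true A.h0) (A.st false A.h0)) = B ∪ f '' Icc (-A.h0) A.h0 := by
      have e3 : f '' Icc (-A.h0) A.h0 =
          refz '' (A.st true '' Icc (1 - A.h0) 1 ∪ A.st false '' Icc (1 - A.h0) 1) := by
        ext x
        constructor
        · rintro ⟨t, ht, rfl⟩
          rcases le_total t 0 with h1 | h1
          · rw [hf1 t ⟨by linarith [ht.1], h1⟩]
            exact ⟨_, Or.inl ⟨1 + t, ⟨by linarith [ht.1], by linarith⟩, rfl⟩, rfl⟩
          · rw [hf2 t ⟨h1, by linarith [ht.2]⟩]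
            exact ⟨_, Or.inr ⟨1 - t, ⟨by linarith [ht.2], by linarith⟩, rfl⟩, rfl⟩
        · rintro ⟨_, ⟨H, hH, rfl⟩ | ⟨H, hH, rfl⟩, rfl⟩
          · refine ⟨H - 1, ⟨by linarith [hH.1], by linarith [hH.2]⟩, ?_⟩
            rw [hf1 _ ⟨by linarith [hH.1], by linarith [hH.2]⟩, add_sub_cancel]
          · refine ⟨1 - H, ⟨by linarith [hH.2], by linarith [hH.1]⟩, ?_⟩
            rw [hf2 _ ⟨by linarith [hH.2], by linarith [hH.1]⟩, sub_sub_cancel]
      have e4 : ∀ b, A.st b '' Icc A.h0 1 = A.st b '' Icc A.h0 (1 - A.h0) ∪ A.st b '' Icc (1 - A.h0) 1 := by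
        intro b
        rw [← image_union, Icc_union_Icc_eq_Icc (by linarith) (by linarith)]
      rw [e3]
      simp only [B]
      rw [← image_union, e4 true, e4 false]
      congr 1
      ext x
      simp only [mem_union]
      tauto
    have e2 : refz '' (A.pc A.h0 (1 - A.h0)) = B ∪ segment ℝ (f (-A.h0)) (f A.h0) := by
      rw [hend1, hend2, ← refz_segment]
      simp only [B]
      rw [← image_union]
      congr 1
      unfold pc
      rw [← union_assoc]
    rw [e1, e2]
    exact key
  · intro t ht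
    have := A.rho_strict.monotone (abs_le.mpr ht)
    simp only [f, c, Matrix.cons_val]
    linarith
  · simp only [f, c, Matrix.cons_val]
    rw [abs_of_pos hh]
  · simp only [f, c, Matrix.cons_val]
    rw [abs_neg, abs_of_pos hh]
  · intro s hs t ht hst
    have := A.Y_mono hs ht hst
    simp only [f, Matrix.cons_val]
    rw [hσY, hσY]
    have e : -σ * (σ * A.Y t - σ * A.Y s) = (σ * σ) * (A.Y s - A.Y t) := by ring
    rw [e, hσ2, one_mul]
    exact this
  · have main : ∀ b, ∀ H ∈ Icc A.h0 (1 - A.h0), ‖refz (A.st b H) - refz (A.st b (1 - A.h0))‖ ≤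
        2 * A.w0 * (L' + L'') * (refz (A.st b H) 2 - c) ∨
        c + (1 / 2 - 2 * A.rho A.h0) ≤ refz (A.st b H) 2 := by
      intro b H hH
      have e2 : refz (A.st b H) 2 = -A.ζ b H := by simp [st, refz]
      rw [e2]
      rcases le_total (1 - A.w0) H with h1 | h1
      · left
        have hstF : ‖A.st b H - A.st b (1 - A.h0)‖ ≤ (L' + L'') * |H - (1 - A.h0)| := by
          have a0 : 0 ≤ |H - (1 - A.h0)| := abs_nonneg _
          cases b
          · have := hL'' H (1 - A.h0)
            nlinarith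
          · have := hL' H (1 - A.h0)
            nlinarith
        have hrefn : ‖refz (A.st b H) - refz (A.st b (1 - A.h0))‖ ≤ ‖A.st b H - A.st b (1 - A.h0)‖ := by
          have e5 : refz (A.st b H) - refz (A.st b (1 - A.h0)) =
              ![A.st b H 0 - A.st b (1 - A.h0) 0, A.st b H 1 - A.st b (1 - A.h0) 1,
                -(A.st b H 2 - A.st b (1 - A.h0) 2)] := by
            unfold refz
            ext i
            fin_cases i <;> simp
            ring
          rw [e5]
          apply norm_vec_le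
          · exact abs_apply_le_norm (A.st b H - A.st b (1 - A.h0)) 0
          · exact abs_apply_le_norm (A.st b H - A.st b (1 - A.h0)) 1
          · rw [abs_neg]
            exact abs_apply_le_norm (A.st b H - A.st b (1 - A.h0)) 2
        have e6 := A.ζ_last b (u := 1 - H) (by linarith [hH.2]) (by linarith [A.w0_lt, A.w_gt])
        rw [sub_sub_cancel] at e6
        rw [e6, A.rho_lin (by linarith [hH.2]) (by linarith)]
        refine (hrefn.trans hstF).trans (le_of_eq ?_)
        simp only [c]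
        rw [A.rho_lin hh.le hw0.le, abs_of_nonpos (by linarith [hH.2])]
        field_simp
        ring
      · right
        simp only [c]
        rcases le_total (1 - A.w) H with h2 | h2
        · have e6 := A.ζ_last b (u := 1 - H) (by linarith) (by linarith)
          rw [sub_sub_cancel] at e6
          rw [e6]
          have := A.rho_strict.monotone (by linarith : A.w0 ≤ 1 - H)
          rw [A.rho_w0] at this
          linarith
        · have h3 := A.ζ_le (k := A.p) (by have := A.hp2; omega) le_rfl b (H := H)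
            (by rw [div_self hp.ne']; exact h2)
          have h4 := (A.gap_bd b (H - (A.p - 1) / A.p)).2
          linarith
    rw [hend1, hend2]
    rintro _ ⟨x, hx, rfl⟩
    rcases hx with (⟨H, hH, rfl⟩ | ⟨H, hH, rfl⟩) | hx
    · rcases main true H hH with h1 | h1
      · exact Or.inr (Or.inl h1)
      · exact Or.inr (Or.inr h1)
    · rcases main false H hH with h1 | h1
      · exact Or.inl h1
      · exact Or.inr (Or.inr h1)
    · right; right
      have hz : x 2 = 2 * A.rho A.h0 := by
        rw [segment_eq_image'] at hx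
        obtain ⟨s, _, rfl⟩ := hx
        have a1 : A.st true A.h0 2 = 2 * A.rho A.h0 := by
          have : A.st true A.h0 2 = A.ζ true A.h0 := by simp [st]
          rw [this, A.ζ_first true hh.le hw.le]
        have a2 : A.st false A.h0 2 = 2 * A.rho A.h0 := by
          have : A.st false A.h0 2 = A.ζ false A.h0 := by simp [st]
          rw [this, A.ζ_first false hh.le hw.le]
        simp only [Pi.add_apply, Pi.smul_apply, Pi.sub_apply, smul_eq_mul, a1, a2]
        ring
      have e2 : refz x 2 = -x 2 := by simp [refz]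
      rw [e2, hz]
      simp only [c]
      have := A.pR
      linarith

theorem cap_iso : AmbIso (A.F '' Icc (-1) 1) (A.pc A.h0 (1 - A.h0)) :=
  (A.global_iso.trans (A.cap_bottom _ rfl)).trans A.cap_top

end Par

end Liss579
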