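import Mathlib
import Pool.Agent.Helper548.KnotD.D4

/-!
Ambient isotopies from relative Lipschitz displacements.
-/

set_option autoImplicit false

namespace Liss579

open Knot548 Set Filter Topology

/-- three-dimensional space -/
abbrev R3 : Type := Fin 3 → ℝ

section Rel

variable {X ι : Type*} [Fintype ι]

/-- a displacement that is `K`-Lipschitz relative to `F`, `K < 1`, gives an ambient isotopy -/
theorem ambIso_of_relLip (F w : X → (ι → ℝ)) (K : ℝ) (hK0 : 0 ≤ K) (hK : K < 1)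
    (h : ∀ a b, ‖w a - w b‖ ≤ K * ‖F a - F b‖) :
    AmbIso (range F) (range (fun a => F a + w a)) := by
  classical
  have hex : ∀ x : range F, ∃ a, F a = x := fun x => x.2
  choose c hc using hex
  let f : (ι → ℝ) → (ι → ℝ) := fun x => if hx : x ∈ range F then w (c ⟨x, hx⟩) else 0
  have hf : ∀ a, f (F a) = w a := by
    intro a
    have hx : F a ∈ range F := ⟨a, rfl⟩
    simp only [f, hx, dif_pos]
    have h1 := h (c ⟨F a, hx⟩) a
    rw [hc ⟨F a, hx⟩] at h1
    simp only [sub_self, norm_zero, mul_zero] at h1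
    exact sub_eq_zero.mp (norm_le_zero_iff.mp h1)
  have hL : LipschitzOnWith K.toNNReal f (range F) := by
    apply LipschitzOnWith.of_dist_le_mul
    rintro _ ⟨a, rfl⟩ _ ⟨b, rfl⟩
    rw [hf, hf, dist_eq_norm, dist_eq_norm, Real.coe_toNNReal K hK0]
    exact h a b
  obtain ⟨D, hD, hDf⟩ := hL.extend_pi
  have h2 := ambIso_of_lipschitz D K.toNNReal (by
    rw [← NNReal.coe_lt_coe, Real.coe_toNNReal K hK0]; exact_mod_cast hK) hD (range F)
  have h3 : (fun x => x + D x) '' range F = range (fun a => F a + w a) := by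
    rw [← range_comp]
    congr 1
    funext a
    change F a + D (F a) = F a + w a
    rw [← hDf ⟨a, rfl⟩, hf]
  rwa [h3] at h2

/-- a linear path of embeddings with displacement relatively Lipschitz at each time -/
theorem ambIso_path (F w : X → (ι → ℝ))
    (h : ∀ τ ∈ Icc (0 : ℝ) 1, ∃ C : ℝ, ∀ a b,
      ‖w a - w b‖ ≤ C * ‖(F a + τ • w a) - (F b + τ • w b)‖) :
    AmbIso (range F) (range (fun a => F a + w a)) := by
  have key : AmbIso (range (fun a => F a + (0 : ℝ) • w a)) (range (fun a => F a + (1 : ℝ) • w a)) := by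
    apply (isPreconnected_Icc (a := (0 : ℝ)) (b := 1)).induction₂
      (fun s t => AmbIso (range (fun a => F a + s • w a)) (range (fun a => F a + t • w a)))
    · intro τ hτ
      obtain ⟨C, hC⟩ := h τ hτ
      let C' : ℝ := max C 0 + 1
      have hC' : 0 < C' := by positivity
      have hCC : ∀ a b, ‖w a - w b‖ ≤ C' * ‖(F a + τ • w a) - (F b + τ • w b)‖ := by
        intro a b
        refine (hC a b).trans ?_
        apply mul_le_mul_of_nonneg_right _ (norm_nonneg _)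
        simp only [C']
        have := le_max_left C 0
        linarith
      have hev : ∀ᶠ t in 𝓝 τ, |t - τ| < 1 / (2 * C') := by
        have : Tendsto (fun t => |t - τ|) (𝓝 τ) (𝓝 |τ - τ|) := by
          apply Continuous.tendsto
          fun_prop
        rw [sub_self, abs_zero] at this
        exact this.eventually_lt_const (by positivity)
      refine (hev.filter_mono nhdsWithin_le_nhds).mono ?_
      intro t ht
      have h1 := ambIso_of_relLip (fun a => F a + τ • w a) (fun a => (t - τ) • w a) (1 / 2)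
        (by norm_num) (by norm_num) ?_
      · have h2 : (fun a => F a + τ • w a + (t - τ) • w a) = fun a => F a + t • w a := by
          funext a
          rw [add_assoc, ← add_smul]
          congr 2
          ring
        rwa [h2] at h1
      · intro a b
        rw [← smul_sub, norm_smul, Real.norm_eq_abs]
        calc |t - τ| * ‖w a - w b‖
            ≤ |t - τ| * (C' * ‖(F a + τ • w a) - (F b + τ • w b)‖) :=
              mul_le_mul_of_nonneg_left (hCC a b) (abs_nonneg _)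
          _ = (|t - τ| * C') * ‖(F a + τ • w a) - (F b + τ • w b)‖ := by ring
          _ ≤ (1 / 2) * ‖(F a + τ • w a) - (F b + τ • w b)‖ := by
              apply mul_le_mul_of_nonneg_right _ (norm_nonneg _)
              have : |t - τ| * C' ≤ 1 / (2 * C') * C' :=
                mul_le_mul_of_nonneg_right ht.le hC'.le
              refine this.trans (le_of_eq ?_)
              field_simp
    · intro x y z _ _ _ h1 h2
      exact h1.trans h2
    · intro x y _ _ h1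
      exact h1.symm
    · exact ⟨le_refl _, zero_le_one⟩
    · exact ⟨zero_le_one, le_refl _⟩
  simpa using key

/-- a linear path of closed curves parametrised by `[-1,1]` -/
theorem ambIso_curve (F w : ℝ → (ι → ℝ)) (hF : Continuous F) (hw : Continuous w)
    (hinj : ∀ τ ∈ Icc (0 : ℝ) 1, ∀ a ∈ Icc (-1 : ℝ) 1, ∀ b ∈ Icc (-1 : ℝ) 1, a < b →
      F a + τ • w a = F b + τ • w b → a = -1 ∧ b = 1)
    (hloc : ∀ τ ∈ Icc (0 : ℝ) 1, ∀ a ∈ Icc (-1 : ℝ) 1, ∃ C : ℝ, ∀ᶠ q in 𝓝 ((a, a) : ℝ × ℝ),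
      q.1 ∈ Icc (-1 : ℝ) 1 → q.2 ∈ Icc (-1 : ℝ) 1 →
        ‖w q.1 - w q.2‖ ≤ C * ‖(F q.1 + τ • w q.1) - (F q.2 + τ • w q.2)‖)
    (hend : ∀ τ ∈ Icc (0 : ℝ) 1, ∃ C : ℝ, ∀ᶠ q in 𝓝 ((-1, 1) : ℝ × ℝ),
      q.1 ∈ Icc (-1 : ℝ) 1 → q.2 ∈ Icc (-1 : ℝ) 1 →
        ‖w q.1 - w q.2‖ ≤ C * ‖(F q.1 + τ • w q.1) - (F q.2 + τ • w q.2)‖) :
    AmbIso (F '' Icc (-1) 1) ((fun a => F a + w a) '' Icc (-1) 1) := by
  have hr : ∀ g : ℝ → (ι → ℝ), g '' Icc (-1 : ℝ) 1 = range (fun a : Icc (-1 : ℝ) 1 => g a) := by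
    intro g
    rw [image_eq_range]
  rw [hr, hr]
  apply ambIso_path (fun a : Icc (-1 : ℝ) 1 => F a) (fun a : Icc (-1 : ℝ) 1 => w a)
  intro τ hτ
  let G : ℝ → (ι → ℝ) := fun a => F a + τ • w a
  have hG : Continuous G := by fun_prop
  let S : Set (ℝ × ℝ) := Icc (-1 : ℝ) 1 ×ˢ Icc (-1 : ℝ) 1
  have hS : IsCompact S := isCompact_Icc.prod isCompact_Icc
  have hbd : ∃ M, ∀ a ∈ Icc (-1 : ℝ) 1, ‖w a‖ ≤ M := by
    exact isCompact_Icc.exists_bound_of_continuousOn hw.continuousOn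
  obtain ⟨M, hM⟩ := hbd
  have hfar : ∀ q ∈ S, G q.1 ≠ G q.2 → ∃ C : ℝ, ∀ᶠ q' in 𝓝 q,
      q'.1 ∈ Icc (-1 : ℝ) 1 → q'.2 ∈ Icc (-1 : ℝ) 1 →
        ‖w q'.1 - w q'.2‖ ≤ C * ‖G q'.1 - G q'.2‖ := by
    intro q hq hne
    have hpos : 0 < ‖G q.1 - G q.2‖ := norm_pos_iff.mpr (sub_ne_zero.mpr hne)
    have hcont : Continuous (fun q' : ℝ × ℝ => ‖G q'.1 - G q'.2‖) := by fun_prop
    have hev : ∀ᶠ q' in 𝓝 q, ‖G q.1 - G q.2‖ / 2 < ‖G q'.1 - G q'.2‖ :=
      hcont.continuousAt.eventually_const_lt (by linarith)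
    refine ⟨(2 * M) / (‖G q.1 - G q.2‖ / 2), hev.mono ?_⟩
    intro q' h1 h2 h3
    have hM0 : 0 ≤ M := (norm_nonneg _).trans (hM _ h2)
    calc ‖w q'.1 - w q'.2‖ ≤ ‖w q'.1‖ + ‖w q'.2‖ := norm_sub_le _ _
      _ ≤ 2 * M := by linarith [hM _ h2, hM _ h3]
      _ = (2 * M) / (‖G q.1 - G q.2‖ / 2) * (‖G q.1 - G q.2‖ / 2) := by field_simp
      _ ≤ _ := mul_le_mul_of_nonneg_left h1.le (by positivity)
  have hall : ∀ q ∈ S, ∃ C : ℝ, ∀ᶠ q' in 𝓝 q,
      q'.1 ∈ Icc (-1 : ℝ) 1 → q'.2 ∈ Icc (-1 : ℝ) 1 →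
        ‖w q'.1 - w q'.2‖ ≤ C * ‖G q'.1 - G q'.2‖ := by
    rintro ⟨a, b⟩ hq
    rcases eq_or_ne (G a) (G b) with he | hne
    · rcases lt_trichotomy a b with hab | hab | hab
      · obtain ⟨rfl, rfl⟩ := hinj τ hτ a hq.1 b hq.2 hab he
        exact hend τ hτ
      · subst hab
        exact hloc τ hτ a hq.1
      · obtain ⟨rfl, rfl⟩ := hinj τ hτ b hq.2 a hq.1 hab he.symm
        obtain ⟨C, hC⟩ := hend τ hτ
        refine ⟨C, ?_⟩
        have hsw : Tendsto (fun q : ℝ × ℝ => (q.2, q.1)) (𝓝 ((1 : ℝ), (-1 : ℝ))) (𝓝 ((-1 : ℝ), (1 : ℝ))) := by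
          have : Continuous (fun q : ℝ × ℝ => (q.2, q.1)) := by fun_prop
          exact this.tendsto ((1 : ℝ), (-1 : ℝ))
        refine (hsw.eventually hC).mono ?_
        intro q h1 h2 h3
        have := h1 h3 h2
        rw [norm_sub_rev (w q.1), norm_sub_rev (G q.1)]
        exact this
    · exact hfar (a, b) hq hne
  have hfin : ∃ C : ℝ, ∀ q ∈ S, ‖w q.1 - w q.2‖ ≤ C * ‖G q.1 - G q.2‖ := by
    suffices h : ∃ C : ℝ, ∀ q ∈ S, q ∈ S → ‖w q.1 - w q.2‖ ≤ C * ‖G q.1 - G q.2‖ by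
      obtain ⟨C, hC⟩ := h
      exact ⟨C, fun q hq => hC q hq hq⟩
    apply hS.induction_on (p := fun s => ∃ C : ℝ, ∀ q ∈ s, q ∈ S → ‖w q.1 - w q.2‖ ≤ C * ‖G q.1 - G q.2‖)
    · exact ⟨0, by simp⟩
    · rintro s t hst ⟨C, hC⟩
      exact ⟨C, fun q hq => hC q (hst hq)⟩
    · rintro s t ⟨C, hC⟩ ⟨C', hC'⟩
      refine ⟨max C C', ?_⟩
      rintro q (hq | hq) hqS
      · exact (hC q hq hqS).trans (mul_le_mul_of_nonneg_right (le_max_left _ _) (norm_nonneg _))
      · exact (hC' q hq hqS).trans (mul_le_mul_of_nonneg_right (le_max_right _ _) (norm_nonneg _))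
    · intro q hq
      obtain ⟨C, hC⟩ := hall q hq
      refine ⟨{q' | q'.1 ∈ Icc (-1 : ℝ) 1 → q'.2 ∈ Icc (-1 : ℝ) 1 →
        ‖w q'.1 - w q'.2‖ ≤ C * ‖G q'.1 - G q'.2‖}, mem_nhdsWithin_of_mem_nhds hC, C, ?_⟩
      intro q' hq' hS'
      exact hq' hS'.1 hS'.2
  obtain ⟨C, hC⟩ := hfin
  refine ⟨C, ?_⟩
  intro a b
  exact hC (a, b) ⟨a.2, b.2⟩

end Rel

/-- conjugation of an ambient isotopy by a homeomorphism -/
theorem ambIso_image {X Y : Type*} [TopologicalSpace X] [TopologicalSpace Y] (g : X ≃ₜ Y)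
    {A B : Set X} (h : AmbIso A B) : AmbIso (g '' A) (g '' B) := by
  obtain ⟨H, hc, h0, h1⟩ := h
  refine ⟨fun t => (g.symm.trans (H t)).trans g, ?_, ?_, ?_⟩
  · have h2 : Continuous (fun q : unitInterval × Y => g (H q.1 (g.symm q.2))) :=
      g.continuous.comp (hc.comp (continuous_fst.prodMk (g.symm.continuous.comp continuous_snd)))
    exact h2
  · intro x
    change g (H 0 (g.symm x)) = x
    rw [h0, g.apply_symm_apply]
  · rw [← h1, image_image, image_image]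
    ext x
    constructor
    · rintro ⟨a, ha, rfl⟩
      refine ⟨a, ha, ?_⟩
      change _ = g (H 1 (g.symm (g a)))
      rw [g.symm_apply_apply]
    · rintro ⟨a, ha, rfl⟩
      refine ⟨a, ha, ?_⟩
      change g (H 1 (g.symm (g a))) = _
      rw [g.symm_apply_apply]

/-- an ambient isotopy from a continuous family of maps with explicit inverses -/
theorem ambIso_of_family {X : Type*} [TopologicalSpace X] (f g : ℝ → X → X)
    (hf : Continuous (fun q : ℝ × X => f q.1 q.2)) (hg : ∀ t, Continuous (g t))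
    (hgf : ∀ t ∈ Icc (0 : ℝ) 1, ∀ x, g t (f t x) = x)
    (hfg : ∀ t ∈ Icc (0 : ℝ) 1, ∀ x, f t (g t x) = x)
    (h0 : ∀ x, f 0 x = x) (A : Set X) : AmbIso A (f 1 '' A) := by
  refine ⟨fun t => ⟨⟨f t, g t, hgf t t.2, hfg t t.2⟩, ?_, hg t⟩, ?_, ?_, ?_⟩
  · exact hf.comp (continuous_const.prodMk continuous_id)
  · exact hf.comp ((continuous_subtype_val.comp continuous_fst).prodMk continuous_snd)
  · intro x
    change f ((0 : unitInterval) : ℝ) x = x
    rw [Icc.coe_zero, h0]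
  · change (fun x => f ((1 : unitInterval) : ℝ) x) '' A = _
    rw [Icc.coe_one]

/-- the same with the parameter in the unit interval -/
theorem ambIso_of_family' {X : Type*} [TopologicalSpace X] (f g : unitInterval → X → X)
    (hf : Continuous (fun q : unitInterval × X => f q.1 q.2)) (hg : ∀ t, Continuous (g t))
    (hgf : ∀ t x, g t (f t x) = x) (hfg : ∀ t x, f t (g t x) = x)
    (h0 : ∀ x, f 0 x = x) (A : Set X) : AmbIso A (f 1 '' A) := by
  refine ⟨fun t => ⟨⟨f t, g t, hgf t, hfg t⟩, ?_, hg t⟩, ?_, ?_, ?_⟩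
  · exact hf.comp (continuous_const.prodMk continuous_id)
  · exact hf
  · intro x
    exact h0 x
  · rfl

end Liss579
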