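import Pool.Agent.Helper548.KnotD.D5
import Pool.Agent.Helper579_Lis.Iso

/-!
A criterion, checkable by integer arithmetic, for a linear motion of a polygon to be an isotopy.
-/

set_option autoImplicit false

namespace Liss579

open Knot548 Set

/-- integer scalar product -/
def dt (l x : Fin 3 → ℤ) : ℤ := l 0 * x 0 + l 1 * x 1 + l 2 * x 2

/-- the real vector of an integer vector -/
def rv (x : Fin 3 → ℤ) : R3 := fun j => (x j : ℝ)

/-- real functional of an integer vector -/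
noncomputable def lf (l : Fin 3 → ℤ) (x : R3) : ℝ := (l 0 : ℝ) * x 0 + (l 1 : ℝ) * x 1 + (l 2 : ℝ) * x 2

theorem lf_rv (l x : Fin 3 → ℤ) : lf l (rv x) = (dt l x : ℝ) := by
  simp only [lf, rv, dt]
  push_cast
  ring

theorem lf_comb (l : Fin 3 → ℤ) (x y : R3) (s t : ℝ) :
    lf l (s • x + t • y) = s * lf l x + t * lf l y := by
  simp only [lf, Pi.add_apply, Pi.smul_apply, smul_eq_mul]
  ring

section

variable {m : ℕ} (p q : Fin (m + 1) → Fin 3 → ℤ)

/-- the functional `l` separates the edges `k` and `k'` during the motion from `p` to `q` -/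
def Good (l : Fin 3 → ℤ) (k k' : Fin (m + 1)) : Prop :=
  (k' = k + 1 ∧ (dt l (p k) < dt l (p (k + 1)) ∧ dt l (p (k + 1)) ≤ dt l (p (k' + 1))) ∧
    (dt l (q k) < dt l (q (k + 1)) ∧ dt l (q (k + 1)) ≤ dt l (q (k' + 1)))) ∨
  ((dt l (p k) < dt l (p k') ∧ dt l (p (k + 1)) < dt l (p k') ∧
    dt l (p k) < dt l (p (k' + 1)) ∧ dt l (p (k + 1)) < dt l (p (k' + 1))) ∧
   (dt l (q k) < dt l (q k') ∧ dt l (q (k + 1)) < dt l (q k') ∧
    dt l (q k) < dt l (q (k' + 1)) ∧ dt l (q (k + 1)) < dt l (q (k' + 1))))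

instance (l : Fin 3 → ℤ) (k k' : Fin (m + 1)) : Decidable (Good p q l k k') := by
  unfold Good; infer_instance

/-- the moving vertices -/
noncomputable def mv (t : ℝ) (i : Fin (m + 1)) : R3 := (1 - t) • rv (p i) + t • rv (q i)

theorem lf_mv (l : Fin 3 → ℤ) (t : ℝ) (i : Fin (m + 1)) :
    lf l (mv p q t i) = (1 - t) * dt l (p i) + t * dt l (q i) := by
  unfold mv
  rw [lf_comb, lf_rv, lf_rv]

theorem lt_mv {l : Fin 3 → ℤ} {t : ℝ} (ht : t ∈ Icc (0 : ℝ) 1) {i j : Fin (m + 1)}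
    (h1 : dt l (p i) < dt l (p j)) (h2 : dt l (q i) < dt l (q j)) :
    lf l (mv p q t i) < lf l (mv p q t j) := by
  rw [lf_mv, lf_mv]
  have h1' : (dt l (p i) : ℝ) < dt l (p j) := by exact_mod_cast h1
  have h2' : (dt l (q i) : ℝ) < dt l (q j) := by exact_mod_cast h2
  rcases eq_or_lt_of_le ht.1 with h | h
  · rw [← h]; simpa using h1'
  · have e1 := mul_lt_mul_of_pos_left h2' h
    have e2 := mul_le_mul_of_nonneg_left h1'.le (by linarith [ht.2] : 0 ≤ 1 - t)
    linarith

theorem le_mv {l : Fin 3 → ℤ} {t : ℝ} (ht : t ∈ Icc (0 : ℝ) 1) {i j : Fin (m + 1)}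
    (h1 : dt l (p i) ≤ dt l (p j)) (h2 : dt l (q i) ≤ dt l (q j)) :
    lf l (mv p q t i) ≤ lf l (mv p q t j) := by
  rw [lf_mv, lf_mv]
  have h1' : (dt l (p i) : ℝ) ≤ dt l (p j) := by exact_mod_cast h1
  have h2' : (dt l (q i) : ℝ) ≤ dt l (q j) := by exact_mod_cast h2
  have e1 := mul_le_mul_of_nonneg_left h2' ht.1
  have e2 := mul_le_mul_of_nonneg_left h1' (by linarith [ht.2] : 0 ≤ 1 - t)
  linarith

theorem disj_of_good {l : Fin 3 → ℤ} {k k' : Fin (m + 1)} (h : Good p q l k k') {t : ℝ}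
    (ht : t ∈ Icc (0 : ℝ) 1) :
    Disjoint (hseg (mv p q t k) (mv p q t (k + 1))) (hseg (mv p q t k') (mv p q t (k' + 1))) := by
  rw [Set.disjoint_left]
  rintro x ⟨s, hs0, hs1, hx⟩ ⟨s', hs0', hs1', hx'⟩
  have e1 : lf l x = (1 - s) * lf l (mv p q t k) + s * lf l (mv p q t (k + 1)) := by
    rw [hx, lf_comb]
  have e2 : lf l x = (1 - s') * lf l (mv p q t k') + s' * lf l (mv p q t (k' + 1)) := by
    rw [hx', lf_comb]
  rcases h with ⟨hk, ⟨h1, h2⟩, ⟨h3, h4⟩⟩ | ⟨⟨h1, h2, h3, h4⟩, ⟨h5, h6, h7, h8⟩⟩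
  · have a1 := lt_mv p q ht h1 h3
    have a2 := le_mv p q ht h2 h4
    rw [hk] at e2
    rw [hk] at a2
    have b1 : lf l x < lf l (mv p q t (k + 1)) := by
      rw [e1]
      nlinarith
    have b2 : lf l (mv p q t (k + 1)) ≤ lf l x := by
      rw [e2]
      nlinarith
    linarith
  · have a1 := lt_mv p q ht h1 h5
    have a2 := lt_mv p q ht h2 h6
    have a3 := lt_mv p q ht h3 h7
    have a4 := lt_mv p q ht h4 h8
    have b1 : lf l x < lf l (mv p q t k') := by
      rw [e1]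
      nlinarith
    have b2 : lf l x < lf l (mv p q t (k' + 1)) := by
      rw [e1]
      nlinarith
    nlinarith

theorem ambIso_check (cert : Fin (m + 1) → Fin (m + 1) → Fin 3 → ℤ)
    (h : ∀ k k' : Fin (m + 1), k < k' → Good p q (cert k k') k k' ∨ Good p q (cert k k') k' k)
    (nd : Fin (m + 1) → Fin 3 → ℤ)
    (hnd : ∀ k, dt (nd k) (p k) < dt (nd k) (p (k + 1)) ∧ dt (nd k) (q k) < dt (nd k) (q (k + 1))) :
    AmbIso (polySet (List.ofFn (fun i => rv (p i)))) (polySet (List.ofFn (fun i => rv (q i)))) := by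
  have key := ambIso_motion (fun t => mv p q t) ?_ ?_
  · have h0 : mv p q 0 = fun i => rv (p i) := by
      funext i
      simp [mv]
    have h1 : mv p q 1 = fun i => rv (q i) := by
      funext i
      simp [mv]
    rw [h0, h1] at key
    exact key
  · unfold mv
    fun_prop
  · intro t ht
    rw [simple_ofFn]
    constructor
    · intro k hk
      have := lt_mv p q ht (hnd k).1 (hnd k).2
      rw [hk] at this
      exact lt_irrefl _ this
    · intro k k' hkk
      rcases lt_or_gt_of_ne hkk with h1 | h1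
      · rcases h k k' h1 with h2 | h2
        · exact disj_of_good p q h2 ht
        · exact (disj_of_good p q h2 ht).symm
      · rcases h k' k h1 with h2 | h2
        · exact (disj_of_good p q h2 ht).symm
        · exact disj_of_good p q h2 ht

end

end Liss579
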