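import Pool.Agent.Helper579_Lis.Count

/-!
The square and the circle; the trefoil as the range of its parametrisation.
-/

set_option autoImplicit false

namespace Liss579

open Knot548 Set Real Filter Topology

/-- the unit circle of the `xz`-plane -/
def circ : Set R3 := {x | x 1 = 0 ∧ x 0 ^ 2 + x 2 ^ 2 = 1}

/-- distance to the second axis -/
noncomputable def nn (x : R3) : ℝ := ‖(⟨x 0, x 2⟩ : ℂ)‖

theorem nn_sq (x : R3) : nn x ^ 2 = x 0 ^ 2 + x 2 ^ 2 := by
  unfold nn
  rw [Complex.sq_norm, Complex.normSq_apply]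
  ring

theorem nn_sub (x y : R3) : |nn x - nn y| ≤ 2 * ‖x - y‖ := by
  unfold nn
  refine (abs_norm_sub_norm_le _ _).trans ?_
  refine (Complex.norm_le_abs_re_add_abs_im _).trans ?_
  have h0 := abs_apply_le_norm (x - y) 0
  have h2 := abs_apply_le_norm (x - y) 2
  have e0 : ((⟨x 0, x 2⟩ : ℂ) - ⟨y 0, y 2⟩).re = (x - y) 0 := by simp
  have e2 : ((⟨x 0, x 2⟩ : ℂ) - ⟨y 0, y 2⟩).im = (x - y) 2 := by simp
  rw [e0, e2]
  linarith

theorem square_norm {x : R3} (hx : x ∈ square) : ‖x‖ = 1 := by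
  obtain ⟨h1, h2⟩ := hx
  apply le_antisymm
  · rw [pi_norm_le_iff_of_nonneg zero_le_one]
    intro i
    fin_cases i
    · exact h2 ▸ le_max_left _ _
    · simp [h1]
    · exact h2 ▸ le_max_right _ _
  · rw [← h2]
    exact max_le (abs_apply_le_norm x 0) (abs_apply_le_norm x 2)

theorem square_nn {x : R3} (hx : x ∈ square) : 1 ≤ nn x ∧ nn x ≤ 2 := by
  obtain ⟨h1, h2⟩ := hx
  have hs := nn_sq x
  have hn : 0 ≤ nn x := norm_nonneg _
  have a0 : |x 0| ≤ 1 := h2 ▸ le_max_left _ _
  have a2 : |x 2| ≤ 1 := h2 ▸ le_max_right _ _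
  have b0 : x 0 ^ 2 ≤ 1 := by rw [← sq_abs]; nlinarith [abs_nonneg (x 0)]
  have b2 : x 2 ^ 2 ≤ 1 := by rw [← sq_abs]; nlinarith [abs_nonneg (x 2)]
  constructor
  · have : 1 ≤ x 0 ^ 2 + x 2 ^ 2 := by
      rcases max_choice |x 0| |x 2| with h | h
      · rw [h] at h2
        have : x 0 ^ 2 = 1 := by rw [← sq_abs, h2]; norm_num
        nlinarith [sq_nonneg (x 2)]
      · rw [h] at h2
        have : x 2 ^ 2 = 1 := by rw [← sq_abs, h2]; norm_num
        nlinarith [sq_nonneg (x 0)]
    nlinarith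
  · nlinarith

theorem square_circ : AmbIso square circ := by
  let F : square → R3 := fun x => x.1
  let w : square → R3 := fun x => (nn x.1)⁻¹ • x.1 - x.1
  have key := ambIso_path F w ?_
  · have e1 : range F = square := by
      ext x
      constructor
      · rintro ⟨y, rfl⟩; exact y.2
      · intro hx; exact ⟨⟨x, hx⟩, rfl⟩
    have e2 : range (fun a => F a + w a) = circ := by
      ext y
      constructor
      · rintro ⟨⟨x, hx⟩, rfl⟩
        simp only [F, w, add_sub_cancel]
        have hn := (square_nn hx).1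
        have hs := nn_sq x
        constructor
        · simp [hx.1]
        · simp only [Pi.smul_apply, smul_eq_mul]
          have : nn x ≠ 0 := by linarith
          field_simp
          linarith
      · rintro ⟨h1, h2⟩
        let m : ℝ := max |y 0| |y 2|
        have hm : 0 < m := by
          rcases eq_or_ne (y 0) 0 with h | h
          · have : y 2 ≠ 0 := by
              rintro h'
              rw [h, h'] at h2
              norm_num at h2
            exact lt_max_of_lt_right (abs_pos.mpr this)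
          · exact lt_max_of_lt_left (abs_pos.mpr h)
        have hx : m⁻¹ • y ∈ square := by
          constructor
          · simp [h1]
          · simp only [Pi.smul_apply, smul_eq_mul]
            rw [abs_mul, abs_mul, abs_of_pos (inv_pos.mpr hm), ← mul_max_of_nonneg _ _ (inv_pos.mpr hm).le]
            exact inv_mul_cancel₀ hm.ne'
        refine ⟨⟨m⁻¹ • y, hx⟩, ?_⟩
        simp only [F, w, add_sub_cancel]
        have hn : nn (m⁻¹ • y) = m⁻¹ := by
          have hs := nn_sq (m⁻¹ • y)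
          have h3 : nn (m⁻¹ • y) ^ 2 = m⁻¹ ^ 2 := by
            rw [hs]
            simp only [Pi.smul_apply, smul_eq_mul]
            linear_combination (m⁻¹ ^ 2) * h2
          have h4 : 0 ≤ nn (m⁻¹ • y) := norm_nonneg _
          exact (pow_left_inj₀ h4 (inv_pos.mpr hm).le two_ne_zero).mp h3
        rw [hn, inv_inv, smul_smul, mul_inv_cancel₀ hm.ne', one_smul]
    rwa [e1, e2] at key
  · intro τ hτ
    refine ⟨16, ?_⟩
    rintro ⟨x, hx⟩ ⟨y, hy⟩
    obtain ⟨nx1, nx2⟩ := square_nn hx
    obtain ⟨ny1, ny2⟩ := square_nn hy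
    have sx := square_norm hx
    have sy := square_norm hy
    let μ : R3 → ℝ := fun x => 1 + τ * ((nn x)⁻¹ - 1)
    have hF : ∀ z : R3, z + τ • ((nn z)⁻¹ • z - z) = μ z • z := by
      intro z
      funext i
      simp only [μ, Pi.add_apply, Pi.smul_apply, Pi.sub_apply, smul_eq_mul]
      ring
    simp only [F, w]
    rw [hF, hF]
    have hμ : ∀ z : R3, 1 ≤ nn z → nn z ≤ 2 → 1 / 2 ≤ μ z := by
      intro z h1 h2
      have h3 : (1 : ℝ) / 2 ≤ (nn z)⁻¹ := by
        rw [← one_div]; exact one_div_le_one_div_of_le (by linarith) h2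
      have h4 : (nn z)⁻¹ ≤ 1 := inv_le_one_of_one_le₀ h1
      simp only [μ]
      nlinarith [hτ.1, hτ.2]
    have μx := hμ x nx1 nx2
    have μy := hμ y ny1 ny2
    set D : ℝ := ‖μ x • x - μ y • y‖ with hD
    have hD0 : 0 ≤ D := norm_nonneg _
    have d1 : |μ x - μ y| ≤ D := by
      have h1 : ‖μ x • x‖ = μ x := by rw [norm_smul, sx, mul_one, Real.norm_of_nonneg (by linarith)]
      have h2 : ‖μ y • y‖ = μ y := by rw [norm_smul, sy, mul_one, Real.norm_of_nonneg (by linarith)]
      have := abs_norm_sub_norm_le (μ x • x) (μ y • y)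
      rwa [h1, h2] at this
    have d2 : ‖x - y‖ ≤ 4 * D := by
      have h1 : μ x • (x - y) = (μ x • x - μ y • y) - (μ x - μ y) • y := by
        funext i
        simp only [Pi.smul_apply, Pi.sub_apply, smul_eq_mul]
        ring
      have h2 : ‖μ x • (x - y)‖ ≤ D + |μ x - μ y| := by
        rw [h1]
        refine (norm_sub_le _ _).trans ?_
        rw [norm_smul, sy, mul_one, Real.norm_eq_abs]
      rw [norm_smul, Real.norm_of_nonneg (by linarith)] at h2
      have h3 : 1 / 2 * ‖x - y‖ ≤ μ x * ‖x - y‖ := mul_le_mul_of_nonneg_right μx (norm_nonneg _)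
      linarith
    have d3 : |(nn x)⁻¹ - (nn y)⁻¹| ≤ 2 * ‖x - y‖ := by
      have h1 : (nn x)⁻¹ - (nn y)⁻¹ = (nn y - nn x) / (nn x * nn y) := by
        have : nn x ≠ 0 := by linarith
        have : nn y ≠ 0 := by linarith
        field_simp
      rw [h1, abs_div, abs_of_pos (by positivity : 0 < nn x * nn y), div_le_iff₀ (by positivity), abs_sub_comm]
      have h2 := nn_sub x y
      have h3 : (1 : ℝ) ≤ nn x * nn y := by nlinarith
      have h4 : 0 ≤ 2 * ‖x - y‖ := by positivity
      nlinarith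
    have d4 : ((nn x)⁻¹ • x - x) - ((nn y)⁻¹ • y - y) =
        ((nn x)⁻¹ - (nn y)⁻¹) • x + ((nn y)⁻¹ - 1) • (x - y) := by
      funext i
      simp only [Pi.add_apply, Pi.smul_apply, Pi.sub_apply, smul_eq_mul]
      ring
    rw [d4]
    refine (norm_add_le _ _).trans ?_
    rw [norm_smul, norm_smul, sx, mul_one, Real.norm_eq_abs, Real.norm_eq_abs]
    have h5 : |(nn y)⁻¹ - 1| ≤ 1 := by
      have h6 : (nn y)⁻¹ ≤ 1 := inv_le_one_of_one_le₀ ny1
      have h7 : 0 ≤ (nn y)⁻¹ := inv_nonneg.mpr (by linarith)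
      rw [abs_le]; constructor <;> linarith
    have h6 := mul_le_mul_of_nonneg_right h5 (norm_nonneg (x - y))
    linarith

theorem Tset_eq : Tset = range (fun t : ℝ =>
    (![(2 + cos (3 * t)) * cos (2 * t), (2 + cos (3 * t)) * sin (2 * t), sin (3 * t)] : R3)) := by
  have e : ∀ u : ℝ, ann ρT ζT u = ![(2 + cos (3 * (π * u))) * cos (2 * (π * u)),
      (2 + cos (3 * (π * u))) * sin (2 * (π * u)), sin (3 * (π * u))] := by
    intro u
    unfold ann ρT ζT
    rw [← mul_assoc, ← mul_assoc]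
  unfold Tset
  ext x
  constructor
  · rintro ⟨u, _, rfl⟩
    exact ⟨π * u, (e u).symm⟩
  · rintro ⟨t, rfl⟩
    let n : ℤ := ⌊(t / π + 1) / 2⌋
    have h1 := Int.floor_le ((t / π + 1) / 2)
    have h2 := Int.lt_floor_add_one ((t / π + 1) / 2)
    refine ⟨t / π - 2 * n, ⟨by linarith, by linarith⟩, ?_⟩
    rw [e]
    have hπ : π ≠ 0 := Real.pi_pos.ne'
    have e3 : 3 * (π * (t / π - 2 * n)) = 3 * t - ((3 * n : ℤ) : ℝ) * (2 * π) := by
      push_cast; field_simp
    have e2 : 2 * (π * (t / π - 2 * n)) = 2 * t - ((2 * n : ℤ) : ℝ) * (2 * π) := by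
      push_cast; field_simp
    rw [e3, e2, Real.cos_sub_int_mul_two_pi, Real.cos_sub_int_mul_two_pi, Real.sin_sub_int_mul_two_pi,
      Real.sin_sub_int_mul_two_pi]

end Liss579
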