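import Pool.Agent.Helper579_Lis.Main

/-!
The number of trefoils of each handedness, and the choice of the frequencies.
-/

set_option autoImplicit false

namespace Liss579

open Knot548 Set Real Filter Topology

namespace Par

variable (A : Par)

theorem tpos_iff {k : ℕ} {j : ℤ} (hj : |(k : ℤ) * A.q - j * A.p| ≤ A.r) :
    A.tpos k ↔ (0 < (k : ℤ) * A.q - j * A.p ↔ Even (k + j)) := by
  constructor
  · rintro ⟨j', hj', h⟩
    have hr : 2 * ((A.r : ℤ) + 1) ≤ A.p := by exact_mod_cast A.hr
    rw [abs_le] at hj hj'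
    have h1 : (A.p : ℤ) ∣ (j' - j) * A.p := ⟨j' - j, by ring⟩
    have h2 : (j' - j) * (A.p : ℤ) = 0 := by
      apply Int.eq_zero_of_abs_lt_dvd h1
      rw [abs_lt]
      constructor <;> linarith [hj.1, hj.2, hj'.1, hj'.2]
    have h3 : j' = j := by
      rcases mul_eq_zero.mp h2 with h | h
      · omega
      · exfalso; have := A.hp2; omega
    rw [h3] at h
    exact h
  · intro h
    exact ⟨j, hj, h⟩

open Classical in
theorem card_tref : A.nneg 0 + A.npos 0 = 2 * A.r := by
  have h1 := A.card_rho (fun _ => True)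
  have h2 : ((Finset.Ioo 0 A.p).filter (fun k : ℕ => ∃ j : ℤ, |(k : ℤ) * A.q - j * A.p| ≤ A.r ∧ True)) =
      ((Finset.Ioo 0 A.p).filter (fun k => A.tref k ∧ ¬ A.tpos k)) ∪
        ((Finset.Ioo 0 A.p).filter (fun k => A.tpos k)) := by
    rw [← Finset.filter_or]
    apply Finset.filter_congr
    intro k _
    constructor
    · rintro ⟨j, hj, _⟩
      by_cases h : A.tpos k
      · exact Or.inr h
      · exact Or.inl ⟨⟨j, hj⟩, h⟩
    · rintro (⟨⟨j, hj⟩, _⟩ | h)
      · exact ⟨j, hj, trivial⟩
      · obtain ⟨j, hj⟩ := A.tref_of_tpos h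
        exact ⟨j, hj, trivial⟩
  have h3 : Disjoint ((Finset.Ioo 0 A.p).filter (fun k => A.tref k ∧ ¬ A.tpos k))
      ((Finset.Ioo 0 A.p).filter (fun k => A.tpos k)) := by
    rw [Finset.disjoint_filter]
    intro k _ h
    exact h.2
  rw [h2, Finset.card_union_of_disjoint h3] at h1
  have h4 : ((Finset.Icc (-(A.r : ℤ)) A.r).filter (fun ρ => ρ ≠ 0 ∧ True)).card = 2 * A.r := by
    have e : (Finset.Icc (-(A.r : ℤ)) A.r).filter (fun ρ => ρ ≠ 0 ∧ True) =
        (Finset.Icc (-(A.r : ℤ)) A.r).erase 0 := by
      ext x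
      simp only [Finset.mem_filter, Finset.mem_erase, and_true]
      tauto
    rw [e, Finset.card_erase_of_mem (by rw [Finset.mem_Icc]; constructor <;> omega), Int.card_Icc]
    omega
  unfold nneg npos
  rw [← h4]
  convert h1

open Classical in
theorem count_odd (h : Even (A.p + A.q)) : A.nneg 0 = A.r ∧ A.npos 0 = A.r := by
  have h1 := A.card_tref
  have h2 : A.nneg 0 = A.npos 0 := by
    unfold nneg npos
    apply Finset.card_nbij (fun k => A.p - k)
    · intro k hk
      simp only [Finset.coe_filter, Finset.mem_Ioo, Set.mem_ofPred_eq] at hk ⊢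
      obtain ⟨⟨hk0, hkp⟩, ⟨j, hj⟩, hn⟩ := hk
      refine ⟨by omega, ?_⟩
      have e : ((A.p - k : ℕ) : ℤ) * A.q - (A.q - j) * A.p = -((k : ℤ) * A.q - j * A.p) := by
        push_cast [Nat.cast_sub hkp.le]; ring
      have hj' : |((A.p - k : ℕ) : ℤ) * A.q - (A.q - j) * A.p| ≤ A.r := by rw [e, abs_neg]; exact hj
      rw [A.tpos_iff hj', e]
      rw [A.tpos_iff hj] at hn
      have hne := A.kq_ne (by omega) hkp j
      have e2 : ((A.p - k : ℕ) : ℤ) + (A.q - j) = ((A.p + A.q : ℕ) : ℤ) - (k + j) := by
        push_cast [Nat.cast_sub hkp.le]; ring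
      rw [e2, Int.even_sub]
      have e3 : Even ((A.p + A.q : ℕ) : ℤ) := by exact_mod_cast h
      have e4 : 0 < -((k : ℤ) * A.q - j * A.p) ↔ ¬ (0 < (k : ℤ) * A.q - j * A.p) := by
        constructor
        · intro; omega
        · intro; omega
      rw [e4]
      tauto
    · intro k hk k' hk' he
      simp only [Finset.coe_filter, Finset.mem_Ioo, Set.mem_ofPred_eq] at hk hk'
      simp only at he
      omega
    · intro k hk
      simp only [Finset.coe_filter, Finset.mem_Ioo, Set.mem_ofPred_eq] at hk
      obtain ⟨⟨hk0, hkp⟩, hpos⟩ := hk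
      obtain ⟨j, hj⟩ := A.tref_of_tpos hpos
      refine ⟨A.p - k, ?_, by simp only; omega⟩
      simp only [Finset.coe_filter, Finset.mem_Ioo, Set.mem_ofPred_eq]
      have e : ((A.p - k : ℕ) : ℤ) * A.q - (A.q - j) * A.p = -((k : ℤ) * A.q - j * A.p) := by
        push_cast [Nat.cast_sub hkp.le]; ring
      have hj' : |((A.p - k : ℕ) : ℤ) * A.q - (A.q - j) * A.p| ≤ A.r := by rw [e, abs_neg]; exact hj
      refine ⟨by omega, ⟨A.q - j, hj'⟩, ?_⟩
      rw [A.tpos_iff hj', e]
      rw [A.tpos_iff hj] at hpos
      have hne := A.kq_ne (by omega) hkp j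
      have e2 : ((A.p - k : ℕ) : ℤ) + (A.q - j) = ((A.p + A.q : ℕ) : ℤ) - (k + j) := by
        push_cast [Nat.cast_sub hkp.le]; ring
      rw [e2, Int.even_sub]
      have e3 : Even ((A.p + A.q : ℕ) : ℤ) := by exact_mod_cast h
      have e4 : 0 < -((k : ℤ) * A.q - j * A.p) ↔ ¬ (0 < (k : ℤ) * A.q - j * A.p) := by
        constructor
        · intro; omega
        · intro; omega
      rw [e4]
      tauto
  omega

theorem t_eq {p t l : ℤ} (hp : 0 < p) (h1 : l * p < p * t) (h2 : p * t < (l + 2) * p) : t = l + 1 := by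
  have h3 : l < t := by
    by_contra hc
    have : p * t ≤ p * l := mul_le_mul_of_nonneg_left (not_lt.mp hc) hp.le
    linarith
  have h4 : t < l + 2 := by
    by_contra hc
    have : p * (l + 2) ≤ p * t := mul_le_mul_of_nonneg_left (not_lt.mp hc) hp.le
    linarith
  omega

open Classical in
theorem count_even {a b : ℕ} (hp : A.p = 5 * a + 4) (hq : A.q = 11 * a + 9) (hr : A.r = a + b)
    (hba : b ≤ a) : A.nneg 0 = 2 * b ∧ A.npos 0 = 2 * a := by
  have h1 := A.card_tref
  have h2 : A.npos 0 = 2 * a := by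
    have h3 := A.card_rho (fun ρ => |ρ| ≤ a)
    have h4 : (Finset.Ioo 0 A.p).filter (fun k : ℕ => ∃ j : ℤ, |(k : ℤ) * A.q - j * A.p| ≤ A.r ∧
        |(k : ℤ) * A.q - j * A.p| ≤ a) = (Finset.Ioo 0 A.p).filter (fun k => A.tpos k) := by
      apply Finset.filter_congr
      intro k hk
      rw [Finset.mem_Ioo] at hk
      have key : ∀ j : ℤ, |(k : ℤ) * A.q - j * A.p| ≤ A.r →
          ((0 < (k : ℤ) * A.q - j * A.p ↔ Even (k + j)) ↔ |(k : ℤ) * A.q - j * A.p| ≤ a) := by
        intro j hj
        have hne := A.kq_ne (by omega) hk.2 j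
        set ρ : ℤ := (k : ℤ) * A.q - j * A.p with hρ
        have hpz : (A.p : ℤ) = 5 * a + 4 := by exact_mod_cast hp
        have hqz : (A.q : ℤ) = 11 * a + 9 := by exact_mod_cast hq
        have hrz : (A.r : ℤ) = a + b := by exact_mod_cast hr
        have hbz : (b : ℤ) ≤ a := by exact_mod_cast hba
        have hk1 : (0 : ℤ) < k := by exact_mod_cast hk.1
        have hk2 : (k : ℤ) < A.p := by exact_mod_cast hk.2
        have ht : 5 * ρ = k + A.p * (11 * k - 5 * j) := by
          rw [hρ, hpz, hqz]; ring
        have hev : Even (k + j) ↔ Even (11 * (k : ℤ) - 5 * j) := by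
          have e4 : (11 * (k : ℤ) - 5 * j) = (k + j) + 2 * (5 * k - 3 * j) := by ring
          have e5 : Even (2 * (5 * (k : ℤ) - 3 * j)) := even_two_mul _
          rw [e4]
          exact ⟨fun h => h.add e5, fun h => (Int.even_add.mp h).mpr e5⟩
        rw [hev]
        set t : ℤ := 11 * (k : ℤ) - 5 * j with htdef
        have hp0 : (0 : ℤ) < A.p := by omega
        rw [abs_le] at hj ⊢
        rcases lt_or_gt_of_ne hne with hneg | hpos
        · rcases le_or_gt (-(a : ℤ)) ρ with c | c
          · have : t = -2 + 1 := t_eq hp0 (by nlinarith) (by nlinarith)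
            rw [this]
            constructor
            · intro _; constructor <;> linarith
            · intro _
              constructor
              · intro; linarith
              · intro h; exact absurd h (by decide)
          · have : t = -3 + 1 := t_eq hp0 (by nlinarith) (by nlinarith)
            rw [this]
            constructor
            · intro h
              have := h.mpr (by decide)
              linarith
            · intro h; linarith [h.1]
        · rcases le_or_gt ρ a with c | c
          · have : t = -1 + 1 := t_eq hp0 (by nlinarith) (by nlinarith)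
            rw [this]
            constructor
            · intro _; constructor <;> linarith
            · intro _
              constructor
              · intro; decide
              · intro; exact hpos
          · have : t = 0 + 1 := t_eq hp0 (by nlinarith) (by nlinarith)
            rw [this]
            constructor
            · intro h
              exact absurd (h.mp hpos) (by decide)
            · intro h; linarith [h.2]
      constructor
      · rintro ⟨j, hj, hja⟩
        exact ⟨j, hj, (key j hj).mpr hja⟩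
      · rintro ⟨j, hj, hja⟩
        exact ⟨j, hj, (key j hj).mp hja⟩
    have h5 : ((Finset.Icc (-(A.r : ℤ)) A.r).filter (fun ρ : ℤ => ρ ≠ 0 ∧ |ρ| ≤ (a : ℤ))).card = 2 * a := by
      have e : (Finset.Icc (-(A.r : ℤ)) A.r).filter (fun ρ : ℤ => ρ ≠ 0 ∧ |ρ| ≤ (a : ℤ)) =
          (Finset.Icc (-(a : ℤ)) a).erase 0 := by
        ext x
        simp only [Finset.mem_filter, Finset.mem_erase, Finset.mem_Icc, abs_le]
        constructor
        · rintro ⟨_, h6, h7⟩; exact ⟨h6, h7⟩
        · rintro ⟨h6, h7⟩
          exact ⟨by rw [hr]; push_cast; omega, h6, h7⟩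
      rw [e, Finset.card_erase_of_mem (by rw [Finset.mem_Icc]; constructor <;> omega), Int.card_Icc]
      omega
    rw [h4] at h3
    unfold npos
    rw [h3, ← h5]
    congr 2
  omega

end Par

/-- the main result -/
theorem main (a b : ℕ) (h : a = b ∨ (Even a ∧ Even b)) : ∃ K : Set R3, IsLis K ∧ TSum a b K := by
  rcases h with rfl | ⟨⟨a, rfl⟩, ⟨b, rfl⟩⟩
  · obtain ⟨A, h1, h2, h3⟩ := exists_par (p := 2 * a + 3) (q := 2 * a + 5) (r := a) (by omega)
      (by
        rw [show 2 * a + 5 = (2 * a + 3) + 2 by ring, Nat.coprime_self_add_right, Nat.coprime_two_right]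
        exact ⟨a + 1, by ring⟩)
      (by omega)
    obtain ⟨c1, c2⟩ := A.count_odd (by rw [h1, h2]; exact ⟨2 * a + 4, by ring⟩)
    have := A.main_sum
    rw [c1, c2, h3] at this
    exact ⟨_, A.isLis, this⟩
  · have main : ∀ a b : ℕ, b ≤ a → ∃ A : Par, A.nneg 0 = 2 * b ∧ A.npos 0 = 2 * a := by
      intro a b hab
      obtain ⟨A, h1, h2, h3⟩ := exists_par (p := 5 * a + 4) (q := 11 * a + 9) (r := a + b) (by omega)
        (by
          apply Nat.Coprime.symm
          rw [Nat.coprime_iff_gcd_eq_one]
          have h1 : Nat.gcd (11 * a + 9) (5 * a + 4) ∣ 5 * (11 * a + 9) := (Nat.gcd_dvd_left _ _).mul_left 5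
          have h2 : Nat.gcd (11 * a + 9) (5 * a + 4) ∣ 11 * (5 * a + 4) := (Nat.gcd_dvd_right _ _).mul_left 11
          have h3 := (Nat.dvd_sub h1 h2)
          have h4 : 5 * (11 * a + 9) - 11 * (5 * a + 4) = 1 := by omega
          rw [h4] at h3
          exact Nat.dvd_one.mp h3)
        (by omega)
      exact ⟨A, A.count_even h1 h2 h3 hab⟩
    rcases le_total b a with hab | hab
    · obtain ⟨A, c1, c2⟩ := main a b hab
      have := A.main_sum
      rw [c1, c2] at this
      refine ⟨_, A.isLis.mirror, ?_⟩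
      have h := this.mirror
      rwa [show a + a = 2 * a by ring, show b + b = 2 * b by ring]
    · obtain ⟨A, c1, c2⟩ := main b a hab
      have := A.main_sum
      rw [c1, c2] at this
      refine ⟨_, A.isLis, ?_⟩
      rwa [show a + a = 2 * a by ring, show b + b = 2 * b by ring]

end Liss579
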