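import Mathlib

/-!
The Lissajous curves and the crossings of their projection.
-/

set_option autoImplicit false

namespace Liss579

open Set Real

/-- the parameters -/
structure Par where
  p : ℕ
  q : ℕ
  c : ℕ
  d : ℕ
  e : ℕ
  r : ℕ
  hpq : p < q
  hbez : p * d = q * c + 1
  he1 : r * c < p * e
  he2 : p * e < (r + 1) * c
  hr : 2 * (r + 1) ≤ p

namespace Par

variable (A : Par)

theorem hp2 : 2 ≤ A.p := by have := A.hr; omega
theorem hq3 : 3 ≤ A.q := by have := A.hpq; have := A.hp2; omega
theorem hc0 : 0 < A.c := by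
  rcases Nat.eq_zero_or_pos A.c with h | h
  · have := A.he2; rw [h] at this; simp at this
  · exact h

theorem he0 : 0 < A.e := by
  rcases Nat.eq_zero_or_pos A.e with h | h
  · have := A.he1; rw [h] at this; simp at this
  · exact h

/-- the phase -/
noncomputable def δ : ℝ := A.e / (A.q * A.c)

/-- half width of the windows -/
noncomputable def w : ℝ := (A.δ + (A.r + 1) / (A.p * A.q)) / 2

/-- half width of the cores -/
noncomputable def w0 : ℝ := (A.δ + A.r / (A.p * A.q)) / 2

theorem pR : (2 : ℝ) ≤ A.p := by exact_mod_cast A.hp2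
theorem qR : (3 : ℝ) ≤ A.q := by exact_mod_cast A.hq3
theorem cR : (0 : ℝ) < A.c := by exact_mod_cast A.hc0
theorem eR : (0 : ℝ) < A.e := by exact_mod_cast A.he0
theorem p0 : (0 : ℝ) < A.p := by have := A.pR; linarith
theorem q0 : (0 : ℝ) < A.q := by have := A.qR; linarith

theorem δ_pos : 0 < A.δ := by
  unfold δ
  have := A.eR; have := A.q0; have := A.cR
  positivity

theorem pqδ : A.p * A.q * A.δ = A.p * A.e / A.c := by
  unfold δ
  have := A.q0; have := A.cR
  field_simp

theorem δ_gt : (A.r : ℝ) / (A.p * A.q) < A.δ := by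
  have h1 : (A.r : ℝ) * A.c < A.p * A.e := by exact_mod_cast A.he1
  have := A.q0; have := A.cR; have := A.p0
  unfold δ
  rw [div_lt_div_iff₀ (by positivity) (by positivity)]
  nlinarith

theorem δ_lt : A.δ < ((A.r : ℝ) + 1) / (A.p * A.q) := by
  have h1 : (A.p : ℝ) * A.e < (A.r + 1) * A.c := by exact_mod_cast A.he2
  have := A.q0; have := A.cR; have := A.p0
  unfold δ
  rw [div_lt_div_iff₀ (by positivity) (by positivity)]
  nlinarith

theorem w_gt : A.δ < A.w := by
  unfold w; have := A.δ_lt; linarith

theorem w_lt : A.w < ((A.r : ℝ) + 1) / (A.p * A.q) := by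
  unfold w; have := A.δ_lt; linarith

theorem w0_lt : A.w0 < A.δ := by
  unfold w0; have := A.δ_gt; linarith

theorem w0_gt : (A.r : ℝ) / (A.p * A.q) < A.w0 := by
  unfold w0; have := A.δ_gt; linarith

theorem w0_pos : 0 < A.w0 := by
  have := A.w0_gt; have := A.p0; have := A.q0
  have : (0 : ℝ) ≤ (A.r : ℝ) / (A.p * A.q) := by positivity
  linarith

theorem r1_le : ((A.r : ℝ) + 1) / (A.p * A.q) ≤ 1 / (2 * A.q) := by
  have h1 : (2 : ℝ) * (A.r + 1) ≤ A.p := by exact_mod_cast A.hr
  have := A.q0; have := A.p0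
  rw [div_le_div_iff₀ (by positivity) (by positivity)]
  nlinarith

theorem w_lt_q : 2 * A.w < 1 / A.q := by
  have h1 := A.w_lt
  have h2 := A.r1_le
  have := A.q0
  have h3 : (1 : ℝ) / A.q = 2 * (1 / (2 * A.q)) := by field_simp
  rw [h3]; linarith

theorem q_lt_p : 1 / (A.q : ℝ) < 1 / A.p := by
  have := A.p0
  have h : (A.p : ℝ) < A.q := by exact_mod_cast A.hpq
  exact one_div_lt_one_div_of_lt this h

theorem w_lt_p : 2 * A.w < 1 / A.p := A.w_lt_q.trans A.q_lt_p

theorem w_pos : 0 < A.w := A.δ_pos.trans A.w_gt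

/-- the vertical frequency -/
def N : ℕ := 2 * A.q * A.c + 1

theorem N1 : (A.N : ℝ) = 2 * A.q * A.c + 1 := by unfold N; push_cast; ring
theorem N2 : (A.N : ℝ) = 2 * A.p * A.d - 1 := by
  have h : (A.p : ℝ) * A.d = A.q * A.c + 1 := by exact_mod_cast A.hbez
  rw [N1]; linarith

/-- first coordinate -/
noncomputable def X (t : ℝ) : ℝ := cos (π * (A.p * t))
/-- second coordinate -/
noncomputable def Y (t : ℝ) : ℝ := cos (π * (A.q * (t + A.δ)))
/-- third coordinate -/
noncomputable def Z (t : ℝ) : ℝ := cos (π * (A.N * t + 1 / A.q))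

theorem coincidence {t s : ℝ} (hX : A.X t = A.X s) (hY : A.Y t = A.Y s) :
    (∃ n : ℤ, t - s = 2 * n) ∨
    (∃ i j : ℤ, t - s = 2 * i / A.p ∧ t + s = 2 * j / A.q - 2 * A.δ) ∨
    (∃ i j : ℤ, t + s = 2 * i / A.p ∧ t - s = 2 * j / A.q) := by
  unfold X at hX
  unfold Y at hY
  rw [Real.cos_eq_cos_iff] at hX hY
  obtain ⟨i, hi⟩ := hX
  obtain ⟨j, hj⟩ := hY
  have hπ := Real.pi_pos
  have hp := A.p0
  have hq := A.q0
  have hbez : (A.p : ℝ) * A.d = A.q * A.c + 1 := by exact_mod_cast A.hbez
  have canc : ∀ {a b : ℝ}, π * a = π * b → a = b := fun {a b} h => mul_left_cancel₀ hπ.ne' h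
  rcases hi with hi | hi <;> rcases hj with hj | hj
  · left
    have h1 : (A.p : ℝ) * s = 2 * i + A.p * t := canc (by linarith)
    have h2 : (A.q : ℝ) * (s + A.δ) = 2 * j + A.q * (t + A.δ) := canc (by linarith)
    have h3 : (A.p : ℝ) * (t - s) = -2 * i := by linarith
    have h4 : (A.q : ℝ) * (t - s) = -2 * j := by linarith
    refine ⟨j * A.c - i * A.d, ?_⟩
    push_cast
    have h5 : (t - s) * ((A.p : ℝ) * A.d - A.q * A.c) = -2 * i * A.d + 2 * j * A.c := by
      have : (t - s) * ((A.p : ℝ) * A.d - A.q * A.c) =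
        (A.p * (t - s)) * A.d - (A.q * (t - s)) * A.c := by ring
      rw [this, h3, h4]; ring
    rw [hbez] at h5
    have h6 : ((A.q : ℝ) * A.c + 1 - A.q * A.c) = 1 := by ring
    rw [h6, mul_one] at h5
    linarith
  · right; left
    have h1 : (A.p : ℝ) * s = 2 * i + A.p * t := canc (by linarith)
    have h2 : (A.q : ℝ) * (s + A.δ) = 2 * j - A.q * (t + A.δ) := canc (by linarith)
    refine ⟨-i, j, ?_, ?_⟩
    · push_cast
      field_simp
      linarith
    · field_simp
      linarith
  · right; right
    have h1 : (A.p : ℝ) * s = 2 * i - A.p * t := canc (by linarith)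
    have h2 : (A.q : ℝ) * (s + A.δ) = 2 * j + A.q * (t + A.δ) := canc (by linarith)
    refine ⟨i, -j, ?_, ?_⟩
    · field_simp
      linarith
    · push_cast
      field_simp
      linarith
  · exfalso
    have h1 : (A.p : ℝ) * s = 2 * i - A.p * t := canc (by linarith)
    have h2 : (A.q : ℝ) * (s + A.δ) = 2 * j - A.q * (t + A.δ) := canc (by linarith)
    have h3 : (A.p : ℝ) * A.q * A.δ = j * A.p - i * A.q := by
      have e1 : (A.q : ℝ) * A.p * s + A.q * A.p * t = A.q * (2 * i) := by
        have : (A.q : ℝ) * (A.p * s) = A.q * (2 * i - A.p * t) := by rw [h1]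
        linarith
      have e2 : (A.p : ℝ) * A.q * s + A.p * A.q * t + 2 * (A.p * A.q * A.δ) = A.p * (2 * j) := by
        have : (A.p : ℝ) * (A.q * (s + A.δ)) = A.p * (2 * j - A.q * (t + A.δ)) := by rw [h2]
        linarith
      linarith
    rw [A.pqδ] at h3
    have hc := A.cR
    have h4 : (A.p : ℝ) * A.e = (j * A.p - i * A.q) * A.c := by
      rw [div_eq_iff hc.ne'] at h3
      exact h3
    have h5 : (A.p * A.e : ℤ) = (j * A.p - i * A.q) * A.c := by exact_mod_cast h4
    have h6 : (A.r * A.c : ℤ) < A.p * A.e := by exact_mod_cast A.he1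
    have h7 : (A.p * A.e : ℤ) < (A.r + 1) * A.c := by exact_mod_cast A.he2
    rw [h5] at h6 h7
    have hc' : (0 : ℤ) < A.c := by exact_mod_cast A.hc0
    have h8 := lt_of_mul_lt_mul_right h6 hc'.le
    have h9 := lt_of_mul_lt_mul_right h7 hc'.le
    omega

theorem Z_sub (t s : ℝ) : A.Z t - A.Z s =
    -2 * sin (π * (A.N * ((t + s) / 2) + 1 / A.q)) * sin (π * (A.N * ((t - s) / 2))) := by
  unfold Z
  rw [Real.cos_sub_cos]
  congr 2
  · congr 1; ring
  · ring_nf

theorem sin_add_int {x : ℝ} (n : ℤ) : sin (π * (2 * n + x)) = sin (π * x) := by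
  have : π * (2 * n + x) = π * x + n * (2 * π) := by ring
  rw [this, Real.sin_add_int_mul_two_pi]

theorem Z_I {t s : ℝ} {i j : ℤ} (h1 : t - s = 2 * i / A.p) (h2 : t + s = 2 * j / A.q - 2 * A.δ) :
    A.Z t - A.Z s = 2 * sin (π * (i / A.p)) * sin (π * ((j + 1) / A.q - A.δ)) := by
  have hp := A.p0
  have hq := A.q0
  have hc := A.cR
  rw [Z_sub]
  have e1 : (A.N : ℝ) * ((t - s) / 2) = 2 * ((A.d * i : ℤ) : ℝ) + -(i / A.p) := by
    rw [h1, N2]; push_cast; field_simp; ring
  have e2 : (A.N : ℝ) * ((t + s) / 2) + 1 / A.q =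
      2 * ((A.c * j - A.e : ℤ) : ℝ) + ((j + 1) / A.q - A.δ) := by
    rw [h2, N1]
    have hδ : A.δ * (A.q * A.c) = A.e := by unfold δ; field_simp
    have hδ' : (A.e : ℝ) = A.δ * (A.q * A.c) := hδ.symm
    push_cast
    rw [hδ']
    field_simp
    ring
  rw [e1, e2, sin_add_int, sin_add_int, mul_neg, Real.sin_neg]
  ring

theorem Z_II {t s : ℝ} {i j : ℤ} (h1 : t + s = 2 * i / A.p) (h2 : t - s = 2 * j / A.q) :
    A.Z t - A.Z s = 2 * sin (π * (j / A.q)) * sin (π * (i / A.p - 1 / A.q)) := by
  have hp := A.p0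
  have hq := A.q0
  rw [Z_sub]
  have e1 : (A.N : ℝ) * ((t - s) / 2) = 2 * ((A.c * j : ℤ) : ℝ) + j / A.q := by
    rw [h2, N1]; push_cast; field_simp
  have e2 : (A.N : ℝ) * ((t + s) / 2) + 1 / A.q =
      2 * ((A.d * i : ℤ) : ℝ) + -(i / A.p - 1 / A.q) := by
    rw [h1, N2]; push_cast; field_simp; ring
  rw [e1, e2, sin_add_int, sin_add_int, mul_neg, Real.sin_neg]
  ring

theorem sin_pos' {x : ℝ} (h0 : 0 < x) (h1 : x < 1) : 0 < sin (π * x) := by
  have hπ := Real.pi_pos
  apply Real.sin_pos_of_pos_of_lt_pi
  · positivity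
  · nlinarith

theorem sin_neg' {x : ℝ} (h0 : x < 0) (h1 : -1 < x) : sin (π * x) < 0 := by
  have := sin_pos' (x := -x) (by linarith) (by linarith)
  rw [mul_neg, Real.sin_neg] at this
  linarith

/-- an interval of length `2 / p` contains a window -/
theorem exists_window {lo hi : ℝ} (h0 : 0 ≤ lo) (h1 : hi ≤ 1) (h2 : 2 / (A.p : ℝ) ≤ hi - lo) :
    ∃ k : ℕ, 1 ≤ k ∧ k < A.p ∧ lo ≤ k / A.p - A.w ∧ k / A.p + A.w ≤ hi := by
  have hp := A.p0
  have hw := A.w_pos
  have hwp := A.w_lt_p
  let k : ℕ := ⌈(A.p : ℝ) * (lo + A.w)⌉₊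
  have hk1 : (A.p : ℝ) * (lo + A.w) ≤ k := Nat.le_ceil _
  have hk2 : (k : ℝ) < A.p * (lo + A.w) + 1 := Nat.ceil_lt_add_one (by positivity)
  have hk3 : lo + A.w ≤ k / A.p := by
    rw [le_div_iff₀ hp]; linarith
  have hk4 : (k : ℝ) / A.p < lo + A.w + 1 / A.p := by
    rw [div_lt_iff₀ hp]
    have : (lo + A.w + 1 / A.p) * A.p = A.p * (lo + A.w) + 1 := by field_simp
    rw [this]; exact hk2
  have h3 : (2 : ℝ) / A.p = 1 / A.p + 1 / A.p := by ring
  have hk5 : (k : ℝ) / A.p + A.w ≤ hi := by linarith
  refine ⟨k, ?_, ?_, by linarith, hk5⟩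
  · have : (0 : ℝ) < k := by
      have : 0 < (A.p : ℝ) * (lo + A.w) := by positivity
      linarith
    exact_mod_cast this
  · have : (k : ℝ) / A.p < 1 := by linarith
    rw [div_lt_one hp] at this
    exact_mod_cast this

/-- the table of the crossings -/
theorem crossing {t s : ℝ} (ht : t ∈ Icc (-1 : ℝ) 1) (hs : s ∈ Icc (-1 : ℝ) 1) (hst : s < t)
    (hX : A.X t = A.X s) (hY : A.Y t = A.Y s) :
    (t = 1 ∧ s = -1) ∨
    (∃ i : ℕ, 1 ≤ i ∧ i < A.p ∧ t = i / A.p - A.δ ∧ s = -(i / A.p + A.δ) ∧ A.Z s < A.Z t) ∨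
    (∃ j : ℕ, 1 ≤ j ∧ j < A.q ∧ t = j / A.q ∧ s = -(j / A.q) ∧ A.Z t < A.Z s) ∨
    (∃ k : ℕ, 1 ≤ k ∧ k < A.p ∧ |s| ≤ k / A.p - A.w ∧ k / A.p + A.w ≤ |t| ∧ A.Z s < A.Z t) ∨
    (∃ k : ℕ, 1 ≤ k ∧ k < A.p ∧ |t| ≤ k / A.p - A.w ∧ k / A.p + A.w ≤ |s| ∧ A.Z t < A.Z s) := by
  have hp := A.p0
  have hq := A.q0
  have hw := A.w_pos
  have hδ := A.δ_pos
  have hwδ := A.w_gt
  have hwq := A.w_lt_q
  have hqp := A.q_lt_p
  obtain ⟨ht1, ht2⟩ := ht
  obtain ⟨hs1, hs2⟩ := hs
  rcases A.coincidence hX hY with ⟨n, hn⟩ | ⟨i, j, h1, h2⟩ | ⟨i, j, h1, h2⟩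
  · left
    have h3 : (0 : ℝ) < n := by linarith
    have h4 : (1 : ℝ) ≤ n := by
      have : (0 : ℤ) < n := by exact_mod_cast h3
      exact_mod_cast this
    constructor <;> linarith
  · right
    have hm : (t + s) / 2 = j / A.q - A.δ := by rw [h2]; ring
    have hh : (t - s) / 2 = i / A.p := by rw [h1]; ring
    set m := (t + s) / 2 with hmdef
    set h := (t - s) / 2 with hhdef
    have htm : t = m + h := by rw [hmdef, hhdef]; ring
    have hsm : s = m - h := by rw [hmdef, hhdef]; ring
    have hh0 : 0 < h := by rw [hhdef]; linarith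
    have hi0 : (0 : ℝ) < i := by
      have : 0 < (i : ℝ) / A.p := by rw [← hh]; exact hh0
      rw [lt_div_iff₀ hp, zero_mul] at this
      exact this
    have hi1 : (1 : ℤ) ≤ i := by
      have : (0 : ℤ) < i := by exact_mod_cast hi0
      omega
    have hi1' : (1 : ℝ) ≤ i := by exact_mod_cast hi1
    have hh1 : 1 / (A.p : ℝ) ≤ h := by rw [hh]; gcongr
    have hmabs : |m| ≤ 1 - h := by
      rw [abs_le]; constructor <;> linarith
    have hm1 := (abs_le.mp hmabs).1
    have hm2 := (abs_le.mp hmabs).2
    have hjz : j ≠ 0 → A.w < |m| := by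
      intro hj
      rcases lt_or_gt_of_ne hj with hj | hj
      · have : (j : ℝ) ≤ -1 := by
          have : j ≤ -1 := by omega
          exact_mod_cast this
        have h5 : (j : ℝ) / A.q ≤ -(1 / A.q) := by
          rw [div_le_iff₀ hq]
          have : -(1 / (A.q : ℝ)) * A.q = -1 := by field_simp
          linarith
        rw [hm, abs_of_neg (by linarith)]
        linarith
      · have : (1 : ℝ) ≤ j := by
          have : 1 ≤ j := by omega
          exact_mod_cast this
        have h5 : 1 / (A.q : ℝ) ≤ (j : ℝ) / A.q := by gcongr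
        rw [hm, abs_of_pos (by linarith)]
        linarith
    have hm0 : m ≠ 0 := by
      by_cases hj : j = 0
      · rw [hm, hj]; simp; exact hδ.ne'
      · intro h0
        have := hjz hj
        rw [h0, abs_zero] at this
        linarith
    have hhlt : h < 1 := by
      have : 0 < |m| := abs_pos.mpr hm0
      linarith
    have hsin : 0 < sin (π * (i / A.p)) := by
      rw [← hh]; exact sin_pos' hh0 hhlt
    have hilt : i < A.p := by
      rw [hh, div_lt_one hp] at hhlt
      exact_mod_cast hhlt
    have hZ := A.Z_I h1 h2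
    have hiN : ((i.toNat : ℕ) : ℝ) = i := by
      have : ((i.toNat : ℕ) : ℤ) = i := Int.toNat_of_nonneg (by omega)
      exact_mod_cast this
    rcases lt_trichotomy j 0 with hj | hj | hj
    · -- `j < 0`
      right; right; right
      have hj1 : (j : ℝ) ≤ -1 := by
        have : j ≤ -1 := by omega
        exact_mod_cast this
      have hmneg : m < 0 := by
        have : (j : ℝ) / A.q ≤ 0 := div_nonpos_of_nonpos_of_nonneg (by linarith) hq.le
        rw [hm]; linarith
      have hmw := hjz hj.ne
      rw [abs_of_neg hmneg] at hmw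
      have hZlt : A.Z t < A.Z s := by
        have h5 : ((j : ℝ) + 1) / A.q - A.δ < 0 := by
          have : ((j : ℝ) + 1) / A.q ≤ 0 := div_nonpos_of_nonpos_of_nonneg (by linarith) hq.le
          linarith
        have h6 : -1 < ((j : ℝ) + 1) / A.q - A.δ := by
          have : ((j : ℝ) + 1) / A.q - A.δ = m + 1 / A.q := by rw [hm]; ring
          rw [this]
          have : 0 < 1 / (A.q : ℝ) := by positivity
          linarith
        have := sin_neg' h5 h6
        nlinarith
      by_cases ht0 : 0 < t
      · refine ⟨i.toNat, by omega, by omega, ?_, ?_, hZlt⟩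
        · rw [abs_of_pos ht0, hiN, ← hh]; linarith
        · rw [abs_of_neg (by linarith), hiN, ← hh]; linarith
      · have ht0' : t ≤ 0 := not_lt.mp ht0
        obtain ⟨k, hk1, hk2, hk3, hk4⟩ := A.exists_window (lo := |t|) (hi := |s|) (abs_nonneg _)
          (by rw [abs_of_neg (by linarith)]; linarith)
          (by
            rw [abs_of_neg (by linarith : s < 0), abs_of_nonpos ht0']
            have : (2 : ℝ) / A.p = 2 * (1 / A.p) := by ring
            rw [this]; linarith)
        exact ⟨k, hk1, hk2, hk3, hk4, hZlt⟩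
    · -- `j = 0`
      left
      subst hj
      refine ⟨i.toNat, by omega, by omega, ?_, ?_, ?_⟩
      · rw [hiN, htm, hm, hh]; simp; ring
      · rw [hiN, hsm, hm, hh]; simp; ring
      · have h5 : 0 < (((0 : ℤ) : ℝ) + 1) / A.q - A.δ := by
          have : (((0 : ℤ) : ℝ) + 1) / A.q = 1 / A.q := by simp
          rw [this]; linarith
        have h6 : (((0 : ℤ) : ℝ) + 1) / A.q - A.δ < 1 := by
          have : (((0 : ℤ) : ℝ) + 1) / A.q = 1 / A.q := by simp
          rw [this]
          have : 1 / (A.q : ℝ) ≤ 1 := by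
            rw [div_le_one hq]; linarith [A.qR]
          linarith
        have := sin_pos' h5 h6
        have h7 := mul_pos hsin this
        linarith
    · -- `j > 0`
      right; right; left
      have hj1 : (1 : ℝ) ≤ j := by
        have : 1 ≤ j := by omega
        exact_mod_cast this
      have h1q : 1 / (A.q : ℝ) ≤ (j : ℝ) / A.q := by gcongr
      have hmpos : 0 < m := by rw [hm]; linarith
      have hmw := hjz hj.ne'
      rw [abs_of_pos hmpos] at hmw
      have hZlt : A.Z s < A.Z t := by
        have e : ((j : ℝ) + 1) / A.q - A.δ = m + 1 / A.q := by rw [hm]; ring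
        have h5 : 0 < ((j : ℝ) + 1) / A.q - A.δ := by
          rw [e]; positivity
        have h6 : ((j : ℝ) + 1) / A.q - A.δ < 1 := by
          rw [e]; linarith
        have := sin_pos' h5 h6
        have h7 := mul_pos hsin this
        linarith
      by_cases hs0 : s < 0
      · refine ⟨i.toNat, by omega, by omega, ?_, ?_, hZlt⟩
        · rw [abs_of_neg hs0, hiN, ← hh]; linarith
        · rw [abs_of_pos (by linarith), hiN, ← hh]; linarith
      · have hs0' : 0 ≤ s := not_lt.mp hs0
        obtain ⟨k, hk1, hk2, hk3, hk4⟩ := A.exists_window (lo := |s|) (hi := |t|) (abs_nonneg _)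
          (by rw [abs_of_pos (by linarith)]; linarith)
          (by
            rw [abs_of_pos (by linarith : 0 < t), abs_of_nonneg hs0']
            have : (2 : ℝ) / A.p = 2 * (1 / A.p) := by ring
            rw [this]; linarith)
        exact ⟨k, hk1, hk2, hk3, hk4, hZlt⟩
  · -- type II
    have hm : (t + s) / 2 = i / A.p := by rw [h1]; ring
    have hh : (t - s) / 2 = j / A.q := by rw [h2]; ring
    set m := (t + s) / 2 with hmdef
    set h := (t - s) / 2 with hhdef
    have htm : t = m + h := by rw [hmdef, hhdef]; ring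
    have hsm : s = m - h := by rw [hmdef, hhdef]; ring
    have hh0 : 0 < h := by rw [hhdef]; linarith
    have hj0 : (0 : ℝ) < j := by
      have : 0 < (j : ℝ) / A.q := by rw [← hh]; exact hh0
      rw [lt_div_iff₀ hq, zero_mul] at this
      exact this
    have hj1 : (1 : ℤ) ≤ j := by
      have : (0 : ℤ) < j := by exact_mod_cast hj0
      omega
    have hj1' : (1 : ℝ) ≤ j := by exact_mod_cast hj1
    have hh1 : 1 / (A.q : ℝ) ≤ h := by rw [hh]; gcongr
    have hmabs : |m| ≤ 1 - h := by
      rw [abs_le]; constructor <;> linarith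
    have hm1 := (abs_le.mp hmabs).1
    have hm2 := (abs_le.mp hmabs).2
    rcases eq_or_lt_of_le (show h ≤ 1 by have := abs_nonneg m; linarith) with hh1' | hhlt
    · left
      have hm0 : m = 0 := by
        rw [hh1'] at hmabs
        have : |m| ≤ 0 := by linarith
        exact abs_nonpos_iff.mp this
      constructor <;> linarith
    · right
      have hsin : 0 < sin (π * (j / A.q)) := by
        rw [← hh]; exact sin_pos' hh0 hhlt
      have hjlt : j < A.q := by
        rw [hh, div_lt_one hq] at hhlt
        exact_mod_cast hhlt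
      have hZ := A.Z_II h1 h2
      have hjN : ((j.toNat : ℕ) : ℝ) = j := by
        have : ((j.toNat : ℕ) : ℤ) = j := Int.toNat_of_nonneg (by omega)
        exact_mod_cast this
      rcases lt_trichotomy i 0 with hi | hi | hi
      · right; right; right
        have hi1 : (i : ℝ) ≤ -1 := by
          have : i ≤ -1 := by omega
          exact_mod_cast this
        have hm3 : m ≤ -(1 / A.p) := by
          rw [hm, div_le_iff₀ hp]
          have : -(1 / (A.p : ℝ)) * A.p = -1 := by field_simp
          linarith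
        have h1p : 0 < 1 / (A.p : ℝ) := by positivity
        have h1q : 0 < 1 / (A.q : ℝ) := by positivity
        have hmneg : m < 0 := by linarith
        have hZlt : A.Z t < A.Z s := by
          have h5 : (i : ℝ) / A.p - 1 / A.q < 0 := by rw [← hm]; linarith
          have h6 : -1 < (i : ℝ) / A.p - 1 / A.q := by
            rw [← hm]
            have h7 : -1 ≤ m - 1 / A.q := by linarith
            rcases eq_or_lt_of_le h7 with h8 | h8
            · exfalso
              have h9 : (i : ℝ) / A.p = 1 / A.q - 1 := by rw [← hm]; linarith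
              have h10 : (i : ℝ) * A.q = A.p * (1 - A.q) := by
                field_simp at h9
                linarith
              have h11 : i * A.q = A.p * (1 - (A.q : ℤ)) := by exact_mod_cast h10
              have h12 : (A.q : ℤ) * (i + A.p) = A.p := by linarith
              have h13 : (A.p : ℤ) < A.q := by exact_mod_cast A.hpq
              have h14 : (0 : ℤ) < A.p := by exact_mod_cast (by have := A.hp2; omega : 0 < A.p)
              have h15 : 0 < i + A.p := by
                by_contra h
                have : (A.q : ℤ) * (i + A.p) ≤ 0 :=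
                  mul_nonpos_of_nonneg_of_nonpos (by omega) (by omega)
                omega
              nlinarith
            · exact h8
          have := sin_neg' h5 h6
          nlinarith
        by_cases ht0 : 0 < t
        · obtain ⟨k, hk1, hk2, hk3, hk4⟩ := A.exists_window (lo := |t|) (hi := |s|) (abs_nonneg _)
            (by rw [abs_of_neg (by linarith)]; linarith)
            (by
              rw [abs_of_neg (by linarith : s < 0), abs_of_pos ht0]
              have : (2 : ℝ) / A.p = 2 * (1 / A.p) := by ring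
              rw [this]; linarith)
          exact ⟨k, hk1, hk2, hk3, hk4, hZlt⟩
        · have ht0' : t ≤ 0 := not_lt.mp ht0
          have hiN : (((-i).toNat : ℕ) : ℝ) = -i := by
            have : (((-i).toNat : ℕ) : ℤ) = -i := Int.toNat_of_nonneg (by omega)
            exact_mod_cast this
          have hilt : -i < A.p := by
            have : -(i : ℝ) / A.p < 1 := by
              have : -(i : ℝ) / A.p = -m := by rw [hm]; ring
              rw [this]; linarith
            rw [div_lt_one hp] at this
            exact_mod_cast this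
          refine ⟨(-i).toNat, by omega, by omega, ?_, ?_, hZlt⟩
          · rw [abs_of_nonpos ht0', hiN]
            have : -(i : ℝ) / A.p = -m := by rw [hm]; ring
            rw [this]; linarith
          · rw [abs_of_neg (by linarith), hiN]
            have : -(i : ℝ) / A.p = -m := by rw [hm]; ring
            rw [this]; linarith
      · right; left
        subst hi
        have hm0 : m = 0 := by rw [hm]; simp
        refine ⟨j.toNat, by omega, by omega, ?_, ?_, ?_⟩
        · rw [hjN, ← hh]; linarith
        · rw [hjN, ← hh]; linarith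
        · have h1q : 0 < 1 / (A.q : ℝ) := by positivity
          have h1q' : 1 / (A.q : ℝ) < 1 := by
            rw [div_lt_one hq]; linarith [A.qR]
          have e0 : (((0 : ℤ) : ℝ) / A.p - 1 / A.q) = -(1 / A.q) := by
            rw [Int.cast_zero, zero_div, zero_sub]
          have := sin_neg' (x := (((0 : ℤ) : ℝ) / A.p - 1 / A.q)) (by rw [e0]; linarith)
            (by rw [e0]; linarith)
          have h7 := mul_pos_of_neg_of_neg this (by linarith : -(2 * sin (π * (j / A.q))) < 0)
          linarith
      · right; right; left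
        have hi1 : (1 : ℝ) ≤ i := by
          have : 1 ≤ i := by omega
          exact_mod_cast this
        have hm3 : 1 / A.p ≤ m := by
          rw [hm]; gcongr
        have h1p : 0 < 1 / (A.p : ℝ) := by positivity
        have h1q : 0 < 1 / (A.q : ℝ) := by positivity
        have hZlt : A.Z s < A.Z t := by
          have h5 : 0 < (i : ℝ) / A.p - 1 / A.q := by rw [← hm]; linarith
          have h6 : (i : ℝ) / A.p - 1 / A.q < 1 := by rw [← hm]; linarith
          have := sin_pos' h5 h6
          have h7 := mul_pos hsin this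
          linarith
        by_cases hs0 : s < 0
        · obtain ⟨k, hk1, hk2, hk3, hk4⟩ := A.exists_window (lo := |s|) (hi := |t|) (abs_nonneg _)
            (by rw [abs_of_pos (by linarith)]; linarith)
            (by
              rw [abs_of_pos (by linarith : 0 < t), abs_of_neg hs0]
              have : (2 : ℝ) / A.p = 2 * (1 / A.p) := by ring
              rw [this]; linarith)
          exact ⟨k, hk1, hk2, hk3, hk4, hZlt⟩
        · have hs0' : 0 ≤ s := not_lt.mp hs0
          have hiN : ((i.toNat : ℕ) : ℝ) = i := by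
            have : ((i.toNat : ℕ) : ℤ) = i := Int.toNat_of_nonneg (by omega)
            exact_mod_cast this
          have hilt : i < A.p := by
            have : (i : ℝ) / A.p < 1 := by
              rw [← hm]; linarith
            rw [div_lt_one hp] at this
            exact_mod_cast this
          refine ⟨i.toNat, by omega, by omega, ?_, ?_, hZlt⟩
          · rw [abs_of_nonneg hs0', hiN, ← hm]; linarith
          · rw [abs_of_pos (by linarith), hiN, ← hm]; linarith

end Par

end Liss579
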