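import Pool.Agent.Helper579_Lis.Shrink

/-!
Decomposition of the layered curve along horizontal planes.
-/

set_option autoImplicit false

namespace Liss579

open Knot548 Set Real Filter Topology

theorem smo_union {f : ℝ → ℝ} {a b c : ℝ} (hab : a ≤ b) (hbc : b ≤ c)
    (h1 : StrictMonoOn f (Icc a b)) (h2 : StrictMonoOn f (Icc b c)) : StrictMonoOn f (Icc a c) := by
  have := StrictMonoOn.union h1 h2 (c := b) ⟨⟨hab, le_rfl⟩, fun x hx => hx.2⟩
    ⟨⟨le_rfl, hbc⟩, fun x hx => hx.1⟩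
  rwa [Icc_union_Icc_eq_Icc hab hbc] at this

theorem zst_neg (b : Bool) (v : ℝ) : zst b (-v) = -zst (!b) v := by
  cases b
  · simp only [zst, Bool.false_eq_true, if_false, Bool.not_false, if_true]
    rw [Gf_neg, Ef_neg]; ring
  · simp only [zst, Bool.false_eq_true, if_false, Bool.not_true, if_true]
    rw [Gf_neg, Ef_neg]; ring

theorem zst_below (b : Bool) {v : ℝ} (h : v ∈ Icc (-1 : ℝ) (3 / 4)) : zst b v ≤ 11 / 8 := by
  have h1 := zst_above (!b) (v := -v) ⟨by linarith [h.2], by linarith [h.1]⟩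
  have h2 := zst_neg (!b) v
  rw [Bool.not_not] at h2
  rw [h2] at h1
  linarith

theorem zst_lt_two (b : Bool) {v : ℝ} (h1 : -1 ≤ v) (h2 : v < 1) : zst b v < 2 := by
  rcases le_total v (3 / 4) with h | h
  · have := zst_below b ⟨h1, h⟩
    linarith
  · have m1 : (-1 : ℝ) ∈ Icc (-1 : ℝ) (-(3 / 4)) := ⟨le_rfl, by norm_num⟩
    have m2 : -v ∈ Icc (-1 : ℝ) (-(3 / 4)) := ⟨by linarith, by linarith⟩
    have e2 := zst_strict_lo (!b) m1 m2 (by linarith)
    rw [zst_left _ le_rfl, zst_neg, Bool.not_not] at e2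
    linarith

namespace Par

variable (A : Par)

theorem st_cont (b : Bool) : Continuous (A.st b) := by
  obtain ⟨L, hL0, hL⟩ := A.st_lip b
  have : LipschitzWith L.toNNReal (A.st b) := by
    apply LipschitzWith.of_dist_le_mul
    intro x y
    rw [dist_eq_norm, dist_eq_norm, Real.coe_toNNReal L hL0]
    exact hL x y
  exact this.continuous

theorem st_two (b : Bool) (H : ℝ) : A.st b H 2 = A.ζ b H := by simp [st]

theorem st_ne {H H' : ℝ} (h : H ∈ Ioo (0 : ℝ) 1) (h' : H' ∈ Ioo (0 : ℝ) 1) :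
    A.st true H ≠ A.st false H' := by
  intro heq
  have e0 : A.X H = A.X (-H') := by
    have := congrFun heq 0
    simp only [st, Matrix.cons_val] at this
    rw [this, A.X_neg]
  have e1 : A.Y H = A.Y (-H') := by
    have := congrFun heq 1
    simpa [st] using this
  have e2 : A.ζ true H = A.ζ false H' := by
    have := congrFun heq 2
    simpa [st] using this
  rcases A.sign_crossing (t := H) (s := -H') ⟨by linarith [h.1], by linarith [h.2]⟩
    ⟨by linarith [h'.2], by linarith [h'.1]⟩ (by linarith [h.1, h'.1]) e0 e1 with ⟨h3, _⟩ | h3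
  · linarith [h.2]
  · rw [A.ζf_nonneg h.1.le, A.ζf_nonpos (by linarith [h'.1]), neg_neg, e2, sub_self, mul_zero] at h3
    exact lt_irrefl _ h3

/-! ### monotone regions -/

theorem ζ_gap_mono {k : ℕ} (hk : k < A.p) (b : Bool) :
    StrictMonoOn (A.ζ b) (Icc (k / A.p + A.w) ((k + 1) / A.p - A.w)) := by
  intro x hx y hy hxy
  rw [A.ζ_gap hk b hx.1 hx.2, A.ζ_gap hk b hy.1 hy.2]
  have h1 := hx.1; have h2 := hx.2; have h3 := hy.1; have h4 := hy.2
  rw [add_div] at h2 h4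
  have m1 : x - k / A.p ∈ Icc A.w (1 / A.p - A.w) := ⟨by linarith, by linarith⟩
  have m2 : y - k / A.p ∈ Icc A.w (1 / A.p - A.w) := ⟨by linarith, by linarith⟩
  have := A.gap_strict b m1 m2 (by linarith)
  linarith

theorem ζ_ztr_mono {k : ℕ} (hk0 : k ≠ 0) (hk : k < A.p) (ht : ¬ A.tref k) (b : Bool) :
    StrictMonoOn (A.ζ b) (Icc (k / A.p - A.w) (k / A.p + A.w)) := by
  intro x hx y hy hxy
  have hx' : |x - k / A.p| ≤ A.w := by rw [abs_le]; constructor <;> linarith [hx.1, hx.2]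
  have hy' : |y - k / A.p| ≤ A.w := by rw [abs_le]; constructor <;> linarith [hy.1, hy.2]
  rw [A.ζ_window hk.le b hx', A.ζ_window hk.le b hy']
  unfold prof
  rw [if_neg (by omega), if_neg ht, if_neg (by omega), if_neg ht]
  have hr : ∀ u, |u| ≤ A.w → A.rho u ∈ Icc (-1 : ℝ) 1 := by
    intro u hu
    rw [abs_le] at hu
    have e1 := A.rho_strict.monotone hu.1
    have e2 := A.rho_strict.monotone hu.2
    rw [A.rho_neg, A.rho_w] at e1
    rw [A.rho_w] at e2
    exact ⟨e1, e2⟩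
  have := ztr_strict b (hr _ hx') (hr _ hy') (A.rho_strict (by linarith))
  linarith

theorem ζ_cap0_mono (b : Bool) : StrictMonoOn (A.ζ b) (Icc 0 A.w) := by
  intro x hx y hy hxy
  rw [A.ζ_first b hx.1 hx.2, A.ζ_first b hy.1 hy.2]
  have := A.rho_strict hxy
  linarith

theorem ζ_cap1_mono (b : Bool) : StrictMonoOn (A.ζ b) (Icc (1 - A.w) 1) := by
  intro x hx y hy hxy
  have e1 := A.ζ_last b (u := 1 - x) (by linarith [hx.2]) (by linarith [hx.1])
  have e2 := A.ζ_last b (u := 1 - y) (by linarith [hy.2]) (by linarith [hy.1])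
  rw [sub_sub_cancel] at e1 e2
  rw [e1, e2]
  have := A.rho_strict (by linarith : 1 - y < 1 - x)
  linarith

/-! ### values at the ends of the windows -/

theorem ζ_wleft {k : ℕ} (hk : k ≤ A.p) (b : Bool) : A.ζ b (k / A.p - A.w) = 5 * k - 2 := by
  have e : (k : ℝ) / A.p - A.w - k / A.p = -A.w := by ring
  rw [A.ζ_window hk b (by rw [e, abs_neg, abs_of_pos A.w_pos]), e, A.rho_neg, A.rho_w,
    A.prof_left k b le_rfl]
  ring

theorem ζ_wright {k : ℕ} (hk : k ≤ A.p) (b : Bool) : A.ζ b (k / A.p + A.w) = 5 * k + 2 := by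
  have e : (k : ℝ) / A.p + A.w - k / A.p = A.w := by ring
  rw [A.ζ_window hk b (by rw [e, abs_of_pos A.w_pos]), e, A.rho_w,
    A.prof_right k b le_rfl]

theorem ζ_above {k : ℕ} (hk : k < A.p) (b : Bool) {H : ℝ} (h : (k + 1) / A.p - A.w ≤ H) :
    5 * k + 3 ≤ A.ζ b H := by
  rw [add_div] at h
  have hw := A.w_lt_p
  have := A.ζ_ge hk b (H := H) (by linarith [A.w_pos])
  rw [A.gap_right b (by linarith)] at this
  linarith

theorem ζ_gt_cut {k : ℕ} (hk : k < A.p) (b : Bool) {H : ℝ} (h : k / A.p + A.w < H) :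
    5 * k + 2 < A.ζ b H := by
  have := A.ζ_ge hk b (H := H) h.le
  have := A.gap_pos b (u := H - k / A.p) (by linarith)
  linarith

theorem rho_mem {u : ℝ} (hu : |u| ≤ A.w) : A.rho u ∈ Icc (-1 : ℝ) 1 := by
  rw [abs_le] at hu
  have e1 := A.rho_strict.monotone hu.1
  have e2 := A.rho_strict.monotone hu.2
  rw [A.rho_neg, A.rho_w] at e1
  rw [A.rho_w] at e2
  exact ⟨e1, e2⟩

theorem ζ_tref {k : ℕ} (hk0 : k ≠ 0) (hk : k < A.p) (ht : A.tref k) (b : Bool) {H : ℝ}
    (h : |H - k / A.p| ≤ A.w) : A.ζ b H = 5 * k + zst b (A.rho (H - k / A.p)) := by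
  rw [A.ζ_window hk.le b h]
  unfold prof
  rw [if_neg (by omega), if_pos ht]

theorem ζ_lt_cut {k : ℕ} (hk0 : k ≠ 0) (hk : k < A.p) (ht : A.tref k) (b : Bool) {H : ℝ}
    (h : H < k / A.p + A.w) : A.ζ b H < 5 * k + 2 := by
  rcases le_total H (k / A.p - A.w) with h1 | h1
  · have := A.ζ_le (k := k) (by omega) hk.le b h1
    have := (A.gap_bd b (H - (k - 1) / A.p)).2
    linarith
  · have h2 : |H - k / A.p| ≤ A.w := by rw [abs_le]; constructor <;> linarith
    rw [A.ζ_tref hk0 hk ht b h2]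
    have := zst_lt_two b (A.rho_mem h2).1 (by
      rw [← A.rho_w]; exact A.rho_strict (by linarith))
    linarith

/-! ### pieces -/

theorem pc_split {a g b : ℝ} (h1 : a ≤ g) (h2 : g ≤ b) :
    A.pc a b = ((A.st true '' Icc g b ∪ A.st false '' Icc g b) ∪
      segment ℝ (A.st true b) (A.st false b)) ∪ A.st true '' Icc a g ∪ A.st false '' Icc a g ∪
        segment ℝ (A.st true a) (A.st false a) := by
  unfold pc
  rw [← Icc_union_Icc_eq_Icc h1 h2, image_union, image_union]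
  ext x
  simp only [mem_union]
  tauto

theorem seg_two {H : ℝ} {x : R3} (h : A.ζ true H = A.ζ false H)
    (hx : x ∈ segment ℝ (A.st true H) (A.st false H)) : x 2 = A.ζ true H := by
  rw [segment_eq_image'] at hx
  obtain ⟨s, _, rfl⟩ := hx
  simp only [Pi.add_apply, Pi.smul_apply, Pi.sub_apply, smul_eq_mul, st_two, h]
  ring

/-- shrinking a piece from the bottom through a monotone region -/
theorem pc_shrink {lo mid g hi z0 z1 z2 : ℝ} (hlo : 0 < lo) (h1 : lo ≤ mid) (h2 : mid < g) (h3 : g ≤ hi)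
    (hhi : hi < 1)
    (hm : ∀ b, StrictMonoOn (A.ζ b) (Icc lo g))
    (e0 : ∀ b, A.ζ b lo = z0) (e1 : ∀ b, A.ζ b mid = z1) (e2 : ∀ b, A.ζ b g = z2)
    (habove : ∀ b, ∀ H ∈ Icc g hi, z2 ≤ A.ζ b H) (htop : A.ζ true hi = A.ζ false hi) :
    AmbIso (A.pc lo hi) (A.pc mid hi) := by
  rw [A.pc_split (h1.trans h2.le) h3, A.pc_split h2.le h3]
  apply shrink_bot _ (A.st true) (A.st false) (A.st_cont true) (A.st_cont false)
    (f0 := g) (g0 := g) (h1 := mid) (h2 := lo) (a := z2) (b := z1) (c := z0) h2 h2 h1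
  · intro x hx y hy hxy
    simp only [st_two]
    exact hm true hx hy hxy
  · intro x hx y hy hxy
    simp only [st_two]
    exact hm false hx hy hxy
  · rw [st_two, e2]
  · rw [st_two, e2]
  · rw [st_two, e1]
  · rw [st_two, e1]
  · rw [st_two, e0]
  · rw [st_two, e0]
  · intro s hs t ht
    exact A.st_ne ⟨by linarith [hs.1], by linarith [hs.2]⟩ ⟨by linarith [ht.1], by linarith [ht.2]⟩
  · rintro x ((⟨H, hH, rfl⟩ | ⟨H, hH, rfl⟩) | hx)
    · rw [st_two]; exact habove true H hH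
    · rw [st_two]; exact habove false H hH
    · rw [A.seg_two htop hx]
      exact habove true hi ⟨h3, le_rfl⟩

/-- the cut after the window `k` -/
noncomputable def cut (k : ℕ) : ℝ := k / A.p + A.w

theorem top_eq (b : Bool) : A.ζ b (1 - A.h0) = 5 * A.p - 2 * A.rho A.h0 :=
  A.ζ_last b A.h0_pos.le A.h0_lt_w.le

theorem cut_succ_le {k : ℕ} (hk : k < A.p) : (k + 1 : ℝ) / A.p - A.w ≤ 1 - A.w := by
  have hp := A.p0
  have : (k + 1 : ℝ) ≤ A.p := by exact_mod_cast hk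
  have : (k + 1 : ℝ) / A.p ≤ 1 := by rw [div_le_one hp]; exact this
  linarith

theorem start_step : AmbIso (A.pc A.h0 (1 - A.h0)) (A.pc (A.cut 0) (1 - A.h0)) := by
  have hp := A.p0
  have hw := A.w_lt_p
  have hw0 := A.w_pos
  have h0 := A.h0_pos
  have h0w := A.h0_lt_w
  have hp2 := A.hp2
  have hc : A.cut 0 = A.w := by unfold cut; simp
  rw [hc]
  have key := A.cut_succ_le (k := 0) (by omega)
  rw [Nat.cast_zero, zero_add] at key
  have e2 : ∀ b, A.ζ b (1 / A.p - A.w) = 3 := by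
    intro b
    have := A.ζ_wleft (k := 1) (by omega) b
    rw [Nat.cast_one] at this
    rw [this]; norm_num
  apply A.pc_shrink (lo := A.h0) (mid := A.w) (g := 1 / A.p - A.w) (hi := 1 - A.h0)
    (z0 := 2 * A.rho A.h0) (z1 := 2) (z2 := 3) h0 h0w.le (by linarith) (by linarith) (by linarith)
  · intro b
    apply smo_union (b := A.w) h0w.le (by linarith)
    · exact (A.ζ_cap0_mono b).mono (Icc_subset_Icc h0.le le_rfl)
    · have := A.ζ_gap_mono (k := 0) (by omega) b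
      rwa [Nat.cast_zero, zero_add, zero_div, zero_add] at this
  · intro b; exact A.ζ_first b h0.le h0w.le
  · intro b; rw [A.ζ_first b hw0.le le_rfl, A.rho_w]; norm_num
  · exact e2
  · intro b H hH
    have := A.ζ_above (k := 0) (by omega) b (H := H) (by rw [Nat.cast_zero, zero_add]; exact hH.1)
    rw [Nat.cast_zero] at this
    linarith
  · rw [A.top_eq, A.top_eq]

theorem cut_pos (k : ℕ) : 0 < A.cut k := by
  have := A.w_pos
  have := A.p0
  unfold cut
  positivity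

theorem triv_step {k : ℕ} (hk0 : k ≠ 0) (hk : k < A.p) (ht : ¬ A.tref k) :
    AmbIso (A.pc (A.cut (k - 1)) (1 - A.h0)) (A.pc (A.cut k) (1 - A.h0)) := by
  obtain ⟨m, rfl⟩ : ∃ m, k = m + 1 := ⟨k - 1, by omega⟩
  rw [Nat.add_sub_cancel]
  have hp := A.p0
  have hw := A.w_lt_p
  have hw0 := A.w_pos
  have h0 := A.h0_pos
  have h0w := A.h0_lt_w
  have key := A.cut_succ_le hk
  have e3 : ((m + 1 : ℕ) : ℝ) / A.p = m / A.p + 1 / A.p := by push_cast; rw [add_div]
  have e4 : (((m + 1 : ℕ) : ℝ) + 1) / A.p = m / A.p + 1 / A.p + 1 / A.p := by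
    push_cast; rw [add_div, add_div]
  apply A.pc_shrink (lo := A.cut m) (mid := A.cut (m + 1))
    (g := ((m + 1 : ℕ) + 1) / A.p - A.w) (hi := 1 - A.h0)
    (z0 := 5 * m + 2) (z1 := 5 * (m + 1 : ℕ) + 2) (z2 := 5 * (m + 1 : ℕ) + 3) (A.cut_pos m)
  · unfold cut; rw [e3]; have : 0 < 1 / (A.p : ℝ) := by positivity
    linarith
  · unfold cut; rw [e4, e3]; linarith
  · linarith
  · linarith
  · intro b
    have i1 := A.ζ_gap_mono (k := m) (by omega) b
    have i2 := A.ζ_ztr_mono hk0 hk ht b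
    have i3 := A.ζ_gap_mono hk b
    have e5 : ((m : ℝ) + 1) / A.p = ((m + 1 : ℕ) : ℝ) / A.p := by push_cast; rfl
    rw [e5] at i1
    apply smo_union (b := (m + 1 : ℕ) / A.p + A.w) _ _ _ i3
    · unfold cut; rw [e3]; have : 0 < 1 / (A.p : ℝ) := by positivity
      linarith
    · rw [e4, e3]; linarith
    · apply smo_union (b := (m + 1 : ℕ) / A.p - A.w) _ _ i1 i2
      · rw [e3]; linarith
      · linarith
  · intro b; exact A.ζ_wright (by omega) b
  · intro b; exact A.ζ_wright hk.le b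
  · intro b
    have := A.ζ_wleft (k := m + 1 + 1) (by omega) b
    have e5 : (((m + 1 : ℕ) : ℝ) + 1) = ((m + 1 + 1 : ℕ) : ℝ) := by push_cast; rfl
    rw [e5, this]
    push_cast
    ring
  · intro b H hH
    exact A.ζ_above hk b hH.1
  · rw [A.top_eq, A.top_eq]

/-! ### the cut of a piece along a plane -/

section CutPlane

variable {k : ℕ} {lo : ℝ}

theorem pc_le (hk0 : k ≠ 0) (hk : k < A.p) (ht : A.tref k) (h1 : lo < A.cut k)
    (h2 : A.cut k < 1 - A.h0) (hlo : A.ζ true lo = A.ζ false lo) :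
    {x ∈ A.pc lo (1 - A.h0) | x 2 ≤ 5 * k + 2} ∪
      segment ℝ (A.st true (A.cut k)) (A.st false (A.cut k)) = A.pc lo (A.cut k) := by
  have hlt : ∀ b, ∀ H, H < A.cut k → A.ζ b H < 5 * k + 2 := fun b H h => A.ζ_lt_cut hk0 hk ht b h
  have hgt : ∀ b, ∀ H, A.cut k < H → 5 * k + 2 < A.ζ b H := fun b H h => A.ζ_gt_cut hk b h
  have heq : ∀ b, A.ζ b (A.cut k) = 5 * k + 2 := fun b => A.ζ_wright hk.le b
  have htop : A.ζ true (1 - A.h0) = A.ζ false (1 - A.h0) := by rw [A.top_eq, A.top_eq]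
  have hst : ∀ b H, A.st b H 2 ≤ 5 * k + 2 → H ≤ A.cut k := by
    intro b H h
    rw [st_two] at h
    by_contra hc
    have := hgt b H (not_le.mp hc)
    linarith
  unfold pc
  ext x
  constructor
  · rintro (⟨(⟨H, hH, rfl⟩ | ⟨H, hH, rfl⟩) | (hx | hx), hx2⟩ | hx)
    · exact Or.inl (Or.inl ⟨H, ⟨hH.1, hst _ _ hx2⟩, rfl⟩)
    · exact Or.inl (Or.inr ⟨H, ⟨hH.1, hst _ _ hx2⟩, rfl⟩)
    · exact Or.inr (Or.inl hx)
    · exfalso
      rw [A.seg_two htop hx] at hx2
      have := hgt true _ h2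
      linarith
    · exact Or.inr (Or.inr hx)
  · have hle : ∀ b, ∀ H, H ≤ A.cut k → A.ζ b H ≤ 5 * k + 2 := by
      intro b H h
      rcases h.lt_or_eq with h | h
      · exact (hlt b H h).le
      · rw [h, heq]
    rintro ((⟨H, hH, rfl⟩ | ⟨H, hH, rfl⟩) | (hx | hx))
    · exact Or.inl ⟨Or.inl (Or.inl ⟨H, ⟨hH.1, hH.2.trans h2.le⟩, rfl⟩), by
        rw [st_two]; exact hle _ _ hH.2⟩
    · exact Or.inl ⟨Or.inl (Or.inr ⟨H, ⟨hH.1, hH.2.trans h2.le⟩, rfl⟩), by
        rw [st_two]; exact hle _ _ hH.2⟩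
    · refine Or.inl ⟨Or.inr (Or.inl hx), ?_⟩
      rw [A.seg_two hlo hx]
      exact hle _ _ h1.le
    · exact Or.inr hx

theorem pc_ge (hk0 : k ≠ 0) (hk : k < A.p) (ht : A.tref k) (h1 : lo < A.cut k)
    (h2 : A.cut k < 1 - A.h0) (hlo : A.ζ true lo = A.ζ false lo) :
    {x ∈ A.pc lo (1 - A.h0) | 5 * k + 2 ≤ x 2} ∪
      segment ℝ (A.st true (A.cut k)) (A.st false (A.cut k)) = A.pc (A.cut k) (1 - A.h0) := by
  have hlt : ∀ b, ∀ H, H < A.cut k → A.ζ b H < 5 * k + 2 := fun b H h => A.ζ_lt_cut hk0 hk ht b h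
  have hgt : ∀ b, ∀ H, A.cut k < H → 5 * k + 2 < A.ζ b H := fun b H h => A.ζ_gt_cut hk b h
  have heq : ∀ b, A.ζ b (A.cut k) = 5 * k + 2 := fun b => A.ζ_wright hk.le b
  have htop : A.ζ true (1 - A.h0) = A.ζ false (1 - A.h0) := by rw [A.top_eq, A.top_eq]
  have hst : ∀ b H, 5 * k + 2 ≤ A.st b H 2 → A.cut k ≤ H := by
    intro b H h
    rw [st_two] at h
    by_contra hc
    have := hlt b H (not_le.mp hc)
    linarith
  have hge : ∀ b, ∀ H, A.cut k ≤ H → 5 * k + 2 ≤ A.ζ b H := by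
    intro b H h
    rcases h.lt_or_eq with h | h
    · exact (hgt b H h).le
    · rw [← h, heq]
  unfold pc
  ext x
  constructor
  · rintro (⟨(⟨H, hH, rfl⟩ | ⟨H, hH, rfl⟩) | (hx | hx), hx2⟩ | hx)
    · exact Or.inl (Or.inl ⟨H, ⟨hst _ _ hx2, hH.2⟩, rfl⟩)
    · exact Or.inl (Or.inr ⟨H, ⟨hst _ _ hx2, hH.2⟩, rfl⟩)
    · exfalso
      rw [A.seg_two hlo hx] at hx2
      have := hlt true _ h1
      linarith
    · exact Or.inr (Or.inr hx)
    · exact Or.inr (Or.inl hx)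
  · rintro ((⟨H, hH, rfl⟩ | ⟨H, hH, rfl⟩) | (hx | hx))
    · exact Or.inl ⟨Or.inl (Or.inl ⟨H, ⟨h1.le.trans hH.1, hH.2⟩, rfl⟩), by
        rw [st_two]; exact hge _ _ hH.1⟩
    · exact Or.inl ⟨Or.inl (Or.inr ⟨H, ⟨h1.le.trans hH.1, hH.2⟩, rfl⟩), by
        rw [st_two]; exact hge _ _ hH.1⟩
    · exact Or.inr hx
    · refine Or.inl ⟨Or.inr (Or.inr hx), ?_⟩
      rw [A.seg_two htop hx]
      exact hge _ _ h2.le

theorem pc_plane (hk0 : k ≠ 0) (hk : k < A.p) (ht : A.tref k) (h1 : lo < A.cut k)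
    (h2 : A.cut k < 1 - A.h0) (hlo : A.ζ true lo = A.ζ false lo) :
    {x ∈ A.pc lo (1 - A.h0) | x 2 = 5 * k + 2} = {A.st true (A.cut k), A.st false (A.cut k)} := by
  have hlt : ∀ b, ∀ H, H < A.cut k → A.ζ b H < 5 * k + 2 := fun b H h => A.ζ_lt_cut hk0 hk ht b h
  have hgt : ∀ b, ∀ H, A.cut k < H → 5 * k + 2 < A.ζ b H := fun b H h => A.ζ_gt_cut hk b h
  have heq : ∀ b, A.ζ b (A.cut k) = 5 * k + 2 := fun b => A.ζ_wright hk.le b
  have htop : A.ζ true (1 - A.h0) = A.ζ false (1 - A.h0) := by rw [A.top_eq, A.top_eq]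
  have hst : ∀ b H, A.st b H 2 = 5 * k + 2 → H = A.cut k := by
    intro b H h
    rw [st_two] at h
    rcases lt_trichotomy H (A.cut k) with h3 | h3 | h3
    · have := hlt b H h3; linarith
    · exact h3
    · have := hgt b H h3; linarith
  unfold pc
  ext x
  constructor
  · rintro ⟨(⟨H, hH, rfl⟩ | ⟨H, hH, rfl⟩) | (hx | hx), hx2⟩
    · rw [hst _ _ hx2]; exact Or.inl rfl
    · rw [hst _ _ hx2]; exact Or.inr rfl
    · exfalso
      rw [A.seg_two hlo hx] at hx2
      have := hlt true _ h1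
      linarith
    · exfalso
      rw [A.seg_two htop hx] at hx2
      have := hgt true _ h2
      linarith
  · rintro (rfl | rfl)
    · exact ⟨Or.inl (Or.inl ⟨_, ⟨h1.le, h2.le⟩, rfl⟩), by rw [st_two, heq]⟩
    · exact ⟨Or.inl (Or.inr ⟨_, ⟨h1.le, h2.le⟩, rfl⟩), by rw [st_two, heq]⟩

end CutPlane

end Par

end Liss579
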