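import Pool.Agent.Helper579_Lis.Decomp

/-!
The pieces of the decomposition.
-/

set_option autoImplicit false

namespace Liss579

open Knot548 Set Real Filter Topology

/-- the boundary of the square `[-1,1] × [-1,1]` in the `xz`-plane -/
def square : Set R3 := {x | x 1 = 0 ∧ max |x 0| |x 2| = 1}

theorem toC_square : toC '' square =
    hsegm (-1) 1 (-1) ∪ gr (fun _ => -1) (-1) 1 ∪ gr (fun _ => 1) (-1) 1 ∪ hsegm (-1) 1 1 := by
  unfold square hsegm gr
  ext ⟨u, h⟩
  constructor
  · rintro ⟨x, ⟨h1, h2⟩, hx⟩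
    unfold toC at hx
    rw [h1] at hx
    obtain ⟨rfl, rfl⟩ := Prod.mk.inj hx
    have a1 : |x 0| ≤ 1 := h2 ▸ le_max_left _ _
    have a2 : |x 2| ≤ 1 := h2 ▸ le_max_right _ _
    rw [abs_le] at a1 a2
    rcases max_choice |x 0| |x 2| with h3 | h3
    · rw [h3] at h2
      rcases (abs_eq zero_le_one).mp h2 with h4 | h4
      · left; right
        refine ⟨x 2, a2, ?_⟩
        rw [h4]
        ext1
        · apply Complex.ext <;> simp
        · rfl
      · left; left; right
        refine ⟨x 2, a2, ?_⟩
        rw [h4]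
        ext1
        · apply Complex.ext <;> simp
        · rfl
    · rw [h3] at h2
      rcases (abs_eq zero_le_one).mp h2 with h4 | h4
      · right
        refine ⟨(x 0 + 1) / 2, ⟨by linarith, by linarith⟩, ?_⟩
        rw [h4]
        ext1
        · apply Complex.ext
          · simp; ring
          · simp
        · rfl
      · left; left; left
        refine ⟨(x 0 + 1) / 2, ⟨by linarith, by linarith⟩, ?_⟩
        rw [h4]
        ext1
        · apply Complex.ext
          · simp; ring
          · simp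
        · rfl
  · rintro (((⟨s, hs, hx⟩ | ⟨z, hz, hx⟩) | ⟨z, hz, hx⟩) | ⟨s, hs, hx⟩)
    · obtain ⟨rfl, rfl⟩ := Prod.mk.inj hx
      refine ⟨![-1 + s * 2, 0, -1], ⟨by simp, ?_⟩, ?_⟩
      · simp only [Matrix.cons_val]
        rw [abs_neg, abs_one]
        apply max_eq_right
        rw [abs_le]
        constructor <;> linarith [hs.1, hs.2]
      · unfold toC
        ext1
        · apply Complex.ext
          · simp; left; norm_num
          · simp
        · simp
    · obtain ⟨rfl, rfl⟩ := Prod.mk.inj hx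
      refine ⟨![-1, 0, z], ⟨by simp, ?_⟩, ?_⟩
      · simp only [Matrix.cons_val]
        rw [abs_neg, abs_one]
        apply max_eq_left
        rw [abs_le]
        exact hz
      · unfold toC
        ext1
        · apply Complex.ext <;> simp
        · simp
    · obtain ⟨rfl, rfl⟩ := Prod.mk.inj hx
      refine ⟨![1, 0, z], ⟨by simp, ?_⟩, ?_⟩
      · simp only [Matrix.cons_val]
        rw [abs_one]
        apply max_eq_left
        rw [abs_le]
        exact hz
      · unfold toC
        ext1
        · apply Complex.ext <;> simp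
        · simp
    · obtain ⟨rfl, rfl⟩ := Prod.mk.inj hx
      refine ⟨![-1 + s * 2, 0, 1], ⟨by simp, ?_⟩, ?_⟩
      · simp only [Matrix.cons_val]
        rw [abs_one]
        apply max_eq_right
        rw [abs_le]
        constructor <;> linarith [hs.1, hs.2]
      · unfold toC
        ext1
        · apply Complex.ext
          · simp; left; norm_num
          · simp
        · simp

/-- the affine normalisation of a vertical rectangle -/
theorem rect_std {u v : ℂ} (huv : u ≠ v) {a c : ℝ} (hac : a < c) :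
    AmbIso (hsegm u v a ∪ gr (fun _ => u) a c ∪ gr (fun _ => v) a c ∪ hsegm u v c)
      (hsegm (-1) 1 (-1) ∪ gr (fun _ => -1) (-1) 1 ∪ gr (fun _ => 1) (-1) 1 ∪ hsegm (-1) 1 1) := by
  have hvu : v - u ≠ 0 := sub_ne_zero.mpr huv.symm
  let κ : ℂ := 2 / (v - u)
  have hκ : κ ≠ 0 := div_ne_zero two_ne_zero hvu
  let lk : ℂ := Complex.log κ
  let m : ℂ := (u + v) / 2
  let lam : ℝ → ℝ := fun t => (1 - t) + t * (2 / (c - a))
  let m' : ℝ := (a + c) / 2
  have hca : 0 < c - a := by linarith
  have hlam : ∀ t ∈ Icc (0 : ℝ) 1, lam t ≠ 0 := by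
    intro t ht
    have h2 : 0 < 2 / (c - a) := by positivity
    simp only [lam]
    rcases ht.2.lt_or_eq with h3 | h3
    · have : 0 < 1 - t := by linarith
      have : 0 ≤ t * (2 / (c - a)) := mul_nonneg ht.1 h2.le
      linarith
    · rw [h3]; simp only [sub_self, one_mul, zero_add]; exact h2.ne'
  have key := ambIso_of_family'
    (fun (t : unitInterval) (x : ℂ × ℝ) => (Complex.exp ((t : ℝ) * lk) * (x.1 - (t : ℝ) * m), lam t * (x.2 - t * m')))
    (fun (t : unitInterval) (x : ℂ × ℝ) => (Complex.exp (-((t : ℝ) * lk)) * x.1 + (t : ℝ) * m, (lam t)⁻¹ * x.2 + t * m'))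
    ?_ ?_ ?_ ?_ ?_ (hsegm u v a ∪ gr (fun _ => u) a c ∪ gr (fun _ => v) a c ∪ hsegm u v c)
  · have hexp : Complex.exp (((1 : unitInterval) : ℝ) * lk) = κ := by
      rw [Icc.coe_one, Complex.ofReal_one, one_mul, Complex.exp_log hκ]
    have hl1 : lam ((1 : unitInterval) : ℝ) = 2 / (c - a) := by
      simp only [lam, Icc.coe_one]; ring
    have hu : κ * (u - ((1 : unitInterval) : ℝ) * m) = -1 := by
      simp only [κ, m, Icc.coe_one]
      field_simp
      push_cast
      ring
    have hv : κ * (v - ((1 : unitInterval) : ℝ) * m) = 1 := by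
      simp only [κ, m, Icc.coe_one]
      field_simp
      push_cast
      ring
    have hza : lam ((1 : unitInterval) : ℝ) * (a - ((1 : unitInterval) : ℝ) * m') = -1 := by
      rw [hl1]; simp only [m', Icc.coe_one]; field_simp; ring
    have hzc : lam ((1 : unitInterval) : ℝ) * (c - ((1 : unitInterval) : ℝ) * m') = 1 := by
      rw [hl1]; simp only [m', Icc.coe_one]; field_simp; ring
    have hseg : ∀ z : ℝ, (fun x : ℂ × ℝ => (Complex.exp (((1 : unitInterval) : ℝ) * lk) * (x.1 - ((1 : unitInterval) : ℝ) * m), lam ((1 : unitInterval) : ℝ) * (x.2 - ((1 : unitInterval) : ℝ) * m'))) '' hsegm u v z =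
        hsegm (-1) 1 (lam ((1 : unitInterval) : ℝ) * (z - ((1 : unitInterval) : ℝ) * m')) := by
      intro z
      unfold hsegm
      rw [image_image]
      apply image_congr
      intro s _
      ext1
      · simp only [hexp]
        have : κ * (u + s * (v - u) - ((1 : unitInterval) : ℝ) * m) =
            κ * (u - ((1 : unitInterval) : ℝ) * m) + s * (κ * (v - ((1 : unitInterval) : ℝ) * m) -
              κ * (u - ((1 : unitInterval) : ℝ) * m)) := by ring
        rw [this, hu, hv]
      · rfl
    have hgr : ∀ (w w' : ℂ), κ * (w - ((1 : unitInterval) : ℝ) * m) = w' → (fun x : ℂ × ℝ => (Complex.exp (((1 : unitInterval) : ℝ) * lk) * (x.1 - ((1 : unitInterval) : ℝ) * m), lam ((1 : unitInterval) : ℝ) * (x.2 - ((1 : unitInterval) : ℝ) * m'))) '' gr (fun _ => w) a c =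
        gr (fun _ => w') (-1) 1 := by
      intro w w' hw
      unfold gr
      rw [image_image]
      ext x
      constructor
      · rintro ⟨z, hz, rfl⟩
        refine ⟨lam ((1 : unitInterval) : ℝ) * (z - ((1 : unitInterval) : ℝ) * m'), ?_, ?_⟩
        · rw [← hza, ← hzc]
          have : 0 < lam ((1 : unitInterval) : ℝ) := by rw [hl1]; positivity
          constructor
          · exact mul_le_mul_of_nonneg_left (by linarith [hz.1]) this.le
          · exact mul_le_mul_of_nonneg_left (by linarith [hz.2]) this.le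
        · simp only [hexp, hw]
      · rintro ⟨z, hz, rfl⟩
        refine ⟨z * (c - a) / 2 + m', ⟨?_, ?_⟩, ?_⟩
        · simp only [m']
          nlinarith [hz.1]
        · simp only [m']
          nlinarith [hz.2]
        · have q1 : Complex.exp (((1 : unitInterval) : ℝ) * lk) * (w - ((1 : unitInterval) : ℝ) * m) = w' := by
            rw [hexp]; exact hw
          have q2 : lam ((1 : unitInterval) : ℝ) * (z * (c - a) / 2 + m' - ((1 : unitInterval) : ℝ) * m') = z := by
            rw [hl1, Icc.coe_one]; field_simp; ring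
          exact Prod.ext q1 q2
    rw [image_union, image_union, image_union, hseg, hseg, hgr u (-1) hu, hgr v 1 hv, hza, hzc] at key
    exact key
  · simp only [lam]
    fun_prop
  · intro t
    fun_prop
  · intro t x
    have h1 := hlam t t.2
    ext1
    · simp only
      rw [← mul_assoc, ← Complex.exp_add, neg_add_cancel, Complex.exp_zero]
      ring
    · simp only
      field_simp
      ring
  · intro t x
    have h1 := hlam t t.2
    ext1
    · simp only
      rw [add_sub_cancel_right, ← mul_assoc, ← Complex.exp_add, add_neg_cancel, Complex.exp_zero,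
        one_mul]
    · simp only
      rw [add_sub_cancel_right, mul_inv_cancel_left₀ h1]
  · intro x
    ext1
    · simp
    · simp [lam]

/-- a pair of monotone strands closed by two horizontal segments is trivial -/
theorem two_strands (f g : ℝ → R3) (hf : Continuous f) (hg : Continuous g) {lo hi a c : ℝ}
    (hlo : lo < hi)
    (hfm : StrictMonoOn (fun s => f s 2) (Icc lo hi))
    (hgm : StrictMonoOn (fun s => g s 2) (Icc lo hi))
    (ef0 : f lo 2 = a) (eg0 : g lo 2 = a) (e2 : f hi 2 = c) (e2' : g hi 2 = c)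
    (hne : ∀ s ∈ Icc lo hi, ∀ t ∈ Icc lo hi, f s ≠ g t) :
    AmbIso ((f '' Icc lo hi ∪ g '' Icc lo hi) ∪ (segment ℝ (f lo) (g lo) ∪ segment ℝ (f hi) (g hi)))
      square := by
  obtain ⟨r, hrc, hr⟩ := exists_graph f hf hlo.le hfm
  obtain ⟨l, hlc, hl⟩ := exists_graph g hg hlo.le hgm
  have m0 : lo ∈ Icc lo hi := ⟨le_rfl, hlo.le⟩
  have m2 : hi ∈ Icc lo hi := ⟨hlo.le, le_rfl⟩
  have hac : a < c := by
    rw [← ef0, ← e2]; exact hfm m0 m2 hlo
  have hnez : ∀ z ∈ Icc a c, r z ≠ l z := by
    intro z hz heq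
    have hcf : Continuous (fun s => f s 2) := (continuous_apply 2).comp hf
    have hcg : Continuous (fun s => g s 2) := (continuous_apply 2).comp hg
    obtain ⟨s, hs, hs2⟩ := intermediate_value_Icc hlo.le hcf.continuousOn
      (by simp only [ef0, e2]; exact hz)
    obtain ⟨t, ht, ht2⟩ := intermediate_value_Icc hlo.le hcg.continuousOn
      (by simp only [eg0, e2']; exact hz)
    simp only at hs2 ht2
    apply hne s hs t ht
    apply hC.injective
    change toC (f s) = toC (g t)
    have a1 := hr s hs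
    have a2 := hl t ht
    rw [hs2] at a1
    rw [ht2] at a2
    have a3 : (toC (f s)).2 = (toC (g t)).2 := by
      change f s 2 = g t 2
      rw [hs2, ht2]
    exact Prod.ext (by rw [← a1, ← a2, heq]) a3
  apply ambIso_of_toC
  have i1 := graph_image hf hfm hr m2
  have i2 := graph_image hg hgm hl m2
  rw [ef0, e2] at i1
  rw [eg0, e2'] at i2
  have r2 := hr hi m2
  have l2 := hl hi m2
  have r1 := hr lo m0
  have l1 := hl lo m0
  rw [e2] at r2
  rw [e2'] at l2
  rw [ef0] at r1
  rw [eg0] at l1
  have key := (ambIso_rect hrc hlc hac.le hnez).trans (rect_std (hnez a ⟨le_rfl, hac.le⟩) hac)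
  rw [toC_square]
  rw [image_union, image_union, image_union, i1, i2,
    toC_segment (a := f lo) (by rw [ef0, eg0]), toC_segment (a := f hi) (by rw [e2, e2']), ← r2, ← l2, ← r1, ← l1, e2, ef0]
  have e : gr r a c ∪ gr l a c ∪ (hsegm (r a) (l a) a ∪ hsegm (r c) (l c) c) =
      hsegm (r a) (l a) a ∪ gr r a c ∪ gr l a c ∪ hsegm (r c) (l c) c := by
    ext x
    simp only [mem_union]
    tauto
  rw [e]
  exact key

namespace Par

variable (A : Par)

theorem base_iso : AmbIso (A.pc (A.cut (A.p - 1)) (1 - A.h0)) square := by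
  have hp := A.p0
  have hp2 := A.hp2
  have hw := A.w_lt_p
  have hw0 := A.w_pos
  have h0 := A.h0_pos
  have h0w := A.h0_lt_w
  have e1 : A.cut (A.p - 1) = 1 - 1 / A.p + A.w := by
    unfold cut
    rw [Nat.cast_sub (by omega)]
    field_simp
    push_cast
    ring
  have e3 : ((A.p - 1 : ℕ) : ℝ) / A.p = 1 - 1 / A.p := by
    rw [Nat.cast_sub (by omega)]
    field_simp
    push_cast
    ring
  have e4 : (((A.p - 1 : ℕ) : ℝ) + 1) / A.p - A.w = 1 - A.w := by
    rw [Nat.cast_sub (by omega)]
    field_simp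
    push_cast
    ring
  have hm : ∀ b, StrictMonoOn (A.ζ b) (Icc (A.cut (A.p - 1)) (1 - A.h0)) := by
    intro b
    have i1 := A.ζ_gap_mono (k := A.p - 1) (by omega) b
    rw [e4] at i1
    apply smo_union (b := 1 - A.w) _ _ i1
    · exact (A.ζ_cap1_mono b).mono (Icc_subset_Icc le_rfl (by linarith))
    · rw [e3]; linarith
    · linarith
  have hcp := A.cut_pos (A.p - 1)
  unfold pc
  apply two_strands (A.st true) (A.st false) (A.st_cont true) (A.st_cont false)
    (a := 5 * (A.p - 1 : ℕ) + 2) (c := 5 * A.p - 2 * A.rho A.h0)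
  · rw [e1]; linarith
  · intro x hx y hy hxy
    simp only [st_two]
    exact hm true hx hy hxy
  · intro x hx y hy hxy
    simp only [st_two]
    exact hm false hx hy hxy
  · rw [st_two]; exact A.ζ_wright (by omega) true
  · rw [st_two]; exact A.ζ_wright (by omega) false
  · rw [st_two]; exact A.top_eq true
  · rw [st_two]; exact A.top_eq false
  · intro s hs t ht
    exact A.st_ne ⟨by linarith [hs.1], by linarith [hs.2]⟩ ⟨by linarith [ht.1], by linarith [ht.2]⟩

/-- the inverse of the normalised coordinate on a window -/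
theorem exists_rho {v : ℝ} (hv : v ∈ Icc (-1 : ℝ) 1) : ∃ u ∈ Icc (-A.w) A.w, A.rho u = v := by
  have hc : Continuous A.rho := A.rho_lip.continuous
  have hw := A.w_pos
  have := intermediate_value_Icc (by linarith : -A.w ≤ A.w) hc.continuousOn
    (by rw [A.rho_neg, A.rho_w]; exact hv)
  exact this

theorem Q_iso {k : ℕ} (hk0 : k ≠ 0) (hk : k < A.p) (ht : A.tref k) :
    AmbIso (A.pc (A.cut (k - 1)) (A.cut k)) (A.pc (k / A.p - A.w) (k / A.p + A.w)) := by
  obtain ⟨m, rfl⟩ : ∃ m, k = m + 1 := ⟨k - 1, by omega⟩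
  rw [Nat.add_sub_cancel]
  have hp := A.p0
  have hw := A.w_lt_p
  have hw0 := A.w_pos
  set k : ℕ := m + 1 with hkdef
  have e3 : ((k : ℕ) : ℝ) / A.p = m / A.p + 1 / A.p := by rw [hkdef]; push_cast; rw [add_div]
  have hk1 : (k : ℝ) / A.p + A.w < 1 := by
    have : (k : ℝ) + 1 ≤ A.p := by exact_mod_cast hk
    have : ((k : ℝ) + 1) / A.p ≤ 1 := by rw [div_le_one hp]; exact this
    rw [add_div] at this
    linarith
  obtain ⟨u1, hu1, hr1⟩ := A.exists_rho (v := -(20 / 21)) ⟨by norm_num, by norm_num⟩
  obtain ⟨u2, hu2, hr2⟩ := A.exists_rho (v := -(4 / 5)) ⟨by norm_num, by norm_num⟩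
  -- general facts for a strand
  have gen : ∀ (b : Bool) (u v : ℝ), u ∈ Icc (-A.w) A.w → A.rho u = v → -1 < v → v ≤ -(3 / 4) →
      zst b v = -(3 / 2) →
      -A.w < u ∧ u < A.w ∧ StrictMonoOn (A.ζ b) (Icc (A.cut m) (k / A.p + u)) ∧
      A.ζ b (k / A.p + u) = 5 * k - 3 / 2 ∧
      (∀ H ∈ Icc (k / A.p + u) (A.cut k), 5 * k - 3 / 2 ≤ A.ζ b H) := by
    intro b u v hu hr hv1 hv2 hz
    have a1 : -A.w < u := by
      rcases hu.1.lt_or_eq with h | h
      · exact h
      · exfalso
        rw [← h, A.rho_neg, A.rho_w] at hr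
        linarith
    have a2 : u < A.w := by
      rcases hu.2.lt_or_eq with h | h
      · exact h
      · exfalso
        rw [h, A.rho_w] at hr
        linarith
    refine ⟨a1, a2, ?_, ?_, ?_⟩
    · have i1 := A.ζ_gap_mono (k := m) (by omega) b
      have e5 : ((m : ℝ) + 1) / A.p = (k : ℝ) / A.p := by rw [hkdef]; push_cast; rfl
      rw [e5] at i1
      apply smo_union (b := k / A.p - A.w) _ _ i1
      · intro x hx y hy hxy
        have hx' : |x - k / A.p| ≤ A.w := by
          rw [abs_le]; constructor <;> linarith [hx.1, hx.2]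
        have hy' : |y - k / A.p| ≤ A.w := by
          rw [abs_le]; constructor <;> linarith [hy.1, hy.2]
        rw [A.ζ_tref hk0 hk ht b hx', A.ζ_tref hk0 hk ht b hy']
        have b1 := A.rho_strict.monotone (by linarith [hx.2] : x - k / A.p ≤ u)
        have b2 := A.rho_strict.monotone (by linarith [hy.2] : y - k / A.p ≤ u)
        rw [hr] at b1 b2
        have m1 : A.rho (x - k / A.p) ∈ Icc (-1 : ℝ) (-(3 / 4)) := ⟨(A.rho_mem hx').1, b1.trans hv2⟩
        have m2 : A.rho (y - k / A.p) ∈ Icc (-1 : ℝ) (-(3 / 4)) := ⟨(A.rho_mem hy').1, b2.trans hv2⟩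
        have := zst_strict_lo b m1 m2 (A.rho_strict (by linarith))
        linarith
      · linarith
      · linarith
    · have e6 : (k : ℝ) / A.p + u - k / A.p = u := by ring
      rw [A.ζ_tref hk0 hk ht b (by rw [e6, abs_le]; exact ⟨a1.le, a2.le⟩), e6, hr, hz]
      ring
    · intro H hH
      have hH' : |H - k / A.p| ≤ A.w := by
        have h2 : H ≤ k / A.p + A.w := hH.2
        rw [abs_le]; constructor <;> linarith [hH.1]
      rw [A.ζ_tref hk0 hk ht b hH']
      have b1 := A.rho_strict.monotone (by linarith [hH.1] : u ≤ H - k / A.p)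
      rw [hr] at b1
      rcases le_total (A.rho (H - k / A.p)) (-(3 / 4)) with c1 | c1
      · have m1 : v ∈ Icc (-1 : ℝ) (-(3 / 4)) := ⟨hv1.le, hv2⟩
        have m2 : A.rho (H - k / A.p) ∈ Icc (-1 : ℝ) (-(3 / 4)) := ⟨(A.rho_mem hH').1, c1⟩
        have := (zst_strict_lo b).monotoneOn m1 m2 b1
        rw [hz] at this
        linarith
      · have := zst_above b (v := A.rho (H - k / A.p)) ⟨c1, (A.rho_mem hH').2⟩
        linarith
  have z1 : zst true (-(20 / 21)) = -(3 / 2) := by
    unfold zst
    rw [if_pos rfl, Gf_neg, Ef_neg, Gf_hi ⟨by norm_num, by norm_num⟩,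
      Ef_hi (by rw [abs_of_pos (by norm_num)]; constructor <;> norm_num), abs_of_pos (by norm_num)]
    norm_num
  have z2 : zst false (-(4 / 5)) = -(3 / 2) := by
    unfold zst
    rw [if_neg (by simp), Gf_neg, Ef_neg, Gf_hi ⟨by norm_num, by norm_num⟩,
      Ef_hi (by rw [abs_of_pos (by norm_num)]; constructor <;> norm_num), abs_of_pos (by norm_num)]
    norm_num
  obtain ⟨f1, f2, f3, f4, f5⟩ := gen true u1 _ hu1 hr1 (by norm_num) (by norm_num) z1
  obtain ⟨g1, g2, g3, g4, g5⟩ := gen false u2 _ hu2 hr2 (by norm_num) (by norm_num) z2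
  have hcm := A.cut_pos m
  have hcutk : A.cut k = k / A.p + A.w := rfl
  have split : ∀ a, a ≤ k / A.p - A.w → A.pc a (A.cut k) =
      ((A.st true '' Icc (k / A.p + u1) (A.cut k) ∪ A.st false '' Icc (k / A.p + u2) (A.cut k)) ∪
      segment ℝ (A.st true (A.cut k)) (A.st false (A.cut k))) ∪ A.st true '' Icc a (k / A.p + u1) ∪
        A.st false '' Icc a (k / A.p + u2) ∪ segment ℝ (A.st true a) (A.st false a) := by
    intro a ha
    have j1 : Icc a (A.cut k) = Icc a (k / A.p + u1) ∪ Icc (k / A.p + u1) (A.cut k) := by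
      rw [Icc_union_Icc_eq_Icc (by linarith) (by rw [hcutk]; linarith)]
    have j2 : Icc a (A.cut k) = Icc a (k / A.p + u2) ∪ Icc (k / A.p + u2) (A.cut k) := by
      rw [Icc_union_Icc_eq_Icc (by linarith) (by rw [hcutk]; linarith)]
    unfold pc
    have k1 : A.st true '' Icc a (A.cut k) = A.st true '' Icc a (k / A.p + u1) ∪
        A.st true '' Icc (k / A.p + u1) (A.cut k) := by rw [← image_union, ← j1]
    have k2 : A.st false '' Icc a (A.cut k) = A.st false '' Icc a (k / A.p + u2) ∪
        A.st false '' Icc (k / A.p + u2) (A.cut k) := by rw [← image_union, ← j2]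
    rw [k1, k2]
    ext x
    simp only [mem_union]
    tauto
  have hcutm : A.cut m ≤ k / A.p - A.w := by
    have : A.cut m = m / A.p + A.w := rfl
    linarith
  rw [split _ hcutm]
  have hR : A.pc (k / A.p - A.w) (k / A.p + A.w) = A.pc (k / A.p - A.w) (A.cut k) := rfl
  rw [hR, split _ le_rfl]
  apply shrink_bot _ (A.st true) (A.st false) (A.st_cont true) (A.st_cont false)
    (a := 5 * k - 3 / 2) (b := 5 * k - 2) (c := 5 * m + 2) (by linarith) (by linarith) hcutm
  · intro x hx y hy hxy
    simp only [st_two]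
    exact f3 hx hy hxy
  · intro x hx y hy hxy
    simp only [st_two]
    exact g3 hx hy hxy
  · rw [st_two, f4]
  · rw [st_two, g4]
  · rw [st_two]; exact A.ζ_wleft hk.le true
  · rw [st_two]; exact A.ζ_wleft hk.le false
  · rw [st_two]; exact A.ζ_wright (by omega) true
  · rw [st_two]; exact A.ζ_wright (by omega) false
  · intro s hs t ht
    exact A.st_ne ⟨by linarith [hs.1], by linarith [hs.2]⟩ ⟨by linarith [ht.1], by linarith [ht.2]⟩
  · rintro x ((⟨H, hH, rfl⟩ | ⟨H, hH, rfl⟩) | hx)
    · rw [st_two]; exact f5 H hH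
    · rw [st_two]; exact g5 H hH
    · have e7 : A.ζ true (A.cut k) = A.ζ false (A.cut k) := by
        rw [hcutk, A.ζ_wright hk.le, A.ζ_wright hk.le]
      rw [A.seg_two e7 hx]
      exact f5 _ ⟨by rw [hcutk]; linarith, le_rfl⟩

end Par

end Liss579
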