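import Pool.Agent.Helper579_Lis.Plat

/-!
Isotopies of curves made of two strands folded over the first coordinate and closed by segments.
-/

set_option autoImplicit false

namespace Liss579

open Knot548 Set Filter Topology

theorem range_plat (y z : Bool → ℝ → ℝ) :
    range (Sum.elim (fun a : Bool × Icc (-1 : ℝ) 1 => sp (y a.1) (z a.1) a.2)
      (fun a : Bool × Icc (0 : ℝ) 1 => (sp (y true) (z true) (en a.1) +
        (a.2 : ℝ) • (sp (y false) (z false) (en a.1) - sp (y true) (z true) (en a.1))))) =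
      plat y z := by
  unfold plat
  rw [Sum.elim_range]
  congr 1
  · ext x
    constructor
    · rintro ⟨⟨b, v⟩, rfl⟩
      cases b
      · exact Or.inr ⟨v, v.2, rfl⟩
      · exact Or.inl ⟨v, v.2, rfl⟩
    · rintro (⟨v, hv, rfl⟩ | ⟨v, hv, rfl⟩)
      · exact ⟨(true, ⟨v, hv⟩), rfl⟩
      · exact ⟨(false, ⟨v, hv⟩), rfl⟩
  · rw [segment_eq_image', segment_eq_image']
    ext x
    constructor
    · rintro ⟨⟨e, s⟩, rfl⟩
      cases e
      · exact Or.inr ⟨s, s.2, rfl⟩
      · exact Or.inl ⟨s, s.2, rfl⟩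
    · rintro (⟨s, hs, rfl⟩ | ⟨s, hs, rfl⟩)
      · exact ⟨(true, ⟨s, hs⟩), rfl⟩
      · exact ⟨(false, ⟨s, hs⟩), rfl⟩

theorem comb_ne {a b τ : ℝ} (h : 0 < a * b) (hτ : τ ∈ Icc (0 : ℝ) 1) : a + τ * (b - a) ≠ 0 := by
  have h1 : 0 ≤ 1 - τ := by linarith [hτ.2]
  have h2 := hτ.1
  intro h0
  have h3 : (1 - τ) * a + τ * b = 0 := by linarith
  have h4 : (1 - τ) * (a * a) + τ * (a * b) = 0 := by
    have : (1 - τ) * (a * a) + τ * (a * b) = a * ((1 - τ) * a + τ * b) := by ring
    rw [this, h3, mul_zero]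
  have ha : 0 < a * a := by
    have : a ≠ 0 := by
      rintro rfl
      simp at h
    exact mul_self_pos.mpr this
  rcases eq_or_lt_of_le h2 with h5 | h5
  · rw [← h5] at h4
    simp at h4
    simp [h4] at ha
  · have : 0 < τ * (a * b) := mul_pos h5 h
    have : 0 ≤ (1 - τ) * (a * a) := mul_nonneg h1 ha.le
    linarith

theorem plat_iso (y y' z : Bool → ℝ → ℝ) (L g : ℝ) (hL : 0 ≤ L) (hg : 0 < g)
    (hyc : ∀ b, Continuous (y b)) (hyc' : ∀ b, Continuous (y' b)) (hzc : ∀ b, Continuous (z b))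
    (hy : ∀ b, ∀ s ∈ Icc (-1 : ℝ) 1, ∀ t ∈ Icc (-1 : ℝ) 1, |y b s - y b t| ≤ L * |s - t|)
    (hy' : ∀ b, ∀ s ∈ Icc (-1 : ℝ) 1, ∀ t ∈ Icc (-1 : ℝ) 1, |y' b s - y' b t| ≤ L * |s - t|)
    (hz : ∀ b, ∀ s ∈ Icc (-1 : ℝ) 1, ∀ t ∈ Icc (-1 : ℝ) 1, |z b s - z b t| ≤ L * |s - t|)
    (hG : ∀ b, ∀ v ∈ Icc (0 : ℝ) 1, g * v ≤ z b v - z b (-v))
    (h1 : ∀ v ∈ Icc (-1 : ℝ) 1, z true v = z false v →
      0 < (y true v - y false v) * (y' true v - y' false v))
    (h2 : ∀ v ∈ Icc (-1 : ℝ) 1, z true v = z false (-v) →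
      0 < (y true v - y false (-v)) * (y' true v - y' false (-v)))
    (he : ∀ e, z true (en e) = z false (en e)) (htb : z true 1 ≠ z true (-1)) :
    AmbIso (plat y z) (plat y' z) := by
  let w : Bool → ℝ → ℝ := fun b v => y' b v - y b v
  have hwL : ∀ b, ∀ s ∈ Icc (-1 : ℝ) 1, ∀ t ∈ Icc (-1 : ℝ) 1, |w b s - w b t| ≤ (2 * L) * |s - t| := by
    intro b s hs t ht
    have e1 := hy b s hs t ht
    have e2 := hy' b s hs t ht
    have e3 : w b s - w b t = (y' b s - y' b t) - (y b s - y b t) := by simp only [w]; ring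
    rw [e3]
    have := abs_sub (y' b s - y' b t) (y b s - y b t)
    linarith
  have hMex : ∃ M, ∀ b, ∀ v ∈ Icc (-1 : ℝ) 1, |w b v| ≤ M := by
    have hwc : ∀ b, Continuous (w b) := fun b => (hyc' b).sub (hyc b)
    obtain ⟨M1, hM1⟩ := (isCompact_Icc (a := (-1 : ℝ)) (b := 1)).exists_bound_of_continuousOn
      (hwc true).continuousOn
    obtain ⟨M2, hM2⟩ := (isCompact_Icc (a := (-1 : ℝ)) (b := 1)).exists_bound_of_continuousOn
      (hwc false).continuousOn
    refine ⟨max M1 M2, ?_⟩
    intro b v hv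
    cases b
    · exact (hM2 v hv).trans (le_max_right _ _)
    · exact (hM1 v hv).trans (le_max_left _ _)
  obtain ⟨M, hM⟩ := hMex
  let F : (Bool × Icc (-1 : ℝ) 1) ⊕ (Bool × Icc (0 : ℝ) 1) → R3 :=
    Sum.elim (fun a : Bool × Icc (-1 : ℝ) 1 => sp (y a.1) (z a.1) a.2)
      (fun a : Bool × Icc (0 : ℝ) 1 => (sp (y true) (z true) (en a.1) +
        (a.2 : ℝ) • (sp (y false) (z false) (en a.1) - sp (y true) (z true) (en a.1))))
  let W : (Bool × Icc (-1 : ℝ) 1) ⊕ (Bool × Icc (0 : ℝ) 1) → R3 :=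
    Sum.elim (fun a : Bool × Icc (-1 : ℝ) 1 => ![0, w a.1 a.2, 0])
      (fun a : Bool × Icc (0 : ℝ) 1 => ![0, w true (en a.1) +
        (a.2 : ℝ) * (w false (en a.1) - w true (en a.1)), 0])
  have hFW : ∀ (τ : ℝ) a, F a + τ • W a =
      Sum.elim (fun a : Bool × Icc (-1 : ℝ) 1 => sp (fun v => y a.1 v + τ * w a.1 v) (z a.1) a.2)
      (fun a : Bool × Icc (0 : ℝ) 1 => (sp (fun v => y true v + τ * w true v) (z true) (en a.1) +
        (a.2 : ℝ) • (sp (fun v => y false v + τ * w false v) (z false) (en a.1) -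
          sp (fun v => y true v + τ * w true v) (z true) (en a.1)))) a := by
    intro τ a
    rcases a with ⟨b, v⟩ | ⟨e, s⟩
    · simp only [F, W, Sum.elim_inl]
      unfold sp
      ext i
      fin_cases i <;> simp
    · simp only [F, W, Sum.elim_inr]
      rw [sp_sub, sp_sub]
      unfold sp
      ext i
      fin_cases i <;> simp
      ring
  have key := ambIso_path F W ?_
  · have e1 : range F = plat y z := range_plat y z
    have e2 : range (fun a => F a + W a) = plat y' z := by
      rw [← range_plat y' z]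
      congr 1
      funext a
      have := hFW 1 a
      rw [one_smul] at this
      rw [this]
      simp only [w, one_mul, add_sub_cancel]
    rwa [e1, e2] at key
  · intro τ hτ
    have hτ1 : 0 ≤ 1 - τ := by linarith [hτ.2]
    let Y : Bool → ℝ → ℝ := fun b v => y b v + τ * w b v
    have hYc : ∀ b, Continuous (Y b) := by
      intro b
      have := (hyc' b).sub (hyc b)
      exact (hyc b).add (continuous_const.mul this)
    have hYL : ∀ b, ∀ s ∈ Icc (-1 : ℝ) 1, ∀ t ∈ Icc (-1 : ℝ) 1, |Y b s - Y b t| ≤ (2 * L) * |s - t| := by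
      intro b s hs t ht
      have e1 := hy b s hs t ht
      have e2 := hy' b s hs t ht
      have e3 : Y b s - Y b t = (1 - τ) * (y b s - y b t) + τ * (y' b s - y' b t) := by
        simp only [Y, w]; ring
      rw [e3]
      refine (abs_add_le _ _).trans ?_
      rw [abs_mul, abs_mul, abs_of_nonneg hτ1, abs_of_nonneg hτ.1]
      have e4 := mul_le_mul_of_nonneg_left e1 hτ1
      have e5 := mul_le_mul_of_nonneg_left e2 hτ.1
      have e6 : 0 ≤ L * |s - t| := by positivity
      nlinarith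
    have hzL : ∀ b, ∀ s ∈ Icc (-1 : ℝ) 1, ∀ t ∈ Icc (-1 : ℝ) 1, |z b s - z b t| ≤ (2 * L) * |s - t| := by
      intro b s hs t ht
      have e1 := hz b s hs t ht
      have e6 : 0 ≤ L * |s - t| := by positivity
      linarith
    have hlow : ∀ k : ℝ → ℝ, Continuous k → (∀ v ∈ Icc (-1 : ℝ) 1, 0 < k v) →
        ∃ c, 0 < c ∧ ∀ v ∈ Icc (-1 : ℝ) 1, c ≤ k v := by
      intro k hk hpos
      obtain ⟨v0, hv0, hmin⟩ := (isCompact_Icc (a := (-1 : ℝ)) (b := 1)).exists_isMinOn
        ⟨0, by norm_num, by norm_num⟩ hk.continuousOn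
      exact ⟨k v0, hpos v0 hv0, fun v hv => hmin hv⟩
    obtain ⟨c1, hc1, hc1'⟩ := hlow (fun v => max |Y true v - Y false v| |z true v - z false v|)
      (((hYc true).sub (hYc false)).abs.max ((hzc true).sub (hzc false)).abs) (by
        intro v hv
        by_cases hzz : z true v = z false v
        · apply lt_max_of_lt_left
          rw [abs_pos]
          have := comb_ne (h1 v hv hzz) hτ
          have e : Y true v - Y false v = (y true v - y false v) +
            τ * ((y' true v - y' false v) - (y true v - y false v)) := by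
            simp only [Y, w]; ring
          rw [e]
          exact this
        · apply lt_max_of_lt_right
          rw [abs_pos]
          exact sub_ne_zero.mpr hzz)
    obtain ⟨c2, hc2, hc2'⟩ := hlow (fun v => max |Y true v - Y false (-v)| |z true v - z false (-v)|)
      (((hYc true).sub ((hYc false).comp continuous_neg)).abs.max
        ((hzc true).sub ((hzc false).comp continuous_neg)).abs) (by
        intro v hv
        by_cases hzz : z true v = z false (-v)
        · apply lt_max_of_lt_left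
          rw [abs_pos]
          have := comb_ne (h2 v hv hzz) hτ
          have e : Y true v - Y false (-v) = (y true v - y false (-v)) +
            τ * ((y' true v - y' false (-v)) - (y true v - y false (-v))) := by
            simp only [Y, w]; ring
          rw [e]
          exact this
        · apply lt_max_of_lt_right
          rw [abs_pos]
          exact sub_ne_zero.mpr hzz)
    have hc3 : 0 < |z true 1 - z true (-1)| := abs_pos.mpr (sub_ne_zero.mpr htb)
    obtain ⟨C, hC0, hCa, hCb, hCc⟩ := plat_est Y w z (2 * L) g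
      (min (min c1 c2) |z true 1 - z true (-1)|) M (by linarith) hg
      (lt_min (lt_min hc1 hc2) hc3) hM hYL hwL hzL hG
      (fun v hv => ((min_le_left _ _).trans (min_le_left _ _)).trans (hc1' v hv))
      (fun v hv => ((min_le_left _ _).trans (min_le_right _ _)).trans (hc2' v hv))
      he (min_le_right _ _)
    refine ⟨C, ?_⟩
    have hvec : ∀ a b c : ℝ, |b| ≤ c → ‖(![0, b, 0] : R3)‖ ≤ c := by
      intro _ b c hb
      have : 0 ≤ c := (abs_nonneg b).trans hb
      exact norm_vec_le (by simpa using this) hb (by simpa using this)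
    have hWs : ∀ b b' : ℝ, (![0, b, 0] : R3) - ![0, b', 0] = ![0, b - b', 0] := by
      intro b b'
      ext i
      fin_cases i <;> simp
    intro a a'
    rw [hFW, hFW]
    rcases a with ⟨b, v⟩ | ⟨e, s⟩ <;> rcases a' with ⟨b', v'⟩ | ⟨e', s'⟩
    · simp only [W, Sum.elim_inl]
      rw [hWs]
      exact hvec 0 _ _ (hCa b b' v v.2 v' v'.2)
    · simp only [W, Sum.elim_inl, Sum.elim_inr]
      rw [hWs]
      exact hvec 0 _ _ (hCb b e' v v.2 s' s'.2)
    · simp only [W, Sum.elim_inl, Sum.elim_inr]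
      rw [hWs, norm_sub_rev (sp (fun v => y true v + τ * w true v) (z true) (en e) + _)]
      apply hvec 0
      rw [abs_sub_comm]
      exact hCb b' e v' v'.2 s s.2
    · simp only [W, Sum.elim_inr]
      rw [hWs]
      exact hvec 0 _ _ (hCc e e' s s.2 s' s'.2)

end Liss579
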