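import Pool.Agent.Helper579_Lis.Height
import Pool.Agent.Helper579_Lis.Plat2

/-!
The Lissajous curve is isotopic to the curve with the layered heights.
-/

set_option autoImplicit false

namespace Liss579

open Knot548 Set Real Filter Topology

namespace Par

variable (A : Par)

theorem δ_generic (i j : ℤ) : (A.p : ℝ) * A.q * A.δ ≠ j * A.p - i * A.q := by
  intro h3
  rw [A.pqδ] at h3
  have hc := A.cR
  have h4 : (A.p : ℝ) * A.e = (j * A.p - i * A.q) * A.c := by
    rw [div_eq_iff hc.ne'] at h3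
    exact h3
  have h5 : (A.p * A.e : ℤ) = (j * A.p - i * A.q) * A.c := by exact_mod_cast h4
  have h6 : (A.r * A.c : ℤ) < A.p * A.e := by exact_mod_cast A.he1
  have h7 : (A.p * A.e : ℤ) < (A.r + 1) * A.c := by exact_mod_cast A.he2
  rw [h5] at h6 h7
  have hc' : (0 : ℤ) < A.c := by exact_mod_cast A.hc0
  have h8 := lt_of_mul_lt_mul_right h6 hc'.le
  have h9 := lt_of_mul_lt_mul_right h7 hc'.le
  omega

/-- the height function of the layered curve on `[-1, 1]` -/
noncomputable def ζf (t : ℝ) : ℝ := A.ζ true (max t 0) + A.ζ false (max (-t) 0)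

theorem ζ_zero (b : Bool) : A.ζ b 0 = 0 := by
  have h := A.ζ_window (k := 0) (by omega) b (H := 0) (by simp [A.w_pos.le])
  rw [h]
  simp only [Nat.cast_zero, zero_div, sub_zero, A.rho_zero]
  unfold prof
  rw [if_pos (Or.inl rfl), ramp_mid (by norm_num) ⟨by norm_num, by norm_num⟩]
  norm_num

theorem ζ_one (b : Bool) : A.ζ b 1 = 5 * A.p := by
  have hp := A.p0
  have h1 : (1 : ℝ) - A.p / A.p = 0 := by rw [div_self hp.ne']; ring
  have h := A.ζ_window (k := A.p) le_rfl b (H := 1) (by rw [h1]; simp [A.w_pos.le])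
  rw [h, h1, A.rho_zero]
  unfold prof
  rw [if_pos (Or.inr rfl), ramp_mid (by norm_num) ⟨by norm_num, by norm_num⟩]
  norm_num

theorem ζf_nonneg {t : ℝ} (h : 0 ≤ t) : A.ζf t = A.ζ true t := by
  unfold ζf
  rw [max_eq_left h, max_eq_right (by linarith), A.ζ_zero false, add_zero]

theorem ζf_nonpos {t : ℝ} (h : t ≤ 0) : A.ζf t = A.ζ false (-t) := by
  unfold ζf
  rw [max_eq_right h, max_eq_left (by linarith), A.ζ_zero true, zero_add]

theorem ζf_abs (t : ℝ) : ∃ b, A.ζf t = A.ζ b |t| := by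
  rcases le_total 0 t with h | h
  · exact ⟨true, by rw [A.ζf_nonneg h, abs_of_nonneg h]⟩
  · exact ⟨false, by rw [A.ζf_nonpos h, abs_of_nonpos h]⟩

theorem ζf_lip : Lip A.ζf := by
  have hm : Lip (fun u : ℝ => max u 0) := by
    refine ⟨1, zero_le_one, fun x y => ?_⟩
    have := abs_max_sub_max_le_max x 0 y 0
    refine this.trans ?_
    rw [sub_self, abs_zero, one_mul]
    exact max_le le_rfl (abs_nonneg _)
  have hn : Lip (fun u : ℝ => -u) := by
    have := Lip.id.mulc (-1)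
    simpa using this
  unfold ζf
  exact ((A.ζ_lip true).comp hm).add ((A.ζ_lip false).comp (hm.comp hn))

/-- distance between the marked points -/
theorem grid {k : ℕ} {j : ℤ} {H : ℝ} (hH : H = j / A.q) :
    |H - k / A.p| = |((k : ℤ) * A.q - j * A.p : ℤ)| / (A.p * A.q) := by
  have hp := A.p0
  have hq := A.q0
  have e : H - k / A.p = -((((k : ℤ) * A.q - j * A.p : ℤ) : ℝ) / (A.p * A.q)) := by
    rw [hH]; push_cast; field_simp; ring
  rw [e, abs_neg, abs_div, abs_of_pos (by positivity : (0:ℝ) < A.p * A.q), Int.cast_abs]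

theorem grid_core {k : ℕ} {j : ℤ} {H : ℝ} (hH : H = j / A.q) (h : |H - k / A.p| ≤ A.w) :
    |(k : ℤ) * A.q - j * A.p| ≤ A.r ∧ |H - k / A.p| < A.w0 := by
  have hp := A.p0
  have hq := A.q0
  rw [A.grid hH] at h ⊢
  have h1 := h.trans_lt A.w_lt
  have h2 : ((|((k : ℤ) * A.q - j * A.p : ℤ)| : ℤ) : ℝ) < A.r + 1 := by
    rwa [div_lt_div_iff_of_pos_right (by positivity)] at h1
  have h3 : |(k : ℤ) * A.q - j * A.p| ≤ A.r := by
    have : |(k : ℤ) * A.q - j * A.p| < A.r + 1 := by exact_mod_cast h2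
    omega
  refine ⟨h3, lt_of_le_of_lt ?_ A.w0_gt⟩
  have : ((|((k : ℤ) * A.q - j * A.p : ℤ)| : ℤ) : ℝ) ≤ A.r := by exact_mod_cast h3
  gcongr

theorem rho_core {u : ℝ} (h : |u| < A.w0) : |A.rho u| ≤ 1 / 4 := by
  rw [abs_lt] at h
  have h1 := A.rho_strict.monotone h.2.le
  have h2 := A.rho_strict.monotone h.1.le
  rw [A.rho_neg] at h2
  rw [A.rho_w0] at h1 h2
  rw [abs_le]
  constructor <;> linarith

theorem ζ_II {j : ℕ} (h1 : 1 ≤ j) (h2 : j < A.q) : A.ζ true (j / A.q) < A.ζ false (j / A.q) := by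
  have hp := A.p0
  have hq := A.q0
  have hw := A.w_pos
  have hwq := A.w_lt_q
  set H : ℝ := (j : ℝ) / A.q with hH
  have hj1 : (1 : ℝ) ≤ j := by exact_mod_cast h1
  have hj2 : (j : ℝ) + 1 ≤ A.q := by exact_mod_cast h2
  have hH1 : 1 / (A.q : ℝ) ≤ H := by rw [hH]; gcongr
  have hH2 : H ≤ 1 - 1 / A.q := by
    rw [hH, div_le_iff₀ hq]
    have : (1 - 1 / (A.q : ℝ)) * A.q = A.q - 1 := by field_simp
    linarith
  have hHpos : 0 < H := by positivity
  have key : ∀ k : ℕ, k ≤ A.p → |H - k / A.p| ≤ A.w → A.ζ true H < A.ζ false H := by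
    intro k hk hkw
    have hkz : k ≠ 0 := by
      rintro rfl
      rw [Nat.cast_zero, zero_div, sub_zero, abs_of_pos hHpos] at hkw
      linarith
    have hkp : k ≠ A.p := by
      rintro rfl
      rw [div_self hp.ne', abs_sub_comm, abs_of_nonneg (by
        have : 0 < 1 / (A.q : ℝ) := by positivity
        linarith)] at hkw
      linarith
    obtain ⟨g1, g2⟩ := A.grid_core (k := k) (j := j) (H := H) (by rw [hH]; simp) hkw
    rw [A.ζ_window hk true hkw, A.ζ_window hk false hkw]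
    have ht : A.tref k := ⟨j, g1⟩
    have e := Ef_in (A.rho_core g2)
    unfold prof
    rw [if_neg (by tauto), if_pos ht, if_neg (by tauto), if_pos ht]
    unfold zst
    simp only [if_true, Bool.false_eq_true, if_false]
    rw [e]
    linarith
  let k : ℕ := ⌊(A.p : ℝ) * H⌋₊
  have hk1 : (k : ℝ) ≤ A.p * H := Nat.floor_le (by positivity)
  have hk2 : (A.p : ℝ) * H < k + 1 := Nat.lt_floor_add_one _
  have hk3 : (k : ℝ) / A.p ≤ H := by rw [div_le_iff₀ hp]; linarith
  have hk4 : H < (k + 1) / A.p := by rw [lt_div_iff₀ hp]; linarith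
  have hk5 : k < A.p := by
    have : (k : ℝ) < A.p := by
      have : H < 1 := by
        have : 0 < 1 / (A.q : ℝ) := by positivity
        linarith
      nlinarith
    exact_mod_cast this
  rcases le_or_gt H (k / A.p + A.w) with c1 | c1
  · apply key k hk5.le
    rw [abs_le]; constructor <;> linarith
  rcases le_or_gt ((k + 1) / A.p - A.w) H with c2 | c2
  · apply key (k + 1) hk5
    push_cast
    rw [abs_le]; constructor <;> linarith
  · rw [A.ζ_gap hk5 true c1.le c2.le, A.ζ_gap hk5 false c1.le c2.le]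
    have := A.gap_RL (u := H - k / A.p) (by linarith) (by rw [add_div] at c2; linarith)
    linarith

theorem ζ_I {i : ℕ} (h1 : 1 ≤ i) (h2 : i < A.p) :
    A.ζ false (i / A.p + A.δ) < A.ζ true (i / A.p - A.δ) := by
  have hδ := A.δ_pos
  have hw := A.w_gt
  have e1 : (i : ℝ) / A.p + A.δ - i / A.p = A.δ := by ring
  have e2 : (i : ℝ) / A.p - A.δ - i / A.p = -A.δ := by ring
  rw [A.ζ_window h2.le false (by rw [e1, abs_of_pos hδ]; exact hw.le),
    A.ζ_window h2.le true (by rw [e2, abs_neg, abs_of_pos hδ]; exact hw.le), e1, e2, A.rho_neg,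
    A.rho_δ]
  have h3 : ¬ (i = 0 ∨ i = A.p) := by omega
  unfold prof
  rw [if_neg h3, if_neg h3]
  by_cases ht : A.tref i
  · rw [if_pos ht, if_pos ht]
    unfold zst
    simp only [if_true, Bool.false_eq_true, if_false]
    rw [Gf_neg, Ef_neg, Gf_mid ⟨by norm_num, by norm_num⟩,
      Ef_mid (by rw [abs_of_pos (by norm_num)]; constructor <;> norm_num), abs_of_pos (by norm_num)]
    norm_num
  · rw [if_neg ht, if_neg ht]
    unfold ztr
    simp only [if_true, Bool.false_eq_true, if_false]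
    rw [ramp_right (a := -1) (b := 3 / 4) (by norm_num) le_rfl, ramp_left (a := 3 / 4) (b := 1) (by norm_num) le_rfl,
      ramp_right (a := -1) (b := -(3 / 4)) (by norm_num) le_rfl,
      ramp_left (a := -(3 / 4)) (b := 1) (by norm_num) le_rfl]
    norm_num

/-- both height functions order the crossings in the same way -/
theorem sign_crossing {t s : ℝ} (ht : t ∈ Icc (-1 : ℝ) 1) (hs : s ∈ Icc (-1 : ℝ) 1) (hst : s < t)
    (hX : A.X t = A.X s) (hY : A.Y t = A.Y s) :
    (t = 1 ∧ s = -1) ∨ 0 < (A.Z t - A.Z s) * (A.ζf t - A.ζf s) := by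
  have hp := A.p0
  have hq := A.q0
  rcases A.crossing ht hs hst hX hY with h | ⟨i, h1, h2, h3, h4, h5⟩ | ⟨j, h1, h2, h3, h4, h5⟩ |
    ⟨k, h1, h2, h3, h4, h5⟩ | ⟨k, h1, h2, h3, h4, h5⟩
  · exact Or.inl h
  · right
    have hi : 1 / (A.p : ℝ) ≤ i / A.p := by
      have : (1 : ℝ) ≤ i := by exact_mod_cast h1
      gcongr
    have := A.w_lt_p; have := A.w_gt; have := A.δ_pos
    rw [A.ζf_nonneg (t := t) (by rw [h3]; linarith), A.ζf_nonpos (t := s) (by rw [h4]; linarith)]
    have := A.ζ_I h1 h2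
    rw [h3, h4, neg_neg] at *
    apply mul_pos <;> linarith
  · right
    have hj : 0 < (j : ℝ) / A.q := by
      have : (1 : ℝ) ≤ j := by exact_mod_cast h1
      positivity
    rw [A.ζf_nonneg (t := t) (by rw [h3]; linarith), A.ζf_nonpos (t := s) (by rw [h4]; linarith)]
    have := A.ζ_II h1 h2
    rw [h3, h4, neg_neg] at *
    apply mul_pos_of_neg_of_neg <;> linarith
  · right
    obtain ⟨b, hb⟩ := A.ζf_abs t
    obtain ⟨b', hb'⟩ := A.ζf_abs s
    have e1 := A.ζ_ge h2 b h4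
    have e2 := A.ζ_le h1 h2.le b' h3
    have e3 := (A.gap_bd b (|t| - k / A.p)).1
    have e4 := (A.gap_bd b' (|s| - (k - 1) / A.p)).2
    rw [hb, hb']
    apply mul_pos <;> linarith
  · right
    obtain ⟨b, hb⟩ := A.ζf_abs t
    obtain ⟨b', hb'⟩ := A.ζf_abs s
    have e1 := A.ζ_ge h2 b' h4
    have e2 := A.ζ_le h1 h2.le b h3
    have e3 := (A.gap_bd b' (|s| - k / A.p)).1
    have e4 := (A.gap_bd b (|t| - (k - 1) / A.p)).2
    rw [hb, hb']
    apply mul_pos_of_neg_of_neg <;> linarith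

theorem X_deriv (a : ℝ) : HasStrictDerivAt A.X (-sin (π * (A.p * a)) * (π * A.p)) a := by
  unfold X
  have h1 : HasStrictDerivAt (fun t : ℝ => π * (A.p * t)) (π * A.p) a := by
    have := ((hasStrictDerivAt_id a).const_mul (A.p : ℝ)).const_mul π
    simpa using this
  exact (Real.hasStrictDerivAt_cos _).comp a h1

theorem Y_deriv (a : ℝ) : HasStrictDerivAt A.Y (-sin (π * (A.q * (a + A.δ))) * (π * A.q)) a := by
  unfold Y
  have h1 : HasStrictDerivAt (fun t : ℝ => π * (A.q * (t + A.δ))) (π * A.q) a := by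
    have := (((hasStrictDerivAt_id a).add_const A.δ).const_mul (A.q : ℝ)).const_mul π
    simpa using this
  exact (Real.hasStrictDerivAt_cos _).comp a h1

/-- the plane curve is an immersion -/
theorem immersion (a : ℝ) : ∃ C : ℝ, 0 ≤ C ∧ ∀ᶠ x in 𝓝 ((a, a) : ℝ × ℝ),
    |x.1 - x.2| ≤ C * max |A.X x.1 - A.X x.2| |A.Y x.1 - A.Y x.2| := by
  have hp := A.p0
  have hq := A.q0
  have hπ := Real.pi_pos
  have key : ∀ (f : ℝ → ℝ) (f' : ℝ), HasStrictDerivAt f f' a → f' ≠ 0 →
      ∃ C : ℝ, 0 ≤ C ∧ ∀ᶠ x in 𝓝 ((a, a) : ℝ × ℝ), |x.1 - x.2| ≤ C * |f x.1 - f x.2| := by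
    intro f f' hf hf'
    have h1 := (HasDerivAtFilter.isTheta_sub hf hf').isBigO_symm
    obtain ⟨C, hC0, hC⟩ := h1.exists_pos
    refine ⟨C, hC0.le, ?_⟩
    exact hC.bound
  by_cases h1 : sin (π * (A.p * a)) = 0
  · have h2 : sin (π * (A.q * (a + A.δ))) ≠ 0 := by
      intro h2
      rw [Real.sin_eq_zero_iff] at h1 h2
      obtain ⟨i, hi⟩ := h1
      obtain ⟨j, hj⟩ := h2
      have e1 : (A.p : ℝ) * a = i := by
        have : π * (A.p * a) = π * i := by linarith
        exact mul_left_cancel₀ hπ.ne' this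
      have e2 : (A.q : ℝ) * (a + A.δ) = j := by
        have : π * (A.q * (a + A.δ)) = π * j := by linarith
        exact mul_left_cancel₀ hπ.ne' this
      apply A.δ_generic i j
      rw [← e1, ← e2]
      ring
    obtain ⟨C, hC0, hC⟩ := key _ _ (A.Y_deriv a) (mul_ne_zero (neg_ne_zero.mpr h2) (by positivity))
    refine ⟨C, hC0, hC.mono fun x hx => hx.trans ?_⟩
    exact mul_le_mul_of_nonneg_left (le_max_right _ _) hC0
  · obtain ⟨C, hC0, hC⟩ := key _ _ (A.X_deriv a) (mul_ne_zero (neg_ne_zero.mpr h1) (by positivity))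
    refine ⟨C, hC0, hC.mono fun x hx => hx.trans ?_⟩
    exact mul_le_mul_of_nonneg_left (le_max_left _ _) hC0

theorem X_per (t : ℝ) : A.X (t - 2) = A.X t := by
  unfold X
  have : π * (A.p * (t - 2)) = π * (A.p * t) - (A.p : ℕ) * (2 * π) := by ring
  rw [this, Real.cos_sub_nat_mul_two_pi]

theorem Y_per (t : ℝ) : A.Y (t - 2) = A.Y t := by
  unfold Y
  have : π * (A.q * (t - 2 + A.δ)) = π * (A.q * (t + A.δ)) - (A.q : ℕ) * (2 * π) := by ring
  rw [this, Real.cos_sub_nat_mul_two_pi]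

theorem Z_per (t : ℝ) : A.Z (t - 2) = A.Z t := by
  unfold Z
  have : π * (A.N * (t - 2) + 1 / A.q) = π * (A.N * t + 1 / A.q) - (A.N : ℕ) * (2 * π) := by ring
  rw [this, Real.cos_sub_nat_mul_two_pi]

theorem cos_lip (a b : ℝ) : Lip (fun t : ℝ => cos (π * (a * t + b))) := by
  have h1 : Lip (fun t : ℝ => cos t) := by
    refine ⟨1, zero_le_one, fun x y => ?_⟩
    rw [one_mul, Real.cos_sub_cos, abs_mul, abs_mul, abs_neg, abs_two]
    have e1 : |sin ((x + y) / 2)| ≤ 1 := Real.abs_sin_le_one _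
    have e2 : |sin ((x - y) / 2)| ≤ |(x - y) / 2| := Real.abs_sin_le_abs
    have e3 : |(x - y) / 2| = |x - y| / 2 := by rw [abs_div, abs_two]
    rw [e3] at e2
    have e4 : 0 ≤ |sin ((x - y) / 2)| := abs_nonneg _
    nlinarith
  have h2 : Lip (fun t : ℝ => π * (a * t + b)) := ((Lip.id.mulc a).add (Lip.const b)).mulc π
  exact h1.comp h2

theorem Z_lip : Lip A.Z := by
  unfold Z
  exact cos_lip _ _

theorem X_lip : Lip A.X := by
  unfold X
  have := cos_lip A.p 0
  simpa using this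

theorem Y_lip : Lip A.Y := by
  unfold Y
  have := cos_lip A.q (A.q * A.δ)
  have e : (fun t : ℝ => cos (π * (A.q * (t + A.δ)))) = fun t : ℝ => cos (π * (A.q * t + A.q * A.δ)) := by
    funext t; rw [mul_add]
  rw [e]; exact this

/-- the Lissajous curve, parametrised by `[-1, 1]` -/
noncomputable def F (t : ℝ) : R3 := ![A.X t, A.Y t, A.Z t]

/-- the layered curve -/
noncomputable def F1 (t : ℝ) : R3 := ![A.X t, A.Y t, A.ζf t]

theorem global_iso : AmbIso (A.F '' Icc (-1) 1) (A.F1 '' Icc (-1) 1) := by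
  let w : ℝ → R3 := fun t => ![0, 0, A.ζf t - A.Z t]
  have hFw : ∀ τ t : ℝ, A.F t + τ • w t = ![A.X t, A.Y t, A.Z t + τ * (A.ζf t - A.Z t)] := by
    intro τ t
    unfold F
    ext i
    fin_cases i <;> simp [w]
  have hsub : ∀ a b c a' b' c' : ℝ, (![a, b, c] : R3) - ![a', b', c'] = ![a - a', b - b', c - c'] := by
    intro a b c a' b' c'
    ext i
    fin_cases i <;> simp
  have hwlip : Lip (fun t => A.ζf t - A.Z t) := A.ζf_lip.sub A.Z_lip
  obtain ⟨L, hL0, hL⟩ := hwlip
  have hwn : ∀ s t : ℝ, ‖w s - w t‖ ≤ L * |s - t| := by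
    intro s t
    simp only [w]
    rw [hsub]
    have h0 : 0 ≤ L * |s - t| := by positivity
    exact norm_vec_le (by simpa using h0) (by simpa using h0) (hL s t)
  have hplan : ∀ τ s t : ℝ, max |A.X s - A.X t| |A.Y s - A.Y t| ≤
      ‖(A.F s + τ • w s) - (A.F t + τ • w t)‖ := by
    intro τ s t
    rw [hFw, hFw, hsub]
    obtain ⟨n1, n2, _⟩ := le_norm_vec (A.X s - A.X t) (A.Y s - A.Y t)
      (A.Z s + τ * (A.ζf s - A.Z s) - (A.Z t + τ * (A.ζf t - A.Z t)))
    exact max_le n1 n2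
  have key := ambIso_curve A.F w ?_ ?_ ?_ ?_ ?_
  · have e : (fun a => A.F a + w a) = A.F1 := by
      funext t
      have := hFw 1 t
      rw [one_smul] at this
      rw [this]
      unfold F1
      rw [one_mul, add_sub_cancel]
    rwa [e] at key
  · unfold F
    apply continuous_pi
    intro i
    fin_cases i
    · exact A.X_lip.continuous
    · exact A.Y_lip.continuous
    · exact A.Z_lip.continuous
  · apply continuous_pi
    intro i
    fin_cases i
    · exact continuous_const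
    · exact continuous_const
    · exact (A.ζf_lip.sub A.Z_lip).continuous
  · intro τ hτ a ha b hb hab h
    rw [hFw, hFw] at h
    have h0 := congrFun h 0
    have h1 := congrFun h 1
    have h2 := congrFun h 2
    simp at h0 h1 h2
    rcases A.sign_crossing hb ha hab h0.symm h1.symm with h3 | h3
    · exact ⟨h3.2, h3.1⟩
    · exfalso
      have h4 := comb_ne h3 hτ
      apply h4
      linarith
  · intro τ _ a _
    obtain ⟨C, hC0, hC⟩ := A.immersion a
    refine ⟨L * C, hC.mono fun x hx _ _ => ?_⟩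
    calc ‖w x.1 - w x.2‖ ≤ L * |x.1 - x.2| := hwn _ _
      _ ≤ L * (C * max |A.X x.1 - A.X x.2| |A.Y x.1 - A.Y x.2|) := mul_le_mul_of_nonneg_left hx hL0
      _ ≤ L * (C * ‖(A.F x.1 + τ • w x.1) - (A.F x.2 + τ • w x.2)‖) := by
          have := hplan τ x.1 x.2
          gcongr
      _ = _ := by ring
  · intro τ _
    obtain ⟨C, hC0, hC⟩ := A.immersion (-1)
    have hw1 : w (-1) = w 1 := by
      simp only [w]
      rw [A.ζf_nonpos (t := -1) (by norm_num), A.ζf_nonneg (t := 1) (by norm_num), neg_neg,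
        A.ζ_one, A.ζ_one]
      have := A.Z_per 1
      norm_num at this
      rw [this]
    have hcont : Tendsto (fun x : ℝ × ℝ => (x.1, x.2 - 2)) (𝓝 ((-1 : ℝ), (1 : ℝ))) (𝓝 ((-1 : ℝ), (-1 : ℝ))) := by
      have h1 : Continuous (fun x : ℝ × ℝ => (x.1, x.2 - 2)) := by fun_prop
      have h2 := h1.tendsto ((-1 : ℝ), (1 : ℝ))
      norm_num at h2
      exact h2
    refine ⟨L * C, (hcont.eventually hC).mono fun x hx h1 h2 => ?_⟩
    simp only [A.X_per, A.Y_per] at hx
    have e1 : |x.1 - (x.2 - 2)| = (x.1 + 1) + (1 - x.2) := by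
      rw [abs_of_nonneg (by linarith [h1.1, h2.2])]; ring
    calc ‖w x.1 - w x.2‖ = ‖(w x.1 - w (-1)) - (w x.2 - w 1)‖ := by rw [hw1]; congr 1; abel
      _ ≤ ‖w x.1 - w (-1)‖ + ‖w x.2 - w 1‖ := norm_sub_le _ _
      _ ≤ L * |x.1 - -1| + L * |x.2 - 1| := add_le_add (hwn _ _) (hwn _ _)
      _ = L * |x.1 - (x.2 - 2)| := by
          rw [e1, abs_of_nonneg (by linarith [h1.1]), abs_of_nonpos (by linarith [h2.2])]; ring
      _ ≤ L * (C * max |A.X x.1 - A.X x.2| |A.Y x.1 - A.Y x.2|) := mul_le_mul_of_nonneg_left hx hL0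
      _ ≤ L * (C * ‖(A.F x.1 + τ • w x.1) - (A.F x.2 + τ • w x.2)‖) := by
          have := hplan τ x.1 x.2
          gcongr
      _ = _ := by ring

end Par

end Liss579
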