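import Mathlib

/-!
Piecewise linear functions.
-/

set_option autoImplicit false

namespace Liss579

open Set

/-- Lipschitz functions of a real variable -/
def Lip (f : ℝ → ℝ) : Prop := ∃ L : ℝ, 0 ≤ L ∧ ∀ x y, |f x - f y| ≤ L * |x - y|

theorem Lip.continuous {f : ℝ → ℝ} (h : Lip f) : Continuous f := by
  obtain ⟨L, hL, h⟩ := h
  have : LipschitzWith L.toNNReal f := by
    apply LipschitzWith.of_dist_le_mul
    intro x y
    rw [Real.dist_eq, Real.dist_eq, Real.coe_toNNReal L hL]
    exact h x y
  exact this.continuous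

theorem Lip.const (c : ℝ) : Lip (fun _ => c) := ⟨0, le_rfl, by simp⟩

theorem Lip.id : Lip (fun x => x) := ⟨1, zero_le_one, by simp⟩

theorem Lip.add {f g : ℝ → ℝ} (hf : Lip f) (hg : Lip g) : Lip (fun x => f x + g x) := by
  obtain ⟨L, hL, h⟩ := hf
  obtain ⟨M, hM, h'⟩ := hg
  refine ⟨L + M, by linarith, fun x y => ?_⟩
  have e : f x + g x - (f y + g y) = (f x - f y) + (g x - g y) := by ring
  rw [e]
  have := abs_add_le (f x - f y) (g x - g y)
  have := h x y
  have := h' x y
  linarith

theorem Lip.mulc {f : ℝ → ℝ} (c : ℝ) (hf : Lip f) : Lip (fun x => c * f x) := by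
  obtain ⟨L, hL, h⟩ := hf
  refine ⟨|c| * L, by positivity, fun x y => ?_⟩
  rw [← mul_sub, abs_mul, mul_assoc]
  exact mul_le_mul_of_nonneg_left (h x y) (abs_nonneg _)

theorem Lip.sub {f g : ℝ → ℝ} (hf : Lip f) (hg : Lip g) : Lip (fun x => f x - g x) := by
  have := hf.add (hg.mulc (-1))
  have e : (fun x => f x - g x) = fun x => f x + (-1) * g x := by
    funext x; ring
  rw [e]; exact this

theorem Lip.comp {f g : ℝ → ℝ} (hf : Lip f) (hg : Lip g) : Lip (fun x => f (g x)) := by
  obtain ⟨L, hL, h⟩ := hf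
  obtain ⟨M, hM, h'⟩ := hg
  refine ⟨L * M, by positivity, fun x y => ?_⟩
  calc |f (g x) - f (g y)| ≤ L * |g x - g y| := h _ _
    _ ≤ L * (M * |x - y|) := mul_le_mul_of_nonneg_left (h' x y) hL
    _ = _ := by ring

theorem Lip.abs' : Lip (fun x => |x|) :=
  ⟨1, zero_le_one, fun x y => by rw [one_mul]; exact abs_abs_sub_abs_le_abs_sub x y⟩

theorem Lip.sum {ι : Type*} (s : Finset ι) (f : ι → ℝ → ℝ) (h : ∀ i ∈ s, Lip (f i)) :
    Lip (fun x => ∑ i ∈ s, f i x) := by
  classical
  induction s using Finset.induction_on with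
  | empty => simpa using Lip.const 0
  | insert a s ha ih =>
    have h1 := (h a (Finset.mem_insert_self a s)).add (ih (fun i hi => h i (Finset.mem_insert_of_mem hi)))
    have e : (fun x => ∑ i ∈ insert a s, f i x) = fun x => f a x + ∑ i ∈ s, f i x := by
      funext x
      rw [Finset.sum_insert ha]
    rw [e]; exact h1

/-- the ramp from `0` to `1` on `[a, b]` -/
noncomputable def ramp (a b x : ℝ) : ℝ := max 0 (min 1 ((x - a) / (b - a)))

theorem ramp_nonneg (a b x : ℝ) : 0 ≤ ramp a b x := le_max_left _ _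
theorem ramp_le_one (a b x : ℝ) : ramp a b x ≤ 1 := max_le zero_le_one (min_le_left _ _)

theorem ramp_left {a b x : ℝ} (hab : a < b) (hx : x ≤ a) : ramp a b x = 0 := by
  unfold ramp
  apply max_eq_left
  refine (min_le_right _ _).trans ?_
  exact div_nonpos_of_nonpos_of_nonneg (by linarith) (by linarith)

theorem ramp_right {a b x : ℝ} (hab : a < b) (hx : b ≤ x) : ramp a b x = 1 := by
  unfold ramp
  have : 1 ≤ (x - a) / (b - a) := by
    rw [le_div_iff₀ (by linarith)]; linarith
  rw [min_eq_left this]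
  exact max_eq_right zero_le_one

theorem ramp_mid {a b x : ℝ} (hab : a < b) (hx : x ∈ Icc a b) : ramp a b x = (x - a) / (b - a) := by
  unfold ramp
  have h1 : (x - a) / (b - a) ≤ 1 := by
    rw [div_le_one (by linarith)]; linarith [hx.2]
  have h2 : 0 ≤ (x - a) / (b - a) := div_nonneg (by linarith [hx.1]) (by linarith)
  rw [min_eq_right h1, max_eq_right h2]

theorem ramp_mono {a b : ℝ} (hab : a < b) : Monotone (ramp a b) := by
  intro x y hxy
  unfold ramp
  have : (x - a) / (b - a) ≤ (y - a) / (b - a) := by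
    apply div_le_div_of_nonneg_right (by linarith) (by linarith)
  exact max_le_max le_rfl (min_le_min le_rfl this)

theorem ramp_strict {a b x y : ℝ} (hab : a < b) (hx : a ≤ x) (hxy : x < y) (hy : y ≤ b) :
    ramp a b x < ramp a b y := by
  rw [ramp_mid hab ⟨hx, by linarith⟩, ramp_mid hab ⟨by linarith, hy⟩]
  exact div_lt_div_of_pos_right (by linarith) (by linarith)

theorem ramp_pos {a b x : ℝ} (hab : a < b) (hx : a < x) : 0 < ramp a b x := by
  unfold ramp
  apply lt_max_of_lt_right
  apply lt_min zero_lt_one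
  exact div_pos (by linarith) (by linarith)

theorem ramp_lt_one {a b x : ℝ} (hab : a < b) (hx : x < b) : ramp a b x < 1 := by
  unfold ramp
  apply max_lt zero_lt_one
  apply min_lt_of_right_lt
  rw [div_lt_one (by linarith)]
  linarith

theorem ramp_lip {a b : ℝ} (hab : a < b) : Lip (ramp a b) := by
  refine ⟨1 / (b - a), by have : 0 < b - a := by linarith
                          positivity, fun x y => ?_⟩
  unfold ramp
  have h0 : 0 < b - a := by linarith
  have h1 : |max 0 (min 1 ((x - a) / (b - a))) - max 0 (min 1 ((y - a) / (b - a)))| ≤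
      |min 1 ((x - a) / (b - a)) - min 1 ((y - a) / (b - a))| := by
    have := abs_max_sub_max_le_max 0 (min 1 ((x - a) / (b - a))) 0 (min 1 ((y - a) / (b - a)))
    refine this.trans ?_
    rw [sub_self, abs_zero]
    exact max_le (abs_nonneg _) le_rfl
  have h2 : |min 1 ((x - a) / (b - a)) - min 1 ((y - a) / (b - a))| ≤
      |(x - a) / (b - a) - (y - a) / (b - a)| := by
    have := abs_min_sub_min_le_max 1 ((x - a) / (b - a)) 1 ((y - a) / (b - a))
    refine this.trans ?_
    rw [sub_self, abs_zero]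
    exact max_le (abs_nonneg _) le_rfl
  refine h1.trans (h2.trans (le_of_eq ?_))
  rw [← sub_div, abs_div, abs_of_pos h0]
  have : x - a - (y - a) = x - y := by ring
  rw [this]
  ring

/-- evaluation of a sum of functions which are constant on both sides -/
theorem sum_cells {n k : ℕ} (hk : k < n) (f : ℕ → ℝ) (a : ℝ) (h1 : ∀ i < k, f i = a)
    (h2 : ∀ i, k < i → i < n → f i = 0) : ∑ i ∈ Finset.range n, f i = k * a + f k := by
  have e1 : ∑ i ∈ Finset.range n, f i = ∑ i ∈ Finset.range (k + 1), f i := by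
    symm
    apply Finset.sum_subset
    · intro i hi
      rw [Finset.mem_range] at hi ⊢
      omega
    · intro i hi hi'
      rw [Finset.mem_range] at hi hi'
      exact h2 i (by omega) hi
  rw [e1, Finset.sum_range_succ]
  congr 1
  rw [Finset.sum_congr rfl (fun i hi => h1 i (Finset.mem_range.mp hi))]
  simp

end Liss579
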