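import Pool.Agent.Helper579_Lis.Curve
import Pool.Agent.Helper579_Lis.Ramp

/-!
The layered heights.
-/

set_option autoImplicit false

namespace Liss579

open Set Real

/-- odd part of the standard heights -/
noncomputable def Gf (v : ℝ) : ℝ :=
  -2 + 13 / 8 * ramp (-1) (-(3 / 4)) v + 3 / 4 * ramp (-(3 / 4)) (3 / 4) v + 13 / 8 * ramp (3 / 4) 1 v

/-- even part of the standard heights -/
noncomputable def Ef (v : ℝ) : ℝ := -1 + 2 * ramp (1 / 4) (3 / 4) |v| - ramp (3 / 4) 1 |v|

/-- heights in a knotted window -/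
noncomputable def zst (b : Bool) (v : ℝ) : ℝ := if b then Gf v + Ef v else Gf v - Ef v

/-- heights in a trivial window -/
noncomputable def ztr (b : Bool) (v : ℝ) : ℝ :=
  if b then 3 * ramp (-1) (-(3 / 4)) v + ramp (-(3 / 4)) 1 v - 2
  else ramp (-1) (3 / 4) v + 3 * ramp (3 / 4) 1 v - 2

theorem Gf_left {v : ℝ} (h : v ≤ -1) : Gf v = -2 := by
  unfold Gf
  rw [ramp_left (by norm_num) h, ramp_left (by norm_num) (by linarith),
    ramp_left (by norm_num) (by linarith)]
  norm_num

theorem Gf_right {v : ℝ} (h : 1 ≤ v) : Gf v = 2 := by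
  unfold Gf
  rw [ramp_right (by norm_num) (by linarith), ramp_right (by norm_num) (by linarith),
    ramp_right (by norm_num) h]
  norm_num

theorem Gf_mid {v : ℝ} (h : v ∈ Icc (-(3 / 4) : ℝ) (3 / 4)) : Gf v = v / 2 := by
  unfold Gf
  rw [ramp_right (by norm_num) h.1, ramp_mid (by norm_num) h, ramp_left (by norm_num) h.2]
  norm_num; ring

theorem Gf_hi {v : ℝ} (h : v ∈ Icc (3 / 4 : ℝ) 1) : Gf v = 3 / 8 + 13 / 2 * (v - 3 / 4) := by
  unfold Gf
  rw [ramp_right (by norm_num) (by linarith [h.1]), ramp_right (by norm_num) h.1,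
    ramp_mid (by norm_num) h]
  norm_num; ring

theorem Gf_lo {v : ℝ} (h : v ∈ Icc (-1 : ℝ) (-(3 / 4))) : Gf v = -(3 / 8) + 13 / 2 * (v + 3 / 4) := by
  unfold Gf
  rw [ramp_mid (by norm_num) h, ramp_left (by norm_num) h.2,
    ramp_left (by norm_num) (by linarith [h.2])]
  norm_num; ring

theorem Gf_neg (v : ℝ) : Gf (-v) = -Gf v := by
  rcases le_total v (-1) with h | h
  · rw [Gf_left h, Gf_right (by linarith)]; norm_num
  rcases le_total 1 v with h1 | h1
  · rw [Gf_right h1, Gf_left (by linarith)]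
  rcases le_total v (-(3 / 4)) with h2 | h2
  · rw [Gf_lo ⟨h, h2⟩, Gf_hi ⟨by linarith, by linarith⟩]; ring
  rcases le_total (3 / 4) v with h3 | h3
  · rw [Gf_hi ⟨h3, h1⟩, Gf_lo ⟨by linarith, by linarith⟩]; ring
  · rw [Gf_mid ⟨h2, h3⟩, Gf_mid ⟨by linarith, by linarith⟩]; ring

theorem Ef_in {v : ℝ} (h : |v| ≤ 1 / 4) : Ef v = -1 := by
  unfold Ef
  rw [ramp_left (by norm_num) h, ramp_left (by norm_num) (by linarith)]; norm_num

theorem Ef_mid {v : ℝ} (h : |v| ∈ Icc (1 / 4 : ℝ) (3 / 4)) : Ef v = 4 * |v| - 2 := by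
  unfold Ef
  rw [ramp_mid (by norm_num) h, ramp_left (by norm_num) h.2]; norm_num; ring

theorem Ef_hi {v : ℝ} (h : |v| ∈ Icc (3 / 4 : ℝ) 1) : Ef v = 4 - 4 * |v| := by
  unfold Ef
  rw [ramp_right (by norm_num) h.1, ramp_mid (by norm_num) h]; norm_num; ring

theorem Ef_out {v : ℝ} (h : 1 ≤ |v|) : Ef v = 0 := by
  unfold Ef
  rw [ramp_right (by norm_num) (by linarith), ramp_right (by norm_num) h]; norm_num

theorem Ef_neg (v : ℝ) : Ef (-v) = Ef v := by unfold Ef; rw [abs_neg]

theorem zst_left (b : Bool) {v : ℝ} (h : v ≤ -1) : zst b v = -2 := by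
  unfold zst
  have h1 : 1 ≤ |v| := by rw [abs_of_nonpos (by linarith)]; linarith
  rw [Gf_left h, Ef_out h1]; simp

theorem zst_right (b : Bool) {v : ℝ} (h : 1 ≤ v) : zst b v = 2 := by
  unfold zst
  have h1 : 1 ≤ |v| := by rw [abs_of_nonneg (by linarith)]; linarith
  rw [Gf_right h, Ef_out h1]; simp

theorem ztr_left (b : Bool) {v : ℝ} (h : v ≤ -1) : ztr b v = -2 := by
  unfold ztr
  cases b
  · simp only [Bool.false_eq_true, if_false]
    rw [ramp_left (by norm_num) h, ramp_left (by norm_num) (by linarith)]; norm_num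
  · simp only [if_true]
    rw [ramp_left (by norm_num) h, ramp_left (by norm_num) (by linarith)]; norm_num

theorem ztr_right (b : Bool) {v : ℝ} (h : 1 ≤ v) : ztr b v = 2 := by
  unfold ztr
  cases b
  · simp only [Bool.false_eq_true, if_false]
    rw [ramp_right (by norm_num) (by linarith), ramp_right (by norm_num) h]; norm_num
  · simp only [if_true]
    rw [ramp_right (by norm_num) (by linarith), ramp_right (by norm_num) h]; norm_num

theorem Gf_lip : Lip Gf := by
  unfold Gf
  exact (((Lip.const _).add ((ramp_lip (by norm_num)).mulc _)).add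
    ((ramp_lip (by norm_num)).mulc _)).add ((ramp_lip (by norm_num)).mulc _)

theorem Ef_lip : Lip Ef := by
  unfold Ef
  exact ((Lip.const _).add (((ramp_lip (by norm_num)).comp Lip.abs').mulc _)).sub
    ((ramp_lip (by norm_num)).comp Lip.abs')

theorem zst_lip (b : Bool) : Lip (zst b) := by
  unfold zst
  cases b
  · exact Gf_lip.sub Ef_lip
  · exact Gf_lip.add Ef_lip

theorem ztr_lip (b : Bool) : Lip (ztr b) := by
  unfold ztr
  cases b
  · exact ((ramp_lip (by norm_num)).add ((ramp_lip (by norm_num)).mulc _)).sub (Lip.const _)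
  · exact (((ramp_lip (by norm_num)).mulc _).add (ramp_lip (by norm_num))).sub (Lip.const _)

/-- bounds of the standard heights -/
theorem zst_bd (b : Bool) {v : ℝ} (h : v ∈ Icc (-1 : ℝ) 1) : zst b v ∈ Icc (-2 : ℝ) 2 := by
  have key : ∀ v ∈ Icc (0 : ℝ) 1, 0 ≤ Gf v ∧ |Ef v| ≤ 2 - Gf v := by
    intro v hv
    rcases le_total v (1 / 4) with h1 | h1
    · have h2 : |v| ≤ 1 / 4 := by rw [abs_of_nonneg hv.1]; exact h1
      rw [Ef_in h2, Gf_mid ⟨by linarith [hv.1], by linarith⟩]
      constructor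
      · linarith [hv.1]
      · rw [abs_neg, abs_one]; linarith
    rcases le_total v (3 / 4) with h3 | h3
    · rw [Ef_mid (by rw [abs_of_nonneg hv.1]; exact ⟨h1, h3⟩), Gf_mid ⟨by linarith, h3⟩,
        abs_of_nonneg hv.1]
      refine ⟨by linarith, ?_⟩
      rw [abs_le]; constructor <;> linarith
    · rw [Ef_hi (by rw [abs_of_nonneg hv.1]; exact ⟨h3, hv.2⟩), Gf_hi ⟨h3, hv.2⟩,
        abs_of_nonneg hv.1]
      refine ⟨by linarith, ?_⟩
      rw [abs_le]; constructor <;> linarith [hv.2]
  rcases le_total 0 v with h0 | h0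
  · obtain ⟨h1, h2⟩ := key v ⟨h0, h.2⟩
    rw [abs_le] at h2
    unfold zst
    cases b
    · simp only [Bool.false_eq_true, if_false]; constructor <;> linarith
    · simp only [if_true]; constructor <;> linarith
  · obtain ⟨h1, h2⟩ := key (-v) ⟨by linarith, by linarith [h.1]⟩
    rw [abs_le] at h2
    rw [Gf_neg, Ef_neg] at h2
    rw [Gf_neg] at h1
    unfold zst
    cases b
    · simp only [Bool.false_eq_true, if_false]; constructor <;> linarith
    · simp only [if_true]; constructor <;> linarith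

theorem ztr_strict (b : Bool) : StrictMonoOn (ztr b) (Icc (-1) 1) := by
  intro x hx y hy hxy
  unfold ztr
  cases b
  · simp only [Bool.false_eq_true, if_false]
    have h1 := ramp_mono (a := -1) (b := 3 / 4) (by norm_num) hxy.le
    have h2 := ramp_mono (a := 3 / 4) (b := 1) (by norm_num) hxy.le
    rcases lt_or_ge x (3 / 4) with h3 | h3
    · rcases le_total y (3 / 4) with h4 | h4
      · have := ramp_strict (a := -1) (b := 3 / 4) (by norm_num) hx.1 hxy h4
        linarith
      · have := ramp_lt_one (a := -1) (b := 3 / 4) (by norm_num) h3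
        have := ramp_right (a := -1) (b := 3 / 4) (by norm_num) h4
        linarith
    · have := ramp_strict (a := 3 / 4) (b := 1) (by norm_num) h3 hxy hy.2
      linarith
  · simp only [if_true]
    have h1 := ramp_mono (a := -1) (b := -(3 / 4)) (by norm_num) hxy.le
    have h2 := ramp_mono (a := -(3 / 4)) (b := 1) (by norm_num) hxy.le
    rcases lt_or_ge x (-(3 / 4)) with h3 | h3
    · rcases le_total y (-(3 / 4)) with h4 | h4
      · have := ramp_strict (a := -1) (b := -(3 / 4)) (by norm_num) hx.1 hxy h4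
        linarith
      · have := ramp_lt_one (a := -1) (b := -(3 / 4)) (by norm_num) h3
        have := ramp_right (a := -1) (b := -(3 / 4)) (by norm_num) h4
        linarith
    · have := ramp_strict (a := -(3 / 4)) (b := 1) (by norm_num) h3 hxy hy.2
      linarith

/-- the standard heights increase near the lower end -/
theorem zst_strict_lo (b : Bool) : StrictMonoOn (zst b) (Icc (-1) (-(3 / 4))) := by
  intro x hx y hy hxy
  have e : ∀ z ∈ Icc (-1 : ℝ) (-(3 / 4)), |z| ∈ Icc (3 / 4 : ℝ) 1 := by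
    intro z hz
    rw [abs_of_nonpos (by linarith [hz.2])]
    constructor <;> linarith [hz.1, hz.2]
  unfold zst
  rw [Gf_lo hx, Gf_lo hy, Ef_hi (e x hx), Ef_hi (e y hy), abs_of_nonpos (by linarith [hx.2]),
    abs_of_nonpos (by linarith [hy.2])]
  cases b
  · simp only [Bool.false_eq_true, if_false]; linarith
  · simp only [if_true]; linarith

/-- the standard heights are above `-11/8` outside the lower end -/
theorem zst_above (b : Bool) {v : ℝ} (h : v ∈ Icc (-(3 / 4) : ℝ) 1) : -(11 / 8) ≤ zst b v := by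
  unfold zst
  rcases le_total v (-(1 / 4)) with h1 | h1
  · rw [Gf_mid ⟨h.1, by linarith⟩, Ef_mid (by
      rw [abs_of_nonpos (by linarith)]; constructor <;> linarith [h.1]), abs_of_nonpos (by linarith)]
    cases b
    · simp only [Bool.false_eq_true, if_false]; linarith [h.1]
    · simp only [if_true]; linarith
  rcases le_total v (1 / 4) with h2 | h2
  · rw [Gf_mid ⟨h.1, by linarith⟩, Ef_in (abs_le.mpr ⟨by linarith, h2⟩)]
    cases b
    · simp only [Bool.false_eq_true, if_false]; linarith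
    · simp only [if_true]; linarith
  rcases le_total v (3 / 4) with h3 | h3
  · rw [Gf_mid ⟨h.1, h3⟩, Ef_mid (by
      rw [abs_of_nonneg (by linarith)]; exact ⟨h2, h3⟩), abs_of_nonneg (by linarith)]
    cases b
    · simp only [Bool.false_eq_true, if_false]; linarith
    · simp only [if_true]; linarith
  · rw [Gf_hi ⟨h3, h.2⟩, Ef_hi (by
      rw [abs_of_nonneg (by linarith)]; exact ⟨h3, h.2⟩), abs_of_nonneg (by linarith)]
    cases b
    · simp only [Bool.false_eq_true, if_false]; linarith
    · simp only [if_true]; linarith [h.2]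

namespace Par

variable (A : Par)

/-- half of the normalised coordinate -/
noncomputable def rhoP (u : ℝ) : ℝ :=
  1 / 4 * ramp 0 A.w0 u + 1 / 2 * ramp A.w0 A.δ u + 1 / 4 * ramp A.δ A.w u + max 0 (u - A.w)

/-- the normalised coordinate in a window -/
noncomputable def rho (u : ℝ) : ℝ := A.rhoP u - A.rhoP (-u)

theorem rhoP_nonpos {u : ℝ} (h : u ≤ 0) : A.rhoP u = 0 := by
  have h0 := A.w0_pos; have h1 := A.w0_lt; have h2 := A.w_gt
  unfold rhoP
  rw [ramp_left h0 h, ramp_left h1 (by linarith), ramp_left h2 (by linarith),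
    max_eq_left (by linarith)]
  norm_num

theorem rhoP_mono : Monotone A.rhoP := by
  have h0 := A.w0_pos; have h1 := A.w0_lt; have h2 := A.w_gt
  intro x y hxy
  unfold rhoP
  have a1 := ramp_mono h0 hxy
  have a2 := ramp_mono h1 hxy
  have a3 := ramp_mono h2 hxy
  have a4 : max 0 (x - A.w) ≤ max 0 (y - A.w) := max_le_max le_rfl (by linarith)
  linarith

theorem rhoP_strict {x y : ℝ} (hx : 0 ≤ x) (hxy : x < y) : A.rhoP x < A.rhoP y := by
  have h0 := A.w0_pos; have h1 := A.w0_lt; have h2 := A.w_gt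
  have a1 := ramp_mono h0 hxy.le
  have a2 := ramp_mono h1 hxy.le
  have a3 := ramp_mono h2 hxy.le
  have a4 : max 0 (x - A.w) ≤ max 0 (y - A.w) := max_le_max le_rfl (by linarith)
  unfold rhoP
  rcases lt_or_ge x A.w0 with b1 | b1
  · have : ramp 0 A.w0 x < ramp 0 A.w0 y := by
      rcases le_total y A.w0 with c | c
      · exact ramp_strict h0 hx hxy c
      · rw [ramp_right h0 c]; exact ramp_lt_one h0 b1
    linarith
  rcases lt_or_ge x A.δ with b2 | b2
  · have : ramp A.w0 A.δ x < ramp A.w0 A.δ y := by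
      rcases le_total y A.δ with c | c
      · exact ramp_strict h1 b1 hxy c
      · rw [ramp_right h1 c]; exact ramp_lt_one h1 b2
    linarith
  rcases lt_or_ge x A.w with b3 | b3
  · have : ramp A.δ A.w x < ramp A.δ A.w y := by
      rcases le_total y A.w with c | c
      · exact ramp_strict h2 b2 hxy c
      · rw [ramp_right h2 c]; exact ramp_lt_one h2 b3
    linarith
  · have : max 0 (x - A.w) < max 0 (y - A.w) := by
      rw [max_eq_right (by linarith), max_eq_right (by linarith)]; linarith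
    linarith

theorem rho_neg (u : ℝ) : A.rho (-u) = -A.rho u := by
  unfold rho; rw [neg_neg]; ring

theorem rho_nonneg {u : ℝ} (h : 0 ≤ u) : A.rho u = A.rhoP u := by
  unfold rho; rw [A.rhoP_nonpos (by linarith : -u ≤ 0), sub_zero]

theorem rho_strict : StrictMono A.rho := by
  intro x y hxy
  unfold rho
  have a1 := A.rhoP_mono hxy.le
  have a2 := A.rhoP_mono (by linarith : -y ≤ -x)
  rcases lt_or_ge x 0 with h | h
  · have := A.rhoP_strict (x := max 0 (-y)) (y := -x) (le_max_left _ _) (max_lt (by linarith) (by linarith))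
    have h3 : A.rhoP (-y) ≤ A.rhoP (max 0 (-y)) := A.rhoP_mono (le_max_right _ _)
    linarith
  · have := A.rhoP_strict h hxy
    linarith

theorem rho_lip : Lip A.rho := by
  have h0 := A.w0_pos; have h1 := A.w0_lt; have h2 := A.w_gt
  have hm : Lip (fun u => max 0 (u - A.w)) := by
    refine ⟨1, zero_le_one, fun x y => ?_⟩
    have := abs_max_sub_max_le_max 0 (x - A.w) 0 (y - A.w)
    refine this.trans ?_
    rw [sub_self, abs_zero, sub_sub_sub_cancel_right, one_mul]
    exact max_le (abs_nonneg _) le_rfl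
  have hP : Lip A.rhoP := by
    unfold rhoP
    exact ((((ramp_lip h0).mulc _).add ((ramp_lip h1).mulc _)).add ((ramp_lip h2).mulc _)).add hm
  have hn : Lip (fun u : ℝ => -u) := by
    have := Lip.id.mulc (-1)
    simpa using this
  unfold rho
  exact hP.sub (hP.comp hn)

theorem rho_zero : A.rho 0 = 0 := by unfold rho; simp

theorem rho_w0 : A.rho A.w0 = 1 / 4 := by
  have h0 := A.w0_pos; have h1 := A.w0_lt; have h2 := A.w_gt
  rw [A.rho_nonneg h0.le]
  unfold rhoP
  rw [ramp_right h0 le_rfl, ramp_left h1 le_rfl, ramp_left h2 (by linarith),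
    max_eq_left (by linarith)]
  norm_num

theorem rho_δ : A.rho A.δ = 3 / 4 := by
  have h0 := A.w0_pos; have h1 := A.w0_lt; have h2 := A.w_gt
  rw [A.rho_nonneg (by linarith)]
  unfold rhoP
  rw [ramp_right h0 (by linarith), ramp_right h1 le_rfl, ramp_left h2 le_rfl,
    max_eq_left (by linarith)]
  norm_num

theorem rho_w : A.rho A.w = 1 := by
  have h0 := A.w0_pos; have h1 := A.w0_lt; have h2 := A.w_gt
  rw [A.rho_nonneg (by linarith)]
  unfold rhoP
  rw [ramp_right h0 (by linarith), ramp_right h1 (by linarith), ramp_right h2 le_rfl,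
    max_eq_left (by linarith)]
  norm_num

/-- the windows which carry a trefoil -/
def tref (k : ℕ) : Prop := ∃ j : ℤ, |(k : ℤ) * A.q - j * A.p| ≤ A.r

open Classical in
/-- the heights in the window `k` -/
noncomputable def prof (k : ℕ) (b : Bool) (v : ℝ) : ℝ :=
  if k = 0 ∨ k = A.p then 4 * ramp (-1) 1 v - 2 else if A.tref k then zst b v else ztr b v

/-- the heights between the windows -/
noncomputable def gap (b : Bool) (u : ℝ) : ℝ :=
  if b then 1 / 4 * ramp A.w (1 / (2 * A.p)) u + 3 / 4 * ramp (1 / (2 * A.p)) (1 / A.p - A.w) u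
  else 3 / 4 * ramp A.w (1 / (2 * A.p)) u + 1 / 4 * ramp (1 / (2 * A.p)) (1 / A.p - A.w) u

/-- the layered heights -/
noncomputable def ζ (b : Bool) (H : ℝ) : ℝ :=
  ∑ k ∈ Finset.range (A.p + 1), (A.prof k b (A.rho (H - k / A.p)) + 2) +
    ∑ k ∈ Finset.range A.p, A.gap b (H - k / A.p) - 2

theorem wp1 : A.w < 1 / (2 * A.p) := by
  have := A.w_lt_p
  have h : (1 : ℝ) / (2 * A.p) = 1 / 2 * (1 / A.p) := by
    have := A.p0; field_simp
  rw [h]; linarith

theorem wp2 : 1 / (2 * (A.p : ℝ)) < 1 / A.p - A.w := by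
  have := A.w_lt_p
  have h : (1 : ℝ) / (2 * A.p) = 1 / 2 * (1 / A.p) := by
    have := A.p0; field_simp
  rw [h]; linarith

theorem prof_left (k : ℕ) (b : Bool) {v : ℝ} (h : v ≤ -1) : A.prof k b v = -2 := by
  unfold prof
  split_ifs
  · rw [ramp_left (by norm_num) h]; norm_num
  · exact zst_left b h
  · exact ztr_left b h

theorem prof_right (k : ℕ) (b : Bool) {v : ℝ} (h : 1 ≤ v) : A.prof k b v = 2 := by
  unfold prof
  split_ifs
  · rw [ramp_right (by norm_num) h]; norm_num
  · exact zst_right b h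
  · exact ztr_right b h

theorem prof_bd (k : ℕ) (b : Bool) (v : ℝ) : A.prof k b v ∈ Icc (-2 : ℝ) 2 := by
  rcases le_total v (-1) with h | h
  · rw [A.prof_left k b h]; constructor <;> norm_num
  rcases le_total 1 v with h1 | h1
  · rw [A.prof_right k b h1]; constructor <;> norm_num
  unfold prof
  split_ifs
  · have := ramp_nonneg (-1) 1 v
    have := ramp_le_one (-1) 1 v
    constructor <;> linarith
  · exact zst_bd b ⟨h, h1⟩
  · have h3 : ztr b (-1) ≤ ztr b v := (ztr_strict b).monotoneOn ⟨le_rfl, by norm_num⟩ ⟨h, h1⟩ h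
    have h4 : ztr b v ≤ ztr b 1 := (ztr_strict b).monotoneOn ⟨h, h1⟩ ⟨by norm_num, le_rfl⟩ h1
    rw [ztr_left b le_rfl] at h3
    rw [ztr_right b le_rfl] at h4
    exact ⟨h3, h4⟩

theorem prof_lip (k : ℕ) (b : Bool) : Lip (A.prof k b) := by
  have : A.prof k b = fun v => A.prof k b v := rfl
  unfold prof
  split_ifs
  · exact ((ramp_lip (by norm_num)).mulc _).sub (Lip.const _)
  · exact zst_lip b
  · exact ztr_lip b

theorem gap_left (b : Bool) {u : ℝ} (h : u ≤ A.w) : A.gap b u = 0 := by
  have h1 := A.wp1; have h2 := A.wp2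
  unfold gap
  rw [ramp_left h1 h, ramp_left h2 (by linarith)]
  split_ifs <;> norm_num

theorem gap_right (b : Bool) {u : ℝ} (h : 1 / A.p - A.w ≤ u) : A.gap b u = 1 := by
  have h1 := A.wp1; have h2 := A.wp2
  unfold gap
  rw [ramp_right h1 (by linarith), ramp_right h2 h]
  split_ifs <;> norm_num

theorem gap_bd (b : Bool) (u : ℝ) : A.gap b u ∈ Icc (0 : ℝ) 1 := by
  unfold gap
  have a1 := ramp_nonneg A.w (1 / (2 * A.p)) u
  have a2 := ramp_le_one A.w (1 / (2 * A.p)) u
  have a3 := ramp_nonneg (1 / (2 * A.p)) (1 / A.p - A.w) u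
  have a4 := ramp_le_one (1 / (2 * A.p)) (1 / A.p - A.w) u
  split_ifs <;> constructor <;> linarith

theorem gap_pos (b : Bool) {u : ℝ} (h : A.w < u) : 0 < A.gap b u := by
  have h1 := A.wp1
  unfold gap
  have a1 := ramp_pos h1 h
  have a3 := ramp_nonneg (1 / (2 * A.p)) (1 / A.p - A.w) u
  split_ifs <;> linarith

theorem gap_lt_one (b : Bool) {u : ℝ} (h : u < 1 / A.p - A.w) : A.gap b u < 1 := by
  have h2 := A.wp2
  unfold gap
  have a2 := ramp_le_one A.w (1 / (2 * A.p)) u
  have a3 := ramp_lt_one h2 h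
  split_ifs <;> linarith

theorem gap_strict (b : Bool) : StrictMonoOn (A.gap b) (Icc A.w (1 / A.p - A.w)) := by
  have h1 := A.wp1; have h2 := A.wp2
  intro x hx y hy hxy
  have a1 := ramp_mono h1 hxy.le
  have a2 := ramp_mono h2 hxy.le
  unfold gap
  rcases lt_or_ge x (1 / (2 * A.p)) with h | h
  · have : ramp A.w (1 / (2 * A.p)) x < ramp A.w (1 / (2 * A.p)) y := by
      rcases le_total y (1 / (2 * A.p)) with c | c
      · exact ramp_strict h1 hx.1 hxy c
      · rw [ramp_right h1 c]; exact ramp_lt_one h1 h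
    split_ifs <;> linarith
  · have := ramp_strict h2 h hxy hy.2
    split_ifs <;> linarith

theorem gap_RL {u : ℝ} (h1 : A.w < u) (h2 : u < 1 / A.p - A.w) : A.gap true u < A.gap false u := by
  have h3 := A.wp1; have h4 := A.wp2
  unfold gap
  simp only [if_true, Bool.false_eq_true, if_false]
  have : ramp (1 / (2 * A.p)) (1 / A.p - A.w) u < ramp A.w (1 / (2 * A.p)) u := by
    rcases le_total u (1 / (2 * A.p)) with c | c
    · rw [ramp_left h4 c]; exact ramp_pos h3 h1
    · rw [ramp_right h3 c]; exact ramp_lt_one h4 h2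
  linarith

theorem gap_lip (b : Bool) : Lip (A.gap b) := by
  have h1 := A.wp1; have h2 := A.wp2
  unfold gap
  cases b
  · exact ((ramp_lip h1).mulc _).add ((ramp_lip h2).mulc _)
  · exact ((ramp_lip h1).mulc _).add ((ramp_lip h2).mulc _)

theorem shift_lip (a : ℝ) : Lip (fun H : ℝ => H - a) := Lip.id.sub (Lip.const a)

theorem ζ_lip (b : Bool) : Lip (A.ζ b) := by
  unfold ζ
  refine ((Lip.sum _ _ ?_).add (Lip.sum _ _ ?_)).sub (Lip.const _)
  · intro k _
    exact ((A.prof_lip k b).comp (A.rho_lip.comp (shift_lip _))).add (Lip.const _)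
  · intro k _
    exact (A.gap_lip b).comp (shift_lip _)

theorem rho_ge_one {u : ℝ} (h : A.w ≤ u) : 1 ≤ A.rho u := by
  rw [← A.rho_w]; exact A.rho_strict.monotone h

theorem rho_le_neg_one {u : ℝ} (h : u ≤ -A.w) : A.rho u ≤ -1 := by
  have := A.rho_ge_one (u := -u) (by linarith)
  rw [A.rho_neg] at this
  linarith

theorem divp_le {i k : ℕ} (h : i + 1 ≤ k) : (i : ℝ) / A.p + 1 / A.p ≤ k / A.p := by
  have hp := A.p0
  have h1 : (i : ℝ) + 1 ≤ k := by exact_mod_cast h
  rw [← add_div]
  gcongr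

theorem ζ_window {k : ℕ} (hk : k ≤ A.p) (b : Bool) {H : ℝ} (h : |H - k / A.p| ≤ A.w) :
    A.ζ b H = 5 * k + A.prof k b (A.rho (H - k / A.p)) := by
  have hw := A.w_lt_p
  rw [abs_le] at h
  have e1 : ∑ i ∈ Finset.range (A.p + 1), (A.prof i b (A.rho (H - i / A.p)) + 2) =
      k * 4 + (A.prof k b (A.rho (H - k / A.p)) + 2) := by
    apply sum_cells (by omega)
    · intro i hi
      have := A.divp_le (i := i) (k := k) (by omega)
      rw [A.prof_right i b (A.rho_ge_one (by linarith))]; norm_num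
    · intro i hi _
      have := A.divp_le (i := k) (k := i) (by omega)
      rw [A.prof_left i b (A.rho_le_neg_one (by linarith))]; norm_num
  have e2 : ∑ i ∈ Finset.range A.p, A.gap b (H - i / A.p) = k * 1 := by
    rcases Nat.lt_or_ge k A.p with hkp | hkp
    · rw [sum_cells hkp _ 1]
      · rw [A.gap_left b h.2]; ring
      · intro i hi
        have := A.divp_le (i := i) (k := k) (by omega)
        exact A.gap_right b (by linarith)
      · intro i hi _
        have := A.divp_le (i := k) (k := i) (by omega)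
        have := A.w_pos
        exact A.gap_left b (by linarith)
    · have hkp' : k = A.p := le_antisymm hk hkp
      rw [Finset.sum_congr rfl (g := fun _ => (1 : ℝ))]
      · rw [Finset.sum_const, Finset.card_range, hkp']; simp
      · intro i hi
        rw [Finset.mem_range] at hi
        have := A.divp_le (i := i) (k := k) (by omega)
        exact A.gap_right b (by linarith)
  unfold ζ
  rw [e1, e2]
  ring

theorem ζ_gap {k : ℕ} (hk : k < A.p) (b : Bool) {H : ℝ} (h1 : k / A.p + A.w ≤ H)
    (h2 : H ≤ (k + 1) / A.p - A.w) : A.ζ b H = 5 * k + 2 + A.gap b (H - k / A.p) := by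
  have hw := A.w_lt_p
  have hp := A.p0
  rw [add_div] at h2
  have e1 : ∑ i ∈ Finset.range (A.p + 1), (A.prof i b (A.rho (H - i / A.p)) + 2) =
      k * 4 + (A.prof k b (A.rho (H - k / A.p)) + 2) := by
    apply sum_cells (by omega)
    · intro i hi
      have := A.divp_le (i := i) (k := k) (by omega)
      rw [A.prof_right i b (A.rho_ge_one (by linarith [A.w_pos]))]; norm_num
    · intro i hi _
      have := A.divp_le (i := k) (k := i) (by omega)
      rw [A.prof_left i b (A.rho_le_neg_one (by linarith))]; norm_num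
  have hw0 := A.w_pos
  have e2 : ∑ i ∈ Finset.range A.p, A.gap b (H - i / A.p) = k * 1 + A.gap b (H - k / A.p) := by
    apply sum_cells hk
    · intro i hi
      have := A.divp_le (i := i) (k := k) (by omega)
      exact A.gap_right b (by linarith)
    · intro i hi _
      have := A.divp_le (i := k) (k := i) (by omega)
      have := A.w_pos
      exact A.gap_left b (by linarith)
  unfold ζ
  rw [e1, e2, A.prof_right k b (A.rho_ge_one (by linarith))]
  ring

theorem sum_ge {n : ℕ} (f : ℕ → ℝ) (a : ℝ) {k : ℕ} (hk : k ≤ n) (h0 : ∀ i < n, 0 ≤ f i)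
    (h1 : ∀ i < k, f i = a) : k * a ≤ ∑ i ∈ Finset.range n, f i := by
  have e : ∑ i ∈ Finset.range k, f i = k * a := by
    rw [Finset.sum_congr rfl (fun i hi => h1 i (Finset.mem_range.mp hi))]
    simp
  rw [← e]
  apply Finset.sum_le_sum_of_subset_of_nonneg
  · intro i hi
    rw [Finset.mem_range] at hi ⊢; omega
  · intro i hi _
    exact h0 i (Finset.mem_range.mp hi)

theorem sum_le {n : ℕ} (f : ℕ → ℝ) (a : ℝ) {k : ℕ} (hk : k ≤ n) (h0 : ∀ i < k, f i ≤ a)
    (h1 : ∀ i, k ≤ i → i < n → f i = 0) : ∑ i ∈ Finset.range n, f i ≤ k * a := by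
  have e : ∑ i ∈ Finset.range n, f i = ∑ i ∈ Finset.range k, f i := by
    symm
    apply Finset.sum_subset
    · intro i hi
      rw [Finset.mem_range] at hi ⊢; omega
    · intro i hi hi'
      rw [Finset.mem_range] at hi hi'
      exact h1 i (by omega) hi
  rw [e]
  calc ∑ i ∈ Finset.range k, f i ≤ ∑ i ∈ Finset.range k, a :=
        Finset.sum_le_sum (fun i hi => h0 i (Finset.mem_range.mp hi))
    _ = k * a := by simp

theorem ζ_ge {k : ℕ} (hk : k < A.p) (b : Bool) {H : ℝ} (h : k / A.p + A.w ≤ H) :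
    5 * k + 2 + A.gap b (H - k / A.p) ≤ A.ζ b H := by
  have hw := A.w_lt_p
  have hw0 := A.w_pos
  have e1 : ((k + 1 : ℕ) : ℝ) * 4 ≤ ∑ i ∈ Finset.range (A.p + 1), (A.prof i b (A.rho (H - i / A.p)) + 2) := by
    apply sum_ge _ 4 (by omega)
    · intro i _
      have := (A.prof_bd i b (A.rho (H - i / A.p))).1
      linarith
    · intro i hi
      have h2 : (i : ℝ) / A.p ≤ k / A.p := by
        have hp := A.p0
        have : (i : ℝ) ≤ k := by exact_mod_cast (by omega : i ≤ k)
        gcongr
      rw [A.prof_right i b (A.rho_ge_one (by linarith))]; norm_num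
  have e2 : (k : ℝ) * 1 + A.gap b (H - k / A.p) ≤ ∑ i ∈ Finset.range A.p, A.gap b (H - i / A.p) := by
    have e3 : ∑ i ∈ Finset.range (k + 1), A.gap b (H - i / A.p) = k * 1 + A.gap b (H - k / A.p) := by
      rw [Finset.sum_range_succ]
      congr 1
      rw [Finset.sum_congr rfl (g := fun _ => (1 : ℝ))]
      · simp
      · intro i hi
        rw [Finset.mem_range] at hi
        have := A.divp_le (i := i) (k := k) (by omega)
        exact A.gap_right b (by linarith)
    rw [← e3]
    apply Finset.sum_le_sum_of_subset_of_nonneg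
    · intro i hi
      rw [Finset.mem_range] at hi ⊢; omega
    · intro i _ _
      exact (A.gap_bd b _).1
  unfold ζ
  push_cast at e1
  linarith

theorem ζ_le {k : ℕ} (hk1 : 1 ≤ k) (hk : k ≤ A.p) (b : Bool) {H : ℝ} (h : H ≤ k / A.p - A.w) :
    A.ζ b H ≤ 5 * k - 3 + A.gap b (H - (k - 1) / A.p) := by
  have hw := A.w_lt_p
  have hw0 := A.w_pos
  have hp := A.p0
  obtain ⟨m, rfl⟩ : ∃ m, k = m + 1 := ⟨k - 1, by omega⟩
  have hcast : (((m + 1 : ℕ) : ℝ) - 1) = m := by push_cast; ring
  rw [hcast]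
  have e1 : ∑ i ∈ Finset.range (A.p + 1), (A.prof i b (A.rho (H - i / A.p)) + 2) ≤ ((m + 1 : ℕ) : ℝ) * 4 := by
    apply sum_le _ 4 (by omega)
    · intro i _
      have := (A.prof_bd i b (A.rho (H - i / A.p))).2
      linarith
    · intro i hi _
      have h2 : (((m + 1 : ℕ) : ℝ)) / A.p ≤ i / A.p := by
        have : (((m + 1 : ℕ) : ℝ)) ≤ i := by exact_mod_cast hi
        gcongr
      rw [A.prof_left i b (A.rho_le_neg_one (by linarith))]; norm_num
  have e2 : ∑ i ∈ Finset.range A.p, A.gap b (H - i / A.p) ≤ m * 1 + A.gap b (H - m / A.p) := by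
    have e3 : ∑ i ∈ Finset.range A.p, A.gap b (H - i / A.p) =
        ∑ i ∈ Finset.range (m + 1), A.gap b (H - i / A.p) := by
      symm
      apply Finset.sum_subset
      · intro i hi
        rw [Finset.mem_range] at hi ⊢; omega
      · intro i hi hi'
        rw [Finset.mem_range] at hi hi'
        have h2 : (((m + 1 : ℕ) : ℝ)) / A.p ≤ i / A.p := by
          have : (((m + 1 : ℕ) : ℝ)) ≤ i := by exact_mod_cast (by omega : m + 1 ≤ i)
          gcongr
        exact A.gap_left b (by linarith)
    rw [e3, Finset.sum_range_succ]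
    have : ∑ i ∈ Finset.range m, A.gap b (H - i / A.p) ≤ m * 1 := by
      calc ∑ i ∈ Finset.range m, A.gap b (H - i / A.p) ≤ ∑ i ∈ Finset.range m, (1 : ℝ) :=
            Finset.sum_le_sum (fun i _ => (A.gap_bd b _).2)
        _ = m * 1 := by simp
    linarith
  unfold ζ
  push_cast at e1 ⊢
  linarith

end Par

end Liss579
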