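import Pool.Agent.Helper579_Lis.Sum

/-!
Lissajous form, counting of the windows and choice of the parameters.
-/

set_option autoImplicit false

namespace Liss579

open Knot548 Set Real Filter Topology

/-- the Lissajous curve -/
noncomputable def lis (nx ny nz : ℤ) (φx φy t : ℝ) : R3 :=
  ![cos (nx * t + φx), cos (ny * t + φy), cos (nz * t)]

/-- Lissajous knots -/
def IsLis (K : Set R3) : Prop :=
  ∃ (nx ny nz : ℤ) (φx φy : ℝ), InjOn (lis nx ny nz φx φy) (Ico 0 (2 * π)) ∧
    K = lis nx ny nz φx φy '' Icc 0 (2 * π)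

namespace Par

variable (A : Par)

/-- phase -/
noncomputable def t0 : ℝ := 1 / (A.q * A.N)

theorem NR : (1 : ℝ) ≤ A.N := by
  rw [A.N1]
  have := A.q0; have := A.cR
  nlinarith [mul_pos A.q0 A.cR]

theorem t0_pos : 0 < A.t0 := by
  have := A.q0; have := A.NR
  unfold t0; positivity

theorem t0_lt : A.t0 < 1 := by
  have h1 := A.qR; have h2 := A.NR
  unfold t0
  rw [div_lt_one (by positivity)]
  nlinarith

theorem lis_eq (t : ℝ) : lis A.p A.q A.N (-(π * (A.p * A.t0))) (π * (A.q * (A.δ - A.t0))) (π * (t + A.t0)) = A.F t := by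
  have hN := A.NR
  have hq := A.q0
  unfold lis F X Y Z
  push_cast
  ext i
  fin_cases i
  · simp only [Fin.zero_eta, Fin.isValue, Matrix.cons_val]
    congr 1
    ring
  · simp only [Fin.mk_one, Fin.isValue, Matrix.cons_val]
    congr 1
    ring
  · simp only [Fin.reduceFinMk, Matrix.cons_val]
    congr 1
    unfold t0
    field_simp

theorem F_per (t : ℝ) : A.F (t - 2) = A.F t := by
  unfold F
  rw [A.X_per, A.Y_per, A.Z_per]

theorem F_inj {t s : ℝ} (ht : t ∈ Ioc (-1 : ℝ) 1) (hs : s ∈ Ioc (-1 : ℝ) 1) (h : A.F t = A.F s) : t = s := by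
  have key : ∀ t s : ℝ, t ∈ Ioc (-1 : ℝ) 1 → s ∈ Ioc (-1 : ℝ) 1 → A.F t = A.F s → s < t → False := by
    intro t s ht hs h hst
    have h0 : A.X t = A.X s := by have := congrFun h 0; simpa [F] using this
    have h1 : A.Y t = A.Y s := by have := congrFun h 1; simpa [F] using this
    have h2 : A.Z t = A.Z s := by have := congrFun h 2; simpa [F] using this
    rcases A.sign_crossing ⟨ht.1.le, ht.2⟩ ⟨hs.1.le, hs.2⟩ hst h0 h1 with ⟨_, h3⟩ | h3
    · linarith [hs.1]
    · rw [h2, sub_self, zero_mul] at h3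
      exact lt_irrefl _ h3
  rcases lt_trichotomy s t with h1 | h1 | h1
  · exact (key t s ht hs h h1).elim
  · exact h1.symm
  · exact (key s t hs ht h.symm h1).elim

theorem isLis : IsLis (A.F '' Icc (-1) 1) := by
  have h0 := A.t0_pos
  have h1 := A.t0_lt
  have hπ := Real.pi_pos
  have hL : ∀ s, lis A.p A.q A.N (-(π * (A.p * A.t0))) (π * (A.q * (A.δ - A.t0))) s = A.F (s / π - A.t0) := by
    intro s
    rw [← A.lis_eq]
    congr 1
    field_simp
    ring
  refine ⟨A.p, A.q, A.N, -(π * (A.p * A.t0)), π * (A.q * (A.δ - A.t0)), ?_, ?_⟩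
  · intro s hs s' hs' heq
    rw [hL, hL] at heq
    have hb : ∀ s ∈ Ico 0 (2 * π), -A.t0 ≤ s / π - A.t0 ∧ s / π - A.t0 < 2 - A.t0 := by
      intro s hs
      have a1 : 0 ≤ s / π := div_nonneg hs.1 hπ.le
      have a2 : s / π < 2 := by rw [div_lt_iff₀ hπ]; exact hs.2
      constructor <;> linarith
    obtain ⟨b1, b2⟩ := hb s hs
    obtain ⟨b3, b4⟩ := hb s' hs'
    have fin : s / π - A.t0 = s' / π - A.t0 → s = s' := by
      intro h
      have : s / π = s' / π := by linarith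
      rw [div_left_inj' hπ.ne'] at this
      exact this
    apply fin
    rcases le_or_gt (s / π - A.t0) 1 with c1 | c1
    · rcases le_or_gt (s' / π - A.t0) 1 with c2 | c2
      · exact A.F_inj ⟨by linarith, c1⟩ ⟨by linarith, c2⟩ heq
      · exfalso
        rw [← A.F_per (s' / π - A.t0)] at heq
        have := A.F_inj ⟨by linarith, c1⟩ ⟨by linarith, by linarith⟩ heq
        linarith
    · rcases le_or_gt (s' / π - A.t0) 1 with c2 | c2
      · exfalso
        rw [← A.F_per (s / π - A.t0)] at heq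
        have := A.F_inj ⟨by linarith, by linarith⟩ ⟨by linarith, c2⟩ heq
        linarith
      · rw [← A.F_per (s' / π - A.t0), ← A.F_per (s / π - A.t0)] at heq
        have := A.F_inj ⟨by linarith, by linarith⟩ ⟨by linarith, by linarith⟩ heq
        linarith
  · ext x
    constructor
    · rintro ⟨t, ht, rfl⟩
      rcases le_total (-A.t0) t with c | c
      · refine ⟨π * (t + A.t0), ⟨mul_nonneg hπ.le (by linarith), ?_⟩, A.lis_eq t⟩
        nlinarith [ht.2]
      · refine ⟨π * (t + 2 + A.t0), ⟨mul_nonneg hπ.le (by linarith [ht.1]), ?_⟩, ?_⟩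
        · nlinarith
        · rw [A.lis_eq, ← A.F_per (t + 2)]
          congr 1
          ring
    · rintro ⟨s, hs, rfl⟩
      rw [hL]
      have a1 : 0 ≤ s / π := div_nonneg hs.1 hπ.le
      have a2 : s / π ≤ 2 := by rw [div_le_iff₀ hπ]; exact hs.2
      rcases le_total (s / π - A.t0) 1 with c | c
      · exact ⟨_, ⟨by linarith, c⟩, rfl⟩
      · exact ⟨s / π - A.t0 - 2, ⟨by linarith, by linarith⟩, A.F_per _⟩

end Par

/-- mirror images of Lissajous knots are Lissajous knots -/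
theorem IsLis.mirror {K : Set R3} (h : IsLis K) : IsLis (refy '' K) := by
  obtain ⟨nx, ny, nz, φx, φy, h1, rfl⟩ := h
  have e : ∀ t, refy (lis nx ny nz φx φy t) = lis nx ny nz φx (φy + π) t := by
    intro t
    unfold refy lis
    ext i
    fin_cases i
    · simp
    · simp only [Fin.mk_one, Fin.isValue, Matrix.cons_val]
      rw [← add_assoc, Real.cos_add_pi]
    · simp
  refine ⟨nx, ny, nz, φx, φy + π, ?_, ?_⟩
  · intro s hs t ht h
    rw [← e, ← e] at h
    exact h1 hs ht (refy_inj h)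
  · rw [image_image]
    apply image_congr
    intro t _
    exact e t

/-! ### counting -/

section Count

/-- existence of the parameters -/
theorem exists_par {p q r : ℕ} (hpq : p < q) (hc : Nat.Coprime p q) (hr : 2 * (r + 1) ≤ p) :
    ∃ A : Par, A.p = p ∧ A.q = q ∧ A.r = r := by
  have hp : 0 < p := by omega
  -- `c` with `q c ≡ -1` modulo `p`
  obtain ⟨c0, hc0⟩ : ∃ c0 : ℕ, (p : ℤ) ∣ q * c0 + 1 := by
    have h1 := Int.gcd_eq_gcd_ab q p
    have h2 : Int.gcd q p = 1 := by rw [Int.gcd_natCast_natCast]; exact Nat.Coprime.symm hc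
    rw [h2] at h1
    refine ⟨((-Int.gcdA q p) % p).toNat, ?_⟩
    have h3 : (((-Int.gcdA q p) % p).toNat : ℤ) = (-Int.gcdA q p) % p :=
      Int.toNat_of_nonneg (Int.emod_nonneg _ (by omega))
    rw [h3]
    have h4 := Int.emod_add_mul_ediv (-Int.gcdA q p) p
    refine ⟨Int.gcdB q p - q * (-Int.gcdA q p / p), ?_⟩
    push_cast at h1
    linear_combination h1 + (q : ℤ) * h4
  obtain ⟨d0, hd0⟩ := hc0
  have hd0' : 0 ≤ d0 := by
    by_contra hneg
    have : (p : ℤ) * d0 < 0 := mul_neg_of_pos_of_neg (by exact_mod_cast hp) (by omega)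
    have : (0 : ℤ) ≤ q * c0 + 1 := by positivity
    omega
  let c : ℕ := c0 + 2 * p
  let d : ℕ := d0.toNat + 2 * q
  have hcd : p * d = q * c + 1 := by
    have : (p : ℤ) * d = q * c + 1 := by
      simp only [c, d]
      push_cast
      rw [Int.toNat_of_nonneg hd0']
      linear_combination -hd0
    exact_mod_cast this
  have hcp : p < c := by simp only [c]; omega
  let e : ℕ := r * c / p + 1
  have he1 : r * c < p * e := by
    simp only [e]
    have := Nat.lt_mul_div_succ (r * c) hp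
    exact this
  have he2 : p * e < (r + 1) * c := by
    simp only [e]
    have h := Nat.mul_div_le (r * c) p
    calc p * (r * c / p + 1) = p * (r * c / p) + p := by ring
      _ ≤ r * c + p := by omega
      _ < r * c + c := by omega
      _ = (r + 1) * c := by ring
  exact ⟨⟨p, q, c, d, e, r, hpq, hcd, he1, he2, hr⟩, rfl, rfl, rfl⟩

namespace Par

variable (A : Par)

open Classical in
/-- counting windows by residues -/
theorem card_rho (Q : ℤ → Prop) :
    ((Finset.Ioo 0 A.p).filter (fun k : ℕ => ∃ j : ℤ, |(k : ℤ) * A.q - j * A.p| ≤ A.r ∧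
      Q ((k : ℤ) * A.q - j * A.p))).card =
    ((Finset.Icc (-(A.r : ℤ)) A.r).filter (fun ρ => ρ ≠ 0 ∧ Q ρ)).card := by
  symm
  have hb : (A.p : ℤ) * A.d = A.q * A.c + 1 := by exact_mod_cast A.hbez
  have hr : 2 * ((A.r : ℤ) + 1) ≤ A.p := by exact_mod_cast A.hr
  have hp : (0 : ℤ) < A.p := by have := A.hp2; omega
  have hk : ∀ ρ : ℤ, (((-(A.c : ℤ) * ρ) % A.p).toNat : ℤ) = (-(A.c : ℤ) * ρ) % A.p :=
    fun ρ => Int.toNat_of_nonneg (Int.emod_nonneg _ hp.ne')
  have hrec : ∀ ρ : ℤ, ((-(A.c : ℤ) * ρ) % A.p) * A.q -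
      (-(A.d : ℤ) * ρ - A.q * ((-(A.c : ℤ) * ρ) / A.p)) * A.p = ρ := by
    intro ρ
    have h4 := Int.emod_add_mul_ediv (-(A.c : ℤ) * ρ) A.p
    linear_combination (A.q : ℤ) * h4 + ρ * hb
  apply Finset.card_nbij (fun ρ : ℤ => ((-(A.c : ℤ) * ρ) % A.p).toNat)
  · intro ρ hρ
    simp only [Finset.coe_filter, Finset.mem_Icc, Set.mem_ofPred_eq] at hρ
    simp only [Finset.coe_filter, Finset.mem_Ioo, Set.mem_ofPred_eq]
    have e := hrec ρ
    refine ⟨⟨?_, ?_⟩, ?_⟩
    · rw [Nat.pos_iff_ne_zero]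
      intro h0
      have h1 : (-(A.c : ℤ) * ρ) % A.p = 0 := by rw [← hk, h0]; rfl
      rw [h1] at e
      have h2 : (A.p : ℤ) ∣ ρ := ⟨(A.d : ℤ) * ρ + A.q * ((-(A.c : ℤ) * ρ) / A.p), by linarith⟩
      have h3 := Int.eq_zero_of_abs_lt_dvd h2 (by rw [abs_lt]; constructor <;> omega)
      exact hρ.2.1 h3
    · have h1 := Int.emod_lt_of_pos (-(A.c : ℤ) * ρ) hp
      rw [← hk] at h1
      exact_mod_cast h1
    · refine ⟨-(A.d : ℤ) * ρ - A.q * ((-(A.c : ℤ) * ρ) / A.p), ?_⟩
      rw [hk, e]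
      exact ⟨abs_le.mpr hρ.1, hρ.2.2⟩
  · intro ρ hρ ρ' hρ' h
    simp only [Finset.coe_filter, Finset.mem_Icc, Set.mem_ofPred_eq] at hρ hρ'
    simp only at h
    have h1 : (-(A.c : ℤ) * ρ) % A.p = (-(A.c : ℤ) * ρ') % A.p := by rw [← hk ρ, ← hk ρ', h]
    have e := hrec ρ
    have e' := hrec ρ'
    rw [h1] at e
    have h2 : (A.p : ℤ) ∣ ρ - ρ' := by
      refine ⟨-(-(A.d : ℤ) * ρ - A.q * ((-(A.c : ℤ) * ρ) / A.p)) +
        (-(A.d : ℤ) * ρ' - A.q * ((-(A.c : ℤ) * ρ') / A.p)), ?_⟩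
      linarith
    have h3 := Int.eq_zero_of_abs_lt_dvd h2 (by rw [abs_lt]; constructor <;> omega)
    omega
  · intro k hkS
    simp only [Finset.coe_filter, Finset.mem_Ioo, Set.mem_ofPred_eq] at hkS
    obtain ⟨⟨hk0, hkp⟩, j, hj, hQ⟩ := hkS
    refine ⟨(k : ℤ) * A.q - j * A.p, ?_, ?_⟩
    · simp only [Finset.coe_filter, Finset.mem_Icc, Set.mem_ofPred_eq]
      exact ⟨abs_le.mp hj, A.kq_ne (by omega) hkp j, hQ⟩
    · simp only
      have e : -(A.c : ℤ) * ((k : ℤ) * A.q - j * A.p) = k + A.p * (j * A.c - k * A.d) := by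
        linear_combination (k : ℤ) * hb
      rw [e, Int.add_mul_emod_self_left, Int.emod_eq_of_lt (by positivity) (by exact_mod_cast hkp)]
      rfl

end Par

end Count

end Liss579
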