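import Pool.Agent.Helper579_Lis.Decomp2

/-!
Elementary ambient isotopies of three-space.
-/

set_option autoImplicit false

namespace Liss579

open Knot548 Set Real Filter Topology

/-- extending a strictly increasing function -/
theorem exists_ext (φ : ℝ → ℝ) (hφ : Continuous φ) {s0 s2 : ℝ} (h : s0 ≤ s2)
    (hm : StrictMonoOn φ (Icc s0 s2)) : ∃ Φ : ℝ ≃o ℝ, ∀ s ∈ Icc s0 s2, Φ s = φ s := by
  let κ : ℝ → ℝ := fun s => max s0 (min s s2)
  have hκ : ∀ s, κ s ∈ Icc s0 s2 := fun s => ⟨le_max_left _ _, max_le h (min_le_right _ _)⟩
  have hκ2 : ∀ s ∈ Icc s0 s2, κ s = s := by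
    intro s hs
    simp only [κ]
    rw [min_eq_left hs.2, max_eq_right hs.1]
  have hκm : Monotone κ := by
    intro s t hst
    simp only [κ]
    exact max_le_max le_rfl (min_le_min hst le_rfl)
  have hκd : ∀ s t, s ≤ t → κ t - κ s ≤ t - s := by
    intro s t hst
    simp only [κ, max_def, min_def]
    split_ifs <;> linarith
  have hκc : Continuous κ := by simp only [κ]; fun_prop
  let ψ : ℝ → ℝ := fun s => φ (κ s) + (s - κ s)
  have hψ2 : ∀ s ∈ Icc s0 s2, ψ s = φ s := by
    intro s hs
    simp only [ψ]
    rw [hκ2 s hs]
    ring
  have hψc : Continuous ψ := by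
    simp only [ψ]
    exact (hφ.comp hκc).add (continuous_id.sub hκc)
  have hψm : StrictMono ψ := by
    intro s t hst
    simp only [ψ]
    rcases (hκm hst.le).lt_or_eq with h1 | h1
    · have h2 := hm (hκ s) (hκ t) h1
      have h3 := hκd s t hst.le
      linarith
    · rw [h1]; linarith
  have hψs : Function.Surjective ψ := by
    intro z
    rcases le_total z (φ s0) with h1 | h1
    · refine ⟨s0 + (z - φ s0), ?_⟩
      have : κ (s0 + (z - φ s0)) = s0 := by
        simp only [κ]
        rw [min_eq_left (by linarith), max_eq_left (by linarith)]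
      simp only [ψ]
      rw [this]
      ring
    rcases le_total (φ s2) z with h2 | h2
    · refine ⟨s2 + (z - φ s2), ?_⟩
      have : κ (s2 + (z - φ s2)) = s2 := by
        simp only [κ]
        rw [min_eq_right (by linarith), max_eq_right h]
      simp only [ψ]
      rw [this]
      ring
    · obtain ⟨s, hs, hs2⟩ := intermediate_value_Icc h hψc.continuousOn
        (show z ∈ Icc (ψ s0) (ψ s2) by
          rw [hψ2 s0 ⟨le_rfl, h⟩, hψ2 s2 ⟨h, le_rfl⟩]; exact ⟨h1, h2⟩)
      exact ⟨s, hs2⟩
  exact ⟨hψm.orderIsoOfSurjective ψ hψs, fun s hs => hψ2 s hs⟩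

/-- applying an increasing homeomorphism to the first coordinate -/
theorem ambIso_mono (ξ : ℝ ≃o ℝ) (S : Set R3) :
    AmbIso S ((fun x : R3 => (![ξ (x 0), x 1, x 2] : R3)) '' S) := by
  have hξ : Continuous ξ := ξ.continuous
  have hex : ∀ t : unitInterval, ∃ φ : ℝ ≃o ℝ, ∀ x, φ x = (1 - (t : ℝ)) * x + t * ξ x := by
    intro t
    have ht0 : (0 : ℝ) ≤ t := t.2.1
    have ht1 : (0 : ℝ) ≤ 1 - t := by linarith [t.2.2]
    have hm : StrictMono (fun x : ℝ => (1 - (t : ℝ)) * x + t * ξ x) := by
      intro x y hxy
      have h1 : ξ x < ξ y := ξ.strictMono hxy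
      simp only
      rcases ht0.lt_or_eq with h | h
      · have a1 : (t : ℝ) * ξ x < t * ξ y := mul_lt_mul_of_pos_left h1 h
        have a2 : (1 - (t : ℝ)) * x ≤ (1 - t) * y := mul_le_mul_of_nonneg_left hxy.le ht1
        linarith
      · rw [← h]; linarith
    have hc : Continuous (fun x : ℝ => (1 - (t : ℝ)) * x + t * ξ x) := by fun_prop
    have hs : Function.Surjective (fun x : ℝ => (1 - (t : ℝ)) * x + t * ξ x) := by
      intro y
      have hle : min y (ξ.symm y) ≤ max y (ξ.symm y) := min_le_max
      have h1 : (1 - (t : ℝ)) * min y (ξ.symm y) + t * ξ (min y (ξ.symm y)) ≤ y := by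
        have b1 : min y (ξ.symm y) ≤ y := min_le_left _ _
        have b2 : ξ (min y (ξ.symm y)) ≤ y := by
          have := ξ.monotone (min_le_right y (ξ.symm y))
          rwa [OrderIso.apply_symm_apply] at this
        have b3 := mul_le_mul_of_nonneg_left b1 ht1
        have b4 := mul_le_mul_of_nonneg_left b2 ht0
        linarith
      have h2 : y ≤ (1 - (t : ℝ)) * max y (ξ.symm y) + t * ξ (max y (ξ.symm y)) := by
        have b1 : y ≤ max y (ξ.symm y) := le_max_left _ _
        have b2 : y ≤ ξ (max y (ξ.symm y)) := by
          have := ξ.monotone (le_max_right y (ξ.symm y))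
          rwa [OrderIso.apply_symm_apply] at this
        have b3 := mul_le_mul_of_nonneg_left b1 ht1
        have b4 := mul_le_mul_of_nonneg_left b2 ht0
        linarith
      obtain ⟨x, _, hx⟩ := intermediate_value_Icc hle hc.continuousOn ⟨h1, h2⟩
      exact ⟨x, hx⟩
    exact ⟨hm.orderIsoOfSurjective _ hs, fun x => rfl⟩
  choose φ hφ using hex
  have key := ambIso_of_family' (X := R3)
    (fun (t : unitInterval) (x : R3) => (![(1 - (t : ℝ)) * x 0 + t * ξ (x 0), x 1, x 2] : R3))
    (fun (t : unitInterval) (x : R3) => (![(φ t).symm (x 0), x 1, x 2] : R3)) ?_ ?_ ?_ ?_ ?_ S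
  · have e : (fun x : R3 => (![(1 - ((1 : unitInterval) : ℝ)) * x 0 + ((1 : unitInterval) : ℝ) * ξ (x 0), x 1, x 2] : R3)) =
        (fun x : R3 => (![ξ (x 0), x 1, x 2] : R3)) := by
      funext x
      simp
    rw [← e]
    exact key
  · apply continuous_pi
    intro i
    have c0 : Continuous (fun q : unitInterval × R3 => q.2 0) := (continuous_apply 0).comp continuous_snd
    fin_cases i
    · have : Continuous (fun q : unitInterval × R3 => (1 - (q.1 : ℝ)) * q.2 0 + q.1 * ξ (q.2 0)) := by
        have c1 : Continuous (fun q : unitInterval × R3 => (q.1 : ℝ)) := by fun_prop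
        exact ((continuous_const.sub c1).mul c0).add (c1.mul (hξ.comp c0))
      simpa using this
    · have c9 : Continuous (fun q : unitInterval × R3 => q.2 1) := (continuous_apply 1).comp continuous_snd
      exact c9
    · have c9 : Continuous (fun q : unitInterval × R3 => q.2 2) := (continuous_apply 2).comp continuous_snd
      exact c9
  · intro t
    apply continuous_pi
    intro i
    fin_cases i
    · exact (φ t).symm.continuous.comp (continuous_apply 0)
    · exact continuous_apply 1
    · exact continuous_apply 2
  · intro t x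
    ext i
    fin_cases i
    · change (φ t).symm ((1 - (t : ℝ)) * x 0 + t * ξ (x 0)) = x 0
      rw [← hφ, OrderIso.symm_apply_apply]
    · rfl
    · rfl
  · intro t x
    ext i
    fin_cases i
    · change (1 - (t : ℝ)) * ((φ t).symm (x 0)) + t * ξ ((φ t).symm (x 0)) = x 0
      rw [← hφ, OrderIso.apply_symm_apply]
    · rfl
    · rfl
  · intro x
    ext i
    fin_cases i <;> simp

/-- vertical translation -/
theorem ambIso_shift (c : ℝ) (S : Set R3) :
    AmbIso S ((fun x : R3 => (![x 0, x 1, x 2 + c] : R3)) '' S) := by
  have key := ambIso_of_family' (X := R3)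
    (fun (t : unitInterval) (x : R3) => (![x 0, x 1, x 2 + t * c] : R3))
    (fun (t : unitInterval) (x : R3) => (![x 0, x 1, x 2 - t * c] : R3)) ?_ ?_ ?_ ?_ ?_ S
  · have e : (fun x : R3 => (![x 0, x 1, x 2 + ((1 : unitInterval) : ℝ) * c] : R3)) =
        (fun x : R3 => (![x 0, x 1, x 2 + c] : R3)) := by
      funext x
      simp
    rw [← e]
    exact key
  · apply continuous_pi
    intro i
    fin_cases i
    · have c9 : Continuous (fun q : unitInterval × R3 => q.2 0) := (continuous_apply 0).comp continuous_snd
      exact c9
    · have c9 : Continuous (fun q : unitInterval × R3 => q.2 1) := (continuous_apply 1).comp continuous_snd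
      exact c9
    · have c0 : Continuous (fun q : unitInterval × R3 => q.2 2) := (continuous_apply 2).comp continuous_snd
      have c1 : Continuous (fun q : unitInterval × R3 => (q.1 : ℝ)) := by fun_prop
      exact c0.add (c1.mul (continuous_const (y := c)))
  · intro t
    apply continuous_pi
    intro i
    fin_cases i
    · exact continuous_apply 0
    · exact continuous_apply 1
    · exact (continuous_apply 2).sub continuous_const
  · intro t x
    ext i
    fin_cases i <;> simp
  · intro t x
    ext i
    fin_cases i <;> simp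
  · intro x
    ext i
    fin_cases i <;> simp

/-- half turn about the third axis -/
theorem ambIso_rotz (S : Set R3) :
    AmbIso S ((fun x : R3 => (![-x 0, -x 1, x 2] : R3)) '' S) := by
  have key := ambIso_of_family' (X := R3)
    (fun (t : unitInterval) (x : R3) =>
      (![cos (π * t) * x 0 - sin (π * t) * x 1, sin (π * t) * x 0 + cos (π * t) * x 1, x 2] : R3))
    (fun (t : unitInterval) (x : R3) =>
      (![cos (π * t) * x 0 + sin (π * t) * x 1, -(sin (π * t) * x 0) + cos (π * t) * x 1, x 2] : R3))
    ?_ ?_ ?_ ?_ ?_ S
  · have e : (fun x : R3 => (![cos (π * ((1 : unitInterval) : ℝ)) * x 0 - sin (π * ((1 : unitInterval) : ℝ)) * x 1,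
        sin (π * ((1 : unitInterval) : ℝ)) * x 0 + cos (π * ((1 : unitInterval) : ℝ)) * x 1, x 2] : R3)) =
        (fun x : R3 => (![-x 0, -x 1, x 2] : R3)) := by
      funext x
      simp
    rw [← e]
    exact key
  · have c0 : Continuous (fun q : unitInterval × R3 => q.2 0) := (continuous_apply 0).comp continuous_snd
    have c1 : Continuous (fun q : unitInterval × R3 => q.2 1) := (continuous_apply 1).comp continuous_snd
    have c2 : Continuous (fun q : unitInterval × R3 => q.2 2) := (continuous_apply 2).comp continuous_snd
    have ct : Continuous (fun q : unitInterval × R3 => π * (q.1 : ℝ)) := by fun_prop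
    have cc := Real.continuous_cos.comp ct
    have cs := Real.continuous_sin.comp ct
    apply continuous_pi
    intro i
    fin_cases i
    · exact (cc.mul c0).sub (cs.mul c1)
    · exact (cs.mul c0).add (cc.mul c1)
    · exact c2
  · intro t
    apply continuous_pi
    intro i
    fin_cases i
    · exact (continuous_const.mul (continuous_apply 0)).add (continuous_const.mul (continuous_apply 1))
    · exact (continuous_const.mul (continuous_apply 0)).neg.add (continuous_const.mul (continuous_apply 1))
    · exact continuous_apply 2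
  · intro t x
    have h := Real.sin_sq_add_cos_sq (π * t)
    ext i
    fin_cases i
    · simp only [Matrix.cons_val, Fin.zero_eta, Fin.isValue]
      linear_combination (x 0) * h
    · simp only [Matrix.cons_val, Fin.mk_one, Fin.isValue]
      linear_combination (x 1) * h
    · rfl
  · intro t x
    have h := Real.sin_sq_add_cos_sq (π * t)
    ext i
    fin_cases i
    · simp only [Matrix.cons_val, Fin.zero_eta, Fin.isValue]
      linear_combination (x 0) * h
    · simp only [Matrix.cons_val, Fin.mk_one, Fin.isValue]
      linear_combination (x 1) * h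
    · rfl
  · intro x
    ext i
    fin_cases i <;> simp

/-- half turn about the first axis -/
theorem ambIso_rotx (S : Set R3) :
    AmbIso S ((fun x : R3 => (![x 0, -x 1, -x 2] : R3)) '' S) := by
  have key := ambIso_of_family' (X := R3)
    (fun (t : unitInterval) (x : R3) =>
      (![x 0, cos (π * t) * x 1 - sin (π * t) * x 2, sin (π * t) * x 1 + cos (π * t) * x 2] : R3))
    (fun (t : unitInterval) (x : R3) =>
      (![x 0, cos (π * t) * x 1 + sin (π * t) * x 2, -(sin (π * t) * x 1) + cos (π * t) * x 2] : R3))
    ?_ ?_ ?_ ?_ ?_ S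
  · have e : (fun x : R3 => (![x 0, cos (π * ((1 : unitInterval) : ℝ)) * x 1 - sin (π * ((1 : unitInterval) : ℝ)) * x 2,
        sin (π * ((1 : unitInterval) : ℝ)) * x 1 + cos (π * ((1 : unitInterval) : ℝ)) * x 2] : R3)) =
        (fun x : R3 => (![x 0, -x 1, -x 2] : R3)) := by
      funext x
      simp
    rw [← e]
    exact key
  · have c0 : Continuous (fun q : unitInterval × R3 => q.2 0) := (continuous_apply 0).comp continuous_snd
    have c1 : Continuous (fun q : unitInterval × R3 => q.2 1) := (continuous_apply 1).comp continuous_snd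
    have c2 : Continuous (fun q : unitInterval × R3 => q.2 2) := (continuous_apply 2).comp continuous_snd
    have ct : Continuous (fun q : unitInterval × R3 => π * (q.1 : ℝ)) := by fun_prop
    have cc := Real.continuous_cos.comp ct
    have cs := Real.continuous_sin.comp ct
    apply continuous_pi
    intro i
    fin_cases i
    · exact c0
    · exact (cc.mul c1).sub (cs.mul c2)
    · exact (cs.mul c1).add (cc.mul c2)
  · intro t
    apply continuous_pi
    intro i
    fin_cases i
    · exact continuous_apply 0
    · exact (continuous_const.mul (continuous_apply 1)).add (continuous_const.mul (continuous_apply 2))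
    · exact (continuous_const.mul (continuous_apply 1)).neg.add (continuous_const.mul (continuous_apply 2))
  · intro t x
    have h := Real.sin_sq_add_cos_sq (π * t)
    ext i
    fin_cases i
    · rfl
    · simp only [Matrix.cons_val, Fin.mk_one, Fin.isValue]
      linear_combination (x 1) * h
    · simp only [Matrix.cons_val, Fin.reduceFinMk, Fin.isValue]
      linear_combination (x 2) * h
  · intro t x
    have h := Real.sin_sq_add_cos_sq (π * t)
    ext i
    fin_cases i
    · rfl
    · simp only [Matrix.cons_val, Fin.mk_one, Fin.isValue]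
      linear_combination (x 1) * h
    · simp only [Matrix.cons_val, Fin.reduceFinMk, Fin.isValue]
      linear_combination (x 2) * h
  · intro x
    ext i
    fin_cases i <;> simp

end Liss579
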