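import Pool.Agent.Helper579_Lis.Cap

/-!
Isotopies of curves made of two strands folded over the first coordinate and closed by segments.
-/

set_option autoImplicit false

namespace Liss579

open Knot548 Set Filter Topology

/-- a point of a strand -/
noncomputable def sp (y z : ℝ → ℝ) (v : ℝ) : R3 := ![|v|, y v, z v]

/-- the closed curve made of two strands and two closing segments -/
noncomputable def plat (y z : Bool → ℝ → ℝ) : Set R3 :=
  (sp (y true) (z true) '' Icc (-1) 1 ∪ sp (y false) (z false) '' Icc (-1) 1) ∪
    (segment ℝ (sp (y true) (z true) 1) (sp (y false) (z false) 1) ∪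
      segment ℝ (sp (y true) (z true) (-1)) (sp (y false) (z false) (-1)))

/-- the end `1` or `-1` -/
noncomputable def en (e : Bool) : ℝ := if e then 1 else -1

theorem en_mem (e : Bool) : en e ∈ Icc (-1 : ℝ) 1 := by
  unfold en; split_ifs <;> constructor <;> norm_num

theorem abs_en (e : Bool) : |en e| = 1 := by
  unfold en; split_ifs <;> simp

theorem norm_vec_le {a b c r : ℝ} (ha : |a| ≤ r) (hb : |b| ≤ r) (hc : |c| ≤ r) :
    ‖(![a, b, c] : R3)‖ ≤ r := by
  rw [pi_norm_le_iff_of_nonneg ((abs_nonneg a).trans ha)]
  intro i
  fin_cases i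
  · simpa using ha
  · simpa using hb
  · simpa using hc

theorem sp_sub (y z y' z' : ℝ → ℝ) (v v' : ℝ) :
    sp y z v - sp y' z' v' = ![|v| - |v'|, y v - y' v', z v - z' v'] := by
  unfold sp
  ext i
  fin_cases i <;> simp

theorem le_norm_vec (a b c : ℝ) :
    |a| ≤ ‖(![a, b, c] : R3)‖ ∧ |b| ≤ ‖(![a, b, c] : R3)‖ ∧ |c| ≤ ‖(![a, b, c] : R3)‖ := by
  refine ⟨?_, ?_, ?_⟩
  · simpa using abs_apply_le_norm (![a, b, c] : R3) 0
  · simpa using abs_apply_le_norm (![a, b, c] : R3) 1
  · simpa using abs_apply_le_norm (![a, b, c] : R3) 2

/-- fixed time estimate: displacement in the second coordinate -/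
theorem plat_est (y w z : Bool → ℝ → ℝ) (L g c M : ℝ) (hL : 0 ≤ L) (hg : 0 < g) (hc : 0 < c)
    (hM : ∀ b, ∀ v ∈ Icc (-1 : ℝ) 1, |w b v| ≤ M)
    (hy : ∀ b, ∀ s ∈ Icc (-1 : ℝ) 1, ∀ t ∈ Icc (-1 : ℝ) 1, |y b s - y b t| ≤ L * |s - t|)
    (hw : ∀ b, ∀ s ∈ Icc (-1 : ℝ) 1, ∀ t ∈ Icc (-1 : ℝ) 1, |w b s - w b t| ≤ L * |s - t|)
    (hz : ∀ b, ∀ s ∈ Icc (-1 : ℝ) 1, ∀ t ∈ Icc (-1 : ℝ) 1, |z b s - z b t| ≤ L * |s - t|)
    (hG : ∀ b, ∀ v ∈ Icc (0 : ℝ) 1, g * v ≤ z b v - z b (-v))
    (h1 : ∀ v ∈ Icc (-1 : ℝ) 1, c ≤ max |y true v - y false v| |z true v - z false v|)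
    (h2 : ∀ v ∈ Icc (-1 : ℝ) 1, c ≤ max |y true v - y false (-v)| |z true v - z false (-v)|)
    (he : ∀ e, z true (en e) = z false (en e)) (hc3 : c ≤ |z true 1 - z true (-1)|) :
    ∃ C : ℝ, 0 ≤ C ∧
      (∀ b b', ∀ v ∈ Icc (-1 : ℝ) 1, ∀ v' ∈ Icc (-1 : ℝ) 1,
        |w b v - w b' v'| ≤ C * ‖sp (y b) (z b) v - sp (y b') (z b') v'‖) ∧
      (∀ b e, ∀ v ∈ Icc (-1 : ℝ) 1, ∀ s ∈ Icc (0 : ℝ) 1,
        |w b v - (w true (en e) + s * (w false (en e) - w true (en e)))| ≤
          C * ‖sp (y b) (z b) v - (sp (y true) (z true) (en e) +
            s • (sp (y false) (z false) (en e) - sp (y true) (z true) (en e)))‖) ∧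
      (∀ e e', ∀ s ∈ Icc (0 : ℝ) 1, ∀ s' ∈ Icc (0 : ℝ) 1,
        |(w true (en e) + s * (w false (en e) - w true (en e))) -
          (w true (en e') + s' * (w false (en e') - w true (en e')))| ≤
          C * ‖(sp (y true) (z true) (en e) +
            s • (sp (y false) (z false) (en e) - sp (y true) (z true) (en e))) -
            (sp (y true) (z true) (en e') +
            s' • (sp (y false) (z false) (en e') - sp (y true) (z true) (en e')))‖) := by
  have hM0 : 0 ≤ M := (abs_nonneg _).trans (hM true 0 ⟨by norm_num, by norm_num⟩)
  -- same absolute value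
  have hneg : ∀ {v : ℝ}, v ∈ Icc (-1 : ℝ) 1 → -v ∈ Icc (-1 : ℝ) 1 := by
    intro v hv
    exact ⟨by linarith [hv.2], by linarith [hv.1]⟩
  let C₁ : ℝ := 2 * L / g + 2 * M / c
  have hC₁ : 0 ≤ C₁ := by positivity
  have same : ∀ b b', ∀ v ∈ Icc (-1 : ℝ) 1, ∀ v' ∈ Icc (-1 : ℝ) 1, |v| = |v'| →
      |w b v - w b' v'| ≤ C₁ * ‖sp (y b) (z b) v - sp (y b') (z b') v'‖ := by
    intro b b' v hv v' hv' hvv
    rw [sp_sub]
    obtain ⟨n1, n2, n3⟩ := le_norm_vec (|v| - |v'|) (y b v - y b' v') (z b v - z b' v')
    set N := ‖(![|v| - |v'|, y b v - y b' v', z b v - z b' v'] : R3)‖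
    have hN : 0 ≤ N := norm_nonneg _
    have hbig : c ≤ N → |w b v - w b' v'| ≤ C₁ * N := by
      intro hcN
      have e1 : |w b v - w b' v'| ≤ 2 * M := by
        have := hM b v hv
        have := hM b' v' hv'
        have := abs_sub (w b v) (w b' v')
        linarith
      calc |w b v - w b' v'| ≤ 2 * M := e1
        _ = 2 * M / c * c := by field_simp
        _ ≤ 2 * M / c * N := mul_le_mul_of_nonneg_left hcN (by positivity)
        _ ≤ C₁ * N := by
            apply mul_le_mul_of_nonneg_right _ hN
            have : 0 ≤ 2 * L / g := by positivity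
            simp only [C₁]; linarith
    rcases abs_eq_abs.mp hvv with h | h
    · subst h
      cases b <;> cases b'
      · simp only [sub_self, abs_zero]; positivity
      · apply hbig
        have := h1 v hv
        rw [abs_sub_comm (y true v), abs_sub_comm (z true v)] at this
        rcases le_max_iff.mp this with h | h <;> linarith
      · apply hbig
        rcases le_max_iff.mp (h1 v hv) with h | h <;> linarith
      · simp only [sub_self, abs_zero]; positivity
    · by_cases hb : b = b'
      · subst hb
        have hvv' : v' = -v := by linarith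
        subst hvv'
        have e1 : g * |v| ≤ |z b v - z b (-v)| := by
          rcases le_total 0 v with h0 | h0
          · rw [abs_of_nonneg h0]
            exact (hG b v ⟨h0, hv.2⟩).trans (le_abs_self _)
          · rw [abs_of_nonpos h0]
            have := hG b (-v) ⟨by linarith, by linarith [hv.1]⟩
            rw [neg_neg] at this
            rw [abs_sub_comm]
            exact this.trans (le_abs_self _)
        have e2 := hw b v hv (-v) hv'
        have e3 : |v - -v| = 2 * |v| := by
          rw [sub_neg_eq_add, ← two_mul, abs_mul, abs_two]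
        rw [e3] at e2
        have e4 : |v| ≤ N / g := by
          rw [le_div_iff₀ hg]
          linarith
        calc |w b v - w b (-v)| ≤ L * (2 * |v|) := e2
          _ ≤ L * (2 * (N / g)) := by gcongr
          _ = 2 * L / g * N := by ring
          _ ≤ C₁ * N := by
            apply mul_le_mul_of_nonneg_right _ hN
            have : 0 ≤ 2 * M / c := by positivity
            simp only [C₁]; linarith
      · apply hbig
        have hvv' : v' = -v := by linarith
        subst hvv'
        cases b <;> cases b'
        · exact absurd rfl hb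
        · have := h2 (-v) hv'
          rw [neg_neg, abs_sub_comm (y true (-v)), abs_sub_comm (z true (-v))] at this
          rcases le_max_iff.mp this with h | h <;> linarith
        · rcases le_max_iff.mp (h2 v hv) with h | h <;> linarith
        · exact absurd rfl hb
  -- general strand points
  let C₂ : ℝ := C₁ * (2 + L) + L
  have hC₂ : 0 ≤ C₂ := by positivity
  have spl : ∀ b, ∀ s ∈ Icc (-1 : ℝ) 1, ∀ t ∈ Icc (-1 : ℝ) 1,
      ‖sp (y b) (z b) s - sp (y b) (z b) t‖ ≤ (1 + L) * |s - t| := by
    intro b s hs t ht
    rw [sp_sub]
    have h0 : 0 ≤ |s - t| := abs_nonneg _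
    have h3 : 0 ≤ L * |s - t| := by positivity
    apply norm_vec_le
    · have := abs_abs_sub_abs_le_abs_sub s t
      linarith
    · have := hy b s hs t ht
      linarith
    · have := hz b s hs t ht
      linarith
  -- point on the same side with the same absolute value
  have rep : ∀ v ∈ Icc (-1 : ℝ) 1, ∀ v' ∈ Icc (-1 : ℝ) 1, ∃ v₁ ∈ Icc (-1 : ℝ) 1,
      |v₁| = |v| ∧ |v₁ - v'| = abs (|v| - |v'|) := by
    intro v hv v' hv'
    have hv1 : |v| ≤ 1 := abs_le.mpr hv
    rcases le_total 0 v' with h | h
    · refine ⟨|v|, ⟨by linarith [abs_nonneg v], hv1⟩, abs_abs v, ?_⟩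
      rw [abs_of_nonneg h]
    · refine ⟨-|v|, ⟨by linarith, by linarith [abs_nonneg v]⟩, by rw [abs_neg, abs_abs], ?_⟩
      rw [abs_of_nonpos h, ← abs_neg]
      congr 1
      ring
  have strand : ∀ b b', ∀ v ∈ Icc (-1 : ℝ) 1, ∀ v' ∈ Icc (-1 : ℝ) 1,
      |w b v - w b' v'| ≤ C₂ * ‖sp (y b) (z b) v - sp (y b') (z b') v'‖ := by
    intro b b' v hv v' hv'
    obtain ⟨v₁, hv₁, ha, hd⟩ := rep v hv v' hv'
    set N := ‖sp (y b) (z b) v - sp (y b') (z b') v'‖ with hN
    have hN0 : 0 ≤ N := norm_nonneg _
    have e1 : abs (|v| - |v'|) ≤ N := by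
      rw [hN, sp_sub]
      exact (le_norm_vec _ _ _).1
    have e2 := same b b' v hv v₁ hv₁ ha.symm
    have e3 := spl b' v₁ hv₁ v' hv'
    rw [hd] at e3
    have e4 : ‖sp (y b) (z b) v - sp (y b') (z b') v₁‖ ≤ (2 + L) * N := by
      have : sp (y b) (z b) v - sp (y b') (z b') v₁ =
        (sp (y b) (z b) v - sp (y b') (z b') v') - (sp (y b') (z b') v₁ - sp (y b') (z b') v') := by
        abel
      rw [this]
      refine (norm_sub_le _ _).trans ?_
      have : (1 + L) * abs (|v| - |v'|) ≤ (1 + L) * N := by gcongr
      linarith
    have e5 := hw b' v₁ hv₁ v' hv'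
    rw [hd] at e5
    have e6 : |w b v - w b' v'| ≤ |w b v - w b' v₁| + |w b' v₁ - w b' v'| := abs_sub_le _ _ _
    calc |w b v - w b' v'| ≤ C₁ * ((2 + L) * N) + L * N := by
          refine e6.trans (add_le_add (e2.trans (mul_le_mul_of_nonneg_left e4 hC₁)) (e5.trans ?_))
          gcongr
      _ = C₂ * N := by simp only [C₂]; ring
  -- closing segments
  have hdy : ∀ e, c ≤ |y true (en e) - y false (en e)| := by
    intro e
    have := h1 (en e) (en_mem e)
    rw [he e, sub_self, abs_zero] at this
    rcases le_max_iff.mp this with h | h
    · exact h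
    · linarith
  have hcl : ∀ e s, (sp (y true) (z true) (en e) +
      s • (sp (y false) (z false) (en e) - sp (y true) (z true) (en e))) =
      ![1, y true (en e) + s * (y false (en e) - y true (en e)), z true (en e)] := by
    intro e s
    rw [sp_sub, sub_self, ← he e, sub_self]
    unfold sp
    rw [abs_en]
    ext i
    fin_cases i <;> simp
  have hsub : ∀ a b c a' b' c' : ℝ, (![a, b, c] : R3) - ![a', b', c'] = ![a - a', b - b', c - c'] := by
    intro a b c a' b' c'
    ext i
    fin_cases i <;> simp
  have hwe : ∀ e, |w false (en e) - w true (en e)| ≤ 2 * M := by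
    intro e
    have := hM false _ (en_mem e)
    have := hM true _ (en_mem e)
    have := abs_sub (w false (en e)) (w true (en e))
    linarith
  let C₃ : ℝ := (2 * M / c) * (2 + L) + 2 * L + 4 * M / c * (2 + L)
  have hC₃ : 0 ≤ C₃ := by positivity
  refine ⟨max C₂ (max C₃ (6 * M / c)), le_max_of_le_left hC₂, ?_, ?_, ?_⟩
  · intro b b' v hv v' hv'
    exact (strand b b' v hv v' hv').trans
      (mul_le_mul_of_nonneg_right (le_max_left _ _) (norm_nonneg _))
  · intro b e v hv s hs
    refine le_trans ?_ (mul_le_mul_of_nonneg_right
      ((le_max_left C₃ (6 * M / c)).trans (le_max_right C₂ _)) (norm_nonneg _))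
    rw [hcl]
    obtain ⟨n1, n2, n3⟩ := le_norm_vec (|v| - 1)
      (y b v - (y true (en e) + s * (y false (en e) - y true (en e)))) (z b v - z true (en e))
    have hN : sp (y b) (z b) v - ![1, y true (en e) + s * (y false (en e) - y true (en e)), z true (en e)] =
        ![|v| - 1, y b v - (y true (en e) + s * (y false (en e) - y true (en e))), z b v - z true (en e)] := by
      unfold sp
      exact hsub _ _ _ _ _ _
    rw [hN]
    set N := ‖(![|v| - 1, y b v - (y true (en e) + s * (y false (en e) - y true (en e))),
      z b v - z true (en e)] : R3)‖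
    have hN0 : 0 ≤ N := norm_nonneg _
    obtain ⟨v₁, hv₁, ha, hd⟩ := rep 1 ⟨by norm_num, by norm_num⟩ v hv
    rw [abs_one] at ha hd
    have e0 : |v₁ - v| ≤ N := by
      rw [hd, abs_sub_comm]; exact n1
    have ez := hz b v₁ hv₁ v hv
    have ey := hy b v₁ hv₁ v hv
    have ew := hw b v₁ hv₁ v hv
    have hLN : L * |v₁ - v| ≤ L * N := by gcongr
    have hv₁' : v₁ = 1 ∨ v₁ = -1 := by
      rcases abs_eq (by norm_num : (0:ℝ) ≤ 1) |>.mp ha with h | h
      · exact Or.inl h
      · exact Or.inr h
    have hsw : |w true (en e) + s * (w false (en e) - w true (en e))| ≤ 3 * M := by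
      have a1 := hM true _ (en_mem e)
      have a2 := hwe e
      have a3 : |s * (w false (en e) - w true (en e))| ≤ 2 * M := by
        rw [abs_mul, abs_of_nonneg hs.1]
        calc s * |w false (en e) - w true (en e)| ≤ 1 * (2 * M) :=
              mul_le_mul hs.2 a2 (abs_nonneg _) zero_le_one
          _ = 2 * M := one_mul _
      have := abs_add_le (w true (en e)) (s * (w false (en e) - w true (en e)))
      linarith
    -- is `v₁` the end `e`
    by_cases hve : v₁ = en e
    · -- same end
      have eb : z b v₁ = z true (en e) := by
        rw [hve]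
        cases b
        · exact (he e).symm
        · rfl
      have f1 : |w b v₁ - (w true (en e) + s * (w false (en e) - w true (en e)))| ≤
          2 * M / c * |y b v₁ - (y true (en e) + s * (y false (en e) - y true (en e)))| := by
        rw [hve]
        have hdye := hdy e
        have hwee := hwe e
        have hk : ∀ θ : ℝ, |θ| * |w false (en e) - w true (en e)| ≤
            2 * M / c * (|θ| * |y true (en e) - y false (en e)|) := by
          intro θ
          calc |θ| * |w false (en e) - w true (en e)| ≤ |θ| * (2 * M) := by gcongr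
            _ = 2 * M / c * (|θ| * c) := by field_simp
            _ ≤ _ := by gcongr
        cases b
        · have a1 : w false (en e) - (w true (en e) + s * (w false (en e) - w true (en e))) =
              (1 - s) * (w false (en e) - w true (en e)) := by ring
          have a2 : y false (en e) - (y true (en e) + s * (y false (en e) - y true (en e))) =
              -((1 - s) * (y true (en e) - y false (en e))) := by ring
          rw [a1, a2, abs_neg, abs_mul, abs_mul]
          exact hk _
        · have a1 : w true (en e) - (w true (en e) + s * (w false (en e) - w true (en e))) =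
              -(s * (w false (en e) - w true (en e))) := by ring
          have a2 : y true (en e) - (y true (en e) + s * (y false (en e) - y true (en e))) =
              s * (y true (en e) - y false (en e)) := by ring
          rw [a1, a2, abs_neg, abs_mul, abs_mul]
          exact hk _
      have f2 : |y b v₁ - (y true (en e) + s * (y false (en e) - y true (en e)))| ≤ (1 + L) * N := by
        have := abs_sub_le (y b v₁) (y b v) (y true (en e) + s * (y false (en e) - y true (en e)))
        linarith
      have f3 : |w b v - (w true (en e) + s * (w false (en e) - w true (en e)))| ≤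
          |w b v₁ - w b v| + |w b v₁ - (w true (en e) + s * (w false (en e) - w true (en e)))| := by
        rw [abs_sub_comm (w b v₁) (w b v)]
        exact abs_sub_le _ _ _
      have f4 : 2 * M / c * |y b v₁ - (y true (en e) + s * (y false (en e) - y true (en e)))| ≤
          2 * M / c * ((1 + L) * N) := by gcongr
      have f5 : 0 ≤ 2 * M / c * N := by positivity
      have f6 : 0 ≤ L * N := by positivity
      have f7 : 0 ≤ 4 * M / c * (2 + L) * N := by positivity
      have f8 : C₃ * N = 2 * M / c * ((1 + L) * N) + 2 * M / c * N + 2 * (L * N) + 4 * M / c * (2 + L) * N := by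
        simp only [C₃]; ring
      rw [f8]
      linarith
    · -- other end: big distance
      have hzz : c ≤ |z b v₁ - z true (en e)| := by
        have hb1 : ∀ e', z b (en e') = z true (en e') := by
          intro e'
          cases b
          · exact (he e').symm
          · rfl
        rcases hv₁' with h | h
        · have he' : en e = -1 := by
            unfold en at hve ⊢
            by_cases h3 : e = true
            · simp [h3, h] at hve
            · simp [h3]
          have := hb1 true
          simp only [en, if_true] at this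
          rw [h, he', this]
          exact hc3
        · have he' : en e = 1 := by
            unfold en at hve ⊢
            by_cases h3 : e = true
            · simp [h3]
            · simp [h3, h] at hve
          have := hb1 false
          simp only [en] at this
          rw [h, he']
          simp only [Bool.false_eq_true, if_false] at this
          rw [this, abs_sub_comm]
          exact hc3
      have f1 : c ≤ (1 + L) * N := by
        have := abs_sub_le (z b v₁) (z b v) (z true (en e))
        linarith
      have f2 : |w b v - (w true (en e) + s * (w false (en e) - w true (en e)))| ≤ 4 * M := by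
        have := abs_sub (w b v) (w true (en e) + s * (w false (en e) - w true (en e)))
        have := hM b v hv
        linarith
      calc |w b v - (w true (en e) + s * (w false (en e) - w true (en e)))| ≤ 4 * M := f2
        _ = 4 * M / c * c := by field_simp
        _ ≤ 4 * M / c * ((1 + L) * N) := by gcongr
        _ ≤ C₃ * N := by
          have f5 : 0 ≤ 4 * M / c * N := by positivity
          have f6 : 0 ≤ L * N := by positivity
          have f7 : 0 ≤ 2 * M / c * (2 + L) * N := by positivity
          have f8 : C₃ * N = 2 * M / c * (2 + L) * N + 2 * (L * N) +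
            (4 * M / c * ((1 + L) * N) + 4 * M / c * N) := by
            simp only [C₃]; ring
          rw [f8]
          linarith
  · intro e e' s hs s' hs'
    refine le_trans ?_ (mul_le_mul_of_nonneg_right
      ((le_max_right C₃ (6 * M / c)).trans (le_max_right C₂ _)) (norm_nonneg _))
    rw [hcl, hcl, hsub]
    obtain ⟨n1, n2, n3⟩ := le_norm_vec (1 - 1)
      ((y true (en e) + s * (y false (en e) - y true (en e))) -
        (y true (en e') + s' * (y false (en e') - y true (en e')))) (z true (en e) - z true (en e'))
    set N := ‖(![1 - 1, (y true (en e) + s * (y false (en e) - y true (en e))) -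
        (y true (en e') + s' * (y false (en e') - y true (en e'))), z true (en e) - z true (en e')] : R3)‖
    have hN0 : 0 ≤ N := norm_nonneg _
    by_cases hee : e = e'
    · subst hee
      have a1 : (w true (en e) + s * (w false (en e) - w true (en e))) -
          (w true (en e) + s' * (w false (en e) - w true (en e))) =
          (s - s') * (w false (en e) - w true (en e)) := by ring
      have a2 : (y true (en e) + s * (y false (en e) - y true (en e))) -
          (y true (en e) + s' * (y false (en e) - y true (en e))) =
          -((s - s') * (y true (en e) - y false (en e))) := by ring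
      rw [a2, abs_neg, abs_mul] at n2
      rw [a1, abs_mul]
      have hdye := hdy e
      have hwee := hwe e
      calc |s - s'| * |w false (en e) - w true (en e)| ≤ |s - s'| * (2 * M) := by gcongr
        _ = 2 * M / c * (|s - s'| * c) := by field_simp
        _ ≤ 2 * M / c * (|s - s'| * |y true (en e) - y false (en e)|) := by gcongr
        _ ≤ 2 * M / c * N := by gcongr
        _ ≤ 6 * M / c * N := by gcongr; linarith
    · have hcN : c ≤ N := by
        refine le_trans ?_ n3
        cases e <;> cases e'
        · exact absurd rfl hee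
        · simp only [en, Bool.false_eq_true, if_false, if_true]
          rw [abs_sub_comm]
          exact hc3
        · simp only [en, Bool.false_eq_true, if_false, if_true]
          exact hc3
        · exact absurd rfl hee
      have hbd : ∀ e s, s ∈ Icc (0 : ℝ) 1 → |w true (en e) + s * (w false (en e) - w true (en e))| ≤ 3 * M := by
        intro e s hs
        have a1 := hM true _ (en_mem e)
        have a2 := hwe e
        have a3 : |s * (w false (en e) - w true (en e))| ≤ 2 * M := by
          rw [abs_mul, abs_of_nonneg hs.1]
          calc s * |w false (en e) - w true (en e)| ≤ 1 * (2 * M) :=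
                mul_le_mul hs.2 a2 (abs_nonneg _) zero_le_one
            _ = 2 * M := one_mul _
        have := abs_add_le (w true (en e)) (s * (w false (en e) - w true (en e)))
        linarith
      have b1 := hbd e s hs
      have b2 := hbd e' s' hs'
      have b3 := abs_sub (w true (en e) + s * (w false (en e) - w true (en e)))
        (w true (en e') + s' * (w false (en e') - w true (en e')))
      calc _ ≤ 6 * M := by linarith
        _ = 6 * M / c * c := by field_simp
        _ ≤ 6 * M / c * N := by gcongr

end Liss579
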