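import Pool.Agent.Helper579_Lis.Check

/-!
A chain of polygons joining two polygonal trefoils, with separating functionals.
-/

set_option autoImplicit false

namespace Liss579

open Knot548 Set

/-- vertices of a polygon -/
def q0 : Fin 16 → Fin 3 → ℤ := ![![16, 0, -64],
  ![16, -64, -64],
  ![12, -36, 20],
  ![4, 20, -36],
  ![0, 48, -32],
  ![4, 44, -28],
  ![12, 36, 44],
  ![16, 32, 64],
  ![16, 0, 64],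
  ![16, -32, 64],
  ![12, -36, -20],
  ![4, -44, 36],
  ![0, -48, 32],
  ![4, -20, 28],
  ![12, 36, -44],
  ![16, 64, -64]]

/-- vertices of a polygon -/
def q1 : Fin 16 → Fin 3 → ℤ := ![![32, 0, -64],
  ![16, -64, -64],
  ![12, -36, 20],
  ![4, 20, -36],
  ![0, 48, -32],
  ![4, 44, -28],
  ![12, 36, 44],
  ![16, 32, 64],
  ![16, 0, 64],
  ![16, -32, 64],
  ![12, -36, -20],
  ![4, -44, 36],
  ![0, -48, 32],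
  ![4, -20, 28],
  ![12, 36, -44],
  ![16, 64, -64]]

/-- vertices of a polygon -/
def q2 : Fin 16 → Fin 3 → ℤ := ![![32, 0, 0],
  ![16, -64, 16],
  ![12, -36, 32],
  ![4, 20, -32],
  ![0, 48, -32],
  ![4, 44, 0],
  ![12, 36, 32],
  ![16, 32, 16],
  ![16, 0, 0],
  ![16, -32, -16],
  ![12, -36, -32],
  ![4, -44, 0],
  ![0, -48, 32],
  ![4, -20, 32],
  ![12, 36, -32],
  ![16, 64, -16]]

/-- vertices of a polygon -/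
def q3 : Fin 16 → Fin 3 → ℤ := ![![28, 0, 0],
  ![12, -48, 24],
  ![7, -30, 24],
  ![0, 2, -16],
  ![-8, 24, -32],
  ![-5, 34, -8],
  ![0, 42, 16],
  ![12, 32, 24],
  ![12, 0, 0],
  ![12, -32, -24],
  ![0, -42, -16],
  ![-5, -34, 8],
  ![-8, -24, 32],
  ![0, -2, 16],
  ![7, 30, -24],
  ![12, 48, -24]]

/-- vertices of a polygon -/
def q4 : Fin 16 → Fin 3 → ℤ := ![![24, 0, 0],
  ![8, -32, 32],
  ![2, -24, 16],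
  ![-4, -16, 0],
  ![-16, 0, -32],
  ![-14, 24, -16],
  ![-12, 48, 0],
  ![8, 32, 32],
  ![8, 0, 0],
  ![8, -32, -32],
  ![-12, -48, 0],
  ![-14, -24, 16],
  ![-16, 0, 32],
  ![-4, 16, 0],
  ![2, 24, -16],
  ![8, 32, -32]]

/-- separating functionals -/
def cert0 : Fin 16 → Fin 16 → Fin 3 → ℤ := ![
  ![![0, 0, 0], ![-1, -9, 21], ![-1, 3, 7], ![-3, 5, 7], ![-1, 3, 2], ![-3, 11, 9], ![-1, 9, 27], ![0, 1, 4], ![0, 0, 1], ![0, -1, 4], ![-1, -9, 11], ![-3, -11, 25], ![-1, -3, 6], ![-1, 5, 7], ![-1, 9, 5], ![0, -1, 0]],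
  ![![0, 0, 0], ![0, 0, 0], ![-3, 21, 7], ![-3, 21, 7], ![-1, 7, 2], ![-1, 9, 3], ![-1, 25, 27], ![0, 3, 4], ![0, 1, 2], ![1, 13, -1], ![-27, 13, -1], ![-3, 5, 25], ![-1, 1, 6], ![-3, 29, 7], ![-1, 25, 5], ![0, 1, 0]],
  ![![0, 0, 0], ![0, 0, 0], ![0, 0, 0], ![-1, 7, -7], ![-3, 21, -13], ![0, 3, 1], ![0, 3, 1], ![1, 17, 11], ![1, 9, 11], ![25, -7, -1], ![-2, -2, -1], ![-1, -1, 2], ![-5, 1, 5], ![1, 9, 7], ![0, 9, -8], ![1, 25, -21]],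
  ![![0, 0, 0], ![0, 0, 0], ![0, 0, 0], ![0, 0, 0], ![1, 2, 2], ![1, 2, 2], ![1, 2, 10], ![3, 3, 25], ![3, -5, 25], ![3, -13, 25], ![1, -7, 2], ![0, -8, 9], ![-1, -17, 17], ![11, 3, 5], ![5, 1, -5], ![7, -1, -15]],
  ![![0, 0, 0], ![0, 0, 0], ![0, 0, 0], ![0, 0, 0], ![0, 0, 0], ![1, -1, 1], ![3, -3, 19], ![1, -1, 6], ![1, -3, 6], ![1, -5, 6], ![1, -7, 1], ![1, -23, 17], ![0, -3, 2], ![5, -21, 7], ![1, -1, -1], ![1, 1, -2]],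
  ![![0, 0, 0], ![0, 0, 0], ![0, 0, 0], ![0, 0, 0], ![0, 0, 0], ![0, 0, 0], ![1, -1, 9], ![3, -3, 23], ![3, -11, 23], ![3, -37, 7], ![1, -10, 1], ![0, -11, 8], ![-1, -23, 15], ![1, -5, -4], ![1, -1, -2], ![3, 5, -9]],
  ![![0, 0, 0], ![0, 0, 0], ![0, 0, 0], ![0, 0, 0], ![0, 0, 0], ![0, 0, 0], ![0, 0, 0], ![1, -1, 5], ![1, -9, 5], ![1, -17, 5], ![0, -9, -8], ![-1, -10, -1], ![-1, -7, -1], ![-1, -7, -2], ![0, 0, -1], ![1, 7, -27]],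
  ![![0, 0, 0], ![0, 0, 0], ![0, 0, 0], ![0, 0, 0], ![0, 0, 0], ![0, 0, 0], ![0, 0, 0], ![0, 0, 0], ![0, -1, 0], ![0, -1, 0], ![-1, -17, -21], ![-3, -19, -7], ![-1, -5, -2], ![-3, -13, -9], ![-1, 1, -27], ![0, 1, -4]],
  ![![0, 0, 0], ![0, 0, 0], ![0, 0, 0], ![0, 0, 0], ![0, 0, 0], ![0, 0, 0], ![0, 0, 0], ![0, 0, 0], ![0, 0, 0], ![0, -1, 0], ![-1, -9, -21], ![-3, -11, -7], ![-1, -3, -2], ![-3, -5, -9], ![-1, 9, -27], ![0, 1, -2]],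
  ![![0, 0, 0], ![0, 0, 0], ![0, 0, 0], ![0, 0, 0], ![0, 0, 0], ![0, 0, 0], ![0, 0, 0], ![0, 0, 0], ![0, 0, 0], ![0, 0, 0], ![-1, -1, 0], ![-1, -1, 0], ![-4, -1, 0], ![-5, 7, 3], ![-1, 17, -27], ![0, 3, -4]],
  ![![0, 0, 0], ![0, 0, 0], ![0, 0, 0], ![0, 0, 0], ![0, 0, 0], ![0, 0, 0], ![0, 0, 0], ![0, 0, 0], ![0, 0, 0], ![0, 0, 0], ![0, 0, 0], ![-3, -3, 5], ![-3, 1, 1], ![-1, 11, 3], ![0, 3, -1], ![1, 25, -11]],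
  ![![0, 0, 0], ![0, 0, 0], ![0, 0, 0], ![0, 0, 0], ![0, 0, 0], ![0, 0, 0], ![0, 0, 0], ![0, 0, 0], ![0, 0, 0], ![0, 0, 0], ![0, 0, 0], ![0, 0, 0], ![-1, 2, -2], ![0, 3, -1], ![1, 10, -10], ![3, 27, -25]],
  ![![0, 0, 0], ![0, 0, 0], ![0, 0, 0], ![0, 0, 0], ![0, 0, 0], ![0, 0, 0], ![0, 0, 0], ![0, 0, 0], ![0, 0, 0], ![0, 0, 0], ![0, 0, 0], ![0, 0, 0], ![0, 0, 0], ![1, 7, -1], ![3, 21, -19], ![1, 7, -6]],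
  ![![0, 0, 0], ![0, 0, 0], ![0, 0, 0], ![0, 0, 0], ![0, 0, 0], ![0, 0, 0], ![0, 0, 0], ![0, 0, 0], ![0, 0, 0], ![0, 0, 0], ![0, 0, 0], ![0, 0, 0], ![0, 0, 0], ![0, 0, 0], ![1, 7, -9], ![1, 3, -7]],
  ![![0, 0, 0], ![0, 0, 0], ![0, 0, 0], ![0, 0, 0], ![0, 0, 0], ![0, 0, 0], ![0, 0, 0], ![0, 0, 0], ![0, 0, 0], ![0, 0, 0], ![0, 0, 0], ![0, 0, 0], ![0, 0, 0], ![0, 0, 0], ![0, 0, 0], ![1, -1, -5]],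
  ![![0, 0, 0], ![0, 0, 0], ![0, 0, 0], ![0, 0, 0], ![0, 0, 0], ![0, 0, 0], ![0, 0, 0], ![0, 0, 0], ![0, 0, 0], ![0, 0, 0], ![0, 0, 0], ![0, 0, 0], ![0, 0, 0], ![0, 0, 0], ![0, 0, 0], ![0, 0, 0]]]

/-- functionals increasing along the edges -/
def nd0 : Fin 16 → Fin 3 → ℤ := ![![-1, -9, 21], ![-3, 21, 7], ![-1, 7, -7], ![1, 2, 2], ![1, -1, 1], ![1, -1, 9], ![1, -1, 5], ![0, -1, 0], ![0, -1, 0], ![-1, -1, 0], ![-3, -3, 5], ![-1, 2, -2], ![1, 7, -1], ![1, 7, -9], ![1, -1, -5], ![0, -1, 0]]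

theorem good0 : ∀ k k' : Fin 16, k < k' → Good q0 q1 (cert0 k k') k k' ∨ Good q0 q1 (cert0 k k') k' k := by
  decide +kernel

theorem inc0 : ∀ k : Fin 16, dt (nd0 k) (q0 k) < dt (nd0 k) (q0 (k + 1)) ∧
    dt (nd0 k) (q1 k) < dt (nd0 k) (q1 (k + 1)) := by
  decide +kernel

/-- separating functionals -/
def cert1 : Fin 16 → Fin 16 → Fin 3 → ℤ := ![
  ![![0, 0, 0], ![-5, -9, 21], ![-15, 17, 19], ![-7, 5, 7], ![-2, 3, 2], ![-7, 11, 9], ![-5, 9, 27], ![-1, 6, 7], ![-6, 2, 1], ![-32, 8, 3], ![-19, 1, -2], ![-16, 4, 13], ![-11, -1, 27], ![-13, 29, 17], ![-5, 9, 5], ![1, -4, 0]],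
  ![![0, 0, 0], ![0, 0, 0], ![-3, 21, 7], ![-3, 21, 7], ![-1, 7, 2], ![-1, 9, 3], ![-1, 25, 27], ![1, 33, 24], ![6, 30, -1], ![2, 26, -1], ![-10, 6, -1], ![-15, 1, 3], ![-9, 5, 23], ![-3, 29, 7], ![-1, 25, 5], ![0, 1, 0]],
  ![![0, 0, 0], ![0, 0, 0], ![0, 0, 0], ![-1, 7, -7], ![-3, 21, -13], ![0, 3, 1], ![0, 3, 1], ![1, 17, 11], ![49, 9, 3], ![22, -10, -1], ![0, -8, -1], ![-4, -4, -1], ![-5, 1, 5], ![-2, 24, 19], ![0, 9, -8], ![22, 10, 5]],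
  ![![0, 0, 0], ![0, 0, 0], ![0, 0, 0], ![0, 0, 0], ![1, 2, 2], ![1, 2, 2], ![1, 2, 10], ![3, 3, 25], ![3, -5, 25], ![3, -13, 25], ![1, -7, 2], ![0, -8, 9], ![-1, -17, 17], ![11, 3, 7], ![5, 1, -5], ![21, 5, -2]],
  ![![0, 0, 0], ![0, 0, 0], ![0, 0, 0], ![0, 0, 0], ![0, 0, 0], ![1, -1, 1], ![3, -3, 19], ![1, -1, 6], ![1, -3, 6], ![1, -5, 6], ![1, -7, 1], ![1, -23, 17], ![0, -3, 2], ![5, -21, 0], ![7, 1, 1], ![19, 1, -5]],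
  ![![0, 0, 0], ![0, 0, 0], ![0, 0, 0], ![0, 0, 0], ![0, 0, 0], ![0, 0, 0], ![3, -3, 1], ![6, -14, 1], ![1, -5, 3], ![3, -37, 7], ![1, -10, 1], ![0, -11, 8], ![-1, -23, 15], ![1, -9, -6], ![5, 3, -1], ![21, -5, -7]],
  ![![0, 0, 0], ![0, 0, 0], ![0, 0, 0], ![0, 0, 0], ![0, 0, 0], ![0, 0, 0], ![0, 0, 0], ![7, -7, -1], ![1, -17, -11], ![1, -17, 5], ![0, -9, -8], ![-1, -10, -1], ![-1, -7, -1], ![-1, -7, -2], ![0, 0, -1], ![1, 7, -27]],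
  ![![0, 0, 0], ![0, 0, 0], ![0, 0, 0], ![0, 0, 0], ![0, 0, 0], ![0, 0, 0], ![0, 0, 0], ![0, 0, 0], ![0, -1, 0], ![0, -1, 0], ![-1, -17, -21], ![-3, -19, -7], ![-1, -5, -2], ![-22, -10, -13], ![-1, 1, -27], ![1, 2, -8]],
  ![![0, 0, 0], ![0, 0, 0], ![0, 0, 0], ![0, 0, 0], ![0, 0, 0], ![0, 0, 0], ![0, 0, 0], ![0, 0, 0], ![0, 0, 0], ![0, -1, 0], ![-7, -23, 1], ![-12, -20, 3], ![-23, -1, -1], ![-21, 5, 2], ![-1, 9, -27], ![1, 4, -8]],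
  ![![0, 0, 0], ![0, 0, 0], ![0, 0, 0], ![0, 0, 0], ![0, 0, 0], ![0, 0, 0], ![0, 0, 0], ![0, 0, 0], ![0, 0, 0], ![0, 0, 0], ![-19, -19, -2], ![-1, -1, 0], ![-4, -1, 0], ![-5, 7, 3], ![-1, 17, -27], ![5, 33, -24]],
  ![![0, 0, 0], ![0, 0, 0], ![0, 0, 0], ![0, 0, 0], ![0, 0, 0], ![0, 0, 0], ![0, 0, 0], ![0, 0, 0], ![0, 0, 0], ![0, 0, 0], ![0, 0, 0], ![-3, -3, 5], ![-9, 3, 4], ![-1, 11, 3], ![0, 3, -1], ![1, 25, -11]],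
  ![![0, 0, 0], ![0, 0, 0], ![0, 0, 0], ![0, 0, 0], ![0, 0, 0], ![0, 0, 0], ![0, 0, 0], ![0, 0, 0], ![0, 0, 0], ![0, 0, 0], ![0, 0, 0], ![0, 0, 0], ![-9, 3, 5], ![0, 3, -1], ![1, 10, -10], ![3, 27, -25]],
  ![![0, 0, 0], ![0, 0, 0], ![0, 0, 0], ![0, 0, 0], ![0, 0, 0], ![0, 0, 0], ![0, 0, 0], ![0, 0, 0], ![0, 0, 0], ![0, 0, 0], ![0, 0, 0], ![0, 0, 0], ![0, 0, 0], ![1, 7, -1], ![3, 21, -19], ![1, 7, -6]],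
  ![![0, 0, 0], ![0, 0, 0], ![0, 0, 0], ![0, 0, 0], ![0, 0, 0], ![0, 0, 0], ![0, 0, 0], ![0, 0, 0], ![0, 0, 0], ![0, 0, 0], ![0, 0, 0], ![0, 0, 0], ![0, 0, 0], ![0, 0, 0], ![1, 7, -9], ![19, 1, -2]],
  ![![0, 0, 0], ![0, 0, 0], ![0, 0, 0], ![0, 0, 0], ![0, 0, 0], ![0, 0, 0], ![0, 0, 0], ![0, 0, 0], ![0, 0, 0], ![0, 0, 0], ![0, 0, 0], ![0, 0, 0], ![0, 0, 0], ![0, 0, 0], ![0, 0, 0], ![19, 1, -4]],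
  ![![0, 0, 0], ![0, 0, 0], ![0, 0, 0], ![0, 0, 0], ![0, 0, 0], ![0, 0, 0], ![0, 0, 0], ![0, 0, 0], ![0, 0, 0], ![0, 0, 0], ![0, 0, 0], ![0, 0, 0], ![0, 0, 0], ![0, 0, 0], ![0, 0, 0], ![0, 0, 0]]]

/-- functionals increasing along the edges -/
def nd1 : Fin 16 → Fin 3 → ℤ := ![![-5, -9, 21], ![-3, 21, 7], ![-1, 7, -7], ![1, 2, 2], ![1, -1, 1], ![3, -3, 1], ![7, -7, -1], ![0, -1, 0], ![0, -1, 0], ![-19, -19, -2], ![-3, -3, 5], ![-9, 3, 5], ![1, 7, -1], ![1, 7, -9], ![19, 1, -4], ![1, -4, 0]]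

theorem good1 : ∀ k k' : Fin 16, k < k' → Good q1 q2 (cert1 k k') k k' ∨ Good q1 q2 (cert1 k k') k' k := by
  decide +kernel

theorem inc1 : ∀ k : Fin 16, dt (nd1 k) (q1 k) < dt (nd1 k) (q1 (k + 1)) ∧
    dt (nd1 k) (q2 k) < dt (nd1 k) (q2 (k + 1)) := by
  decide +kernel

/-- separating functionals -/
def cert2 : Fin 16 → Fin 16 → Fin 3 → ℤ := ![
  ![![0, 0, 0], ![-15, 0, 16], ![-13, 3, 4], ![-7, 5, -8], ![-2, 3, -2], ![-7, 11, 0], ![-5, 9, 8], ![-1, 2, 1], ![-11, 0, -12], ![-1, 0, -3], ![-41, -6, -40], ![-7, -1, 0], ![-28, 21, 20], ![-3, 1, 0], ![-5, 9, -8], ![1, -4, 1]],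
  ![![0, 0, 0], ![0, 0, 0], ![-1, 7, 4], ![-1, 7, -4], ![-1, 7, -3], ![-3, 27, -4], ![-1, 25, 4], ![0, 1, 0], ![0, 4, -1], ![0, 1, -1], ![-1, 7, -12], ![-31, -10, -8], ![-7, 1, 4], ![-3, 11, 4], ![-1, 25, -12], ![0, 4, -1]],
  ![![0, 0, 0], ![0, 0, 0], ![0, 0, 0], ![-1, 7, -8], ![-3, 27, -8], ![0, 3, 1], ![0, 1, 0], ![57, 54, 56], ![37, -6, -8], ![1, -3, -2], ![1, -7, -8], ![-43, -54, 8], ![-9, 4, 8], ![9, 68, 56], ![0, 9, -8], ![14, 15, 4]],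
  ![![0, 0, 0], ![0, 0, 0], ![0, 0, 0], ![0, 0, 0], ![0, 3, 4], ![0, 3, 4], ![1, 2, 8], ![1, 1, 4], ![3, -5, 8], ![3, -13, 4], ![1, -7, 0], ![0, -2, 1], ![-1, -17, 16], ![55, 38, 72], ![5, 1, 0], ![5, 3, 6]],
  ![![0, 0, 0], ![0, 0, 0], ![0, 0, 0], ![0, 0, 0], ![0, 0, 0], ![1, -1, 8], ![3, -3, 16], ![1, -1, 3], ![1, -3, 2], ![1, -5, 1], ![1, -7, 0], ![1, -23, 8], ![0, -3, 2], ![49, -62, 8], ![9, -1, -4], ![13, -6, -2]],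
  ![![0, 0, 0], ![0, 0, 0], ![0, 0, 0], ![0, 0, 0], ![0, 0, 0], ![0, 0, 0], ![25, -12, 8], ![1, -1, 0], ![3, -11, 0], ![3, -19, -4], ![1, -10, -4], ![0, -1, 0], ![-1, -23, 8], ![1, -9, -8], ![1, -1, -4], ![5, -3, -2]],
  ![![0, 0, 0], ![0, 0, 0], ![0, 0, 0], ![0, 0, 0], ![0, 0, 0], ![0, 0, 0], ![0, 0, 0], ![8, -7, -4], ![1, -9, -8], ![1, -17, -12], ![0, -9, -8], ![-1, -10, -4], ![-1, -7, 0], ![-1, -7, -8], ![0, 0, -1], ![5, -1, -16]],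
  ![![0, 0, 0], ![0, 0, 0], ![0, 0, 0], ![0, 0, 0], ![0, 0, 0], ![0, 0, 0], ![0, 0, 0], ![0, 0, 0], ![0, -2, -1], ![0, -2, -1], ![-1, -17, -12], ![-3, -19, -4], ![-1, -5, 1], ![-23, -5, -6], ![-1, 1, -12], ![1, 0, -3]],
  ![![0, 0, 0], ![0, 0, 0], ![0, 0, 0], ![0, 0, 0], ![0, 0, 0], ![0, 0, 0], ![0, 0, 0], ![0, 0, 0], ![0, 0, 0], ![0, -2, -1], ![-33, -50, 16], ![-3, -3, 4], ![-16, -9, 32], ![-15, 11, 8], ![-1, 9, -8], ![1, 4, -1]],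
  ![![0, 0, 0], ![0, 0, 0], ![0, 0, 0], ![0, 0, 0], ![0, 0, 0], ![0, 0, 0], ![0, 0, 0], ![0, 0, 0], ![0, 0, 0], ![0, 0, 0], ![-25, -12, 8], ![-3, -3, 4], ![-1, -1, 3], ![-1, 1, 4], ![-1, 17, -4], ![0, 1, 0]],
  ![![0, 0, 0], ![0, 0, 0], ![0, 0, 0], ![0, 0, 0], ![0, 0, 0], ![0, 0, 0], ![0, 0, 0], ![0, 0, 0], ![0, 0, 0], ![0, 0, 0], ![0, 0, 0], ![-1, -1, 4], ![-3, -3, 16], ![0, 3, 1], ![0, 1, 0], ![1, 25, 4]],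
  ![![0, 0, 0], ![0, 0, 0], ![0, 0, 0], ![0, 0, 0], ![0, 0, 0], ![0, 0, 0], ![0, 0, 0], ![0, 0, 0], ![0, 0, 0], ![0, 0, 0], ![0, 0, 0], ![0, 0, 0], ![0, 3, 4], ![3, 27, -8], ![1, 10, -4], ![3, 27, -4]],
  ![![0, 0, 0], ![0, 0, 0], ![0, 0, 0], ![0, 0, 0], ![0, 0, 0], ![0, 0, 0], ![0, 0, 0], ![0, 0, 0], ![0, 0, 0], ![0, 0, 0], ![0, 0, 0], ![0, 0, 0], ![0, 0, 0], ![1, 7, 0], ![3, 21, -16], ![1, 7, -3]],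
  ![![0, 0, 0], ![0, 0, 0], ![0, 0, 0], ![0, 0, 0], ![0, 0, 0], ![0, 0, 0], ![0, 0, 0], ![0, 0, 0], ![0, 0, 0], ![0, 0, 0], ![0, 0, 0], ![0, 0, 0], ![0, 0, 0], ![0, 0, 0], ![1, 7, -8], ![12, 3, 4]],
  ![![0, 0, 0], ![0, 0, 0], ![0, 0, 0], ![0, 0, 0], ![0, 0, 0], ![0, 0, 0], ![0, 0, 0], ![0, 0, 0], ![0, 0, 0], ![0, 0, 0], ![0, 0, 0], ![0, 0, 0], ![0, 0, 0], ![0, 0, 0], ![0, 0, 0], ![15, 0, 16]],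
  ![![0, 0, 0], ![0, 0, 0], ![0, 0, 0], ![0, 0, 0], ![0, 0, 0], ![0, 0, 0], ![0, 0, 0], ![0, 0, 0], ![0, 0, 0], ![0, 0, 0], ![0, 0, 0], ![0, 0, 0], ![0, 0, 0], ![0, 0, 0], ![0, 0, 0], ![0, 0, 0]]]

/-- functionals increasing along the edges -/
def nd2 : Fin 16 → Fin 3 → ℤ := ![![-15, 0, 16], ![-1, 7, 4], ![-1, 7, -8], ![0, 3, 4], ![1, -1, 8], ![25, -12, 8], ![8, -7, -4], ![0, -2, -1], ![0, -2, -1], ![-25, -12, 8], ![-1, -1, 4], ![0, 3, 4], ![1, 7, 0], ![1, 7, -8], ![15, 0, 16], ![1, -4, 1]]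

theorem good2 : ∀ k k' : Fin 16, k < k' → Good q2 q3 (cert2 k k') k k' ∨ Good q2 q3 (cert2 k k') k' k := by
  decide +kernel

theorem inc2 : ∀ k : Fin 16, dt (nd2 k) (q2 k) < dt (nd2 k) (q2 (k + 1)) ∧
    dt (nd2 k) (q3 k) < dt (nd2 k) (q3 (k + 1)) := by
  decide +kernel

/-- separating functionals -/
def cert3 : Fin 16 → Fin 16 → Fin 3 → ℤ := ![
  ![![0, 0, 0], ![-8, -1, 2], ![-55, 8, 8], ![-14, 1, -8], ![-9, 6, -8], ![-33, 34, -8], ![-14, 21, 8], ![-2, 4, 3], ![-7, 4, -12], ![-2, -4, -3], ![-9, -3, -4], ![-25, -10, -4], ![-24, 11, 12], ![-33, 76, -32], ![-7, 10, -8], ![2, -6, 3]],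
  ![![0, 0, 0], ![0, 0, 0], ![-5, 18, 0], ![-6, 25, -20], ![-5, 18, -14], ![-17, 82, -32], ![-6, 45, -4], ![0, 1, 0], ![0, 2, -1], ![0, 1, -3], ![-6, 3, -20], ![-27, 14, 0], ![-5, 6, 2], ![-6, 23, -4], ![-5, 78, -48], ![0, 2, -1]],
  ![![0, 0, 0], ![0, 0, 0], ![0, 0, 0], ![-7, 32, -40], ![-15, 54, -56], ![-3, 16, -8], ![-7, 72, -8], ![17, 60, 16], ![31, -7, -8], ![-7, -52, -32], ![-3, -12, -4], ![-35, -16, 24], ![-15, 6, 8], ![-7, 24, 24], ![0, 5, -4], ![33, 76, -32]],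
  ![![0, 0, 0], ![0, 0, 0], ![0, 0, 0], ![0, 0, 0], ![-5, 32, 8], ![-5, 32, 8], ![0, 5, 4], ![6, 15, 20], ![9, -5, 0], ![6, -17, -4], ![0, -1, 0], ![-5, -36, 24], ![-4, 3, 24], ![7, 24, 24], ![17, 28, 8], ![24, 11, 12]],
  ![![0, 0, 0], ![0, 0, 0], ![0, 0, 0], ![0, 0, 0], ![0, 0, 0], ![3, 10, 24], ![4, 9, 24], ![5, 2, 14], ![5, -6, 8], ![5, -14, 2], ![4, -33, 8], ![3, -58, 40], ![0, -3, 4], ![55, -4, 24], ![11, -2, 0], ![53, -10, 16]],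
  ![![0, 0, 0], ![0, 0, 0], ![0, 0, 0], ![0, 0, 0], ![0, 0, 0], ![0, 0, 0], ![5, 8, 24], ![29, -44, 16], ![17, -34, 8], ![17, -66, -16], ![5, -76, -8], ![0, -17, 4], ![-3, -58, 40], ![17, -40, 8], ![3, -1, -4], ![25, -10, -4]],
  ![![0, 0, 0], ![0, 0, 0], ![0, 0, 0], ![0, 0, 0], ![0, 0, 0], ![0, 0, 0], ![0, 0, 0], ![6, -5, 4], ![6, -21, -8], ![6, -37, -20], ![0, -21, -8], ![-5, -76, -8], ![-4, -33, 8], ![0, -1, 0], ![7, -12, -40], ![6, 3, -20]],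
  ![![0, 0, 0], ![0, 0, 0], ![0, 0, 0], ![0, 0, 0], ![0, 0, 0], ![0, 0, 0], ![0, 0, 0], ![0, 0, 0], ![0, -4, -3], ![0, -4, -3], ![-6, -37, -20], ![-45, -66, 16], ![-6, -3, 1], ![-27, -7, -8], ![-5, -2, -48], ![1, 1, -3]],
  ![![0, 0, 0], ![0, 0, 0], ![0, 0, 0], ![0, 0, 0], ![0, 0, 0], ![0, 0, 0], ![0, 0, 0], ![0, 0, 0], ![0, 0, 0], ![-5, -12, 2], ![-29, -44, 16], ![-45, -2, 64], ![-9, -2, 8], ![-25, 26, 8], ![-5, 30, -24], ![2, 6, -3]],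
  ![![0, 0, 0], ![0, 0, 0], ![0, 0, 0], ![0, 0, 0], ![0, 0, 0], ![0, 0, 0], ![0, 0, 0], ![0, 0, 0], ![0, 0, 0], ![0, 0, 0], ![-7, 7, 12], ![-17, -2, 32], ![-5, 2, 14], ![-6, 15, 20], ![-5, 62, 0], ![0, 1, 0]],
  ![![0, 0, 0], ![0, 0, 0], ![0, 0, 0], ![0, 0, 0], ![0, 0, 0], ![0, 0, 0], ![0, 0, 0], ![0, 0, 0], ![0, 0, 0], ![0, 0, 0], ![0, 0, 0], ![-5, 8, 24], ![1, 29, 16], ![0, 5, 4], ![7, 72, -8], ![6, 45, -4]],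
  ![![0, 0, 0], ![0, 0, 0], ![0, 0, 0], ![0, 0, 0], ![0, 0, 0], ![0, 0, 0], ![0, 0, 0], ![0, 0, 0], ![0, 0, 0], ![0, 0, 0], ![0, 0, 0], ![0, 0, 0], ![5, 32, 8], ![21, 30, -8], ![3, 16, -8], ![17, 82, -32]],
  ![![0, 0, 0], ![0, 0, 0], ![0, 0, 0], ![0, 0, 0], ![0, 0, 0], ![0, 0, 0], ![0, 0, 0], ![0, 0, 0], ![0, 0, 0], ![0, 0, 0], ![0, 0, 0], ![0, 0, 0], ![0, 0, 0], ![4, 11, -8], ![15, 54, -56], ![13, 14, -14]],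
  ![![0, 0, 0], ![0, 0, 0], ![0, 0, 0], ![0, 0, 0], ![0, 0, 0], ![0, 0, 0], ![0, 0, 0], ![0, 0, 0], ![0, 0, 0], ![0, 0, 0], ![0, 0, 0], ![0, 0, 0], ![0, 0, 0], ![0, 0, 0], ![7, 32, -40], ![83, 10, -8]],
  ![![0, 0, 0], ![0, 0, 0], ![0, 0, 0], ![0, 0, 0], ![0, 0, 0], ![0, 0, 0], ![0, 0, 0], ![0, 0, 0], ![0, 0, 0], ![0, 0, 0], ![0, 0, 0], ![0, 0, 0], ![0, 0, 0], ![0, 0, 0], ![0, 0, 0], ![8, -1, 2]],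
  ![![0, 0, 0], ![0, 0, 0], ![0, 0, 0], ![0, 0, 0], ![0, 0, 0], ![0, 0, 0], ![0, 0, 0], ![0, 0, 0], ![0, 0, 0], ![0, 0, 0], ![0, 0, 0], ![0, 0, 0], ![0, 0, 0], ![0, 0, 0], ![0, 0, 0], ![0, 0, 0]]]

/-- functionals increasing along the edges -/
def nd3 : Fin 16 → Fin 3 → ℤ := ![![-8, -1, 2], ![-5, 18, 0], ![-7, 32, -40], ![-5, 32, 8], ![3, 10, 24], ![5, 8, 24], ![6, -5, 4], ![0, -4, -3], ![-5, -12, 2], ![-7, 7, 12], ![-5, 8, 24], ![5, 32, 8], ![4, 11, -8], ![7, 32, -40], ![8, -1, 2], ![2, -6, 3]]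

theorem good3 : ∀ k k' : Fin 16, k < k' → Good q3 q4 (cert3 k k') k k' ∨ Good q3 q4 (cert3 k k') k' k := by
  decide +kernel

theorem inc3 : ∀ k : Fin 16, dt (nd3 k) (q3 k) < dt (nd3 k) (q3 (k + 1)) ∧
    dt (nd3 k) (q4 k) < dt (nd3 k) (q4 (k + 1)) := by
  decide +kernel

theorem poly_iso : AmbIso (polySet (List.ofFn (fun i => rv (q0 i)))) (polySet (List.ofFn (fun i => rv (q4 i)))) :=
  (((ambIso_check q0 q1 cert0 good0 nd0 inc0).trans (ambIso_check q1 q2 cert1 good1 nd1 inc1)).trans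
    (ambIso_check q2 q3 cert2 good2 nd2 inc2)).trans (ambIso_check q3 q4 cert3 good3 nd3 inc3)

end Liss579
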