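import Pool.Agent.Helper579_Lis.Str
import Pool.Agent.Helper579_Lis.Caps

/-!
Shrinking pairs of height-monotone strands in three-space.
-/

set_option autoImplicit false

namespace Liss579

open Knot548 Set Real Filter Topology

/-- the identification of three-space with `ℂ × ℝ` -/
def toC (x : R3) : ℂ × ℝ := (⟨x 0, x 1⟩, x 2)

/-- the inverse identification -/
def ofC (x : ℂ × ℝ) : R3 := ![x.1.re, x.1.im, x.2]

/-- the identification as a homeomorphism -/
def hC : R3 ≃ₜ ℂ × ℝ where
  toFun := toC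
  invFun := ofC
  left_inv := by
    intro x
    unfold toC ofC
    ext i
    fin_cases i <;> rfl
  right_inv := by
    intro x
    unfold toC ofC
    rfl
  continuous_toFun := by
    unfold toC
    refine Continuous.prodMk ?_ (continuous_apply 2)
    have : (fun x : R3 => (⟨x 0, x 1⟩ : ℂ)) = fun x => (x 0 : ℂ) + (x 1 : ℂ) * Complex.I := by
      funext x
      exact Complex.mk_eq_add_mul_I _ _
    rw [this]
    exact (Complex.continuous_ofReal.comp (continuous_apply 0)).add
      ((Complex.continuous_ofReal.comp (continuous_apply 1)).mul continuous_const)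
  continuous_invFun := by
    unfold ofC
    apply continuous_pi
    intro i
    fin_cases i
    · exact Complex.continuous_re.comp continuous_fst
    · exact Complex.continuous_im.comp continuous_fst
    · exact continuous_snd

theorem toC_cont : Continuous toC := hC.continuous

theorem ambIso_of_toC {S T : Set R3} (h : AmbIso (toC '' S) (toC '' T)) : AmbIso S T := by
  have := ambIso_image hC.symm h
  have e : ∀ U : Set R3, hC.symm '' (toC '' U) = U := by
    intro U
    rw [image_image]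
    have : (fun x => hC.symm (toC x)) = id := by
      funext x
      exact hC.left_inv x
    rw [this, image_id]
  rwa [e, e] at this

theorem toC_segment {a b : R3} (h : a 2 = b 2) :
    toC '' segment ℝ a b = hsegm (toC a).1 (toC b).1 (a 2) := by
  rw [segment_eq_image', image_image]
  unfold hsegm
  apply image_congr
  intro t _
  unfold toC
  ext1
  · apply Complex.ext
    · simp
    · simp
  · simp [h]

/-- a height-monotone strand as a graph -/
theorem exists_graph (f : ℝ → R3) (hf : Continuous f) {s0 s2 : ℝ} (h : s0 ≤ s2)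
    (hm : StrictMonoOn (fun s => f s 2) (Icc s0 s2)) :
    ∃ r : ℝ → ℂ, Continuous r ∧ ∀ s ∈ Icc s0 s2, r (f s 2) = (toC (f s)).1 := by
  let κ : ℝ → ℝ := fun s => max s0 (min s s2)
  have hκ : ∀ s, κ s ∈ Icc s0 s2 := fun s => ⟨le_max_left _ _, max_le h (min_le_right _ _)⟩
  have hκ2 : ∀ s ∈ Icc s0 s2, κ s = s := by
    intro s hs
    simp only [κ]
    rw [min_eq_left hs.2, max_eq_right hs.1]
  have hκm : Monotone κ := by
    intro s t hst
    simp only [κ]
    exact max_le_max le_rfl (min_le_min hst le_rfl)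
  have hκd : ∀ s t, s ≤ t → κ t - κ s ≤ t - s := by
    intro s t hst
    simp only [κ, max_def, min_def]
    split_ifs <;> linarith
  have hκc : Continuous κ := by simp only [κ]; fun_prop
  let φ : ℝ → ℝ := fun s => f (κ s) 2 + (s - κ s)
  have hφ2 : ∀ s ∈ Icc s0 s2, φ s = f s 2 := by
    intro s hs
    simp only [φ]
    rw [hκ2 s hs]
    ring
  have hφc : Continuous φ := by
    simp only [φ]
    exact ((continuous_apply 2).comp (hf.comp hκc)).add (continuous_id.sub hκc)
  have hφm : StrictMono φ := by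
    intro s t hst
    simp only [φ]
    rcases (hκm hst.le).lt_or_eq with h1 | h1
    · have h2 := hm (hκ s) (hκ t) h1
      have h3 := hκd s t hst.le
      simp only at h2
      linarith
    · rw [h1]; linarith
  have hφs : Function.Surjective φ := by
    intro z
    rcases le_total z (f s0 2) with h1 | h1
    · refine ⟨s0 + (z - f s0 2), ?_⟩
      have : κ (s0 + (z - f s0 2)) = s0 := by
        simp only [κ]
        rw [min_eq_left (by linarith), max_eq_left (by linarith)]
      simp only [φ]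
      rw [this]
      ring
    rcases le_total (f s2 2) z with h2 | h2
    · refine ⟨s2 + (z - f s2 2), ?_⟩
      have : κ (s2 + (z - f s2 2)) = s2 := by
        simp only [κ]
        rw [min_eq_right (by linarith), max_eq_right h]
      simp only [φ]
      rw [this]
      ring
    · obtain ⟨s, hs, hs2⟩ := intermediate_value_Icc h hφc.continuousOn
        (show z ∈ Icc (φ s0) (φ s2) by
          rw [hφ2 s0 ⟨le_rfl, h⟩, hφ2 s2 ⟨h, le_rfl⟩]; exact ⟨h1, h2⟩)
      exact ⟨s, hs2⟩
  let Φ := (hφm.orderIsoOfSurjective φ hφs).toHomeomorph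
  refine ⟨fun z => (toC (f (Φ.symm z))).1, ?_, ?_⟩
  · exact continuous_fst.comp (toC_cont.comp (hf.comp Φ.symm.continuous))
  · intro s hs
    have : Φ.symm (f s 2) = s := by
      rw [← hφ2 s hs]
      exact Φ.symm_apply_apply s
    simp only [this]

theorem graph_image {f : ℝ → R3} (hf : Continuous f) {s0 s2 : ℝ}
    (hm : StrictMonoOn (fun s => f s 2) (Icc s0 s2)) {r : ℝ → ℂ}
    (hr : ∀ s ∈ Icc s0 s2, r (f s 2) = (toC (f s)).1) {s : ℝ} (hs : s ∈ Icc s0 s2) :
    toC '' (f '' Icc s0 s) = gr r (f s0 2) (f s 2) := by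
  unfold gr
  rw [image_image]
  ext x
  constructor
  · rintro ⟨t, ht, rfl⟩
    have ht2 : t ∈ Icc s0 s2 := ⟨ht.1, ht.2.trans hs.2⟩
    refine ⟨f t 2, ⟨hm.monotoneOn ⟨le_rfl, hs.1.trans hs.2⟩ ht2 ht.1, hm.monotoneOn ht2 hs ht.2⟩, ?_⟩
    simp only [hr t ht2]
    rfl
  · rintro ⟨z, hz, rfl⟩
    have hc : Continuous (fun s => f s 2) := (continuous_apply 2).comp hf
    obtain ⟨t, ht, rfl⟩ := intermediate_value_Icc hs.1 hc.continuousOn hz
    have ht2 : t ∈ Icc s0 s2 := ⟨ht.1, ht.2.trans hs.2⟩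
    refine ⟨t, ht, ?_⟩
    simp only [hr t ht2]
    rfl

/-- shrinking the top of a pair of strands -/
theorem shrink (B : Set R3) (f g : ℝ → R3) (hf : Continuous f) (hg : Continuous g)
    {f0 g0 h1 h2 a b c : ℝ} (hf0 : f0 < h1) (hg0 : g0 < h1) (h12 : h1 ≤ h2)
    (hfm : StrictMonoOn (fun s => f s 2) (Icc f0 h2))
    (hgm : StrictMonoOn (fun s => g s 2) (Icc g0 h2))
    (ef0 : f f0 2 = a) (eg0 : g g0 2 = a) (e1 : f h1 2 = b) (e1' : g h1 2 = b)
    (e2 : f h2 2 = c) (e2' : g h2 2 = c)
    (hne : ∀ s ∈ Icc f0 h2, ∀ t ∈ Icc g0 h2, f s ≠ g t)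
    (hB : ∀ x ∈ B, x 2 ≤ a) :
    AmbIso (B ∪ f '' Icc f0 h2 ∪ g '' Icc g0 h2 ∪ segment ℝ (f h2) (g h2))
      (B ∪ f '' Icc f0 h1 ∪ g '' Icc g0 h1 ∪ segment ℝ (f h1) (g h1)) := by
  obtain ⟨r, hrc, hr⟩ := exists_graph f hf (hf0.le.trans h12) hfm
  obtain ⟨l, hlc, hl⟩ := exists_graph g hg (hg0.le.trans h12) hgm
  have mf1 : h1 ∈ Icc f0 h2 := ⟨hf0.le, h12⟩
  have mf2 : h2 ∈ Icc f0 h2 := ⟨hf0.le.trans h12, le_rfl⟩
  have mg1 : h1 ∈ Icc g0 h2 := ⟨hg0.le, h12⟩
  have mg2 : h2 ∈ Icc g0 h2 := ⟨hg0.le.trans h12, le_rfl⟩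
  have mf0 : f0 ∈ Icc f0 h2 := ⟨le_rfl, hf0.le.trans h12⟩
  have hab : a < b := by
    rw [← ef0, ← e1]; exact hfm mf0 mf1 hf0
  have hbc : b ≤ c := by
    rw [← e1, ← e2]; exact hfm.monotoneOn mf1 mf2 h12
  have hnez : ∀ z ∈ Icc a c, r z ≠ l z := by
    intro z hz heq
    have hcf : Continuous (fun s => f s 2) := (continuous_apply 2).comp hf
    have hcg : Continuous (fun s => g s 2) := (continuous_apply 2).comp hg
    obtain ⟨s, hs, hs2⟩ := intermediate_value_Icc mf2.1 hcf.continuousOn
      (by simp only [ef0, e2]; exact hz)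
    obtain ⟨t, ht, ht2⟩ := intermediate_value_Icc mg2.1 hcg.continuousOn
      (by simp only [eg0, e2']; exact hz)
    simp only at hs2 ht2
    apply hne s hs t ht
    apply hC.injective
    change toC (f s) = toC (g t)
    have a1 := hr s hs
    have a2 := hl t ht
    rw [hs2] at a1
    rw [ht2] at a2
    have a3 : (toC (f s)).2 = (toC (g t)).2 := by
      change f s 2 = g t 2
      rw [hs2, ht2]
    exact Prod.ext (by rw [← a1, ← a2, heq]) a3
  apply ambIso_of_toC
  have key := ambIso_shrink hrc hlc hab hbc hnez (toC '' B) (by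
    rintro _ ⟨x, hx, rfl⟩
    exact hB x hx)
  have i1 := graph_image hf hfm hr mf2
  have i2 := graph_image hg hgm hl mg2
  have i3 := graph_image hf hfm hr mf1
  have i4 := graph_image hg hgm hl mg1
  rw [ef0, e2] at i1
  rw [eg0, e2'] at i2
  rw [ef0, e1] at i3
  rw [eg0, e1'] at i4
  have r2 := hr h2 mf2
  have l2 := hl h2 mg2
  have r1 := hr h1 mf1
  have l1 := hl h1 mg1
  rw [e2] at r2
  rw [e2'] at l2
  rw [e1] at r1
  rw [e1'] at l1
  rw [image_union, image_union, image_union, image_union, image_union, image_union, i1, i2, i3, i4,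
    toC_segment (by rw [e2, e2']), toC_segment (by rw [e1, e1']), ← r2, ← l2, ← r1, ← l1, e2, e1]
  exact key

/-- shrinking the bottom of a pair of strands -/
theorem shrink_bot (B : Set R3) (f g : ℝ → R3) (hf : Continuous f) (hg : Continuous g)
    {f0 g0 h1 h2 a b c : ℝ} (hf0 : h1 < f0) (hg0 : h1 < g0) (h12 : h2 ≤ h1)
    (hfm : StrictMonoOn (fun s => f s 2) (Icc h2 f0))
    (hgm : StrictMonoOn (fun s => g s 2) (Icc h2 g0))
    (ef0 : f f0 2 = a) (eg0 : g g0 2 = a) (e1 : f h1 2 = b) (e1' : g h1 2 = b)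
    (e2 : f h2 2 = c) (e2' : g h2 2 = c)
    (hne : ∀ s ∈ Icc h2 f0, ∀ t ∈ Icc h2 g0, f s ≠ g t)
    (hB : ∀ x ∈ B, a ≤ x 2) :
    AmbIso (B ∪ f '' Icc h2 f0 ∪ g '' Icc h2 g0 ∪ segment ℝ (f h2) (g h2))
      (B ∪ f '' Icc h1 f0 ∪ g '' Icc h1 g0 ∪ segment ℝ (f h1) (g h1)) := by
  have im : ∀ (k : ℝ → R3) (s t : ℝ), refz '' (k '' Icc s t) =
      (fun u => refz (k (-u))) '' Icc (-t) (-s) := by
    intro k s t
    rw [image_image]
    ext x
    constructor
    · rintro ⟨u, hu, rfl⟩
      exact ⟨-u, ⟨by linarith [hu.2], by linarith [hu.1]⟩, by simp⟩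
    · rintro ⟨u, hu, rfl⟩
      exact ⟨-u, ⟨by linarith [hu.2], by linarith [hu.1]⟩, rfl⟩
  have ref2 : ∀ x : R3, refz x 2 = -x 2 := by intro x; simp [refz]
  apply ambIso_of_refz
  rw [image_union, image_union, image_union, image_union, image_union, image_union, im, im, im, im,
    refz_segment, refz_segment]
  have mono : ∀ (k : ℝ → R3) (s t : ℝ), StrictMonoOn (fun u => k u 2) (Icc s t) →
      StrictMonoOn (fun u => (fun u => refz (k (-u))) u 2) (Icc (-t) (-s)) := by
    intro k s t hk u hu v hv huv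
    simp only [ref2]
    have := hk (a := -v) (b := -u) ⟨by linarith [hv.2], by linarith [hv.1]⟩
      ⟨by linarith [hu.2], by linarith [hu.1]⟩ (by linarith)
    simp only at this
    linarith
  have key := shrink (refz '' B) (fun u => refz (f (-u))) (fun u => refz (g (-u)))
    (refz_cont.comp (hf.comp continuous_neg)) (refz_cont.comp (hg.comp continuous_neg))
    (f0 := -f0) (g0 := -g0) (h1 := -h1) (h2 := -h2) (a := -a) (b := -b) (c := -c)
    (by linarith) (by linarith) (by linarith) (mono f _ _ hfm) (mono g _ _ hgm)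
    (by simp only [ref2, neg_neg, ef0]) (by simp only [ref2, neg_neg, eg0])
    (by simp only [ref2, neg_neg, e1]) (by simp only [ref2, neg_neg, e1'])
    (by simp only [ref2, neg_neg, e2]) (by simp only [ref2, neg_neg, e2'])
    (by
      intro s hs t ht heq
      apply hne (-s) ⟨by linarith [hs.2], by linarith [hs.1]⟩ (-t)
        ⟨by linarith [ht.2], by linarith [ht.1]⟩
      have := congrArg refz heq
      simpa [refz_refz] using this)
    (by
      rintro _ ⟨x, hx, rfl⟩
      rw [ref2]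
      linarith [hB x hx])
  simpa only [neg_neg] using key

end Liss579
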