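import Pool.Agent.Helper579_Lis.Moves

/-!
The standard two-strand curve and its symmetries.
-/

set_option autoImplicit false

namespace Liss579

open Knot548 Set Real Filter Topology

/-- the standard second coordinates -/
noncomputable def yst (b : Bool) (v : ℝ) : ℝ := if b then 3 - 4 * |v| + 3 * v else -(3 - 4 * |v| + 3 * v)

/-- reflection in the plane of the first and third coordinates -/
def refy (x : R3) : R3 := ![x 0, -x 1, x 2]

theorem refy_refy (x : R3) : refy (refy x) = x := by
  unfold refy
  ext i
  fin_cases i <;> simp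

theorem refy_cont : Continuous refy := by
  unfold refy
  apply continuous_pi
  intro i
  fin_cases i
  · exact continuous_apply 0
  · exact (continuous_apply 1).neg
  · exact continuous_apply 2

/-- the reflection as a homeomorphism -/
def refyH : R3 ≃ₜ R3 where
  toFun := refy
  invFun := refy
  left_inv := refy_refy
  right_inv := refy_refy
  continuous_toFun := refy_cont
  continuous_invFun := refy_cont

theorem refy_image_image (S : Set R3) : refy '' (refy '' S) = S := by
  rw [image_image]
  simp [refy_refy]

theorem refy_segment (a b : R3) : refy '' segment ℝ a b = segment ℝ (refy a) (refy b) := by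
  rw [segment_eq_image', segment_eq_image', image_image]
  apply image_congr
  intro t _
  unfold refy
  ext i
  fin_cases i <;> simp
  ring

theorem ambIso_refz {S T : Set R3} (h : AmbIso S T) : AmbIso (refz '' S) (refz '' T) :=
  ambIso_image refzH h

theorem ambIso_refy {S T : Set R3} (h : AmbIso S T) : AmbIso (refy '' S) (refy '' T) :=
  ambIso_image refyH h

/-- the two reflections agree up to isotopy -/
theorem refy_refz_iso (S : Set R3) : AmbIso (refz '' S) (refy '' S) := by
  have := ambIso_rotx (refz '' S)
  rw [image_image] at this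
  have e : (fun x : R3 => (![refz x 0, -refz x 1, -refz x 2] : R3)) = refy := by
    funext x
    unfold refz refy
    ext i
    fin_cases i <;> simp
  rw [e] at this
  exact this

theorem refy_plat (y z : Bool → ℝ → ℝ) : refy '' plat y z = plat (fun b v => -y b v) z := by
  have e : ∀ b v, refy (sp (y b) (z b) v) = sp (fun v => -y b v) (z b) v := by
    intro b v
    unfold refy sp
    ext i
    fin_cases i <;> simp
  unfold plat
  rw [image_union, image_union, image_union, refy_segment, refy_segment, image_image, image_image]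
  simp only [e]

theorem refz_plat (y : Bool → ℝ → ℝ) : refz '' plat y zst = plat (fun b v => y (!b) (-v)) zst := by
  have e : ∀ b v, refz (sp (y b) (zst b) v) = sp (fun v => y b (-v)) (zst (!b)) (-v) := by
    intro b v
    unfold refz sp
    beta_reduce
    rw [zst_neg, Bool.not_not, abs_neg, neg_neg]
    ext i
    fin_cases i <;> simp
  have e2 : ∀ b, refz '' (sp (y b) (zst b) '' Icc (-1) 1) = sp (fun v => y b (-v)) (zst (!b)) '' Icc (-1) 1 := by
    intro b
    rw [image_image]
    ext x
    constructor
    · rintro ⟨v, hv, rfl⟩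
      exact ⟨-v, ⟨by linarith [hv.2], by linarith [hv.1]⟩, (e b v).symm⟩
    · rintro ⟨v, hv, rfl⟩
      exact ⟨-v, ⟨by linarith [hv.2], by linarith [hv.1]⟩, by beta_reduce; rw [e, neg_neg]⟩
  unfold plat
  rw [image_union, image_union, image_union, refz_segment, refz_segment, e2, e2, e, e, e, e]
  simp only [Bool.not_true, Bool.not_false, neg_neg]
  rw [segment_symm ℝ (sp (fun v => y true (-v)) (zst false) (-1)),
    segment_symm ℝ (sp (fun v => y true (-v)) (zst false) 1)]
  rw [union_comm (sp (fun v => y true (-v)) (zst false) '' Icc (-1) 1)]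
  rw [union_comm (segment ℝ (sp (fun v => y false (-v)) (zst true) (-1)) _)]

theorem mul_sign {a x y : ℝ} (hx : 0 < a * x) (hy : 0 < a * y) : 0 < x * y := by
  rcases lt_trichotomy a 0 with h | h | h
  · have h1 : x < 0 := by
      by_contra hc
      have := mul_nonpos_of_nonpos_of_nonneg h.le (not_lt.mp hc)
      linarith
    have h2 : y < 0 := by
      by_contra hc
      have := mul_nonpos_of_nonpos_of_nonneg h.le (not_lt.mp hc)
      linarith
    exact mul_pos_of_neg_of_neg h1 h2
  · rw [h, zero_mul] at hx
    exact absurd hx (lt_irrefl _)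
  · exact mul_pos ((mul_pos_iff_of_pos_left h).mp hx) ((mul_pos_iff_of_pos_left h).mp hy)

theorem zst_eq {v : ℝ} (h : zst true v = zst false v) : 1 / 2 ≤ |v| := by
  by_contra hc
  rw [not_le] at hc
  have h0 := abs_nonneg v
  have hE : Ef v < 0 := by
    rcases le_total |v| (1 / 4) with h1 | h1
    · rw [Ef_in h1]; norm_num
    · rw [Ef_mid ⟨h1, by linarith⟩]; linarith
  unfold zst at h
  simp only [if_true, Bool.false_eq_true, if_false] at h
  linarith

theorem zst_zero {v : ℝ} (hv : v ∈ Icc (-1 : ℝ) 1) (h : zst true v = zst false (-v)) :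
    v < 3 / 4 ∧ v ≠ -(3 / 4) := by
  rw [zst_neg, Bool.not_false] at h
  have h0 : zst true v = 0 := by linarith
  unfold zst at h0
  rw [if_pos rfl] at h0
  constructor
  · by_contra hc
    rw [not_lt] at hc
    rw [Gf_hi ⟨hc, hv.2⟩, Ef_hi (by rw [abs_of_nonneg (by linarith)]; exact ⟨hc, hv.2⟩),
      abs_of_nonneg (by linarith)] at h0
    linarith
  · rintro rfl
    rw [Gf_neg, Ef_neg, Gf_mid ⟨by norm_num, by norm_num⟩,
      Ef_mid (by rw [abs_of_pos (by norm_num)]; constructor <;> norm_num), abs_of_pos (by norm_num)] at h0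
    norm_num at h0

theorem zst_G (b : Bool) {v : ℝ} (hv : v ∈ Icc (0 : ℝ) 1) : 1 * v ≤ zst b v - zst b (-v) := by
  have e : zst b v - zst b (-v) = 2 * Gf v := by
    unfold zst
    rw [Gf_neg, Ef_neg]
    split_ifs <;> ring
  rw [e]
  rcases le_total v (3 / 4) with h | h
  · rw [Gf_mid ⟨by linarith [hv.1], h⟩]; linarith
  · rw [Gf_hi ⟨h, hv.2⟩]; linarith

theorem yst_lip (b : Bool) : Lip (yst b) := by
  have h : Lip (fun v : ℝ => 3 - 4 * |v| + 3 * v) :=
    ((Lip.const 3).sub (Lip.abs'.mulc 4)).add (Lip.id.mulc 3)
  cases b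
  · have := h.mulc (-1)
    have e : (fun v : ℝ => -1 * (3 - 4 * |v| + 3 * v)) = yst false := by
      funext v
      unfold yst
      simp
    rwa [e] at this
  · exact h

/-- curves with the sign pattern of the standard one -/
theorem plat_pp (y : Bool → ℝ → ℝ) (hc : ∀ b, Continuous (y b)) (L0 : ℝ)
    (hy : ∀ b, ∀ s ∈ Icc (-1 : ℝ) 1, ∀ t ∈ Icc (-1 : ℝ) 1, |y b s - y b t| ≤ L0 * |s - t|)
    (hD : ∀ v ∈ Icc (-1 : ℝ) 1, 1 / 2 ≤ |v| → 0 < v * (y true v - y false v))
    (hE : ∀ v ∈ Icc (-1 : ℝ) 1, v ≠ -(3 / 4) → 0 < (v + 3 / 4) * (y true v - y false (-v))) :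
    AmbIso (plat y zst) (plat yst zst) := by
  obtain ⟨L1, l1, l1'⟩ := yst_lip true
  obtain ⟨L2, l2, l2'⟩ := yst_lip false
  obtain ⟨L3, l3, l3'⟩ := zst_lip true
  obtain ⟨L4, l4, l4'⟩ := zst_lip false
  have hmax0 : 0 ≤ max L0 0 := le_max_right _ _
  apply plat_iso y yst zst (max L0 0 + L1 + L2 + L3 + L4) 1 (by positivity) one_pos hc
    (fun b => (yst_lip b).continuous) (fun b => (zst_lip b).continuous)
  · intro b s hs t ht
    have a0 : 0 ≤ |s - t| := abs_nonneg _
    have := hy b s hs t ht
    have : L0 * |s - t| ≤ max L0 0 * |s - t| := mul_le_mul_of_nonneg_right (le_max_left _ _) a0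
    have : 0 ≤ L1 * |s - t| := by positivity
    have : 0 ≤ L2 * |s - t| := by positivity
    have : 0 ≤ L3 * |s - t| := by positivity
    have : 0 ≤ L4 * |s - t| := by positivity
    linarith
  · intro b s _ t _
    have a0 : 0 ≤ |s - t| := abs_nonneg _
    have : 0 ≤ max L0 0 * |s - t| := by positivity
    have : 0 ≤ L1 * |s - t| := by positivity
    have : 0 ≤ L2 * |s - t| := by positivity
    have : 0 ≤ L3 * |s - t| := by positivity
    have : 0 ≤ L4 * |s - t| := by positivity
    cases b
    · have := l2' s t; linarith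
    · have := l1' s t; linarith
  · intro b s _ t _
    have a0 : 0 ≤ |s - t| := abs_nonneg _
    have : 0 ≤ max L0 0 * |s - t| := by positivity
    have : 0 ≤ L1 * |s - t| := by positivity
    have : 0 ≤ L2 * |s - t| := by positivity
    have : 0 ≤ L3 * |s - t| := by positivity
    have : 0 ≤ L4 * |s - t| := by positivity
    cases b
    · have := l4' s t; linarith
    · have := l3' s t; linarith
  · intro b v hv
    exact zst_G b hv
  · intro v hv h
    have h1 := zst_eq h
    have h2 := hD v hv h1
    apply mul_sign h2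
    unfold yst
    simp only [if_true, Bool.false_eq_true, if_false]
    rcases le_total 0 v with h3 | h3
    · rw [abs_of_nonneg h3] at h1 ⊢
      have : 0 < v * (3 - v) := mul_pos (by linarith) (by linarith [hv.2])
      linarith
    · rw [abs_of_nonpos h3] at h1 ⊢
      have : 0 < v * (3 + 7 * v) := mul_pos_of_neg_of_neg (by linarith) (by linarith)
      linarith
  · intro v hv h
    obtain ⟨h1, h2⟩ := zst_zero hv h
    have h3 := hE v hv h2
    apply mul_sign h3
    unfold yst
    simp only [if_true, Bool.false_eq_true, if_false, abs_neg]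
    rcases lt_or_gt_of_ne h2 with h4 | h4
    · apply mul_pos_of_neg_of_neg (by linarith)
      rw [abs_of_nonpos (by linarith)]
      linarith
    · apply mul_pos (by linarith)
      have : |v| < 3 / 4 := by rw [abs_lt]; constructor <;> linarith
      linarith
  · intro e
    cases e
    · unfold en
      simp only [Bool.false_eq_true, if_false]
      rw [zst_left _ le_rfl, zst_left _ le_rfl]
    · unfold en
      simp only [if_true]
      rw [zst_right _ le_rfl, zst_right _ le_rfl]
  · rw [zst_left _ le_rfl, zst_right _ le_rfl]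
    norm_num

/-- all four sign patterns -/
theorem plat_signs (y : Bool → ℝ → ℝ) (hc : ∀ b, Continuous (y b)) (L0 : ℝ)
    (hy : ∀ b, ∀ s ∈ Icc (-1 : ℝ) 1, ∀ t ∈ Icc (-1 : ℝ) 1, |y b s - y b t| ≤ L0 * |s - t|)
    (ε τ : ℝ) (hε : ε = 1 ∨ ε = -1)
    (hD : ∀ v ∈ Icc (-1 : ℝ) 1, 1 / 2 ≤ |v| → 0 < ε * (v * (y true v - y false v)))
    (hE : ∀ v ∈ Icc (-1 : ℝ) 1, v ≠ -(3 / 4) → 0 < τ * ε * ((v + 3 / 4) * (y true v - y false (-v)))) :
    (τ * ε = 1 → AmbIso (plat y zst) (plat yst zst)) ∧
      (τ * ε = -1 → AmbIso (plat y zst) (refz '' plat yst zst)) := by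
  -- the case `ε = 1`
  have main : ∀ (y : Bool → ℝ → ℝ), (∀ b, Continuous (y b)) →
      (∀ b, ∀ s ∈ Icc (-1 : ℝ) 1, ∀ t ∈ Icc (-1 : ℝ) 1, |y b s - y b t| ≤ L0 * |s - t|) →
      (∀ v ∈ Icc (-1 : ℝ) 1, 1 / 2 ≤ |v| → 0 < v * (y true v - y false v)) →
      ((∀ v ∈ Icc (-1 : ℝ) 1, v ≠ -(3 / 4) → 0 < (v + 3 / 4) * (y true v - y false (-v))) →
        AmbIso (plat y zst) (plat yst zst)) ∧
      ((∀ v ∈ Icc (-1 : ℝ) 1, v ≠ -(3 / 4) → 0 < -((v + 3 / 4) * (y true v - y false (-v)))) →
        AmbIso (plat y zst) (refz '' plat yst zst)) := by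
    intro y hc hy hD
    refine ⟨plat_pp y hc L0 hy hD, ?_⟩
    intro hE
    have h1 : AmbIso (refz '' plat y zst) (plat yst zst) := by
      rw [refz_plat]
      apply plat_pp _ (fun b => (hc (!b)).comp continuous_neg) L0
      · intro b s hs t ht
        have := hy (!b) (-s) ⟨by linarith [hs.2], by linarith [hs.1]⟩ (-t)
          ⟨by linarith [ht.2], by linarith [ht.1]⟩
        refine this.trans (le_of_eq ?_)
        rw [← abs_neg]
        congr 2
        ring
      · intro v hv h
        have := hD (-v) ⟨by linarith [hv.2], by linarith [hv.1]⟩ (by rw [abs_neg]; exact h)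
        simp only [Bool.not_true, Bool.not_false, Function.comp_apply]
        linarith
      · intro v hv h
        have := hE v hv h
        simp only [Bool.not_true, Bool.not_false, Function.comp_apply, neg_neg]
        linarith
    have h2 := ambIso_refz h1
    rwa [refz_image_image] at h2
  rcases hε with rfl | rfl
  · have h1 := main y hc hy (fun v hv h => by have := hD v hv h; linarith)
    refine ⟨fun h => h1.1 ?_, fun h => h1.2 ?_⟩
    · intro v hv h2
      have := hE v hv h2
      rw [h, one_mul] at this
      exact this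
    · intro v hv h2
      have := hE v hv h2
      rw [h] at this
      linarith
  · have h1 := main (fun b v => -y b v) (fun b => (hc b).neg)
      (fun b s hs t ht => by
        have := hy b s hs t ht
        refine le_trans (le_of_eq ?_) this
        rw [← abs_neg]
        congr 1
        ring)
      (fun v hv h => by have := hD v hv h; linarith)
    refine ⟨fun h => ?_, fun h => ?_⟩
    · have h3 : AmbIso (plat (fun b v => -y b v) zst) (refz '' plat yst zst) := h1.2 (by
        intro v hv h2
        have := hE v hv h2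
        rw [h] at this
        linarith)
      rw [← refy_plat] at h3
      have h4 := ambIso_refy h3
      rw [refy_image_image] at h4
      have h5 := refy_refz_iso (refz '' plat yst zst)
      rw [refz_image_image] at h5
      exact h4.trans h5.symm
    · have h3 : AmbIso (plat (fun b v => -y b v) zst) (plat yst zst) := h1.1 (by
        intro v hv h2
        have := hE v hv h2
        rw [h] at this
        linarith)
      rw [← refy_plat] at h3
      have h4 := ambIso_refy h3
      rw [refy_image_image] at h4
      exact h4.trans (refy_refz_iso _).symm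

end Liss579
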