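import Pool.Agent.Helper579_Lis.Iso

/-!
Straightening a pair of strands which are graphs over the height.
-/

set_option autoImplicit false

namespace Liss579

open Knot548 Set Filter Topology

section Phi

variable (r l : ℝ → ℂ) (a c : ℝ)

/-- the clamp to `[a, a + t (c - a)]` -/
noncomputable def cl (t z : ℝ) : ℝ := max a (min z (a + t * (c - a)))

/-- straightening map -/
noncomputable def Phi (t : ℝ) (x : ℂ × ℝ) : ℂ × ℝ :=
  (r a + (r a - l a) / (r (cl a c t x.2) - l (cl a c t x.2)) * (x.1 - r (cl a c t x.2)), x.2)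

/-- inverse of the straightening map -/
noncomputable def Psi (t : ℝ) (x : ℂ × ℝ) : ℂ × ℝ :=
  (r (cl a c t x.2) + (r (cl a c t x.2) - l (cl a c t x.2)) / (r a - l a) * (x.1 - r a), x.2)

variable {r l a c}

theorem cl_mem (hac : a ≤ c) {t : ℝ} (ht : t ∈ Icc (0 : ℝ) 1) (z : ℝ) : cl a c t z ∈ Icc a c := by
  unfold cl
  refine ⟨le_max_left _ _, max_le hac ((min_le_right _ _).trans ?_)⟩
  nlinarith [ht.1, ht.2]

theorem cl_one {z : ℝ} (hz : z ∈ Icc a c) : cl a c 1 z = z := by
  unfold cl
  rw [one_mul, add_sub_cancel, min_eq_left hz.2, max_eq_right hz.1]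

theorem cl_le {t z : ℝ} (hz : z ≤ a) : cl a c t z = a := by
  unfold cl
  exact max_eq_left ((min_le_left _ _).trans hz)

theorem cl_zero (z : ℝ) : cl a c 0 z = a := by
  unfold cl
  rw [zero_mul, add_zero]
  exact max_eq_left (min_le_right _ _)

theorem Psi_Phi (hac : a ≤ c) (hne : ∀ z ∈ Icc a c, r z ≠ l z) {t : ℝ} (ht : t ∈ Icc (0 : ℝ) 1)
    (x : ℂ × ℝ) : Psi r l a c t (Phi r l a c t x) = x := by
  have h1 : r (cl a c t x.2) - l (cl a c t x.2) ≠ 0 := sub_ne_zero.mpr (hne _ (cl_mem hac ht _))
  have h2 : r a - l a ≠ 0 := sub_ne_zero.mpr (hne a ⟨le_refl _, hac⟩)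
  unfold Psi Phi
  ext1
  · simp only
    field_simp
    ring
  · rfl

theorem Phi_Psi (hac : a ≤ c) (hne : ∀ z ∈ Icc a c, r z ≠ l z) {t : ℝ} (ht : t ∈ Icc (0 : ℝ) 1)
    (x : ℂ × ℝ) : Phi r l a c t (Psi r l a c t x) = x := by
  have h1 : r (cl a c t x.2) - l (cl a c t x.2) ≠ 0 := sub_ne_zero.mpr (hne _ (cl_mem hac ht _))
  have h2 : r a - l a ≠ 0 := sub_ne_zero.mpr (hne a ⟨le_refl _, hac⟩)
  unfold Psi Phi
  ext1
  · simp only
    field_simp
    ring
  · rfl

theorem ambIso_Phi (hr : Continuous r) (hl : Continuous l) (hac : a ≤ c)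
    (hne : ∀ z ∈ Icc a c, r z ≠ l z) (A : Set (ℂ × ℝ)) : AmbIso A (Phi r l a c 1 '' A) := by
  have hcl : Continuous (fun q : unitInterval × (ℂ × ℝ) => cl a c q.1 q.2.2) := by
    unfold cl
    fun_prop
  have h1 : ∀ q : unitInterval × (ℂ × ℝ), r (cl a c q.1 q.2.2) - l (cl a c q.1 q.2.2) ≠ 0 :=
    fun q => sub_ne_zero.mpr (hne _ (cl_mem hac q.1.2 _))
  have h2 : r a - l a ≠ 0 := sub_ne_zero.mpr (hne a ⟨le_refl _, hac⟩)
  have := ambIso_of_family' (fun t : unitInterval => Phi r l a c t)
    (fun t : unitInterval => Psi r l a c t) ?_ ?_ ?_ ?_ ?_ A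
  · simpa using this
  · unfold Phi
    refine Continuous.prodMk ?_ (by fun_prop)
    refine continuous_const.add (Continuous.mul ?_ ?_)
    · exact continuous_const.div ((hr.comp hcl).sub (hl.comp hcl)) h1
    · exact (continuous_fst.comp continuous_snd).sub (hr.comp hcl)
  · intro t
    have hcl' : Continuous (fun x : ℂ × ℝ => cl a c (t : ℝ) x.2) := by
      unfold cl
      fun_prop
    unfold Psi
    refine Continuous.prodMk ?_ (by fun_prop)
    refine (hr.comp hcl').add (Continuous.mul ?_ ?_)
    · exact ((hr.comp hcl').sub (hl.comp hcl')).div_const _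
    · exact continuous_fst.sub continuous_const
  · intro t x
    exact Psi_Phi hac hne t.2 x
  · intro t x
    exact Phi_Psi hac hne t.2 x
  · intro x
    unfold Phi
    ext1
    · simp only [Icc.coe_zero, cl_zero]
      rw [div_self h2]
      ring
    · rfl

theorem Phi_le {x : ℂ × ℝ} (hac : a ≤ c) (hne : ∀ z ∈ Icc a c, r z ≠ l z) (hx : x.2 ≤ a) :
    Phi r l a c 1 x = x := by
  have h2 : r a - l a ≠ 0 := sub_ne_zero.mpr (hne a ⟨le_refl _, hac⟩)
  unfold Phi
  rw [cl_le hx, div_self h2]
  ext1
  · simp
  · rfl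

theorem Phi_r {z : ℝ} (hz : z ∈ Icc a c) : Phi r l a c 1 (r z, z) = (r a, z) := by
  unfold Phi
  simp only [cl_one hz, sub_self, mul_zero, add_zero]

theorem Phi_l {z : ℝ} (hne : ∀ z ∈ Icc a c, r z ≠ l z) (hz : z ∈ Icc a c) :
    Phi r l a c 1 (l z, z) = (l a, z) := by
  have h1 : r z - l z ≠ 0 := sub_ne_zero.mpr (hne _ hz)
  unfold Phi
  simp only [cl_one hz]
  ext1
  · simp only
    field_simp
    ring
  · rfl

theorem Phi_seg {z s : ℝ} (hne : ∀ z ∈ Icc a c, r z ≠ l z) (hz : z ∈ Icc a c) :
    Phi r l a c 1 (r z + s * (l z - r z), z) = (r a + s * (l a - r a), z) := by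
  have h1 : r z - l z ≠ 0 := sub_ne_zero.mpr (hne _ hz)
  unfold Phi
  simp only [cl_one hz]
  ext1
  · simp only
    field_simp
    ring
  · rfl

end Phi

/-- the horizontal segment between two points at height `z` -/
def hsegm (u v : ℂ) (z : ℝ) : Set (ℂ × ℝ) := (fun s : ℝ => (u + s * (v - u), z)) '' Icc 0 1

/-- the piece: two strands over `[a, c]` closed at the top -/
def gr (r : ℝ → ℂ) (a c : ℝ) : Set (ℂ × ℝ) := (fun z => (r z, z)) '' Icc a c

theorem Phi_gr_r {r l : ℝ → ℂ} {a c b : ℝ} (hbc : b ≤ c) :
    Phi r l a c 1 '' gr r a b = gr (fun _ => r a) a b := by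
  unfold gr
  rw [image_image]
  apply image_congr
  intro z hz
  exact Phi_r ⟨hz.1, hz.2.trans hbc⟩

theorem Phi_gr_l {r l : ℝ → ℂ} {a c b : ℝ} (hne : ∀ z ∈ Icc a c, r z ≠ l z) (hbc : b ≤ c) :
    Phi r l a c 1 '' gr l a b = gr (fun _ => l a) a b := by
  unfold gr
  rw [image_image]
  apply image_congr
  intro z hz
  exact Phi_l hne ⟨hz.1, hz.2.trans hbc⟩

theorem Phi_hsegm {r l : ℝ → ℂ} {a c b : ℝ} (hne : ∀ z ∈ Icc a c, r z ≠ l z) (hb : b ∈ Icc a c) :
    Phi r l a c 1 '' hsegm (r b) (l b) b = hsegm (r a) (l a) b := by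
  unfold hsegm
  rw [image_image]
  apply image_congr
  intro s _
  exact Phi_seg hne hb

theorem Phi_A {r l : ℝ → ℂ} {a c : ℝ} (hac : a ≤ c) (hne : ∀ z ∈ Icc a c, r z ≠ l z)
    {A : Set (ℂ × ℝ)} (hA : ∀ x ∈ A, x.2 ≤ a) : Phi r l a c 1 '' A = A := by
  ext x
  constructor
  · rintro ⟨y, hy, rfl⟩
    rw [Phi_le hac hne (hA y hy)]
    exact hy
  · intro hx
    exact ⟨x, hx, Phi_le hac hne (hA x hx)⟩

/-- vertical compression -/
theorem ambIso_vert {a b c : ℝ} (hab : a < b) (hbc : b ≤ c) (u v : ℂ) (A : Set (ℂ × ℝ))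
    (hA : ∀ x ∈ A, x.2 ≤ a) :
    AmbIso (A ∪ gr (fun _ => u) a c ∪ gr (fun _ => v) a c ∪ hsegm u v c)
      (A ∪ gr (fun _ => u) a b ∪ gr (fun _ => v) a b ∪ hsegm u v b) := by
  have hac : 0 < c - a := by linarith
  let κ : ℝ → ℝ := fun t => ((1 - t) * (c - a) + t * (b - a)) / (c - a)
  have hκ : ∀ t ∈ Icc (0 : ℝ) 1, 0 < κ t := by
    intro t ht
    simp only [κ]
    apply div_pos _ hac
    nlinarith [ht.1, ht.2]
  have hκ1 : κ 1 = (b - a) / (c - a) := by simp only [κ]; ring
  have hκ0 : κ 0 = 1 := by simp only [κ]; field_simp; ring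
  have key := ambIso_of_family'
    (fun (t : unitInterval) (x : ℂ × ℝ) => (x.1, min x.2 a + κ t * max (x.2 - a) 0))
    (fun (t : unitInterval) (x : ℂ × ℝ) => (x.1, min x.2 a + (κ t)⁻¹ * max (x.2 - a) 0))
    ?_ ?_ ?_ ?_ ?_ (A ∪ gr (fun _ => u) a c ∪ gr (fun _ => v) a c ∪ hsegm u v c)
  · have hcont : ∀ {x : ℂ × ℝ}, x.2 ≤ a →
        ((x.1, min x.2 a + κ ((1 : unitInterval) : ℝ) * max (x.2 - a) 0) : ℂ × ℝ) = x := by
      intro x hx
      rw [min_eq_left hx, max_eq_right (by linarith), mul_zero, add_zero]
    have hcont2 : ∀ {x : ℂ × ℝ}, a ≤ x.2 →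
        ((x.1, min x.2 a + κ ((1 : unitInterval) : ℝ) * max (x.2 - a) 0) : ℂ × ℝ) =
          (x.1, a + (b - a) / (c - a) * (x.2 - a)) := by
      intro x hx
      rw [min_eq_right hx, max_eq_left (by linarith), Icc.coe_one, hκ1]
    have h1 : (fun x : ℂ × ℝ => ((x.1, min x.2 a + κ ((1 : unitInterval) : ℝ) * max (x.2 - a) 0) : ℂ × ℝ)) ''
        (A ∪ gr (fun _ => u) a c ∪ gr (fun _ => v) a c ∪ hsegm u v c) =
        A ∪ gr (fun _ => u) a b ∪ gr (fun _ => v) a b ∪ hsegm u v b := by
      rw [image_union, image_union, image_union]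
      congr 1
      · congr 1
        · congr 1
          · ext x
            constructor
            · rintro ⟨y, hy, rfl⟩
              beta_reduce
              rw [hcont (hA y hy)]
              exact hy
            · intro hx
              exact ⟨x, hx, hcont (hA x hx)⟩
          · unfold gr
            ext x
            constructor
            · rintro ⟨_, ⟨z, hz, rfl⟩, rfl⟩
              refine ⟨a + (b - a) / (c - a) * (z - a), ⟨?_, ?_⟩, ?_⟩
              · have : 0 ≤ (b - a) / (c - a) * (z - a) :=
                  mul_nonneg (div_nonneg (by linarith) hac.le) (by linarith [hz.1])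
                linarith
              · have : (b - a) / (c - a) * (z - a) ≤ (b - a) / (c - a) * (c - a) :=
                  mul_le_mul_of_nonneg_left (by linarith [hz.2]) (div_nonneg (by linarith) hac.le)
                rw [div_mul_cancel₀ _ hac.ne'] at this
                linarith
              · exact (hcont2 (x := (u, z)) hz.1).symm
            · rintro ⟨z, hz, rfl⟩
              have hba : 0 < b - a := by linarith
              refine ⟨(u, a + (c - a) / (b - a) * (z - a)), ⟨_, ⟨?_, ?_⟩, rfl⟩, ?_⟩
              · have : 0 ≤ (c - a) / (b - a) * (z - a) :=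
                  mul_nonneg (div_nonneg (by linarith) hba.le) (by linarith [hz.1])
                linarith
              · have : (c - a) / (b - a) * (z - a) ≤ (c - a) / (b - a) * (b - a) :=
                  mul_le_mul_of_nonneg_left (by linarith [hz.2]) (div_nonneg (by linarith) hba.le)
                rw [div_mul_cancel₀ _ hba.ne'] at this
                linarith
              · have h3 : a ≤ a + (c - a) / (b - a) * (z - a) := by
                  have : 0 ≤ (c - a) / (b - a) * (z - a) :=
                    mul_nonneg (div_nonneg (by linarith) hba.le) (by linarith [hz.1])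
                  linarith
                refine (hcont2 (x := (u, a + (c - a) / (b - a) * (z - a))) h3).trans ?_
                ext1
                · rfl
                · simp only
                  field_simp
                  ring
        · unfold gr
          ext x
          constructor
          · rintro ⟨_, ⟨z, hz, rfl⟩, rfl⟩
            refine ⟨a + (b - a) / (c - a) * (z - a), ⟨?_, ?_⟩, ?_⟩
            · have : 0 ≤ (b - a) / (c - a) * (z - a) :=
                mul_nonneg (div_nonneg (by linarith) hac.le) (by linarith [hz.1])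
              linarith
            · have : (b - a) / (c - a) * (z - a) ≤ (b - a) / (c - a) * (c - a) :=
                mul_le_mul_of_nonneg_left (by linarith [hz.2]) (div_nonneg (by linarith) hac.le)
              rw [div_mul_cancel₀ _ hac.ne'] at this
              linarith
            · exact (hcont2 (x := (v, z)) hz.1).symm
          · rintro ⟨z, hz, rfl⟩
            have hba : 0 < b - a := by linarith
            refine ⟨(v, a + (c - a) / (b - a) * (z - a)), ⟨_, ⟨?_, ?_⟩, rfl⟩, ?_⟩
            · have : 0 ≤ (c - a) / (b - a) * (z - a) :=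
                mul_nonneg (div_nonneg (by linarith) hba.le) (by linarith [hz.1])
              linarith
            · have : (c - a) / (b - a) * (z - a) ≤ (c - a) / (b - a) * (b - a) :=
                mul_le_mul_of_nonneg_left (by linarith [hz.2]) (div_nonneg (by linarith) hba.le)
              rw [div_mul_cancel₀ _ hba.ne'] at this
              linarith
            · have h3 : a ≤ a + (c - a) / (b - a) * (z - a) := by
                have : 0 ≤ (c - a) / (b - a) * (z - a) :=
                  mul_nonneg (div_nonneg (by linarith) hba.le) (by linarith [hz.1])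
                linarith
              refine (hcont2 (x := (v, a + (c - a) / (b - a) * (z - a))) h3).trans ?_
              ext1
              · rfl
              · simp only
                field_simp
                ring
      · unfold hsegm
        rw [image_image]
        apply image_congr
        intro s _
        have h3 : a ≤ c := by linarith
        refine (hcont2 (x := (u + s * (v - u), c)) h3).trans ?_
        ext1
        · rfl
        · simp only
          field_simp
          ring
    rw [h1] at key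
    exact key
  · simp only [κ]
    fun_prop
  · intro t
    fun_prop
  · intro t x
    have hk := hκ t t.2
    ext1
    · rfl
    · simp only
      rcases le_total x.2 a with h | h
      · rw [min_eq_left h, max_eq_right (by linarith), mul_zero, add_zero, min_eq_left h,
          max_eq_right (by linarith), mul_zero, add_zero]
      · have h4 : 0 ≤ κ t * (x.2 - a) := mul_nonneg hk.le (by linarith)
        rw [min_eq_right h, max_eq_left (by linarith : (0 : ℝ) ≤ x.2 - a),
          min_eq_right (by linarith), add_sub_cancel_left, max_eq_left h4]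
        field_simp
        ring
  · intro t x
    have hk := hκ t t.2
    ext1
    · rfl
    · simp only
      rcases le_total x.2 a with h | h
      · rw [min_eq_left h, max_eq_right (by linarith), mul_zero, add_zero, min_eq_left h,
          max_eq_right (by linarith), mul_zero, add_zero]
      · have h4 : 0 ≤ (κ t)⁻¹ * (x.2 - a) := mul_nonneg (inv_nonneg.mpr hk.le) (by linarith)
        rw [min_eq_right h, max_eq_left (by linarith : (0 : ℝ) ≤ x.2 - a),
          min_eq_right (by linarith), add_sub_cancel_left, max_eq_left h4]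
        field_simp
        ring
  · intro x
    ext1
    · rfl
    · simp only [Icc.coe_zero, hκ0]
      rcases le_total x.2 a with h | h
      · rw [min_eq_left h, max_eq_right (by linarith)]
        ring
      · rw [min_eq_right h, max_eq_left (by linarith)]
        ring

/-- shrinking from the top a pair of strands which are graphs over the height -/
theorem ambIso_shrink {r l : ℝ → ℂ} (hr : Continuous r) (hl : Continuous l) {a b c : ℝ}
    (hab : a < b) (hbc : b ≤ c) (hne : ∀ z ∈ Icc a c, r z ≠ l z) (A : Set (ℂ × ℝ))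
    (hA : ∀ x ∈ A, x.2 ≤ a) :
    AmbIso (A ∪ gr r a c ∪ gr l a c ∪ hsegm (r c) (l c) c)
      (A ∪ gr r a b ∪ gr l a b ∪ hsegm (r b) (l b) b) := by
  have hac : a ≤ c := by linarith
  have h1 := ambIso_Phi hr hl hac hne (A ∪ gr r a c ∪ gr l a c ∪ hsegm (r c) (l c) c)
  have h2 := ambIso_Phi hr hl hac hne (A ∪ gr r a b ∪ gr l a b ∪ hsegm (r b) (l b) b)
  rw [image_union, image_union, image_union, Phi_A hac hne hA, Phi_gr_r le_rfl,
    Phi_gr_l hne le_rfl, Phi_hsegm hne ⟨hac, le_rfl⟩] at h1
  rw [image_union, image_union, image_union, Phi_A hac hne hA, Phi_gr_r hbc,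
    Phi_gr_l hne hbc, Phi_hsegm hne ⟨hab.le, hbc⟩] at h2
  exact (h1.trans (ambIso_vert hab hbc (r a) (l a) A hA)).trans h2.symm

/-- a pair of strands which are graphs over the height, closed at both ends -/
theorem ambIso_rect {r l : ℝ → ℂ} (hr : Continuous r) (hl : Continuous l) {a c : ℝ}
    (hac : a ≤ c) (hne : ∀ z ∈ Icc a c, r z ≠ l z) :
    AmbIso (hsegm (r a) (l a) a ∪ gr r a c ∪ gr l a c ∪ hsegm (r c) (l c) c)
      (hsegm (r a) (l a) a ∪ gr (fun _ => r a) a c ∪ gr (fun _ => l a) a c ∪ hsegm (r a) (l a) c) := by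
  have h1 := ambIso_Phi hr hl hac hne
    (hsegm (r a) (l a) a ∪ gr r a c ∪ gr l a c ∪ hsegm (r c) (l c) c)
  have hA : ∀ x ∈ hsegm (r a) (l a) a, x.2 ≤ a := by
    rintro _ ⟨s, _, rfl⟩
    exact le_rfl
  rw [image_union, image_union, image_union, Phi_A hac hne hA, Phi_gr_r le_rfl,
    Phi_gr_l hne le_rfl, Phi_hsegm hne ⟨hac, le_rfl⟩] at h1
  exact h1

end Liss579
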