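import Pool.Agent.Helper579_Lis.Tref4

/-!
The standard two-strand curve is isotopic to the mirror image of the parametrised trefoil.
-/

set_option autoImplicit false

namespace Liss579

open Knot548 Set Real Filter Topology

theorem zt1 {v : ℝ} (h1 : -1 ≤ v) (h2 : v ≤ -(3 / 4)) : zst true v = 17 / 2 + 21 / 2 * v := by
  unfold zst
  rw [if_pos rfl, Gf_lo ⟨h1, h2⟩, Ef_hi (by rw [abs_of_nonpos (by linarith)]; constructor <;> linarith),
    abs_of_nonpos (by linarith)]
  ring

theorem zt2 {v : ℝ} (h1 : -(3 / 4) ≤ v) (h2 : v ≤ -(1 / 4)) : zst true v = -(7 / 2) * v - 2 := by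
  unfold zst
  rw [if_pos rfl, Gf_mid ⟨h1, by linarith⟩,
    Ef_mid (by rw [abs_of_nonpos (by linarith)]; constructor <;> linarith), abs_of_nonpos (by linarith)]
  ring

theorem zt3 {v : ℝ} (h1 : -(1 / 4) ≤ v) (h2 : v ≤ 1 / 4) : zst true v = v / 2 - 1 := by
  unfold zst
  rw [if_pos rfl, Gf_mid ⟨by linarith, by linarith⟩, Ef_in (abs_le.mpr ⟨h1, h2⟩)]
  ring

theorem zt4 {v : ℝ} (h1 : 1 / 4 ≤ v) (h2 : v ≤ 3 / 4) : zst true v = 9 / 2 * v - 2 := by
  unfold zst
  rw [if_pos rfl, Gf_mid ⟨by linarith, h2⟩,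
    Ef_mid (by rw [abs_of_nonneg (by linarith)]; constructor <;> linarith), abs_of_nonneg (by linarith)]
  ring

theorem zt5 {v : ℝ} (h1 : 3 / 4 ≤ v) (h2 : v ≤ 1) : zst true v = -(1 / 2) + 5 / 2 * v := by
  unfold zst
  rw [if_pos rfl, Gf_hi ⟨h1, h2⟩, Ef_hi (by rw [abs_of_nonneg (by linarith)]; constructor <;> linarith),
    abs_of_nonneg (by linarith)]
  ring

theorem zf (v : ℝ) : zst false v = -zst true (-v) := by
  rw [zst_neg, Bool.not_true, neg_neg]

theorem piece {f : ℝ → R3} {a c : ℝ} (hac : a < c) (P Q : R3)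
    (h : ∀ v ∈ Icc a c, f v = ((c - v) / (c - a)) • P + ((v - a) / (c - a)) • Q) :
    f '' Icc a c = segment ℝ P Q := by
  have h0 : 0 < c - a := by linarith
  rw [segment_eq_image]
  ext x
  constructor
  · rintro ⟨v, hv, rfl⟩
    refine ⟨(v - a) / (c - a), ⟨div_nonneg (by linarith [hv.1]) h0.le, ?_⟩, ?_⟩
    · rw [div_le_one h0]; linarith [hv.2]
    · rw [h v hv]
      congr 2
      field_simp
      ring
  · rintro ⟨s, hs, rfl⟩
    have hv : a + s * (c - a) ∈ Icc a c := by
      constructor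
      · nlinarith [hs.1]
      · nlinarith [hs.2]
    refine ⟨a + s * (c - a), hv, ?_⟩
    rw [h _ hv]
    congr 2
    · field_simp
      ring
    · field_simp
      ring

/-- scaled strands -/
noncomputable def Ds (b : Bool) (v : ℝ) : R3 := ![16 * |v|, 16 * yst b v, 32 * zst b v]

theorem pc_true_0 : Ds true '' Icc (-1) (-(3 / 4)) = segment ℝ (rv (q0 1)) (rv (q0 2)) := by
  apply piece (by norm_num)
  intro v hv
  change _ = _ • rv ![16, -64, -64] + _ • rv ![12, -36, 20]
  rw [rv_vec, rv_vec]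
  unfold Ds yst
  have ha : |v| = -v := abs_of_nonpos (by linarith [hv.2])
  rw [ha]
  rw [zt1 (by linarith [hv.1]) (by linarith [hv.2])]
  ext i
  fin_cases i
  · simp; ring
  · simp; ring
  · simp; ring

theorem pc_true_1 : Ds true '' Icc (-(3 / 4)) (-(1 / 4)) = segment ℝ (rv (q0 2)) (rv (q0 3)) := by
  apply piece (by norm_num)
  intro v hv
  change _ = _ • rv ![12, -36, 20] + _ • rv ![4, 20, -36]
  rw [rv_vec, rv_vec]
  unfold Ds yst
  have ha : |v| = -v := abs_of_nonpos (by linarith [hv.2])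
  rw [ha]
  rw [zt2 (by linarith [hv.1]) (by linarith [hv.2])]
  ext i
  fin_cases i
  · simp; ring
  · simp; ring
  · simp; ring

theorem pc_true_2 : Ds true '' Icc (-(1 / 4)) 0 = segment ℝ (rv (q0 3)) (rv (q0 4)) := by
  apply piece (by norm_num)
  intro v hv
  change _ = _ • rv ![4, 20, -36] + _ • rv ![0, 48, -32]
  rw [rv_vec, rv_vec]
  unfold Ds yst
  have ha : |v| = -v := abs_of_nonpos (by linarith [hv.2])
  rw [ha]
  rw [zt3 (by linarith [hv.1]) (by linarith [hv.2])]
  ext i
  fin_cases i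
  · simp; ring
  · simp; ring
  · simp; ring

theorem pc_true_3 : Ds true '' Icc 0 (1 / 4) = segment ℝ (rv (q0 4)) (rv (q0 5)) := by
  apply piece (by norm_num)
  intro v hv
  change _ = _ • rv ![0, 48, -32] + _ • rv ![4, 44, -28]
  rw [rv_vec, rv_vec]
  unfold Ds yst
  have ha : |v| = v := abs_of_nonneg (by linarith [hv.1])
  rw [ha]
  rw [zt3 (by linarith [hv.1]) (by linarith [hv.2])]
  ext i
  fin_cases i
  · simp; ring
  · simp; ring
  · simp; ring

theorem pc_true_4 : Ds true '' Icc (1 / 4) (3 / 4) = segment ℝ (rv (q0 5)) (rv (q0 6)) := by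
  apply piece (by norm_num)
  intro v hv
  change _ = _ • rv ![4, 44, -28] + _ • rv ![12, 36, 44]
  rw [rv_vec, rv_vec]
  unfold Ds yst
  have ha : |v| = v := abs_of_nonneg (by linarith [hv.1])
  rw [ha]
  rw [zt4 (by linarith [hv.1]) (by linarith [hv.2])]
  ext i
  fin_cases i
  · simp; ring
  · simp; ring
  · simp; ring

theorem pc_true_5 : Ds true '' Icc (3 / 4) 1 = segment ℝ (rv (q0 6)) (rv (q0 7)) := by
  apply piece (by norm_num)
  intro v hv
  change _ = _ • rv ![12, 36, 44] + _ • rv ![16, 32, 64]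
  rw [rv_vec, rv_vec]
  unfold Ds yst
  have ha : |v| = v := abs_of_nonneg (by linarith [hv.1])
  rw [ha]
  rw [zt5 (by linarith [hv.1]) (by linarith [hv.2])]
  ext i
  fin_cases i
  · simp; ring
  · simp; ring
  · simp; ring

theorem pc_false_0 : Ds false '' Icc (-1) (-(3 / 4)) = segment ℝ (rv (q0 15)) (rv (q0 14)) := by
  apply piece (by norm_num)
  intro v hv
  change _ = _ • rv ![16, 64, -64] + _ • rv ![12, 36, -44]
  rw [rv_vec, rv_vec]
  unfold Ds yst
  have ha : |v| = -v := abs_of_nonpos (by linarith [hv.2])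
  rw [ha]
  rw [zf, zt5 (by linarith [hv.2]) (by linarith [hv.1])]
  ext i
  fin_cases i
  · simp; ring
  · simp; ring
  · simp; ring

theorem pc_false_1 : Ds false '' Icc (-(3 / 4)) (-(1 / 4)) = segment ℝ (rv (q0 14)) (rv (q0 13)) := by
  apply piece (by norm_num)
  intro v hv
  change _ = _ • rv ![12, 36, -44] + _ • rv ![4, -20, 28]
  rw [rv_vec, rv_vec]
  unfold Ds yst
  have ha : |v| = -v := abs_of_nonpos (by linarith [hv.2])
  rw [ha]
  rw [zf, zt4 (by linarith [hv.2]) (by linarith [hv.1])]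
  ext i
  fin_cases i
  · simp; ring
  · simp; ring
  · simp; ring

theorem pc_false_2 : Ds false '' Icc (-(1 / 4)) 0 = segment ℝ (rv (q0 13)) (rv (q0 12)) := by
  apply piece (by norm_num)
  intro v hv
  change _ = _ • rv ![4, -20, 28] + _ • rv ![0, -48, 32]
  rw [rv_vec, rv_vec]
  unfold Ds yst
  have ha : |v| = -v := abs_of_nonpos (by linarith [hv.2])
  rw [ha]
  rw [zf, zt3 (by linarith [hv.2]) (by linarith [hv.1])]
  ext i
  fin_cases i
  · simp; ring
  · simp; ring
  · simp; ring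

theorem pc_false_3 : Ds false '' Icc 0 (1 / 4) = segment ℝ (rv (q0 12)) (rv (q0 11)) := by
  apply piece (by norm_num)
  intro v hv
  change _ = _ • rv ![0, -48, 32] + _ • rv ![4, -44, 36]
  rw [rv_vec, rv_vec]
  unfold Ds yst
  have ha : |v| = v := abs_of_nonneg (by linarith [hv.1])
  rw [ha]
  rw [zf, zt3 (by linarith [hv.2]) (by linarith [hv.1])]
  ext i
  fin_cases i
  · simp; ring
  · simp; ring
  · simp; ring

theorem pc_false_4 : Ds false '' Icc (1 / 4) (3 / 4) = segment ℝ (rv (q0 11)) (rv (q0 10)) := by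
  apply piece (by norm_num)
  intro v hv
  change _ = _ • rv ![4, -44, 36] + _ • rv ![12, -36, -20]
  rw [rv_vec, rv_vec]
  unfold Ds yst
  have ha : |v| = v := abs_of_nonneg (by linarith [hv.1])
  rw [ha]
  rw [zf, zt2 (by linarith [hv.2]) (by linarith [hv.1])]
  ext i
  fin_cases i
  · simp; ring
  · simp; ring
  · simp; ring

theorem pc_false_5 : Ds false '' Icc (3 / 4) 1 = segment ℝ (rv (q0 10)) (rv (q0 9)) := by
  apply piece (by norm_num)
  intro v hv
  change _ = _ • rv ![12, -36, -20] + _ • rv ![16, -32, 64]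
  rw [rv_vec, rv_vec]
  unfold Ds yst
  have ha : |v| = v := abs_of_nonneg (by linarith [hv.1])
  rw [ha]
  rw [zf, zt1 (by linarith [hv.2]) (by linarith [hv.1])]
  ext i
  fin_cases i
  · simp; ring
  · simp; ring
  · simp; ring

theorem Icc_six : Icc (-1 : ℝ) 1 = Icc (-1) (-(3 / 4)) ∪ (Icc (-(3 / 4)) (-(1 / 4)) ∪ (Icc (-(1 / 4)) 0 ∪
    (Icc 0 (1 / 4) ∪ (Icc (1 / 4) (3 / 4) ∪ Icc (3 / 4) 1)))) := by
  rw [Icc_union_Icc_eq_Icc (by norm_num) (by norm_num), Icc_union_Icc_eq_Icc (by norm_num) (by norm_num),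
    Icc_union_Icc_eq_Icc (by norm_num) (by norm_num), Icc_union_Icc_eq_Icc (by norm_num) (by norm_num),
    Icc_union_Icc_eq_Icc (by norm_num) (by norm_num)]

theorem std_poly : (fun x : R3 => (![16 * x 0, 16 * x 1, 32 * x 2] : R3)) '' plat yst zst =
    polySet (List.ofFn (fun i => rv (q0 i))) := by
  have hseg : ∀ a b : R3, (fun x : R3 => (![16 * x 0, 16 * x 1, 32 * x 2] : R3)) '' segment ℝ a b =
      segment ℝ (![16 * a 0, 16 * a 1, 32 * a 2] : R3) (![16 * b 0, 16 * b 1, 32 * b 2] : R3) := by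
    intro a b
    rw [segment_eq_image', segment_eq_image', image_image]
    apply image_congr
    intro t _
    ext i
    fin_cases i
    · simp; ring
    · simp; ring
    · simp; ring
  have himg : ∀ b, (fun x : R3 => (![16 * x 0, 16 * x 1, 32 * x 2] : R3)) '' (sp (yst b) (zst b) '' Icc (-1) 1) =
      Ds b '' Icc (-1) 1 := by
    intro b
    rw [image_image]
    apply image_congr
    intro v _
    unfold sp Ds
    ext i
    fin_cases i <;> simp
  have hv : ∀ b v, (![16 * sp (yst b) (zst b) v 0, 16 * sp (yst b) (zst b) v 1, 32 * sp (yst b) (zst b) v 2] : R3) =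
      Ds b v := by
    intro b v
    unfold sp Ds
    ext i
    fin_cases i <;> simp
  have v1 : Ds true 1 = rv (q0 7) := by
    change _ = rv ![16, 32, 64]
    rw [rv_vec]
    unfold Ds yst
    rw [zst_right _ le_rfl, abs_one]
    norm_num
  have v2 : Ds false 1 = rv (q0 9) := by
    change _ = rv ![16, -32, 64]
    rw [rv_vec]
    unfold Ds yst
    rw [zst_right _ le_rfl, abs_one]
    norm_num
  have v3 : Ds true (-1) = rv (q0 1) := by
    change _ = rv ![16, -64, -64]
    rw [rv_vec]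
    unfold Ds yst
    rw [zst_left _ le_rfl, abs_neg, abs_one]
    norm_num
  have v4 : Ds false (-1) = rv (q0 15) := by
    change _ = rv ![16, 64, -64]
    rw [rv_vec]
    unfold Ds yst
    rw [zst_left _ le_rfl, abs_neg, abs_one]
    norm_num
  have s1 : segment ℝ (rv (q0 7)) (rv (q0 9)) = segment ℝ (rv (q0 7)) (rv (q0 8)) ∪
      segment ℝ (rv (q0 8)) (rv (q0 9)) := by
    apply seg_split
    intro i
    change rv ![16, 0, 64] i = (rv ![16, 32, 64] i + rv ![16, -32, 64] i) / 2
    rw [rv_vec, rv_vec, rv_vec]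
    fin_cases i <;> norm_num
  have s2 : segment ℝ (rv (q0 1)) (rv (q0 15)) = segment ℝ (rv (q0 1)) (rv (q0 0)) ∪
      segment ℝ (rv (q0 0)) (rv (q0 15)) := by
    apply seg_split
    intro i
    change rv ![16, 0, -64] i = (rv ![16, -64, -64] i + rv ![16, 64, -64] i) / 2
    rw [rv_vec, rv_vec, rv_vec]
    fin_cases i <;> norm_num
  have key : ∀ (i : Fin 16), segment ℝ (rv (q0 i)) (rv (q0 (i + 1))) ⊆
      ⋃ k : Fin 16, segment ℝ (rv (q0 k)) (rv (q0 (k + 1))) :=
    fun i => subset_iUnion (fun k : Fin 16 => segment ℝ (rv (q0 k)) (rv (q0 (k + 1)))) i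
  have key' : ∀ (i : Fin 16), segment ℝ (rv (q0 (i + 1))) (rv (q0 i)) ⊆
      ⋃ k : Fin 16, segment ℝ (rv (q0 k)) (rv (q0 (k + 1))) := by
    intro i; rw [segment_symm]; exact key i
  unfold plat
  rw [image_union, image_union, image_union, hseg, hseg, himg, himg, hv, hv, hv, hv, v1, v2, v3, v4,
    Icc_six, image_union, image_union, image_union, image_union, image_union, image_union, image_union,
    image_union, image_union, image_union, pc_true_0, pc_true_1, pc_true_2, pc_true_3, pc_true_4,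
    pc_true_5, pc_false_0, pc_false_1, pc_false_2, pc_false_3, pc_false_4, pc_false_5, s1, s2,
    polySet_iUnion]
  apply Subset.antisymm
  · refine union_subset (union_subset ?_ ?_) (union_subset ?_ ?_)
    · exact union_subset (key 1) (union_subset (key 2) (union_subset (key 3) (union_subset (key 4)
        (union_subset (key 5) (key 6)))))
    · exact union_subset (key' 14) (union_subset (key' 13) (union_subset (key' 12) (union_subset (key' 11)
        (union_subset (key' 10) (key' 9)))))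
    · exact union_subset (key 7) (key 8)
    · exact union_subset (key' 0) (key' 15)
  · apply iUnion_subset
    intro j x hx
    fin_cases j
    · change x ∈ segment ℝ (rv (q0 0)) (rv (q0 1)) at hx
      exact Or.inr (Or.inr (Or.inl ((segment_symm ℝ _ _).subset hx)))
    · change x ∈ segment ℝ (rv (q0 1)) (rv (q0 2)) at hx
      exact Or.inl (Or.inl (Or.inl hx))
    · change x ∈ segment ℝ (rv (q0 2)) (rv (q0 3)) at hx
      exact Or.inl (Or.inl (Or.inr (Or.inl hx)))
    · change x ∈ segment ℝ (rv (q0 3)) (rv (q0 4)) at hx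
      exact Or.inl (Or.inl (Or.inr (Or.inr (Or.inl hx))))
    · change x ∈ segment ℝ (rv (q0 4)) (rv (q0 5)) at hx
      exact Or.inl (Or.inl (Or.inr (Or.inr (Or.inr (Or.inl hx)))))
    · change x ∈ segment ℝ (rv (q0 5)) (rv (q0 6)) at hx
      exact Or.inl (Or.inl (Or.inr (Or.inr (Or.inr (Or.inr (Or.inl hx))))))
    · change x ∈ segment ℝ (rv (q0 6)) (rv (q0 7)) at hx
      exact Or.inl (Or.inl (Or.inr (Or.inr (Or.inr (Or.inr (Or.inr (hx)))))))
    · change x ∈ segment ℝ (rv (q0 7)) (rv (q0 8)) at hx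
      exact Or.inr (Or.inl (Or.inl hx))
    · change x ∈ segment ℝ (rv (q0 8)) (rv (q0 9)) at hx
      exact Or.inr (Or.inl (Or.inr hx))
    · change x ∈ segment ℝ (rv (q0 9)) (rv (q0 10)) at hx
      exact Or.inl (Or.inr (Or.inr (Or.inr (Or.inr (Or.inr (Or.inr (((segment_symm ℝ _ _).subset hx))))))))
    · change x ∈ segment ℝ (rv (q0 10)) (rv (q0 11)) at hx
      exact Or.inl (Or.inr (Or.inr (Or.inr (Or.inr (Or.inr (Or.inl ((segment_symm ℝ _ _).subset hx)))))))
    · change x ∈ segment ℝ (rv (q0 11)) (rv (q0 12)) at hx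
      exact Or.inl (Or.inr (Or.inr (Or.inr (Or.inr (Or.inl ((segment_symm ℝ _ _).subset hx))))))
    · change x ∈ segment ℝ (rv (q0 12)) (rv (q0 13)) at hx
      exact Or.inl (Or.inr (Or.inr (Or.inr (Or.inl ((segment_symm ℝ _ _).subset hx)))))
    · change x ∈ segment ℝ (rv (q0 13)) (rv (q0 14)) at hx
      exact Or.inl (Or.inr (Or.inr (Or.inl ((segment_symm ℝ _ _).subset hx))))
    · change x ∈ segment ℝ (rv (q0 14)) (rv (q0 15)) at hx
      exact Or.inl (Or.inr (Or.inl ((segment_symm ℝ _ _).subset hx)))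
    · change x ∈ segment ℝ (rv (q0 15)) (rv (q0 0)) at hx
      exact Or.inr (Or.inr (Or.inr ((segment_symm ℝ _ _).subset hx)))

/-- the standard curve is the mirror image of the parametrised trefoil -/
theorem std_iso : AmbIso (plat yst zst) (refz '' Tset) := by
  have h := ambIso_scale (a := 16) (b := 16) (c := 32) (by norm_num) (by norm_num) (by norm_num)
    (plat yst zst)
  rw [std_poly] at h
  exact (h.trans poly_iso).trans q4_iso

end Liss579
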