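import Pool.Agent.Helper579_Lis.Window
import Pool.Agent.Helper579_Lis.Tref5

/-!
The layered curve is a connected sum of trefoils.
-/

set_option autoImplicit false

namespace Liss579

open Knot548 Set Real Filter Topology

/-- `K` is a connected sum of `K₁` and `K₂` -/
def IsSum (K K₁ K₂ : Set R3) : Prop :=
  ∃ (J : Set R3) (c : ℝ) (a b : R3), AmbIso K J ∧ a ≠ b ∧ {x ∈ J | x 2 = c} = {a, b} ∧
    AmbIso K₁ ({x ∈ J | x 2 ≤ c} ∪ segment ℝ a b) ∧ AmbIso K₂ ({x ∈ J | c ≤ x 2} ∪ segment ℝ a b)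

/-- `K` is a connected sum of `a` copies of the trefoil and `b` copies of its mirror image -/
inductive TSum : ℕ → ℕ → Set R3 → Prop
  | triv (K : Set R3) : AmbIso K square → TSum 0 0 K
  | left (a b : ℕ) (K J : Set R3) : TSum a b J → IsSum K Tset J → TSum (a + 1) b K
  | right (a b : ℕ) (K J : Set R3) : TSum a b J → IsSum K (refz '' Tset) J → TSum a (b + 1) K

theorem IsSum.congr {K K' K₁ K₂ : Set R3} (h : IsSum K K₁ K₂) (h1 : AmbIso K' K) : IsSum K' K₁ K₂ := by
  obtain ⟨J, c, a, b, e1, e2, e3, e4, e5⟩ := h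
  exact ⟨J, c, a, b, h1.trans e1, e2, e3, e4, e5⟩

theorem TSum.congr {a b : ℕ} {K K' : Set R3} (h : TSum a b K) (h1 : AmbIso K' K) : TSum a b K' := by
  cases h with
  | triv _ e => exact TSum.triv _ (h1.trans e)
  | left a b _ J e1 e2 => exact TSum.left a b _ J e1 (e2.congr h1)
  | right a b _ J e1 e2 => exact TSum.right a b _ J e1 (e2.congr h1)

theorem refy_square : refy '' square = square := by
  have h : ∀ x : R3, x ∈ square → refy x ∈ square := by
    rintro x ⟨h1, h2⟩
    unfold square refy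
    simp [h1, h2]
  apply Subset.antisymm
  · rintro _ ⟨x, hx, rfl⟩
    exact h x hx
  · intro x hx
    exact ⟨refy x, h x hx, refy_refy x⟩

theorem refy_sep (J : Set R3) (P : ℝ → Prop) : refy '' {x ∈ J | P (x 2)} = {x ∈ refy '' J | P (x 2)} := by
  have h2 : ∀ x : R3, refy x 2 = x 2 := by intro x; simp [refy]
  ext x
  constructor
  · rintro ⟨y, ⟨hy, hP⟩, rfl⟩
    exact ⟨⟨y, hy, rfl⟩, by rw [h2]; exact hP⟩
  · rintro ⟨⟨y, hy, rfl⟩, hP⟩
    rw [h2] at hP
    exact ⟨y, ⟨hy, hP⟩, rfl⟩

theorem refy_inj : Function.Injective refy := refyH.injective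

theorem IsSum.refy {K K₁ K₂ : Set R3} (h : IsSum K K₁ K₂) :
    IsSum (refy '' K) (Liss579.refy '' K₁) (Liss579.refy '' K₂) := by
  obtain ⟨J, c, a, b, e1, e2, e3, e4, e5⟩ := h
  refine ⟨Liss579.refy '' J, c, Liss579.refy a, Liss579.refy b, ambIso_refy e1,
    fun h => e2 (refy_inj h), ?_, ?_, ?_⟩
  · rw [← refy_sep J (fun z => z = c), e3, image_insert_eq, image_singleton]
  · have := ambIso_refy e4
    rwa [image_union, refy_segment, refy_sep J (fun z => z ≤ c)] at this
  · have := ambIso_refy e5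
    rwa [image_union, refy_segment, refy_sep J (fun z => c ≤ z)] at this

theorem IsSum.congr₁ {K K₁ K₁' K₂ : Set R3} (h : IsSum K K₁ K₂) (h1 : AmbIso K₁' K₁) :
    IsSum K K₁' K₂ := by
  obtain ⟨J, c, a, b, e1, e2, e3, e4, e5⟩ := h
  exact ⟨J, c, a, b, e1, e2, e3, h1.trans e4, e5⟩

/-- mirror images of sums of trefoils -/
theorem TSum.mirror {a b : ℕ} {K : Set R3} (h : TSum a b K) : TSum b a (Liss579.refy '' K) := by
  induction h with
  | triv K e =>
    apply TSum.triv
    have := ambIso_refy e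
    rwa [refy_square] at this
  | left a b K J _ e2 ih =>
    apply TSum.right b a _ _ ih
    exact e2.refy.congr₁ (refy_refz_iso _)
  | right a b K J _ e2 ih =>
    apply TSum.left b a _ _ ih
    apply e2.refy.congr₁
    have := refy_refz_iso (refz '' Tset)
    rwa [refz_image_image] at this

namespace Par

variable (A : Par)

/-- the windows with a mirrored trefoil -/
def tpos (k : ℕ) : Prop :=
  ∃ j : ℤ, |(k : ℤ) * A.q - j * A.p| ≤ A.r ∧ (0 < (k : ℤ) * A.q - j * A.p ↔ Even (k + j))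

theorem kq_ne {k : ℕ} (hk0 : k ≠ 0) (hk : k < A.p) (j : ℤ) : (k : ℤ) * A.q - j * A.p ≠ 0 := by
  intro h
  have hb : (A.p : ℤ) * A.d = A.q * A.c + 1 := by exact_mod_cast A.hbez
  have h1 : (k : ℤ) = A.p * (k * A.d - j * A.c) := by
    linear_combination (k : ℤ) * (-hb) - A.c * h
  have h2 : (A.p : ℤ) ∣ k := ⟨_, h1⟩
  have h3 : A.p ∣ k := by exact_mod_cast h2
  have h4 := Nat.le_of_dvd (Nat.pos_of_ne_zero hk0) h3
  omega

open Classical in
/-- number of left trefoils above the window `m` -/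
noncomputable def nneg (m : ℕ) : ℕ := ((Finset.Ioo m A.p).filter (fun k => A.tref k ∧ ¬ A.tpos k)).card

open Classical in
/-- number of mirrored trefoils above the window `m` -/
noncomputable def npos (m : ℕ) : ℕ := ((Finset.Ioo m A.p).filter (fun k => A.tpos k)).card

theorem tref_of_tpos {k : ℕ} (h : A.tpos k) : A.tref k := by
  obtain ⟨j, hj, _⟩ := h
  exact ⟨j, hj⟩

theorem Ioo_step {k : ℕ} (hk0 : k ≠ 0) (hk : k < A.p) :
    Finset.Ioo (k - 1) A.p = insert k (Finset.Ioo k A.p) := by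
  ext x
  simp only [Finset.mem_Ioo, Finset.mem_insert]
  omega

theorem win_pos {k : ℕ} (hk0 : k ≠ 0) (hk : k < A.p) (h : A.tpos k) :
    AmbIso (A.pc (k / A.p - A.w) (k / A.p + A.w)) (refz '' Tset) := by
  obtain ⟨j, hj, hs⟩ := h
  exact ((A.window_iso hk0 hk j hj (A.kq_ne hk0 hk j)).1 hs).trans std_iso

theorem win_neg {k : ℕ} (hk0 : k ≠ 0) (hk : k < A.p) (h : A.tref k) (h' : ¬ A.tpos k) :
    AmbIso (A.pc (k / A.p - A.w) (k / A.p + A.w)) Tset := by
  obtain ⟨j, hj⟩ := h
  have hs : (0 < (k : ℤ) * A.q - j * A.p ↔ ¬ Even (k + j)) := by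
    by_contra hc
    exact h' ⟨j, hj, by tauto⟩
  have h1 := ((A.window_iso hk0 hk j hj (A.kq_ne hk0 hk j)).2 hs).trans (ambIso_refz std_iso)
  rwa [refz_image_image] at h1

theorem tref_sum {k : ℕ} (hk0 : k ≠ 0) (hk : k < A.p) (ht : A.tref k) :
    IsSum (A.pc (A.cut (k - 1)) (1 - A.h0)) (A.pc (k / A.p - A.w) (k / A.p + A.w))
      (A.pc (A.cut k) (1 - A.h0)) := by
  have hp := A.p0
  have hw := A.w_lt_p
  have hw0 := A.w_pos
  have h0w := A.h0_lt_w
  have key := A.cut_succ_le hk
  have hlt1 : A.cut (k - 1) < A.cut k := by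
    unfold cut
    have : ((k - 1 : ℕ) : ℝ) < k := by exact_mod_cast (by omega : k - 1 < k)
    have : ((k - 1 : ℕ) : ℝ) / A.p < k / A.p := by gcongr
    linarith
  have hlt2 : A.cut k < 1 - A.h0 := by
    unfold cut
    rw [add_div] at key
    linarith
  have hlo : A.ζ true (A.cut (k - 1)) = A.ζ false (A.cut (k - 1)) := by
    have e1 : A.ζ true (A.cut (k - 1)) = _ := A.ζ_wright (k := k - 1) (by omega) true
    have e2 : A.ζ false (A.cut (k - 1)) = _ := A.ζ_wright (k := k - 1) (by omega) false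
    rw [e1, e2]
  have hne : A.st true (A.cut k) ≠ A.st false (A.cut k) := by
    have := A.h0_pos
    exact A.st_ne ⟨A.cut_pos k, by linarith⟩ ⟨A.cut_pos k, by linarith⟩
  refine ⟨A.pc (A.cut (k - 1)) (1 - A.h0), 5 * k + 2, A.st true (A.cut k), A.st false (A.cut k),
    AmbIso.refl _, hne, A.pc_plane hk0 hk ht hlt1 hlt2 hlo, ?_, ?_⟩
  · rw [A.pc_le hk0 hk ht hlt1 hlt2 hlo]
    exact (A.Q_iso hk0 hk ht).symm
  · rw [A.pc_ge hk0 hk ht hlt1 hlt2 hlo]
    exact AmbIso.refl _

theorem sum_aux (m : ℕ) : m < A.p →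
    TSum (A.nneg (A.p - 1 - m)) (A.npos (A.p - 1 - m)) (A.pc (A.cut (A.p - 1 - m)) (1 - A.h0)) := by
  classical
  induction m with
  | zero =>
    intro _
    rw [Nat.sub_zero]
    have hp2 := A.hp2
    have e : Finset.Ioo (A.p - 1) A.p = ∅ := by
      ext x
      simp only [Finset.mem_Ioo]
      simp only [Finset.notMem_empty, iff_false, not_and, not_lt]
      intro h
      omega
    have e1 : A.nneg (A.p - 1) = 0 := by unfold nneg; rw [e]; simp
    have e2 : A.npos (A.p - 1) = 0 := by unfold npos; rw [e]; simp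
    rw [e1, e2]
    exact TSum.triv _ A.base_iso
  | succ m ih =>
    intro hm
    have ih' := ih (by omega)
    set k : ℕ := A.p - 1 - m with hk
    have hk0 : k ≠ 0 := by omega
    have hkp : k < A.p := by omega
    have e : A.p - 1 - (m + 1) = k - 1 := by omega
    rw [e]
    have hnot : k ∉ Finset.Ioo k A.p := by simp
    by_cases ht : A.tref k
    · by_cases hpos : A.tpos k
      · have e1 : A.npos (k - 1) = A.npos k + 1 := by
          unfold npos
          rw [A.Ioo_step hk0 hkp, Finset.filter_insert, if_pos hpos, Finset.card_insert_of_notMem]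
          simp
        have e2 : A.nneg (k - 1) = A.nneg k := by
          unfold nneg
          rw [A.Ioo_step hk0 hkp, Finset.filter_insert, if_neg (by tauto)]
        rw [e1, e2]
        exact TSum.right _ _ _ _ ih' ((A.tref_sum hk0 hkp ht).congr₁ (A.win_pos hk0 hkp hpos).symm)
      · have e1 : A.npos (k - 1) = A.npos k := by
          unfold npos
          rw [A.Ioo_step hk0 hkp, Finset.filter_insert, if_neg hpos]
        have e2 : A.nneg (k - 1) = A.nneg k + 1 := by
          unfold nneg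
          rw [A.Ioo_step hk0 hkp, Finset.filter_insert, if_pos ⟨ht, hpos⟩, Finset.card_insert_of_notMem]
          simp
        rw [e1, e2]
        exact TSum.left _ _ _ _ ih' ((A.tref_sum hk0 hkp ht).congr₁ (A.win_neg hk0 hkp ht hpos).symm)
    · have hpos : ¬ A.tpos k := fun h => ht (A.tref_of_tpos h)
      have e1 : A.npos (k - 1) = A.npos k := by
        unfold npos
        rw [A.Ioo_step hk0 hkp, Finset.filter_insert, if_neg hpos]
      have e2 : A.nneg (k - 1) = A.nneg k := by
        unfold nneg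
        rw [A.Ioo_step hk0 hkp, Finset.filter_insert, if_neg (by tauto)]
      rw [e1, e2]
      exact ih'.congr (A.triv_step hk0 hkp ht)

/-- the curve is a sum of trefoils -/
theorem main_sum : TSum (A.nneg 0) (A.npos 0) (A.F '' Icc (-1) 1) := by
  have h := A.sum_aux (A.p - 1) (by have := A.hp2; omega)
  rw [Nat.sub_self] at h
  exact h.congr (A.cap_iso.trans A.start_step)

end Par

end Liss579
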