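import Pool.Agent.Helper579_Lis.Ann

/-!
The parametrised trefoil and its inscribed twelve-gon.
-/

set_option autoImplicit false

namespace Liss579

open Knot548 Set Real Filter Topology

/-- gluing Lipschitz bounds on the cells `[k/6, (k+1)/6]` -/
theorem glue_lip (f : ℝ → ℝ) (L : ℝ)
    (h : ∀ k : ℤ, ∀ x ∈ Icc ((k : ℝ) / 6) ((k + 1) / 6), ∀ y ∈ Icc ((k : ℝ) / 6) ((k + 1) / 6),
      x ≤ y → |f x - f y| ≤ L * (y - x)) :
    ∀ x y, |f x - f y| ≤ L * |x - y| := by
  have key : ∀ n : ℕ, ∀ x y : ℝ, x ≤ y → ⌊6 * y⌋ - ⌊6 * x⌋ ≤ n → |f x - f y| ≤ L * (y - x) := by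
    intro n
    induction n with
    | zero =>
      intro x y hxy hn
      have h1 : ⌊6 * x⌋ ≤ ⌊6 * y⌋ := Int.floor_le_floor (by linarith)
      have h2 : ⌊6 * y⌋ = ⌊6 * x⌋ := by push_cast at hn; omega
      have a1 := Int.floor_le (6 * x)
      have a2 := Int.lt_floor_add_one (6 * x)
      have a3 := Int.floor_le (6 * y)
      have a4 := Int.lt_floor_add_one (6 * y)
      rw [h2] at a3 a4
      exact h ⌊6 * x⌋ x ⟨by linarith, by linarith⟩ y ⟨by linarith, by linarith⟩ hxy
    | succ n ih =>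
      intro x y hxy hn
      have a1 := Int.floor_le (6 * x)
      have a2 := Int.lt_floor_add_one (6 * x)
      have a3 := Int.floor_le (6 * y)
      have a4 := Int.lt_floor_add_one (6 * y)
      rcases le_total y ((⌊6 * x⌋ + 1 : ℝ) / 6) with h1 | h1
      · exact h ⌊6 * x⌋ x ⟨by linarith, by linarith⟩ y ⟨by linarith, h1⟩ hxy
      · have e1 := h ⌊6 * x⌋ x ⟨by linarith, by linarith⟩ ((⌊6 * x⌋ + 1 : ℝ) / 6)
          ⟨by linarith, le_rfl⟩ (by linarith)
        have hfl : ⌊6 * ((⌊6 * x⌋ + 1 : ℝ) / 6)⌋ = ⌊6 * x⌋ + 1 := by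
          have : 6 * ((⌊6 * x⌋ + 1 : ℝ) / 6) = ((⌊6 * x⌋ + 1 : ℤ) : ℝ) := by push_cast; ring
          rw [this, Int.floor_intCast]
        have e2 := ih ((⌊6 * x⌋ + 1 : ℝ) / 6) y h1 (by rw [hfl]; push_cast at hn; omega)
        have e3 : |f x - f y| ≤ |f x - f ((⌊6 * x⌋ + 1 : ℝ) / 6)| + |f ((⌊6 * x⌋ + 1 : ℝ) / 6) - f y| :=
          abs_sub_le _ _ _
        linarith
  intro x y
  rcases le_total x y with hxy | hxy
  · have := key (⌊6 * y⌋ - ⌊6 * x⌋).toNat x y hxy (Int.self_le_toNat _)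
    rw [abs_of_nonpos (by linarith : x - y ≤ 0)]
    linarith
  · have := key (⌊6 * x⌋ - ⌊6 * y⌋).toNat y x hxy (Int.self_le_toNat _)
    rw [abs_sub_comm, abs_of_nonneg (by linarith : 0 ≤ x - y)]
    exact this

theorem s3_pos : (1 / 2 : ℝ) ≤ sin (π / 3) := by
  rw [Real.sin_pi_div_three]
  have : (1 : ℝ) ≤ √3 := by
    rw [Real.one_le_sqrt]; norm_num
  linarith

/-- interpolation along a chord, in polar form -/
noncomputable def cellf (g : ℤ → ℝ) (k : ℤ) (t : ℝ) : ℝ :=
  (sin (2 * π * ((k + 1) / 6 - t)) * g k + sin (2 * π * (t - k / 6)) * g (k + 1)) / sin (π / 3)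

/-- piecewise interpolation -/
noncomputable def interp (g : ℤ → ℝ) (t : ℝ) : ℝ := cellf g ⌊6 * t⌋ t

theorem cellf_left (g : ℤ → ℝ) (k : ℤ) : cellf g k (k / 6) = g k := by
  unfold cellf
  have h := s3_pos
  have e1 : 2 * π * (((k : ℝ) + 1) / 6 - k / 6) = π / 3 := by ring
  rw [e1, sub_self, mul_zero, Real.sin_zero, zero_mul, add_zero]
  field_simp

theorem cellf_right (g : ℤ → ℝ) (k : ℤ) : cellf g k ((k + 1) / 6) = g (k + 1) := by
  unfold cellf
  have h := s3_pos
  have e1 : 2 * π * (((k : ℝ) + 1) / 6 - k / 6) = π / 3 := by ring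
  rw [e1, sub_self, mul_zero, Real.sin_zero, zero_mul, zero_add]
  field_simp

theorem interp_on (g : ℤ → ℝ) {k : ℤ} {t : ℝ} (ht : t ∈ Icc ((k : ℝ) / 6) ((k + 1) / 6)) :
    interp g t = cellf g k t := by
  unfold interp
  rcases ht.2.lt_or_eq with h | h
  · have : ⌊6 * t⌋ = k := by
      rw [Int.floor_eq_iff]
      constructor <;> linarith [ht.1]
    rw [this]
  · have e : 6 * t = ((k + 1 : ℤ) : ℝ) := by push_cast; linarith
    rw [e, Int.floor_intCast]
    have e2 : t = ((k + 1 : ℤ) : ℝ) / 6 := by push_cast; exact h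
    have e3 : t = ((k : ℝ) + 1) / 6 := h
    conv_lhs => rw [e2]
    conv_rhs => rw [e3]
    rw [cellf_left, cellf_right]

theorem interp_node (g : ℤ → ℝ) (k : ℤ) : interp g (k / 6) = g k := by
  rw [interp_on g (k := k) ⟨le_rfl, by linarith⟩, cellf_left]

theorem sin_nonneg_cell {x : ℝ} (h0 : 0 ≤ x) (h1 : x ≤ 1 / 6) : 0 ≤ sin (2 * π * x) := by
  apply Real.sin_nonneg_of_nonneg_of_le_pi
  · positivity
  · nlinarith [Real.pi_pos]

theorem cellf_lip {g : ℤ → ℝ} (hg : ∀ k, |g k| ≤ 1) (k : ℤ) (x y : ℝ) (hxy : x ≤ y) :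
    |cellf g k x - cellf g k y| ≤ 8 * π * (y - x) := by
  have h3 := s3_pos
  have hs : 0 < sin (π / 3) := by linarith
  have e : cellf g k x - cellf g k y =
      ((sin (2 * π * ((k + 1) / 6 - x)) - sin (2 * π * ((k + 1) / 6 - y))) * g k +
        (sin (2 * π * (x - k / 6)) - sin (2 * π * (y - k / 6))) * g (k + 1)) / sin (π / 3) := by
    unfold cellf; ring
  have a1 := Real.abs_sin_sub_sin_le (2 * π * ((k + 1) / 6 - x)) (2 * π * ((k + 1) / 6 - y))
  have a2 := Real.abs_sin_sub_sin_le (2 * π * (x - k / 6)) (2 * π * (y - k / 6))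
  have b1 : |2 * π * (((k : ℝ) + 1) / 6 - x) - 2 * π * ((k + 1) / 6 - y)| = 2 * π * (y - x) := by
    rw [show 2 * π * (((k : ℝ) + 1) / 6 - x) - 2 * π * ((k + 1) / 6 - y) = 2 * π * (y - x) by ring]
    exact abs_of_nonneg (mul_nonneg (by positivity) (by linarith))
  have b2 : |2 * π * (x - (k : ℝ) / 6) - 2 * π * (y - k / 6)| = 2 * π * (y - x) := by
    rw [show 2 * π * (x - (k : ℝ) / 6) - 2 * π * (y - k / 6) = -(2 * π * (y - x)) by ring, abs_neg]
    exact abs_of_nonneg (mul_nonneg (by positivity) (by linarith))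
  rw [b1] at a1
  rw [b2] at a2
  rw [e, abs_div, abs_of_pos hs, div_le_iff₀ hs]
  have c0 : 0 ≤ 2 * π * (y - x) := mul_nonneg (by positivity) (by linarith)
  have c1 := (abs_add_le ((sin (2 * π * ((k + 1) / 6 - x)) - sin (2 * π * ((k + 1) / 6 - y))) * g k)
    ((sin (2 * π * (x - k / 6)) - sin (2 * π * (y - k / 6))) * g (k + 1)))
  rw [abs_mul, abs_mul] at c1
  have c2 := mul_le_mul a1 (hg k) (abs_nonneg _) c0
  have c3 := mul_le_mul a2 (hg (k + 1)) (abs_nonneg _) c0
  nlinarith [Real.pi_pos]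

theorem interp_lip {g : ℤ → ℝ} (hg : ∀ k, |g k| ≤ 1) : Lip (interp g) := by
  refine ⟨8 * π, by positivity, ?_⟩
  apply glue_lip
  intro k x hx y hy hxy
  rw [interp_on g hx, interp_on g hy]
  exact cellf_lip hg k x y hxy

theorem exists_cell (t : ℝ) : ∃ k : ℤ, t ∈ Icc ((k : ℝ) / 6) ((k + 1) / 6) := by
  have a1 := Int.floor_le (6 * t)
  have a2 := Int.lt_floor_add_one (6 * t)
  exact ⟨⌊6 * t⌋, by linarith, by linarith⟩

theorem cell_sum {k : ℤ} {t : ℝ} (ht : t ∈ Icc ((k : ℝ) / 6) ((k + 1) / 6)) :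
    0 ≤ sin (2 * π * ((k + 1) / 6 - t)) ∧ 0 ≤ sin (2 * π * (t - k / 6)) ∧
    sin (π / 3) ≤ sin (2 * π * ((k + 1) / 6 - t)) + sin (2 * π * (t - k / 6)) := by
  have h1 := sin_nonneg_cell (x := (k + 1) / 6 - t) (by linarith [ht.2]) (by linarith [ht.1])
  have h2 := sin_nonneg_cell (x := t - k / 6) (by linarith [ht.1]) (by linarith [ht.2])
  refine ⟨h1, h2, ?_⟩
  have e : π / 3 = 2 * π * ((k + 1) / 6 - t) + 2 * π * (t - k / 6) := by ring
  rw [e, Real.sin_add]
  have c1 := Real.cos_le_one (2 * π * (t - k / 6))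
  have c2 := Real.cos_le_one (2 * π * ((k + 1) / 6 - t))
  nlinarith

theorem interp_ge {g : ℤ → ℝ} {m : ℝ} (hm : 0 ≤ m) (hg : ∀ k, m ≤ g k) (t : ℝ) : m ≤ interp g t := by
  obtain ⟨k, hk⟩ := exists_cell t
  obtain ⟨h1, h2, h3⟩ := cell_sum hk
  have h4 := s3_pos
  rw [interp_on g hk]
  unfold cellf
  rw [le_div_iff₀ (by linarith)]
  have e1 := mul_le_mul_of_nonneg_left (hg k) h1
  have e2 := mul_le_mul_of_nonneg_left (hg (k + 1)) h2
  have e3 := mul_le_mul_of_nonneg_left h3 hm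
  linarith

theorem interp_le {g : ℤ → ℝ} (hg : ∀ k, |g k| ≤ 1) (t : ℝ) : |interp g t| ≤ 4 := by
  obtain ⟨k, hk⟩ := exists_cell t
  have h4 := s3_pos
  rw [interp_on g hk]
  unfold cellf
  rw [abs_div, abs_of_pos (by linarith : 0 < sin (π / 3)), div_le_iff₀ (by linarith)]
  have c1 := (abs_add_le (sin (2 * π * ((k + 1) / 6 - t)) * g k) (sin (2 * π * (t - k / 6)) * g (k + 1)))
  rw [abs_mul, abs_mul] at c1
  have c2 := mul_le_mul (Real.abs_sin_le_one (2 * π * ((k + 1) / 6 - t))) (hg k) (abs_nonneg _) zero_le_one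
  have c3 := mul_le_mul (Real.abs_sin_le_one (2 * π * (t - k / 6))) (hg (k + 1)) (abs_nonneg _) zero_le_one
  linarith

/-! ### the data of the trefoil -/

/-- values at the nodes -/
noncomputable def gk (k : ℤ) : ℝ := 1 / (2 + cos (k * (π / 2)))
/-- values at the nodes -/
noncomputable def hk (k : ℤ) : ℝ := sin (k * (π / 2)) * gk k

theorem gk_bd (k : ℤ) : 1 / 3 ≤ gk k ∧ gk k ≤ 1 := by
  have h1 := Real.cos_le_one (k * (π / 2))
  have h2 := Real.neg_one_le_cos (k * (π / 2))
  unfold gk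
  constructor
  · apply one_div_le_one_div_of_le <;> linarith
  · rw [div_le_one (by linarith)]; linarith

theorem gk_abs (k : ℤ) : |gk k| ≤ 1 := by
  have := gk_bd k
  rw [abs_of_nonneg (by linarith)]
  exact this.2

theorem hk_abs (k : ℤ) : |hk k| ≤ 1 := by
  unfold hk
  rw [abs_mul]
  have h1 := Real.abs_sin_le_one (k * (π / 2))
  have h2 := gk_abs k
  have := mul_le_mul h1 h2 (abs_nonneg _) zero_le_one
  linarith

/-- radius of the twelve-gon -/
noncomputable def ρP (t : ℝ) : ℝ := 1 / interp gk t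
/-- height of the twelve-gon -/
noncomputable def ζP (t : ℝ) : ℝ := interp hk t * ρP t
/-- radius of the trefoil -/
noncomputable def ρT (t : ℝ) : ℝ := 2 + cos (3 * π * t)
/-- height of the trefoil -/
noncomputable def ζT (t : ℝ) : ℝ := sin (3 * π * t)

theorem G_ge (t : ℝ) : 1 / 3 ≤ interp gk t := interp_ge (by norm_num) (fun k => (gk_bd k).1) t

theorem ρP_ge (t : ℝ) : 1 / 4 ≤ ρP t := by
  unfold ρP
  have h1 := G_ge t
  have h2 := interp_le gk_abs t
  rw [abs_of_nonneg (by linarith)] at h2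
  apply one_div_le_one_div_of_le <;> linarith

theorem ρP_lip : Lip ρP := by
  obtain ⟨L, h0, hL⟩ := interp_lip gk_abs
  refine ⟨9 * L, by positivity, fun x y => ?_⟩
  have h1 := G_ge x
  have h2 := G_ge y
  have p1 : 0 < interp gk x := by linarith
  have p2 : 0 < interp gk y := by linarith
  have e : ρP x - ρP y = (interp gk y - interp gk x) / (interp gk x * interp gk y) := by
    unfold ρP
    field_simp
  rw [e, abs_div, abs_of_pos (mul_pos p1 p2), div_le_iff₀ (mul_pos p1 p2), abs_sub_comm]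
  have h3 : (1 : ℝ) / 9 ≤ interp gk x * interp gk y := by nlinarith
  have h4 := hL x y
  have h5 : 0 ≤ L * |x - y| := mul_nonneg h0 (abs_nonneg _)
  have h6 := mul_le_mul_of_nonneg_left h3 h5
  nlinarith

theorem ρP_le (t : ℝ) : ρP t ≤ 3 := by
  unfold ρP
  have h1 := G_ge t
  rw [div_le_iff₀ (by linarith)]
  linarith

theorem ζP_lip : Lip ζP := by
  obtain ⟨L, h0, hL⟩ := interp_lip hk_abs
  obtain ⟨L', h0', hL'⟩ := ρP_lip
  refine ⟨3 * L + 4 * L', by positivity, fun x y => ?_⟩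
  unfold ζP
  have e : interp hk x * ρP x - interp hk y * ρP y =
      (interp hk x - interp hk y) * ρP x + interp hk y * (ρP x - ρP y) := by ring
  rw [e]
  refine (abs_add_le _ _).trans ?_
  rw [abs_mul, abs_mul]
  have a1 : |ρP x| ≤ 3 := by
    rw [abs_of_nonneg (by linarith [ρP_ge x])]; exact ρP_le x
  have a2 := mul_le_mul (hL x y) a1 (abs_nonneg _) (mul_nonneg h0 (abs_nonneg _))
  have a3 := mul_le_mul (interp_le hk_abs y) (hL' x y) (abs_nonneg _) (by norm_num)
  linarith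

theorem ρT_lip : Lip ρT := by
  refine ⟨3 * π, by positivity, fun x y => ?_⟩
  unfold ρT
  have := Real.abs_cos_sub_cos_le (3 * π * x) (3 * π * y)
  rw [show 3 * π * x - 3 * π * y = 3 * π * (x - y) by ring, abs_mul, abs_of_pos (show (0 : ℝ) < 3 * π by positivity)] at this
  rw [show 2 + cos (3 * π * x) - (2 + cos (3 * π * y)) = cos (3 * π * x) - cos (3 * π * y) by ring]
  exact this

theorem ζT_lip : Lip ζT := by
  refine ⟨3 * π, by positivity, fun x y => ?_⟩
  unfold ζT
  have := Real.abs_sin_sub_sin_le (3 * π * x) (3 * π * y)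
  rw [show 3 * π * x - 3 * π * y = 3 * π * (x - y) by ring, abs_mul, abs_of_pos (show (0 : ℝ) < 3 * π by positivity)] at this
  exact this

theorem ck_six (k : ℤ) : cos (((k + 6 : ℤ) : ℝ) * (π / 2)) = -cos (k * (π / 2)) := by
  have : ((k + 6 : ℤ) : ℝ) * (π / 2) = k * (π / 2) + π + 2 * π := by push_cast; ring
  rw [this, Real.cos_add_two_pi, Real.cos_add_pi]

theorem sk_six (k : ℤ) : sin (((k + 6 : ℤ) : ℝ) * (π / 2)) = -sin (k * (π / 2)) := by
  have : ((k + 6 : ℤ) : ℝ) * (π / 2) = k * (π / 2) + π + 2 * π := by push_cast; ring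
  rw [this, Real.sin_add_two_pi, Real.sin_add_pi]

theorem even_k {k : ℤ} (h : Even k) : sin (k * (π / 2)) = 0 ∧ cos (k * (π / 2)) ^ 2 = 1 := by
  obtain ⟨m, rfl⟩ := h
  have e : ((m + m : ℤ) : ℝ) * (π / 2) = m * π := by push_cast; ring
  rw [e]
  have h1 := Real.sin_int_mul_pi m
  refine ⟨h1, ?_⟩
  have := Real.sin_sq_add_cos_sq (m * π)
  rw [h1] at this
  linarith

theorem odd_k {k : ℤ} (h : Odd k) : cos (k * (π / 2)) = 0 ∧ sin (k * (π / 2)) ^ 2 = 1 := by
  obtain ⟨m, rfl⟩ := h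
  have e : ((2 * m + 1 : ℤ) : ℝ) * (π / 2) = m * π + π / 2 := by push_cast; ring
  rw [e, Real.cos_add_pi_div_two, Real.sin_add_pi_div_two]
  have h1 := Real.sin_int_mul_pi m
  refine ⟨by rw [h1]; norm_num, ?_⟩
  have := Real.sin_sq_add_cos_sq (m * π)
  rw [h1] at this
  linarith

theorem gk_diff (k : ℤ) : gk k - gk (k + 6) =
    -(2 * cos (k * (π / 2))) / ((2 + cos (k * (π / 2))) * (2 - cos (k * (π / 2)))) := by
  have h1 := Real.cos_le_one (k * (π / 2))
  have h2 := Real.neg_one_le_cos (k * (π / 2))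
  unfold gk
  rw [ck_six]
  generalize cos (k * (π / 2)) = c at h1 h2 ⊢
  have p1 : 2 + c ≠ 0 := by linarith
  have p3 : 2 - c ≠ 0 := by linarith
  rw [← sub_eq_add_neg]
  field_simp
  ring

/-- the comparison of the crossings at an odd node -/
theorem node_sign {m : ℤ} (hm : Odd m) {t : ℝ} (ht : t = m / 6) :
    ρT t = ρT (t + 1) ∧ ρP t = ρP (t + 1) ∧ 0 < (ζT t - ζT (t + 1)) * (ζP t - ζP (t + 1)) := by
  obtain ⟨h1, h2⟩ := odd_k hm
  have e0 : 3 * π * t = m * (π / 2) := by rw [ht]; ring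
  have e1 : 3 * π * (t + 1) = m * (π / 2) + π + 2 * π := by rw [ht]; ring
  have e2 : t + 1 = ((m + 6 : ℤ) : ℝ) / 6 := by rw [ht]; push_cast; ring
  have g0 : gk m = 1 / 2 := by unfold gk; rw [h1]; norm_num
  have g1 : gk (m + 6) = 1 / 2 := by unfold gk; rw [ck_six, h1]; norm_num
  have r0 : ρP t = 2 := by unfold ρP; rw [ht, interp_node, g0]; norm_num
  have r1 : ρP (t + 1) = 2 := by unfold ρP; rw [e2, interp_node, g1]; norm_num
  refine ⟨?_, by rw [r0, r1], ?_⟩
  · unfold ρT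
    rw [e0, e1, Real.cos_add_two_pi, Real.cos_add_pi, h1]
    norm_num
  · unfold ζT ζP
    rw [r0, r1, e0, e1, Real.sin_add_two_pi, Real.sin_add_pi, ht]
    have e3 : (m : ℝ) / 6 + 1 = ((m + 6 : ℤ) : ℝ) / 6 := by push_cast; ring
    rw [e3, interp_node, interp_node]
    unfold hk
    rw [sk_six, g0, g1]
    nlinarith

theorem cell_sign {t : ℝ} : 0 < (ρT t - ρT (t + 1)) * (ρP t - ρP (t + 1)) ∨
    (ρT t = ρT (t + 1) ∧ ρP t = ρP (t + 1) ∧ 0 < (ζT t - ζT (t + 1)) * (ζP t - ζP (t + 1))) := by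
  obtain ⟨k, hkt⟩ := exists_cell t
  have hkt' : t + 1 ∈ Icc (((k + 6 : ℤ) : ℝ) / 6) ((((k + 6 : ℤ) : ℝ) + 1) / 6) := by
    push_cast
    constructor <;> linarith [hkt.1, hkt.2]
  have hs3 := s3_pos
  have hG := G_ge t
  have hG' := G_ge (t + 1)
  have hρT : ρT t - ρT (t + 1) = 2 * cos (3 * π * t) := by
    unfold ρT
    have : 3 * π * (t + 1) = 3 * π * t + π + 2 * π := by ring
    rw [this, Real.cos_add_two_pi, Real.cos_add_pi]
    ring
  have hGd : interp gk t - interp gk (t + 1) =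
      (sin (2 * π * ((k + 1) / 6 - t)) * (gk k - gk (k + 6)) +
        sin (2 * π * (t - k / 6)) * (gk (k + 1) - gk (k + 1 + 6))) / sin (π / 3) := by
    rw [interp_on gk hkt, interp_on gk hkt']
    unfold cellf
    have e1 : ((((k + 6 : ℤ) : ℝ) + 1) / 6 - (t + 1)) = (k + 1) / 6 - t := by push_cast; ring
    have e2 : (t + 1 - ((k + 6 : ℤ) : ℝ) / 6) = t - k / 6 := by push_cast; ring
    have e3 : k + 6 + 1 = k + 1 + 6 := by ring
    rw [e1, e2, e3]
    ring
  have hρP : ρP t - ρP (t + 1) = -(interp gk t - interp gk (t + 1)) / (interp gk t * interp gk (t + 1)) := by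
    unfold ρP
    field_simp
    ring
  have hGG : 0 < interp gk t * interp gk (t + 1) := mul_pos (by linarith) (by linarith)
  rcases Int.even_or_odd k with he | ho
  · -- `k` even
    rcases hkt.2.lt_or_eq with hlt | heq
    · left
      obtain ⟨h1, h2⟩ := even_k he
      obtain ⟨h3, _⟩ := odd_k (Even.add_one he)
      have hcos : cos (3 * π * t) = cos (k * (π / 2)) * cos (3 * π * (t - k / 6)) := by
        have : 3 * π * t = k * (π / 2) + 3 * π * (t - k / 6) := by ring
        rw [this, Real.cos_add, h1]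
        have : (k : ℝ) * (π / 2) + 3 * π * (t - k / 6) = 3 * π * t := by ring
        ring
      have hcpos : 0 < cos (3 * π * (t - k / 6)) := by
        apply Real.cos_pos_of_mem_Ioo
        constructor
        · have : 0 ≤ 3 * π * (t - k / 6) := mul_nonneg (by positivity) (by linarith [hkt.1])
          linarith [Real.pi_pos]
        · nlinarith [Real.pi_pos]
      have hspos : 0 < sin (2 * π * ((k + 1) / 6 - t)) := by
        apply Real.sin_pos_of_pos_of_lt_pi
        · apply mul_pos (by positivity); linarith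
        · nlinarith [Real.pi_pos, hkt.1]
      have hg2 : gk (k + 1) - gk (k + 1 + 6) = 0 := by
        rw [gk_diff]
        rw [h3]
        norm_num
      rw [hρT, hρP, hGd, hg2, gk_diff, hcos]
      have hcc : (2 + cos (k * (π / 2))) * (2 - cos (k * (π / 2))) = 3 := by linarith
      rw [hcc]
      have e : 2 * (cos (k * (π / 2)) * cos (3 * π * (t - k / 6))) *
          (-((sin (2 * π * ((k + 1) / 6 - t)) * (-(2 * cos (k * (π / 2))) / 3) +
            sin (2 * π * (t - k / 6)) * 0) / sin (π / 3)) / (interp gk t * interp gk (t + 1))) =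
          (4 / 3) * (cos (k * (π / 2)) ^ 2) * (cos (3 * π * (t - k / 6)) *
            sin (2 * π * ((k + 1) / 6 - t)) / (sin (π / 3) * (interp gk t * interp gk (t + 1)))) := by
        field_simp
        ring
      rw [e, h2]
      have : 0 < cos (3 * π * (t - k / 6)) * sin (2 * π * ((k + 1) / 6 - t)) /
          (sin (π / 3) * (interp gk t * interp gk (t + 1))) :=
        div_pos (mul_pos hcpos hspos) (mul_pos (by linarith) hGG)
      linarith
    · right
      exact node_sign (m := k + 1) (Even.add_one he) (by push_cast; exact heq)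
  · -- `k` odd
    rcases hkt.1.lt_or_eq with hlt | heq
    · left
      obtain ⟨h3, _⟩ := odd_k ho
      obtain ⟨h1, h2⟩ := even_k (Odd.add_one ho)
      push_cast at h1 h2
      have hcos : cos (3 * π * t) = cos ((k + 1) * (π / 2)) * cos (3 * π * ((k + 1) / 6 - t)) := by
        have : 3 * π * t = (k + 1) * (π / 2) - 3 * π * ((k + 1) / 6 - t) := by ring
        rw [this, Real.cos_sub, h1]
        ring
      have hcpos : 0 < cos (3 * π * ((k + 1) / 6 - t)) := by
        apply Real.cos_pos_of_mem_Ioo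
        constructor
        · have : 0 ≤ 3 * π * ((k + 1) / 6 - t) := mul_nonneg (by positivity) (by linarith [hkt.2])
          linarith [Real.pi_pos]
        · nlinarith [Real.pi_pos]
      have hspos : 0 < sin (2 * π * (t - k / 6)) := by
        apply Real.sin_pos_of_pos_of_lt_pi
        · apply mul_pos (by positivity); linarith
        · nlinarith [Real.pi_pos, hkt.2]
      have hg2 : gk k - gk (k + 6) = 0 := by
        rw [gk_diff]
        rw [h3]
        norm_num
      have hg1 := gk_diff (k + 1)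
      push_cast at hg1
      have hcc : (2 + cos ((k + 1) * (π / 2))) * (2 - cos ((k + 1) * (π / 2))) = 3 := by linarith
      rw [hcc] at hg1
      rw [hρT, hρP, hGd, hg2, hg1, hcos]
      have e : 2 * (cos ((k + 1) * (π / 2)) * cos (3 * π * ((k + 1) / 6 - t))) *
          (-((sin (2 * π * ((k + 1) / 6 - t)) * 0 +
            sin (2 * π * (t - k / 6)) * (-(2 * cos ((k + 1) * (π / 2))) / 3)) / sin (π / 3)) /
              (interp gk t * interp gk (t + 1))) =
          (4 / 3) * (cos ((k + 1) * (π / 2)) ^ 2) * (cos (3 * π * ((k + 1) / 6 - t)) *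
            sin (2 * π * (t - k / 6)) / (sin (π / 3) * (interp gk t * interp gk (t + 1)))) := by
        field_simp
        ring
      rw [e, h2]
      have : 0 < cos (3 * π * ((k + 1) / 6 - t)) * sin (2 * π * (t - k / 6)) /
          (sin (π / 3) * (interp gk t * interp gk (t + 1))) :=
        div_pos (mul_pos hcpos hspos) (mul_pos (by linarith) hGG)
      linarith
    · right
      exact node_sign ho heq.symm

/-- the twelve-gon in polar form is isotopic to the trefoil -/
theorem tref_iso : AmbIso (ann ρT ζT '' Icc (-1) 1) (ann ρP ζP '' Icc (-1) 1) := by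
  have g6 : gk 6 = gk (-6) := by
    unfold gk
    have e1 : ((6 : ℤ) : ℝ) * (π / 2) = π + 2 * π := by push_cast; ring
    have e2 : ((-6 : ℤ) : ℝ) * (π / 2) = -(π + 2 * π) := by push_cast; ring
    rw [e1, e2, Real.cos_neg]
  have h6 : hk 6 = hk (-6) := by
    unfold hk
    rw [g6]
    have e1 : ((6 : ℤ) : ℝ) * (π / 2) = π + 2 * π := by push_cast; ring
    have e2 : ((-6 : ℤ) : ℝ) * (π / 2) = -(π + 2 * π) := by push_cast; ring
    rw [e1, e2, Real.sin_neg, Real.sin_add_two_pi, Real.sin_pi, neg_zero]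
  have n1 : (-1 : ℝ) = ((-6 : ℤ) : ℝ) / 6 := by norm_num
  have n2 : (1 : ℝ) = ((6 : ℤ) : ℝ) / 6 := by norm_num
  have r1 : ρP (-1) = ρP 1 := by
    unfold ρP
    rw [n1, interp_node, n2, interp_node, g6]
  apply ann_iso ρT ρP ζT ζP ρT_lip ρP_lip ζT_lip ζP_lip (c := 1 / 4) (by norm_num)
  · intro t _
    unfold ρT
    linarith [Real.neg_one_le_cos (3 * π * t)]
  · intro t _
    exact ρP_ge t
  · unfold ρT
    rw [show 3 * π * (-1 : ℝ) = -(3 * π * 1) by ring, Real.cos_neg]
  · exact r1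
  · unfold ζT
    have : sin (3 * π * 1) = 0 := by
      have : 3 * π * 1 = π + 2 * π := by ring
      rw [this, Real.sin_add_two_pi, Real.sin_pi]
    rw [show 3 * π * (-1 : ℝ) = -(3 * π * 1) by ring, Real.sin_neg, this, neg_zero]
  · unfold ζP
    rw [r1]
    rw [n1, interp_node, n2, interp_node, h6]
  · intro t _
    exact cell_sign

end Liss579
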