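import Pool.Agent.Helper579_Lis.Tref

/-!
The inscribed twelve-gon of the trefoil.
-/

set_option autoImplicit false

namespace Liss579

open Knot548 Set Real Filter Topology

/-- the vertices -/
noncomputable def Wv (k : ℤ) : R3 := ann ρT ζT (k / 6)

theorem Wv_eq (k : ℤ) : Wv k = ![(gk k)⁻¹ * cos (2 * π * (k / 6)), (gk k)⁻¹ * sin (2 * π * (k / 6)),
    (gk k)⁻¹ * hk k] := by
  unfold Wv ann ρT ζT
  have e : 3 * π * ((k : ℝ) / 6) = k * (π / 2) := by ring
  rw [e]
  have h1 : (gk k)⁻¹ = 2 + cos (k * (π / 2)) := by unfold gk; rw [one_div, inv_inv]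
  have h2 : (gk k)⁻¹ * hk k = sin (k * (π / 2)) := by
    have := gk_bd k
    have hg : gk k ≠ 0 := by linarith
    unfold hk
    field_simp
  rw [h1] at h2 ⊢
  rw [h2]

theorem chord_cos (k : ℤ) (t : ℝ) :
    sin (2 * π * ((k + 1) / 6 - t)) * cos (2 * π * (k / 6)) +
      sin (2 * π * (t - k / 6)) * cos (2 * π * ((k + 1) / 6)) = sin (π / 3) * cos (2 * π * t) := by
  have e1 : 2 * π * (((k : ℝ) + 1) / 6) = 2 * π * (k / 6) + π / 3 := by ring
  have e2 : 2 * π * (((k : ℝ) + 1) / 6 - t) = π / 3 - 2 * π * (t - k / 6) := by ring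
  have e3 : 2 * π * t = 2 * π * (k / 6) + 2 * π * (t - k / 6) := by ring
  rw [e2, e1]
  conv_rhs => rw [e3]
  rw [Real.sin_sub, Real.cos_add, Real.cos_add]
  ring

theorem chord_sin (k : ℤ) (t : ℝ) :
    sin (2 * π * ((k + 1) / 6 - t)) * sin (2 * π * (k / 6)) +
      sin (2 * π * (t - k / 6)) * sin (2 * π * ((k + 1) / 6)) = sin (π / 3) * sin (2 * π * t) := by
  have e1 : 2 * π * (((k : ℝ) + 1) / 6) = 2 * π * (k / 6) + π / 3 := by ring
  have e2 : 2 * π * (((k : ℝ) + 1) / 6 - t) = π / 3 - 2 * π * (t - k / 6) := by ring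
  have e3 : 2 * π * t = 2 * π * (k / 6) + 2 * π * (t - k / 6) := by ring
  rw [e2, e1]
  conv_rhs => rw [e3]
  rw [Real.sin_sub, Real.sin_add, Real.sin_add]
  ring

/-- the position on the chord -/
noncomputable def sc (k : ℤ) (t : ℝ) : ℝ :=
  sin (2 * π * (t - k / 6)) * gk (k + 1) / (sin (π / 3) * cellf gk k t)

theorem cellf_ge {k : ℤ} {t : ℝ} (ht : t ∈ Icc ((k : ℝ) / 6) ((k + 1) / 6)) : 1 / 3 ≤ cellf gk k t := by
  have := G_ge t
  rwa [interp_on gk ht] at this

theorem point_eq {k : ℤ} {t : ℝ} (ht : t ∈ Icc ((k : ℝ) / 6) ((k + 1) / 6)) :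
    ann ρP ζP t = (1 - sc k t) • Wv k + sc k t • Wv (k + 1) := by
  have hG := cellf_ge ht
  have hs3 := s3_pos
  have hg1 := gk_bd k
  have hg2 := gk_bd (k + 1)
  have p1 : gk k ≠ 0 := by linarith
  have p2 : gk (k + 1) ≠ 0 := by linarith
  have p3 : sin (π / 3) ≠ 0 := by linarith
  have p4 : cellf gk k t ≠ 0 := by linarith
  have hGdef : sin (π / 3) * cellf gk k t =
      sin (2 * π * ((k + 1) / 6 - t)) * gk k + sin (2 * π * (t - k / 6)) * gk (k + 1) := by
    unfold cellf; field_simp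
  have hHdef : sin (π / 3) * cellf hk k t =
      sin (2 * π * ((k + 1) / 6 - t)) * hk k + sin (2 * π * (t - k / 6)) * hk (k + 1) := by
    unfold cellf; field_simp
  have hs : sc k t = sin (2 * π * (t - k / 6)) * gk (k + 1) / (sin (π / 3) * cellf gk k t) := rfl
  have hs' : 1 - sc k t = sin (2 * π * ((k + 1) / 6 - t)) * gk k / (sin (π / 3) * cellf gk k t) := by
    rw [hs, eq_div_iff (mul_ne_zero p3 p4), sub_mul, div_mul_cancel₀ _ (mul_ne_zero p3 p4), hGdef]
    ring
  rw [Wv_eq, Wv_eq, hs', hs]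
  have hc := chord_cos k t
  have hsn := chord_sin k t
  unfold ann ζP ρP
  rw [interp_on gk ht, interp_on hk ht]
  push_cast
  ext i
  fin_cases i
  · simp only [Fin.zero_eta, Fin.isValue, Matrix.cons_val, Pi.add_apply, Pi.smul_apply, smul_eq_mul]
    have : cos (2 * π * t) = (sin (2 * π * ((k + 1) / 6 - t)) * cos (2 * π * (k / 6)) +
      sin (2 * π * (t - k / 6)) * cos (2 * π * ((k + 1) / 6))) / sin (π / 3) := by
      rw [hc]; field_simp
    rw [this]
    field_simp
  · simp only [Fin.mk_one, Fin.isValue, Matrix.cons_val, Pi.add_apply, Pi.smul_apply, smul_eq_mul]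
    have : sin (2 * π * t) = (sin (2 * π * ((k + 1) / 6 - t)) * sin (2 * π * (k / 6)) +
      sin (2 * π * (t - k / 6)) * sin (2 * π * ((k + 1) / 6))) / sin (π / 3) := by
      rw [hsn]; field_simp
    rw [this]
    field_simp
  · simp only [Fin.reduceFinMk, Fin.isValue, Matrix.cons_val, Pi.add_apply, Pi.smul_apply, smul_eq_mul]
    have : cellf hk k t = (sin (2 * π * ((k + 1) / 6 - t)) * hk k +
      sin (2 * π * (t - k / 6)) * hk (k + 1)) / sin (π / 3) := rfl
    rw [this]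
    field_simp

theorem sc_mem {k : ℤ} {t : ℝ} (ht : t ∈ Icc ((k : ℝ) / 6) ((k + 1) / 6)) : sc k t ∈ Icc (0 : ℝ) 1 := by
  have hG := cellf_ge ht
  have hs3 := s3_pos
  have hg1 := gk_bd k
  have hg2 := gk_bd (k + 1)
  obtain ⟨c1, c2, c3⟩ := cell_sum ht
  have hGdef : sin (π / 3) * cellf gk k t =
      sin (2 * π * ((k + 1) / 6 - t)) * gk k + sin (2 * π * (t - k / 6)) * gk (k + 1) := by
    unfold cellf; field_simp
  have hpos : 0 < sin (π / 3) * cellf gk k t := mul_pos (by linarith) (by linarith)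
  unfold sc
  constructor
  · apply div_nonneg _ hpos.le
    exact mul_nonneg c2 (by linarith)
  · rw [div_le_one hpos, hGdef]
    have : 0 ≤ sin (2 * π * ((k + 1) / 6 - t)) * gk k := mul_nonneg c1 (by linarith)
    linarith

theorem chord_image (k : ℤ) : ann ρP ζP '' Icc ((k : ℝ) / 6) ((k + 1) / 6) =
    segment ℝ (Wv k) (Wv (k + 1)) := by
  rw [segment_eq_image]
  have hkk : (k : ℝ) / 6 ≤ (k + 1) / 6 := by linarith
  ext x
  constructor
  · rintro ⟨t, ht, rfl⟩
    exact ⟨sc k t, sc_mem ht, (point_eq ht).symm⟩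
  · rintro ⟨s, hs, rfl⟩
    have hcont : ContinuousOn (sc k) (Icc ((k : ℝ) / 6) ((k + 1) / 6)) := by
      unfold sc
      apply ContinuousOn.div
      · fun_prop
      · unfold cellf; fun_prop
      · intro t ht
        have hG := cellf_ge ht
        have hs3 := s3_pos
        exact (mul_pos (by linarith) (by linarith)).ne'
    have s0 : sc k (k / 6) = 0 := by
      unfold sc
      rw [sub_self, mul_zero, Real.sin_zero, zero_mul, zero_div]
    have s1 : sc k ((k + 1) / 6) = 1 := by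
      unfold sc
      rw [cellf_right]
      have e : 2 * π * (((k : ℝ) + 1) / 6 - k / 6) = π / 3 := by ring
      rw [e]
      have hs3 := s3_pos
      have hg2 := gk_bd (k + 1)
      exact div_self (mul_pos (by linarith) (by linarith)).ne'
    obtain ⟨t, ht, rfl⟩ := intermediate_value_Icc hkk hcont (by rw [s0, s1]; exact hs)
    exact ⟨t, ht, point_eq ht⟩

theorem Wv_per (k : ℤ) : Wv (k + 12) = Wv k := by
  unfold Wv ann ρT ζT
  have e1 : 2 * π * (((k + 12 : ℤ) : ℝ) / 6) = 2 * π * (k / 6) + 2 * π + 2 * π := by push_cast; ring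
  have e2 : 3 * π * (((k + 12 : ℤ) : ℝ) / 6) = 3 * π * (k / 6) + 2 * π + 2 * π + 2 * π := by push_cast; ring
  rw [e1, e2, Real.cos_add_two_pi, Real.cos_add_two_pi, Real.sin_add_two_pi, Real.sin_add_two_pi,
    Real.cos_add_two_pi, Real.cos_add_two_pi, Real.cos_add_two_pi, Real.sin_add_two_pi,
    Real.sin_add_two_pi, Real.sin_add_two_pi]

/-- the polar curve is the twelve-gon -/
theorem ann_poly : ann ρP ζP '' Icc (-1) 1 = ⋃ i : Fin 12, segment ℝ (Wv (i : ℕ)) (Wv ((i : ℕ) + 1)) := by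
  ext x
  rw [mem_iUnion]
  constructor
  · rintro ⟨t, ht, rfl⟩
    -- a cell with index in `[-6, 5]`
    have hex : ∃ k : ℤ, -6 ≤ k ∧ k ≤ 5 ∧ t ∈ Icc ((k : ℝ) / 6) ((k + 1) / 6) := by
      rcases ht.2.lt_or_eq with h | h
      · refine ⟨⌊6 * t⌋, ?_, ?_, ?_⟩
        · rw [Int.le_floor]; push_cast; linarith [ht.1]
        · have : ⌊6 * t⌋ < 6 := by rw [Int.floor_lt]; push_cast; linarith
          omega
        · have a1 := Int.floor_le (6 * t)
          have a2 := Int.lt_floor_add_one (6 * t)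
          constructor <;> linarith
      · exact ⟨5, by norm_num, le_rfl, by rw [h]; push_cast; constructor <;> norm_num⟩
    obtain ⟨k, hk1, hk2, hkt⟩ := hex
    have hx : ann ρP ζP t ∈ segment ℝ (Wv k) (Wv (k + 1)) := by
      rw [← chord_image]; exact ⟨t, hkt, rfl⟩
    rcases le_or_gt 0 k with h0 | h0
    · refine ⟨⟨k.toNat, by omega⟩, ?_⟩
      have : ((k.toNat : ℕ) : ℤ) = k := Int.toNat_of_nonneg h0
      simp only [this]
      exact hx
    · refine ⟨⟨(k + 12).toNat, by omega⟩, ?_⟩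
      have : (((k + 12).toNat : ℕ) : ℤ) = k + 12 := Int.toNat_of_nonneg (by omega)
      simp only [this]
      rw [Wv_per, show k + 12 + 1 = k + 1 + 12 by ring, Wv_per]
      exact hx
  · rintro ⟨i, hi⟩
    rcases Nat.lt_or_ge i.1 6 with h | h
    · rw [← chord_image] at hi
      obtain ⟨t, ht, rfl⟩ := hi
      refine ⟨t, ⟨?_, ?_⟩, rfl⟩
      · have h1 := ht.1
        have : (0 : ℝ) ≤ ((i : ℕ) : ℤ) / 6 := by positivity
        linarith
      · have h1 := ht.2
        have : (((i : ℕ) : ℤ) : ℝ) ≤ 5 := by exact_mod_cast (by omega : (i : ℕ) ≤ 5)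
        linarith
    · have e1 : Wv ((i : ℕ) : ℤ) = Wv (((i : ℕ) : ℤ) - 12) := by
        rw [← Wv_per (((i : ℕ) : ℤ) - 12)]; congr 1; ring
      have e2 : Wv (((i : ℕ) : ℤ) + 1) = Wv (((i : ℕ) : ℤ) - 12 + 1) := by
        rw [← Wv_per (((i : ℕ) : ℤ) - 12 + 1)]; congr 1; ring
      rw [e1, e2, ← chord_image] at hi
      obtain ⟨t, ht, rfl⟩ := hi
      refine ⟨t, ⟨?_, ?_⟩, rfl⟩
      · have h1 := ht.1
        push_cast at h1
        have : (6 : ℝ) ≤ ((i : ℕ) : ℝ) := by exact_mod_cast h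
        linarith
      · have h1 := ht.2
        push_cast at h1
        have : ((i : ℕ) : ℝ) ≤ 11 := by exact_mod_cast (by omega : (i : ℕ) ≤ 11)
        linarith

end Liss579
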