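import Pool.Agent.Helper579_Lis.Tref2
import Pool.Agent.Helper579_Lis.Poly

/-!
The twelve-gon and the integer polygon.
-/

set_option autoImplicit false

namespace Liss579

open Knot548 Set Real Filter Topology

theorem wv0 : Wv 0 = ![3, (0) * √3, 0] := by
  unfold Wv ann ρT ζT
  have e1 : 2 * π * (((0 : ℤ) : ℝ) / 6) = 0 := by push_cast; ring
  have e2 : 3 * π * (((0 : ℤ) : ℝ) / 6) = 0 := by push_cast; ring
  have c1 : cos (2 * π * (((0 : ℤ) : ℝ) / 6)) = 1 := by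
    rw [e1, Real.cos_zero]
  have s1 : sin (2 * π * (((0 : ℤ) : ℝ) / 6)) = (0) * √3 := by
    rw [e1, Real.sin_zero]; ring
  have c2 : cos (3 * π * (((0 : ℤ) : ℝ) / 6)) = 1 := by
    rw [e2, Real.cos_zero]
  have s2 : sin (3 * π * (((0 : ℤ) : ℝ) / 6)) = 0 := by
    rw [e2, Real.sin_zero]
  rw [c1, s1, c2, s2]
  ext i
  fin_cases i
  · norm_num
  · simp only [Fin.mk_one, Fin.isValue, Matrix.cons_val]; ring
  · simp

theorem wv1 : Wv 1 = ![1, (1) * √3, 1] := by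
  unfold Wv ann ρT ζT
  have e1 : 2 * π * (((1 : ℤ) : ℝ) / 6) = π / 3 := by push_cast; ring
  have e2 : 3 * π * (((1 : ℤ) : ℝ) / 6) = π / 2 := by push_cast; ring
  have c1 : cos (2 * π * (((1 : ℤ) : ℝ) / 6)) = 1 / 2 := by
    rw [e1, Real.cos_pi_div_three]
  have s1 : sin (2 * π * (((1 : ℤ) : ℝ) / 6)) = (1 / 2) * √3 := by
    rw [e1, Real.sin_pi_div_three]; ring
  have c2 : cos (3 * π * (((1 : ℤ) : ℝ) / 6)) = 0 := by
    rw [e2, Real.cos_pi_div_two]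
  have s2 : sin (3 * π * (((1 : ℤ) : ℝ) / 6)) = 1 := by
    rw [e2, Real.sin_pi_div_two]
  rw [c1, s1, c2, s2]
  ext i
  fin_cases i
  · norm_num
  · simp only [Fin.mk_one, Fin.isValue, Matrix.cons_val]; ring
  · simp

theorem wv2 : Wv 2 = ![-1 / 2, (1 / 2) * √3, 0] := by
  unfold Wv ann ρT ζT
  have e1 : 2 * π * (((2 : ℤ) : ℝ) / 6) = (π - π / 3) := by push_cast; ring
  have e2 : 3 * π * (((2 : ℤ) : ℝ) / 6) = π := by push_cast; ring
  have c1 : cos (2 * π * (((2 : ℤ) : ℝ) / 6)) = -1 / 2 := by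
    rw [e1, Real.cos_pi_sub, Real.cos_pi_div_three] <;> norm_num
  have s1 : sin (2 * π * (((2 : ℤ) : ℝ) / 6)) = (1 / 2) * √3 := by
    rw [e1, Real.sin_pi_sub, Real.sin_pi_div_three]; ring
  have c2 : cos (3 * π * (((2 : ℤ) : ℝ) / 6)) = -1 := by
    rw [e2, Real.cos_pi]
  have s2 : sin (3 * π * (((2 : ℤ) : ℝ) / 6)) = 0 := by
    rw [e2, Real.sin_pi]
  rw [c1, s1, c2, s2]
  ext i
  fin_cases i
  · norm_num
  · simp only [Fin.mk_one, Fin.isValue, Matrix.cons_val]; ring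
  · simp

theorem wv3 : Wv 3 = ![-2, (0) * √3, -1] := by
  unfold Wv ann ρT ζT
  have e1 : 2 * π * (((3 : ℤ) : ℝ) / 6) = π := by push_cast; ring
  have e2 : 3 * π * (((3 : ℤ) : ℝ) / 6) = (π / 2 + π) := by push_cast; ring
  have c1 : cos (2 * π * (((3 : ℤ) : ℝ) / 6)) = -1 := by
    rw [e1, Real.cos_pi]
  have s1 : sin (2 * π * (((3 : ℤ) : ℝ) / 6)) = (0) * √3 := by
    rw [e1, Real.sin_pi]; ring
  have c2 : cos (3 * π * (((3 : ℤ) : ℝ) / 6)) = 0 := by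
    rw [e2, Real.cos_add_pi, Real.cos_pi_div_two] <;> norm_num
  have s2 : sin (3 * π * (((3 : ℤ) : ℝ) / 6)) = -1 := by
    rw [e2, Real.sin_add_pi, Real.sin_pi_div_two]
  rw [c1, s1, c2, s2]
  ext i
  fin_cases i
  · norm_num
  · simp only [Fin.mk_one, Fin.isValue, Matrix.cons_val]; ring
  · simp

theorem wv4 : Wv 4 = ![-3 / 2, (-3 / 2) * √3, 0] := by
  unfold Wv ann ρT ζT
  have e1 : 2 * π * (((4 : ℤ) : ℝ) / 6) = (π / 3 + π) := by push_cast; ring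
  have e2 : 3 * π * (((4 : ℤ) : ℝ) / 6) = 0 + 2 * π := by push_cast; ring
  have c1 : cos (2 * π * (((4 : ℤ) : ℝ) / 6)) = -1 / 2 := by
    rw [e1, Real.cos_add_pi, Real.cos_pi_div_three] <;> norm_num
  have s1 : sin (2 * π * (((4 : ℤ) : ℝ) / 6)) = (-1 / 2) * √3 := by
    rw [e1, Real.sin_add_pi, Real.sin_pi_div_three]; ring
  have c2 : cos (3 * π * (((4 : ℤ) : ℝ) / 6)) = 1 := by
    rw [e2, Real.cos_add_two_pi, Real.cos_zero]
  have s2 : sin (3 * π * (((4 : ℤ) : ℝ) / 6)) = 0 := by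
    rw [e2, Real.sin_add_two_pi, Real.sin_zero]
  rw [c1, s1, c2, s2]
  ext i
  fin_cases i
  · norm_num
  · simp only [Fin.mk_one, Fin.isValue, Matrix.cons_val]; ring
  · simp

theorem wv5 : Wv 5 = ![1, (-1) * √3, 1] := by
  unfold Wv ann ρT ζT
  have e1 : 2 * π * (((5 : ℤ) : ℝ) / 6) = (2 * π - π / 3) := by push_cast; ring
  have e2 : 3 * π * (((5 : ℤ) : ℝ) / 6) = π / 2 + 2 * π := by push_cast; ring
  have c1 : cos (2 * π * (((5 : ℤ) : ℝ) / 6)) = 1 / 2 := by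
    rw [e1, Real.cos_two_pi_sub, Real.cos_pi_div_three] <;> norm_num
  have s1 : sin (2 * π * (((5 : ℤ) : ℝ) / 6)) = (-1 / 2) * √3 := by
    rw [e1, Real.sin_two_pi_sub, Real.sin_pi_div_three]; ring
  have c2 : cos (3 * π * (((5 : ℤ) : ℝ) / 6)) = 0 := by
    rw [e2, Real.cos_add_two_pi, Real.cos_pi_div_two]
  have s2 : sin (3 * π * (((5 : ℤ) : ℝ) / 6)) = 1 := by
    rw [e2, Real.sin_add_two_pi, Real.sin_pi_div_two]
  rw [c1, s1, c2, s2]
  ext i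
  fin_cases i
  · norm_num
  · simp only [Fin.mk_one, Fin.isValue, Matrix.cons_val]; ring
  · simp

theorem wv6 : Wv 6 = ![1, (0) * √3, 0] := by
  unfold Wv ann ρT ζT
  have e1 : 2 * π * (((6 : ℤ) : ℝ) / 6) = 0 + 2 * π := by push_cast; ring
  have e2 : 3 * π * (((6 : ℤ) : ℝ) / 6) = π + 2 * π := by push_cast; ring
  have c1 : cos (2 * π * (((6 : ℤ) : ℝ) / 6)) = 1 := by
    rw [e1, Real.cos_add_two_pi, Real.cos_zero]
  have s1 : sin (2 * π * (((6 : ℤ) : ℝ) / 6)) = (0) * √3 := by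
    rw [e1, Real.sin_add_two_pi, Real.sin_zero]; ring
  have c2 : cos (3 * π * (((6 : ℤ) : ℝ) / 6)) = -1 := by
    rw [e2, Real.cos_add_two_pi, Real.cos_pi]
  have s2 : sin (3 * π * (((6 : ℤ) : ℝ) / 6)) = 0 := by
    rw [e2, Real.sin_add_two_pi, Real.sin_pi]
  rw [c1, s1, c2, s2]
  ext i
  fin_cases i
  · norm_num
  · simp only [Fin.mk_one, Fin.isValue, Matrix.cons_val]; ring
  · simp

theorem wv7 : Wv 7 = ![1, (1) * √3, -1] := by
  unfold Wv ann ρT ζT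
  have e1 : 2 * π * (((7 : ℤ) : ℝ) / 6) = π / 3 + 2 * π := by push_cast; ring
  have e2 : 3 * π * (((7 : ℤ) : ℝ) / 6) = (π / 2 + π) + 2 * π := by push_cast; ring
  have c1 : cos (2 * π * (((7 : ℤ) : ℝ) / 6)) = 1 / 2 := by
    rw [e1, Real.cos_add_two_pi, Real.cos_pi_div_three]
  have s1 : sin (2 * π * (((7 : ℤ) : ℝ) / 6)) = (1 / 2) * √3 := by
    rw [e1, Real.sin_add_two_pi, Real.sin_pi_div_three]; ring
  have c2 : cos (3 * π * (((7 : ℤ) : ℝ) / 6)) = 0 := by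
    rw [e2, Real.cos_add_two_pi, Real.cos_add_pi, Real.cos_pi_div_two] <;> norm_num
  have s2 : sin (3 * π * (((7 : ℤ) : ℝ) / 6)) = -1 := by
    rw [e2, Real.sin_add_two_pi, Real.sin_add_pi, Real.sin_pi_div_two]
  rw [c1, s1, c2, s2]
  ext i
  fin_cases i
  · norm_num
  · simp only [Fin.mk_one, Fin.isValue, Matrix.cons_val]; ring
  · simp

theorem wv8 : Wv 8 = ![-3 / 2, (3 / 2) * √3, 0] := by
  unfold Wv ann ρT ζT
  have e1 : 2 * π * (((8 : ℤ) : ℝ) / 6) = (π - π / 3) + 2 * π := by push_cast; ring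
  have e2 : 3 * π * (((8 : ℤ) : ℝ) / 6) = 0 + 2 * π + 2 * π := by push_cast; ring
  have c1 : cos (2 * π * (((8 : ℤ) : ℝ) / 6)) = -1 / 2 := by
    rw [e1, Real.cos_add_two_pi, Real.cos_pi_sub, Real.cos_pi_div_three] <;> norm_num
  have s1 : sin (2 * π * (((8 : ℤ) : ℝ) / 6)) = (1 / 2) * √3 := by
    rw [e1, Real.sin_add_two_pi, Real.sin_pi_sub, Real.sin_pi_div_three]; ring
  have c2 : cos (3 * π * (((8 : ℤ) : ℝ) / 6)) = 1 := by
    rw [e2, Real.cos_add_two_pi, Real.cos_add_two_pi, Real.cos_zero]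
  have s2 : sin (3 * π * (((8 : ℤ) : ℝ) / 6)) = 0 := by
    rw [e2, Real.sin_add_two_pi, Real.sin_add_two_pi, Real.sin_zero]
  rw [c1, s1, c2, s2]
  ext i
  fin_cases i
  · norm_num
  · simp only [Fin.mk_one, Fin.isValue, Matrix.cons_val]; ring
  · simp

theorem wv9 : Wv 9 = ![-2, (0) * √3, 1] := by
  unfold Wv ann ρT ζT
  have e1 : 2 * π * (((9 : ℤ) : ℝ) / 6) = π + 2 * π := by push_cast; ring
  have e2 : 3 * π * (((9 : ℤ) : ℝ) / 6) = π / 2 + 2 * π + 2 * π := by push_cast; ring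
  have c1 : cos (2 * π * (((9 : ℤ) : ℝ) / 6)) = -1 := by
    rw [e1, Real.cos_add_two_pi, Real.cos_pi]
  have s1 : sin (2 * π * (((9 : ℤ) : ℝ) / 6)) = (0) * √3 := by
    rw [e1, Real.sin_add_two_pi, Real.sin_pi]; ring
  have c2 : cos (3 * π * (((9 : ℤ) : ℝ) / 6)) = 0 := by
    rw [e2, Real.cos_add_two_pi, Real.cos_add_two_pi, Real.cos_pi_div_two]
  have s2 : sin (3 * π * (((9 : ℤ) : ℝ) / 6)) = 1 := by
    rw [e2, Real.sin_add_two_pi, Real.sin_add_two_pi, Real.sin_pi_div_two]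
  rw [c1, s1, c2, s2]
  ext i
  fin_cases i
  · norm_num
  · simp only [Fin.mk_one, Fin.isValue, Matrix.cons_val]; ring
  · simp

theorem wv10 : Wv 10 = ![-1 / 2, (-1 / 2) * √3, 0] := by
  unfold Wv ann ρT ζT
  have e1 : 2 * π * (((10 : ℤ) : ℝ) / 6) = (π / 3 + π) + 2 * π := by push_cast; ring
  have e2 : 3 * π * (((10 : ℤ) : ℝ) / 6) = π + 2 * π + 2 * π := by push_cast; ring
  have c1 : cos (2 * π * (((10 : ℤ) : ℝ) / 6)) = -1 / 2 := by
    rw [e1, Real.cos_add_two_pi, Real.cos_add_pi, Real.cos_pi_div_three] <;> norm_num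
  have s1 : sin (2 * π * (((10 : ℤ) : ℝ) / 6)) = (-1 / 2) * √3 := by
    rw [e1, Real.sin_add_two_pi, Real.sin_add_pi, Real.sin_pi_div_three]; ring
  have c2 : cos (3 * π * (((10 : ℤ) : ℝ) / 6)) = -1 := by
    rw [e2, Real.cos_add_two_pi, Real.cos_add_two_pi, Real.cos_pi]
  have s2 : sin (3 * π * (((10 : ℤ) : ℝ) / 6)) = 0 := by
    rw [e2, Real.sin_add_two_pi, Real.sin_add_two_pi, Real.sin_pi]
  rw [c1, s1, c2, s2]
  ext i
  fin_cases i
  · norm_num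
  · simp only [Fin.mk_one, Fin.isValue, Matrix.cons_val]; ring
  · simp

theorem wv11 : Wv 11 = ![1, (-1) * √3, -1] := by
  unfold Wv ann ρT ζT
  have e1 : 2 * π * (((11 : ℤ) : ℝ) / 6) = (2 * π - π / 3) + 2 * π := by push_cast; ring
  have e2 : 3 * π * (((11 : ℤ) : ℝ) / 6) = (π / 2 + π) + 2 * π + 2 * π := by push_cast; ring
  have c1 : cos (2 * π * (((11 : ℤ) : ℝ) / 6)) = 1 / 2 := by
    rw [e1, Real.cos_add_two_pi, Real.cos_two_pi_sub, Real.cos_pi_div_three] <;> norm_num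
  have s1 : sin (2 * π * (((11 : ℤ) : ℝ) / 6)) = (-1 / 2) * √3 := by
    rw [e1, Real.sin_add_two_pi, Real.sin_two_pi_sub, Real.sin_pi_div_three]; ring
  have c2 : cos (3 * π * (((11 : ℤ) : ℝ) / 6)) = 0 := by
    rw [e2, Real.cos_add_two_pi, Real.cos_add_two_pi, Real.cos_add_pi, Real.cos_pi_div_two] <;> norm_num
  have s2 : sin (3 * π * (((11 : ℤ) : ℝ) / 6)) = -1 := by
    rw [e2, Real.sin_add_two_pi, Real.sin_add_two_pi, Real.sin_add_pi, Real.sin_pi_div_two]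
  rw [c1, s1, c2, s2]
  ext i
  fin_cases i
  · norm_num
  · simp only [Fin.mk_one, Fin.isValue, Matrix.cons_val]; ring
  · simp


end Liss579
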