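import Pool.Agent.Helper579_Lis.Tref3

/-!
The integer polygon is isotopic to the mirror image of the parametrised trefoil.
-/

set_option autoImplicit false

namespace Liss579

open Knot548 Set Real Filter Topology

/-- positive diagonal scalings -/
theorem ambIso_scale {a b c : ℝ} (ha : 0 < a) (hb : 0 < b) (hc : 0 < c) (S : Set R3) :
    AmbIso S ((fun x : R3 => (![a * x 0, b * x 1, c * x 2] : R3)) '' S) := by
  have hpos : ∀ {d : ℝ}, 0 < d → ∀ t : unitInterval, (1 - (t : ℝ)) + t * d ≠ 0 := by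
    intro d hd t
    have h0 : (0 : ℝ) ≤ t := t.2.1
    have h1 : (t : ℝ) ≤ 1 := t.2.2
    rcases h0.lt_or_eq with h | h
    · have := mul_pos h hd; linarith
    · rw [← h]; norm_num
  have key := ambIso_of_family' (X := R3)
    (fun (t : unitInterval) (x : R3) => (![((1 - (t : ℝ)) + t * a) * x 0, ((1 - (t : ℝ)) + t * b) * x 1,
      ((1 - (t : ℝ)) + t * c) * x 2] : R3))
    (fun (t : unitInterval) (x : R3) => (![((1 - (t : ℝ)) + t * a)⁻¹ * x 0, ((1 - (t : ℝ)) + t * b)⁻¹ * x 1,
      ((1 - (t : ℝ)) + t * c)⁻¹ * x 2] : R3)) ?_ ?_ ?_ ?_ ?_ S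
  · have e : (fun x : R3 => (![((1 - ((1 : unitInterval) : ℝ)) + ((1 : unitInterval) : ℝ) * a) * x 0,
        ((1 - ((1 : unitInterval) : ℝ)) + ((1 : unitInterval) : ℝ) * b) * x 1,
        ((1 - ((1 : unitInterval) : ℝ)) + ((1 : unitInterval) : ℝ) * c) * x 2] : R3)) =
        (fun x : R3 => (![a * x 0, b * x 1, c * x 2] : R3)) := by
      funext x
      simp
    rw [← e]
    exact key
  · have c0 : Continuous (fun q : unitInterval × R3 => q.2 0) := (continuous_apply 0).comp continuous_snd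
    have c1 : Continuous (fun q : unitInterval × R3 => q.2 1) := (continuous_apply 1).comp continuous_snd
    have c2 : Continuous (fun q : unitInterval × R3 => q.2 2) := (continuous_apply 2).comp continuous_snd
    have ct : ∀ d : ℝ, Continuous (fun q : unitInterval × R3 => (1 - (q.1 : ℝ)) + q.1 * d) := by
      intro d; fun_prop
    apply continuous_pi
    intro i
    fin_cases i
    · exact (ct a).mul c0
    · exact (ct b).mul c1
    · exact (ct c).mul c2
  · intro t
    apply continuous_pi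
    intro i
    fin_cases i
    · exact continuous_const.mul (continuous_apply 0)
    · exact continuous_const.mul (continuous_apply 1)
    · exact continuous_const.mul (continuous_apply 2)
  · intro t x
    ext i
    fin_cases i
    · exact inv_mul_cancel_left₀ (hpos ha t) _
    · exact inv_mul_cancel_left₀ (hpos hb t) _
    · exact inv_mul_cancel_left₀ (hpos hc t) _
  · intro t x
    ext i
    fin_cases i
    · exact mul_inv_cancel_left₀ (hpos ha t) _
    · exact mul_inv_cancel_left₀ (hpos hb t) _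
    · exact mul_inv_cancel_left₀ (hpos hc t) _
  · intro x
    ext i
    fin_cases i <;> simp

theorem polySet_iUnion {m : ℕ} (p : Fin (m + 1) → R3) :
    polySet (List.ofFn p) = ⋃ k, segment ℝ (p k) (p (k + 1)) := by
  ext x
  rw [mem_polySet_ofFn, mem_iUnion]
  apply exists_congr
  intro k
  rw [segment_eq_image]
  constructor
  · rintro ⟨s, hs, rfl⟩; exact ⟨s, hs, rfl⟩
  · rintro ⟨s, hs, rfl⟩; exact ⟨s, hs, rfl⟩

theorem seg_split (a b m : R3) (h : ∀ i, m i = (a i + b i) / 2) :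
    segment ℝ a b = segment ℝ a m ∪ segment ℝ m b := by
  have hm : m = (1 / 2 : ℝ) • (a + b) := by
    funext i
    simp only [Pi.smul_apply, Pi.add_apply, smul_eq_mul]
    rw [h]; ring
  rw [segment_eq_image', segment_eq_image', segment_eq_image']
  ext x
  constructor
  · rintro ⟨s, hs, rfl⟩
    rcases le_total s (1 / 2) with h1 | h1
    · left
      refine ⟨2 * s, ⟨by linarith [hs.1], by linarith⟩, ?_⟩
      beta_reduce
      rw [hm]
      funext i
      simp only [Pi.smul_apply, Pi.add_apply, Pi.sub_apply, smul_eq_mul]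
      ring
    · right
      refine ⟨2 * s - 1, ⟨by linarith, by linarith [hs.2]⟩, ?_⟩
      beta_reduce
      rw [hm]
      funext i
      simp only [Pi.smul_apply, Pi.add_apply, Pi.sub_apply, smul_eq_mul]
      ring
  · rintro (⟨s, hs, rfl⟩ | ⟨s, hs, rfl⟩)
    · refine ⟨s / 2, ⟨by linarith [hs.1], by linarith [hs.2]⟩, ?_⟩
      beta_reduce
      rw [hm]
      funext i
      simp only [Pi.smul_apply, Pi.add_apply, Pi.sub_apply, smul_eq_mul]
      ring
    · refine ⟨(s + 1) / 2, ⟨by linarith [hs.1], by linarith [hs.2]⟩, ?_⟩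
      beta_reduce
      rw [hm]
      funext i
      simp only [Pi.smul_apply, Pi.add_apply, Pi.sub_apply, smul_eq_mul]
      ring

/-- scaling with a reflection -/
noncomputable def Mm (x : R3) : R3 := ![8 * x 0, -(32 / √3) * x 1, 32 * x 2]

theorem Mm_segment (a b : R3) : Mm '' segment ℝ a b = segment ℝ (Mm a) (Mm b) := by
  rw [segment_eq_image', segment_eq_image', image_image]
  apply image_congr
  intro t _
  unfold Mm
  ext i
  fin_cases i
  · simp; ring
  · simp; ring
  · simp; ring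

theorem Mm_vec (X Y Z : ℝ) : Mm ![X, Y * √3, Z] = ![8 * X, -32 * Y, 32 * Z] := by
  have h3 : √3 ≠ 0 := by positivity
  unfold Mm
  ext i
  fin_cases i
  · simp
  · simp only [Fin.mk_one, Fin.isValue, Matrix.cons_val]
    field_simp
  · simp

theorem rv_vec (a b c : ℤ) : rv ![a, b, c] = ![(a : ℝ), (b : ℝ), (c : ℝ)] := by
  unfold rv
  ext i
  fin_cases i <;> rfl

theorem poly_W : polySet (List.ofFn (fun i => rv (q4 i))) =
    Mm '' (⋃ i : Fin 12, segment ℝ (Wv (i : ℕ)) (Wv ((i : ℕ) + 1))) := by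
  have w0 : Mm (Wv 0) = rv (q4 0) := by
    rw [wv0, Mm_vec]; change _ = rv ![24, 0, 0]; rw [rv_vec]; norm_num
  have w1 : Mm (Wv 1) = rv (q4 1) := by
    rw [wv1, Mm_vec]; change _ = rv ![8, -32, 32]; rw [rv_vec]; norm_num
  have w2 : Mm (Wv 2) = rv (q4 3) := by
    rw [wv2, Mm_vec]; change _ = rv ![-4, -16, 0]; rw [rv_vec]; norm_num
  have w3 : Mm (Wv 3) = rv (q4 4) := by
    rw [wv3, Mm_vec]; change _ = rv ![-16, 0, -32]; rw [rv_vec]; norm_num
  have w4 : Mm (Wv 4) = rv (q4 6) := by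
    rw [wv4, Mm_vec]; change _ = rv ![-12, 48, 0]; rw [rv_vec]; norm_num
  have w5 : Mm (Wv 5) = rv (q4 7) := by
    rw [wv5, Mm_vec]; change _ = rv ![8, 32, 32]; rw [rv_vec]; norm_num
  have w6 : Mm (Wv 6) = rv (q4 8) := by
    rw [wv6, Mm_vec]; change _ = rv ![8, 0, 0]; rw [rv_vec]; norm_num
  have w7 : Mm (Wv 7) = rv (q4 9) := by
    rw [wv7, Mm_vec]; change _ = rv ![8, -32, -32]; rw [rv_vec]; norm_num
  have w8 : Mm (Wv 8) = rv (q4 10) := by
    rw [wv8, Mm_vec]; change _ = rv ![-12, -48, 0]; rw [rv_vec]; norm_num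
  have w9 : Mm (Wv 9) = rv (q4 12) := by
    rw [wv9, Mm_vec]; change _ = rv ![-16, 0, 32]; rw [rv_vec]; norm_num
  have w10 : Mm (Wv 10) = rv (q4 13) := by
    rw [wv10, Mm_vec]; change _ = rv ![-4, 16, 0]; rw [rv_vec]; norm_num
  have w11 : Mm (Wv 11) = rv (q4 15) := by
    rw [wv11, Mm_vec]; change _ = rv ![8, 32, -32]; rw [rv_vec]; norm_num
  have w12 : Mm (Wv 12) = rv (q4 0) := by
    rw [← w0]; congr 1; exact Wv_per 0
  have s1 : segment ℝ (rv (q4 1)) (rv (q4 3)) = segment ℝ (rv (q4 1)) (rv (q4 2)) ∪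
      segment ℝ (rv (q4 2)) (rv (q4 3)) := by
    apply seg_split
    intro i
    change rv ![2, -24, 16] i = (rv ![8, -32, 32] i + rv ![-4, -16, 0] i) / 2
    rw [rv_vec, rv_vec, rv_vec]
    fin_cases i <;> norm_num
  have s2 : segment ℝ (rv (q4 4)) (rv (q4 6)) = segment ℝ (rv (q4 4)) (rv (q4 5)) ∪
      segment ℝ (rv (q4 5)) (rv (q4 6)) := by
    apply seg_split
    intro i
    change rv ![-14, 24, -16] i = (rv ![-16, 0, -32] i + rv ![-12, 48, 0] i) / 2
    rw [rv_vec, rv_vec, rv_vec]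
    fin_cases i <;> norm_num
  have s3 : segment ℝ (rv (q4 10)) (rv (q4 12)) = segment ℝ (rv (q4 10)) (rv (q4 11)) ∪
      segment ℝ (rv (q4 11)) (rv (q4 12)) := by
    apply seg_split
    intro i
    change rv ![-14, -24, 16] i = (rv ![-12, -48, 0] i + rv ![-16, 0, 32] i) / 2
    rw [rv_vec, rv_vec, rv_vec]
    fin_cases i <;> norm_num
  have s4 : segment ℝ (rv (q4 13)) (rv (q4 15)) = segment ℝ (rv (q4 13)) (rv (q4 14)) ∪
      segment ℝ (rv (q4 14)) (rv (q4 15)) := by
    apply seg_split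
    intro i
    change rv ![2, 24, -16] i = (rv ![-4, 16, 0] i + rv ![8, 32, -32] i) / 2
    rw [rv_vec, rv_vec, rv_vec]
    fin_cases i <;> norm_num
  rw [polySet_iUnion, image_iUnion]
  simp only [Mm_segment]
  apply Subset.antisymm
  · apply iUnion_subset
    intro j
    have key : ∀ (i : Fin 12) (S : Set R3), S ⊆ segment ℝ (Mm (Wv (i : ℕ))) (Mm (Wv ((i : ℕ) + 1))) →
        S ⊆ ⋃ i : Fin 12, segment ℝ (Mm (Wv (i : ℕ))) (Mm (Wv ((i : ℕ) + 1))) :=
      fun i S h => h.trans (subset_iUnion (fun i : Fin 12 => segment ℝ (Mm (Wv (i : ℕ))) (Mm (Wv ((i : ℕ) + 1)))) i)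
    fin_cases j
    · apply key 0
      change _ ⊆ segment ℝ (Mm (Wv 0)) (Mm (Wv 1))
      rw [w0, w1]; exact subset_rfl
    · apply key 1
      change _ ⊆ segment ℝ (Mm (Wv 1)) (Mm (Wv 2))
      rw [w1, w2, s1]; exact subset_union_left
    · apply key 1
      change _ ⊆ segment ℝ (Mm (Wv 1)) (Mm (Wv 2))
      rw [w1, w2, s1]; exact subset_union_right
    · apply key 2
      change _ ⊆ segment ℝ (Mm (Wv 2)) (Mm (Wv 3))
      rw [w2, w3]; exact subset_rfl
    · apply key 3
      change _ ⊆ segment ℝ (Mm (Wv 3)) (Mm (Wv 4))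
      rw [w3, w4, s2]; exact subset_union_left
    · apply key 3
      change _ ⊆ segment ℝ (Mm (Wv 3)) (Mm (Wv 4))
      rw [w3, w4, s2]; exact subset_union_right
    · apply key 4
      change _ ⊆ segment ℝ (Mm (Wv 4)) (Mm (Wv 5))
      rw [w4, w5]; exact subset_rfl
    · apply key 5
      change _ ⊆ segment ℝ (Mm (Wv 5)) (Mm (Wv 6))
      rw [w5, w6]; exact subset_rfl
    · apply key 6
      change _ ⊆ segment ℝ (Mm (Wv 6)) (Mm (Wv 7))
      rw [w6, w7]; exact subset_rfl
    · apply key 7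
      change _ ⊆ segment ℝ (Mm (Wv 7)) (Mm (Wv 8))
      rw [w7, w8]; exact subset_rfl
    · apply key 8
      change _ ⊆ segment ℝ (Mm (Wv 8)) (Mm (Wv 9))
      rw [w8, w9, s3]; exact subset_union_left
    · apply key 8
      change _ ⊆ segment ℝ (Mm (Wv 8)) (Mm (Wv 9))
      rw [w8, w9, s3]; exact subset_union_right
    · apply key 9
      change _ ⊆ segment ℝ (Mm (Wv 9)) (Mm (Wv 10))
      rw [w9, w10]; exact subset_rfl
    · apply key 10
      change _ ⊆ segment ℝ (Mm (Wv 10)) (Mm (Wv 11))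
      rw [w10, w11, s4]; exact subset_union_left
    · apply key 10
      change _ ⊆ segment ℝ (Mm (Wv 10)) (Mm (Wv 11))
      rw [w10, w11, s4]; exact subset_union_right
    · apply key 11
      change _ ⊆ segment ℝ (Mm (Wv 11)) (Mm (Wv 12))
      rw [w11, w12]; exact subset_rfl
  · apply iUnion_subset
    intro j
    have key : ∀ (i : Fin 16), segment ℝ (rv (q4 i)) (rv (q4 (i + 1))) ⊆
        ⋃ k : Fin 16, segment ℝ (rv (q4 k)) (rv (q4 (k + 1))) :=
      fun i => subset_iUnion (fun k : Fin 16 => segment ℝ (rv (q4 k)) (rv (q4 (k + 1)))) i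
    fin_cases j
    · change segment ℝ (Mm (Wv 0)) (Mm (Wv 1)) ⊆ _
      rw [w0, w1]; exact key 0
    · change segment ℝ (Mm (Wv 1)) (Mm (Wv 2)) ⊆ _
      rw [w1, w2, s1]; exact union_subset (key 1) (key 2)
    · change segment ℝ (Mm (Wv 2)) (Mm (Wv 3)) ⊆ _
      rw [w2, w3]; exact key 3
    · change segment ℝ (Mm (Wv 3)) (Mm (Wv 4)) ⊆ _
      rw [w3, w4, s2]; exact union_subset (key 4) (key 5)
    · change segment ℝ (Mm (Wv 4)) (Mm (Wv 5)) ⊆ _
      rw [w4, w5]; exact key 6
    · change segment ℝ (Mm (Wv 5)) (Mm (Wv 6)) ⊆ _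
      rw [w5, w6]; exact key 7
    · change segment ℝ (Mm (Wv 6)) (Mm (Wv 7)) ⊆ _
      rw [w6, w7]; exact key 8
    · change segment ℝ (Mm (Wv 7)) (Mm (Wv 8)) ⊆ _
      rw [w7, w8]; exact key 9
    · change segment ℝ (Mm (Wv 8)) (Mm (Wv 9)) ⊆ _
      rw [w8, w9, s3]; exact union_subset (key 10) (key 11)
    · change segment ℝ (Mm (Wv 9)) (Mm (Wv 10)) ⊆ _
      rw [w9, w10]; exact key 12
    · change segment ℝ (Mm (Wv 10)) (Mm (Wv 11)) ⊆ _
      rw [w10, w11, s4]; exact union_subset (key 13) (key 14)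
    · change segment ℝ (Mm (Wv 11)) (Mm (Wv 12)) ⊆ _
      rw [w11, w12]; exact key 15

/-- the trefoil -/
noncomputable def Tset : Set R3 := ann ρT ζT '' Icc (-1) 1

theorem q4_iso : AmbIso (polySet (List.ofFn (fun i => rv (q4 i)))) (refz '' Tset) := by
  have h1 : ∀ S : Set R3, AmbIso (refy '' S) (Mm '' S) := by
    intro S
    have h := ambIso_scale (a := 8) (b := 32 / √3) (c := 32) (by norm_num) (by positivity) (by norm_num)
      (refy '' S)
    rw [image_image] at h
    have e : (fun x : R3 => (![8 * refy x 0, 32 / √3 * refy x 1, 32 * refy x 2] : R3)) = Mm := by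
      funext x
      unfold refy Mm
      ext i
      fin_cases i <;> simp
    rw [e] at h
    exact h
  rw [poly_W, ← ann_poly]
  exact (((h1 _).symm.trans (ambIso_refy tref_iso.symm)).trans (refy_refz_iso _).symm)

end Liss579
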