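import Pool.Agent.Helper579_Lis.Std

/-!
The pieces carrying a trefoil.
-/

set_option autoImplicit false

namespace Liss579

open Knot548 Set Real Filter Topology

/-- expansion on a set -/
def ExpOn (c : ℝ) (f : ℝ → ℝ) (s : Set ℝ) : Prop :=
  ∀ x ∈ s, ∀ y ∈ s, x ≤ y → c * (y - x) ≤ f y - f x

theorem ExpOn.union {c : ℝ} {f : ℝ → ℝ} {a b d : ℝ} (hab : a ≤ b) (hbd : b ≤ d)
    (h1 : ExpOn c f (Icc a b)) (h2 : ExpOn c f (Icc b d)) : ExpOn c f (Icc a d) := by
  intro x hx y hy hxy
  rcases le_total y b with h3 | h3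
  · exact h1 x ⟨hx.1, hxy.trans h3⟩ y ⟨hy.1, h3⟩ hxy
  rcases le_total b x with h4 | h4
  · exact h2 x ⟨h4, hx.2⟩ y ⟨h3, hy.2⟩ hxy
  · have e1 := h1 x ⟨hx.1, h4⟩ b ⟨hab, le_rfl⟩ h4
    have e2 := h2 b ⟨le_rfl, hbd⟩ y ⟨h3, hy.2⟩ h3
    nlinarith

theorem ExpOn.mono {c c' : ℝ} {f : ℝ → ℝ} {s : Set ℝ} (hc : c' ≤ c) (h : ExpOn c f s) :
    ExpOn c' f s := by
  intro x hx y hy hxy
  have e := h x hx y hy hxy
  have : c' * (y - x) ≤ c * (y - x) := mul_le_mul_of_nonneg_right hc (by linarith)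
  linarith

theorem expOn_affine {f : ℝ → ℝ} {a b m n : ℝ} (h : ∀ x ∈ Icc a b, f x = m * x + n) :
    ExpOn m f (Icc a b) := by
  intro x hx y hy _
  rw [h x hx, h y hy]
  linarith

/-- continuous maps sending a horizontal segment to a segment -/
theorem map_segment (ξ : ℝ → ℝ) (κ c : ℝ) {a b : R3} (h : a 0 = b 0) :
    (fun x : R3 => (![ξ (κ * x 0), κ * x 1, x 2 + c] : R3)) '' segment ℝ a b =
      segment ℝ (![ξ (κ * a 0), κ * a 1, a 2 + c] : R3) (![ξ (κ * b 0), κ * b 1, b 2 + c] : R3) := by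
  rw [segment_eq_image', segment_eq_image', image_image]
  apply image_congr
  intro t _
  ext i
  fin_cases i
  · simp [h]
  · simp; ring
  · simp; ring

/-- the normalising map is isotopic to the identity -/
theorem ambIso_norm (ξ : ℝ ≃o ℝ) (κ c : ℝ) (hκ : κ = 1 ∨ κ = -1) (S : Set R3) :
    AmbIso S ((fun x : R3 => (![ξ (κ * x 0), κ * x 1, x 2 + c] : R3)) '' S) := by
  rcases hκ with rfl | rfl
  · have h1 := (ambIso_mono ξ S).trans (ambIso_shift c _)
    rw [image_image] at h1
    have e : (fun x : R3 => (![(![ξ (x 0), x 1, x 2] : R3) 0, (![ξ (x 0), x 1, x 2] : R3) 1,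
        (![ξ (x 0), x 1, x 2] : R3) 2 + c] : R3)) =
        (fun x : R3 => (![ξ (1 * x 0), 1 * x 1, x 2 + c] : R3)) := by
      funext x
      ext i
      fin_cases i <;> simp
    rw [← e]
    exact h1
  · have h1 := ((ambIso_rotz S).trans (ambIso_mono ξ _)).trans (ambIso_shift c _)
    rw [image_image, image_image] at h1
    have e : (fun x : R3 => (![(![ξ ((![-x 0, -x 1, x 2] : R3) 0), (![-x 0, -x 1, x 2] : R3) 1,
        (![-x 0, -x 1, x 2] : R3) 2] : R3) 0,
        (![ξ ((![-x 0, -x 1, x 2] : R3) 0), (![-x 0, -x 1, x 2] : R3) 1,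
        (![-x 0, -x 1, x 2] : R3) 2] : R3) 1,
        (![ξ ((![-x 0, -x 1, x 2] : R3) 0), (![-x 0, -x 1, x 2] : R3) 1,
        (![-x 0, -x 1, x 2] : R3) 2] : R3) 2 + c] : R3)) =
        (fun x : R3 => (![ξ (-1 * x 0), -1 * x 1, x 2 + c] : R3)) := by
      funext x
      ext i
      fin_cases i <;> simp
    rw [← e]
    exact h1

namespace Par

variable (A : Par)

theorem rho_exp : ∃ c : ℝ, 0 < c ∧ ExpOn c A.rho (Icc (-A.w) A.w) := by
  have h0 := A.w0_pos; have h1 := A.w0_lt; have h2 := A.w_gt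
  have b1 : 0 < A.δ - A.w0 := by linarith
  have b2 : 0 < A.w - A.δ := by linarith
  let c : ℝ := min (1 / (4 * A.w0)) (min (1 / (2 * (A.δ - A.w0))) (1 / (4 * (A.w - A.δ))))
  have c1 : c ≤ 1 / (4 * A.w0) := min_le_left _ _
  have c2 : c ≤ 1 / (2 * (A.δ - A.w0)) := (min_le_right _ _).trans (min_le_left _ _)
  have c3 : c ≤ 1 / (4 * (A.w - A.δ)) := (min_le_right _ _).trans (min_le_right _ _)
  have e1 : ExpOn c A.rho (Icc 0 A.w0) := by
    apply ExpOn.mono c1
    apply expOn_affine (n := 0)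
    intro x hx
    rw [A.rho_lin hx.1 hx.2]
    ring
  have e2 : ExpOn c A.rho (Icc A.w0 A.δ) := by
    apply ExpOn.mono c2
    apply expOn_affine (n := 1 / 4 - A.w0 / (2 * (A.δ - A.w0)))
    intro x hx
    rw [A.rho_nonneg (by linarith [hx.1])]
    unfold rhoP
    rw [ramp_right h0 hx.1, ramp_mid h1 hx, ramp_left h2 hx.2, max_eq_left (by linarith [hx.2])]
    field_simp
    ring
  have e3 : ExpOn c A.rho (Icc A.δ A.w) := by
    apply ExpOn.mono c3
    apply expOn_affine (n := 3 / 4 - A.δ / (4 * (A.w - A.δ)))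
    intro x hx
    rw [A.rho_nonneg (by linarith [hx.1])]
    unfold rhoP
    rw [ramp_right h0 (by linarith [hx.1]), ramp_right h1 hx.1, ramp_mid h2 hx,
      max_eq_left (by linarith [hx.2])]
    field_simp
    ring
  have e4 : ExpOn c A.rho (Icc 0 A.w) :=
    (e1.union h0.le h1.le e2).union (by linarith) h2.le e3
  have e5 : ExpOn c A.rho (Icc (-A.w) 0) := by
    intro x hx y hy hxy
    have := e4 (-y) ⟨by linarith [hy.2], by linarith [hy.1]⟩ (-x) ⟨by linarith [hx.2], by linarith [hx.1]⟩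
      (by linarith)
    rw [A.rho_neg, A.rho_neg] at this
    linarith
  refine ⟨c, ?_, e5.union (by linarith) (by linarith) e4⟩
  simp only [c]
  apply lt_min (by positivity)
  apply lt_min <;> positivity

/-- the parameters of the window `k` -/
theorem window_plat {k : ℕ} (hk0 : k ≠ 0) (hk : k < A.p) (ht : A.tref k) :
    ∃ (R : ℝ ≃o ℝ) (y : Bool → ℝ → ℝ),
      (∀ u ∈ Icc (-A.w) A.w, R u = A.rho u) ∧
      (∀ b v, y b v = (-1) ^ (k + 1) * A.Y (if b then k / A.p + R.symm v else -(k / A.p + R.symm v))) ∧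
      AmbIso (A.pc (k / A.p - A.w) (k / A.p + A.w)) (plat y zst) := by
  have hp := A.p0
  have hw := A.w_pos
  have hwp := A.w_lt_p
  obtain ⟨R, hR⟩ := exists_ext A.rho A.rho_lip.continuous (by linarith : -A.w ≤ A.w)
    (A.rho_strict.strictMonoOn _)
  have hφm : StrictMonoOn (fun s => -cos (π * (A.p * s))) (Icc 0 A.w) := by
    intro x hx y hy hxy
    have hpw : A.p * A.w < 1 := by
      have : A.p * (2 * A.w) < A.p * (1 / A.p) := mul_lt_mul_of_pos_left hwp hp
      rw [mul_one_div, div_self hp.ne'] at this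
      linarith [mul_pos hp hw]
    have := Real.strictAntiOn_cos (a := π * (A.p * x)) (b := π * (A.p * y)) ⟨by
        have := hx.1; positivity, by
        have : A.p * x ≤ A.p * A.w := mul_le_mul_of_nonneg_left hx.2 hp.le
        nlinarith [Real.pi_pos]⟩ ⟨by
        have := hy.1; positivity, by
        have : A.p * y ≤ A.p * A.w := mul_le_mul_of_nonneg_left hy.2 hp.le
        nlinarith [Real.pi_pos]⟩ (by
        apply mul_lt_mul_of_pos_left _ Real.pi_pos
        exact mul_lt_mul_of_pos_left hxy hp)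
    simp only
    linarith
  obtain ⟨Φ, hΦ⟩ := exists_ext (fun s => -cos (π * (A.p * s))) (by fun_prop) hw.le hφm
  let Ξ : ℝ ≃o ℝ := Φ.symm.trans R
  let κ : ℝ := (-1) ^ (k + 1)
  have hκ : κ = 1 ∨ κ = -1 := neg_one_pow_eq_or ℝ (k + 1)
  let y : Bool → ℝ → ℝ := fun b v => κ * A.Y (if b then k / A.p + R.symm v else -(k / A.p + R.symm v))
  refine ⟨R, y, hR, fun b v => rfl, ?_⟩
  have hX : ∀ u ∈ Icc (-A.w) A.w, Ξ (κ * A.X (k / A.p + u)) = |A.rho u| := by
    intro u hu
    have h1 : κ * A.X (k / A.p + u) = -cos (π * (A.p * |u|)) := by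
      unfold X
      have e : π * (A.p * (k / A.p + u)) = π * (A.p * u) + k * π := by field_simp; ring
      rw [e, Real.cos_add_nat_mul_pi]
      have e2 : cos (π * (A.p * u)) = cos (π * (A.p * |u|)) := by
        rcases abs_choice u with h | h
        · rw [h]
        · rw [h, ← Real.cos_neg]; congr 1; ring
      rw [e2]
      simp only [κ]
      have e3 : ((-1 : ℝ) ^ (k + 1)) * ((-1) ^ k * cos (π * (A.p * |u|))) =
          ((-1) ^ k * (-1) ^ k) * (-cos (π * (A.p * |u|))) := by ring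
      rw [e3, ← mul_pow]
      norm_num
    have hau : |u| ∈ Icc 0 A.w := ⟨abs_nonneg _, abs_le.mpr hu⟩
    have h2 : Φ.symm (-cos (π * (A.p * |u|))) = |u| := by
      have := hΦ |u| hau
      rw [← this, OrderIso.symm_apply_apply]
    have h3 : A.rho |u| = |A.rho u| := by
      rcases le_total 0 u with h | h
      · rw [abs_of_nonneg h, abs_of_nonneg]
        rw [← A.rho_zero]; exact A.rho_strict.monotone h
      · rw [abs_of_nonpos h, A.rho_neg, abs_of_nonpos]
        rw [← A.rho_zero]; exact A.rho_strict.monotone h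
    rw [h1]
    change R (Φ.symm _) = _
    rw [h2, hR |u| ⟨by linarith [hau.1], hau.2⟩, h3]
  -- the normalising map
  let m : R3 → R3 := fun x => ![Ξ (κ * x 0), κ * x 1, x 2 + (-(5 * k))]
  have hm : ∀ b, ∀ u ∈ Icc (-A.w) A.w, m (A.st b (k / A.p + u)) = sp (y b) (zst b) (A.rho u) := by
    intro b u hu
    have hRs : R.symm (A.rho u) = u := by
      rw [← hR u hu, OrderIso.symm_apply_apply]
    have e : (k : ℝ) / A.p + u - k / A.p = u := by ring
    have e2 := A.ζ_tref hk0 hk ht b (H := k / A.p + u) (by rw [e, abs_le]; exact hu)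
    rw [e] at e2
    simp only [m, y]
    unfold st sp
    ext i
    fin_cases i
    · exact hX u hu
    · simp only [Fin.mk_one, Fin.isValue, Matrix.cons_val, hRs]
    · simp only [Fin.reduceFinMk, Fin.isValue, Matrix.cons_val]
      rw [e2]; ring
  have himg : ∀ b, m '' (A.st b '' Icc (k / A.p - A.w) (k / A.p + A.w)) =
      sp (y b) (zst b) '' Icc (-1) 1 := by
    intro b
    rw [image_image]
    ext x
    constructor
    · rintro ⟨H, hH, rfl⟩
      have hu : H - k / A.p ∈ Icc (-A.w) A.w := ⟨by linarith [hH.1], by linarith [hH.2]⟩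
      refine ⟨A.rho (H - k / A.p), A.rho_mem (abs_le.mpr hu), ?_⟩
      rw [← hm b _ hu, add_sub_cancel]
    · rintro ⟨v, hv, rfl⟩
      obtain ⟨u, hu, rfl⟩ := A.exists_rho hv
      exact ⟨k / A.p + u, ⟨by linarith [hu.1], by linarith [hu.2]⟩, hm b u hu⟩
  have hmw : ∀ b, m (A.st b (k / A.p + A.w)) = sp (y b) (zst b) 1 := by
    intro b
    rw [hm b A.w ⟨by linarith, le_rfl⟩, A.rho_w]
  have hmw' : ∀ b, m (A.st b (k / A.p - A.w)) = sp (y b) (zst b) (-1) := by
    intro b
    have := hm b (-A.w) ⟨le_rfl, by linarith⟩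
    rw [A.rho_neg, A.rho_w] at this
    rw [← this]
    rfl
  have hseg : ∀ H, m '' segment ℝ (A.st true H) (A.st false H) =
      segment ℝ (m (A.st true H)) (m (A.st false H)) := by
    intro H
    exact map_segment Ξ κ _ (by simp [st])
  have key := ambIso_norm Ξ κ (-(5 * k)) hκ (A.pc (k / A.p - A.w) (k / A.p + A.w))
  change AmbIso _ (m '' A.pc (k / A.p - A.w) (k / A.p + A.w)) at key
  have hfin : m '' A.pc (k / A.p - A.w) (k / A.p + A.w) = plat y zst := by
    unfold pc plat
    rw [image_union, image_union, image_union, himg, himg, hseg, hseg, hmw, hmw, hmw', hmw',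
      union_comm (segment ℝ (sp (y true) (zst true) (-1)) _)]
  rwa [hfin] at key

theorem sinq_pos : 0 < sin (π * (A.q * A.δ)) := by
  have hq := A.q0
  have hδ := A.δ_pos
  have h1 := A.δ_lt_q
  apply sin_pos' (by positivity)
  have : A.q * A.δ < A.q * (1 / (2 * A.q)) := mul_lt_mul_of_pos_left h1 hq
  rw [show (A.q : ℝ) * (1 / (2 * A.q)) = 1 / 2 by field_simp] at this
  linarith

/-- identification of the pieces -/
theorem window_iso {k : ℕ} (hk0 : k ≠ 0) (hk : k < A.p) (j : ℤ)
    (hj : |(k : ℤ) * A.q - j * A.p| ≤ A.r) (hne : (k : ℤ) * A.q - j * A.p ≠ 0) :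
    ((0 < (k : ℤ) * A.q - j * A.p ↔ Even (k + j)) →
      AmbIso (A.pc (k / A.p - A.w) (k / A.p + A.w)) (plat yst zst)) ∧
    ((0 < (k : ℤ) * A.q - j * A.p ↔ ¬ Even (k + j)) →
      AmbIso (A.pc (k / A.p - A.w) (k / A.p + A.w)) (refz '' plat yst zst)) := by
  have hp := A.p0
  have hq := A.q0
  have hw := A.w_pos
  have hδ := A.δ_pos
  have hwδ := A.w_gt
  have hw0δ := A.w0_lt
  have ht : A.tref k := ⟨j, hj⟩
  obtain ⟨R, y, hR, hy, hiso⟩ := A.window_plat hk0 hk ht
  set θ : ℝ := ((k : ℝ) * A.q - j * A.p) / A.p with hθ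
  have hkq : (A.q : ℝ) * (k / A.p) = j + θ := by rw [hθ]; field_simp; ring
  have hRu : ∀ v ∈ Icc (-1 : ℝ) 1, R.symm v ∈ Icc (-A.w) A.w ∧ A.rho (R.symm v) = v := by
    intro v hv
    obtain ⟨u, hu, rfl⟩ := A.exists_rho hv
    rw [← hR u hu, OrderIso.symm_apply_apply]
    exact ⟨hu, (hR u hu).symm⟩
  have hRneg : ∀ v ∈ Icc (-1 : ℝ) 1, R.symm (-v) = -R.symm v := by
    intro v hv
    obtain ⟨hu, hru⟩ := hRu v hv
    have hu' : -R.symm v ∈ Icc (-A.w) A.w := ⟨by linarith [hu.2], by linarith [hu.1]⟩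
    rw [OrderIso.symm_apply_eq, hR _ hu', A.rho_neg, hru]
  -- bounds on `θ`
  have hr1 : |θ| ≤ A.r / A.p := by
    rw [hθ, abs_div, abs_of_pos hp]
    gcongr
    have : ((|(k : ℤ) * A.q - j * A.p| : ℤ) : ℝ) ≤ A.r := by exact_mod_cast hj
    push_cast at this
    exact this
  have hθq : |θ| < A.q * A.w0 := by
    have := A.w0_gt
    have h2 : (A.r : ℝ) / A.p = A.q * (A.r / (A.p * A.q)) := by field_simp
    rw [h2] at hr1
    exact hr1.trans_lt (mul_lt_mul_of_pos_left this hq)
  have hqw : A.q * (2 * A.w) < 1 := by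
    have := mul_lt_mul_of_pos_left A.w_lt_q hq
    rw [mul_one_div, div_self hq.ne'] at this
    exact this
  have hθ0 : θ ≠ 0 := by
    rw [hθ]
    apply div_ne_zero _ hp.ne'
    exact_mod_cast hne
  have hθabs := abs_lt.mp hθq
  -- continuity and Lipschitz bounds
  have hRc : Continuous R.symm := R.symm.continuous
  have hYc : Continuous A.Y := A.Y_lip.continuous
  have hyc : ∀ b, Continuous (y b) := by
    intro b
    have : y b = fun v => (-1) ^ (k + 1) * A.Y (if b then k / A.p + R.symm v else -(k / A.p + R.symm v)) := by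
      funext v; exact hy b v
    rw [this]
    cases b
    · simp only [Bool.false_eq_true, if_false]
      exact continuous_const.mul (hYc.comp (continuous_const.add hRc).neg)
    · simp only [if_true]
      exact continuous_const.mul (hYc.comp (continuous_const.add hRc))
  obtain ⟨c, hc, hexp⟩ := A.rho_exp
  have hRlip : ∀ s ∈ Icc (-1 : ℝ) 1, ∀ t ∈ Icc (-1 : ℝ) 1, |R.symm s - R.symm t| ≤ c⁻¹ * |s - t| := by
    intro s hs t ht
    obtain ⟨hu, hru⟩ := hRu s hs
    obtain ⟨hu', hru'⟩ := hRu t ht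
    rcases le_total (R.symm s) (R.symm t) with h | h
    · have e := hexp _ hu _ hu' h
      rw [hru, hru'] at e
      have hst : s ≤ t := by
        have : 0 ≤ c * (R.symm t - R.symm s) := mul_nonneg hc.le (by linarith)
        linarith
      rw [abs_sub_comm, abs_of_nonneg (by linarith), abs_sub_comm, abs_of_nonneg (by linarith),
        ← div_eq_inv_mul, le_div_iff₀ hc]
      linarith
    · have e := hexp _ hu' _ hu h
      rw [hru, hru'] at e
      have hst : t ≤ s := by
        have : 0 ≤ c * (R.symm s - R.symm t) := mul_nonneg hc.le (by linarith)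
        linarith
      rw [abs_of_nonneg (by linarith), abs_of_nonneg (by linarith), ← div_eq_inv_mul, le_div_iff₀ hc]
      linarith
  obtain ⟨LY, hLY0, hLY⟩ := A.Y_lip
  have hylip : ∀ b, ∀ s ∈ Icc (-1 : ℝ) 1, ∀ t ∈ Icc (-1 : ℝ) 1, |y b s - y b t| ≤ LY * c⁻¹ * |s - t| := by
    intro b s hs t ht
    rw [hy, hy, ← mul_sub, abs_mul, abs_pow, abs_neg, abs_one, one_pow, one_mul]
    have h1 := hRlip s hs t ht
    have h2 : LY * |R.symm s - R.symm t| ≤ LY * (c⁻¹ * |s - t|) := mul_le_mul_of_nonneg_left h1 hLY0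
    cases b
    · simp only [Bool.false_eq_true, if_false]
      have := hLY (-(k / A.p + R.symm s)) (-(k / A.p + R.symm t))
      have e : |-(k / A.p + R.symm s) - -(k / A.p + R.symm t)| = |R.symm s - R.symm t| := by
        rw [← abs_neg]; congr 1; ring
      rw [e] at this
      linarith
    · simp only [if_true]
      have := hLY (k / A.p + R.symm s) (k / A.p + R.symm t)
      have e : |k / A.p + R.symm s - (k / A.p + R.symm t)| = |R.symm s - R.symm t| := by
        congr 1; ring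
      rw [e] at this
      linarith
  -- the sign `ε`
  let ε : ℝ := if Even (k + j) then 1 else -1
  have hε : ε = 1 ∨ ε = -1 := by simp only [ε]; split_ifs <;> simp
  have hεj : (-1 : ℝ) ^ k * (-1 : ℝ) ^ j = ε := by
    have h1 : (-1 : ℝ) ^ k * (-1 : ℝ) ^ j = (-1 : ℝ) ^ ((k : ℤ) + j) := by
      rw [zpow_add₀ (by norm_num), zpow_natCast]
    rw [h1]
    simp only [ε]
    split_ifs with h
    · exact Even.neg_one_zpow h
    · exact Odd.neg_one_zpow (Int.not_even_iff_odd.mp h)
  have hsj : ∀ x : ℝ, sin (π * (j + x)) = (-1 : ℝ) ^ j * sin (π * x) := by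
    intro x
    have : π * (j + x) = π * x + j * π := by ring
    rw [this, Real.sin_add_int_mul_pi]
  have hκε : (-1 : ℝ) ^ (k + 1) * (-1 : ℝ) ^ j = -ε := by
    rw [pow_succ, ← hεj]; ring
  have hDv : ∀ v ∈ Icc (-1 : ℝ) 1, y true v - y false v =
      2 * ε * (sin (π * (A.q * A.δ)) * sin (π * (θ + A.q * R.symm v))) := by
    intro v _
    rw [hy, hy]
    simp only [if_true, Bool.false_eq_true, if_false]
    unfold Y
    rw [← mul_sub, Real.cos_sub_cos]
    have e1 : (π * (A.q * (k / A.p + R.symm v + A.δ)) + π * (A.q * (-(k / A.p + R.symm v) + A.δ))) / 2 =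
        π * (A.q * A.δ) := by ring
    have e2 : (π * (A.q * (k / A.p + R.symm v + A.δ)) - π * (A.q * (-(k / A.p + R.symm v) + A.δ))) / 2 =
        π * (j + (θ + A.q * R.symm v)) := by
      have : π * (j + (θ + A.q * R.symm v)) = π * ((j + θ) + A.q * R.symm v) := by ring
      rw [this, ← hkq]; ring
    rw [e1, e2, hsj]
    linear_combination (-2 * sin (π * (A.q * A.δ)) * sin (π * (θ + A.q * R.symm v))) * hκε
  have hEv : ∀ v ∈ Icc (-1 : ℝ) 1, y true v - y false (-v) =
      2 * ε * (sin (π * θ) * sin (π * (A.q * (R.symm v + A.δ)))) := by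
    intro v hv
    rw [hy, hy, hRneg v hv]
    simp only [if_true, Bool.false_eq_true, if_false]
    unfold Y
    rw [← mul_sub, Real.cos_sub_cos]
    have e1 : (π * (A.q * (k / A.p + R.symm v + A.δ)) + π * (A.q * (-(k / A.p + -R.symm v) + A.δ))) / 2 =
        π * (A.q * (R.symm v + A.δ)) := by ring
    have e2 : (π * (A.q * (k / A.p + R.symm v + A.δ)) - π * (A.q * (-(k / A.p + -R.symm v) + A.δ))) / 2 =
        π * (j + θ) := by
      rw [← hkq]; ring
    rw [e1, e2, hsj]
    linear_combination (-2 * sin (π * θ) * sin (π * (A.q * (R.symm v + A.δ)))) * hκε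
  have hεε : ε * ε = 1 := by rcases hε with h | h <;> rw [h] <;> norm_num
  let τθ : ℝ := if 0 < θ then 1 else -1
  have hττ : τθ * τθ = 1 := by simp only [τθ]; split_ifs <;> norm_num
  have hτsin : 0 < τθ * sin (π * θ) := by
    simp only [τθ]
    have hb : A.q * A.w0 < 1 := by nlinarith
    split_ifs with h
    · rw [one_mul]; exact sin_pos' h (by linarith)
    · have h' : θ < 0 := lt_of_le_of_ne (not_lt.mp h) hθ0
      have := sin_neg' h' (by linarith)
      linarith
  have hD : ∀ v ∈ Icc (-1 : ℝ) 1, 1 / 2 ≤ |v| → 0 < ε * (v * (y true v - y false v)) := by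
    intro v hv h
    rw [hDv v hv]
    have e : ε * (v * (2 * ε * (sin (π * (A.q * A.δ)) * sin (π * (θ + A.q * R.symm v))))) =
        (ε * ε) * (2 * sin (π * (A.q * A.δ))) * (v * sin (π * (θ + A.q * R.symm v))) := by ring
    rw [e, hεε, one_mul]
    apply mul_pos (by have := A.sinq_pos; linarith)
    obtain ⟨hu, hru⟩ := hRu v hv
    rcases le_total 0 v with h1 | h1
    · rw [abs_of_nonneg h1] at h
      have h2 : A.w0 < R.symm v := by
        rw [← A.rho_strict.lt_iff_lt, hru, A.rho_w0]; linarith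
      have h3 : A.q * A.w0 < A.q * R.symm v := mul_lt_mul_of_pos_left h2 hq
      have h4 : A.q * R.symm v ≤ A.q * A.w := mul_le_mul_of_nonneg_left hu.2 hq.le
      have h5 : A.q * A.w0 ≤ A.q * A.w := mul_le_mul_of_nonneg_left (by linarith) hq.le
      exact mul_pos (by linarith) (sin_pos' (by linarith) (by linarith))
    · rw [abs_of_nonpos h1] at h
      have h2 : R.symm v < -A.w0 := by
        rw [← A.rho_strict.lt_iff_lt, hru, A.rho_neg, A.rho_w0]; linarith
      have h3 : A.q * R.symm v < A.q * -A.w0 := mul_lt_mul_of_pos_left h2 hq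
      have h4 : A.q * -A.w ≤ A.q * R.symm v := mul_le_mul_of_nonneg_left hu.1 hq.le
      have h5 : A.q * A.w0 ≤ A.q * A.w := mul_le_mul_of_nonneg_left (by linarith) hq.le
      exact mul_pos_of_neg_of_neg (by linarith) (sin_neg' (by linarith) (by linarith))
  have hE : ∀ v ∈ Icc (-1 : ℝ) 1, v ≠ -(3 / 4) →
      0 < (τθ * ε) * ((v + 3 / 4) * (y true v - y false (-v))) := by
    intro v hv h
    rw [hEv v hv]
    have e : (τθ * ε) * ((v + 3 / 4) * (2 * ε * (sin (π * θ) * sin (π * (A.q * (R.symm v + A.δ)))))) =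
        (ε * ε) * (2 * (τθ * sin (π * θ))) * ((v + 3 / 4) * sin (π * (A.q * (R.symm v + A.δ)))) := by ring
    rw [e, hεε, one_mul]
    apply mul_pos (by linarith)
    obtain ⟨hu, hru⟩ := hRu v hv
    rcases lt_or_gt_of_ne h with h1 | h1
    · have h2 : R.symm v < -A.δ := by
        rw [← A.rho_strict.lt_iff_lt, hru, A.rho_neg, A.rho_δ]; linarith
      have h3 : A.q * (R.symm v + A.δ) < 0 := mul_neg_of_pos_of_neg hq (by linarith)
      have h4 : A.q * (-(2 * A.w)) ≤ A.q * (R.symm v + A.δ) :=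
        mul_le_mul_of_nonneg_left (by linarith [hu.1]) hq.le
      exact mul_pos_of_neg_of_neg (by linarith) (sin_neg' h3 (by linarith))
    · have h2 : -A.δ < R.symm v := by
        rw [← A.rho_strict.lt_iff_lt, hru, A.rho_neg, A.rho_δ]; linarith
      have h3 : 0 < A.q * (R.symm v + A.δ) := mul_pos hq (by linarith)
      have h4 : A.q * (R.symm v + A.δ) ≤ A.q * (2 * A.w) :=
        mul_le_mul_of_nonneg_left (by linarith [hu.2]) hq.le
      exact mul_pos (by linarith) (sin_pos' h3 (by linarith))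
  obtain ⟨g1, g2⟩ := plat_signs y hyc _ hylip ε τθ hε hD hE
  have hθpos : 0 < θ ↔ 0 < (k : ℤ) * A.q - j * A.p := by
    rw [hθ, div_pos_iff_of_pos_right hp]
    have : (((k : ℤ) * A.q - j * A.p : ℤ) : ℝ) = (k : ℝ) * A.q - j * A.p := by push_cast; ring
    rw [← this]
    exact Int.cast_pos
  refine ⟨fun h => hiso.trans (g1 ?_), fun h => hiso.trans (g2 ?_)⟩
  · simp only [τθ, ε]
    by_cases he : Even (k + j)
    · rw [if_pos he, if_pos (hθpos.mpr (h.mpr he))]; norm_num
    · rw [if_neg he, if_neg (fun h2 => he (h.mp (hθpos.mp h2)))]; norm_num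
  · simp only [τθ, ε]
    by_cases he : Even (k + j)
    · rw [if_pos he, if_neg (fun h2 => (h.mp (hθpos.mp h2)) he)]; norm_num
    · rw [if_neg he, if_pos (hθpos.mpr (h.mpr he))]; norm_num

end Par

end Liss579
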